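import Mathlib
import Pool.Agent.Lib.MP_898b37_mp.GS.Calc
import Pool.Agent.Lib.MP_898b37_mp.GS.CalcB
import Pool.Agent.Lib.MP_898b37_mp.GS.Dat
import Pool.Agent.Lib.MP_898b37_mp.GS.CalcA

section

open Real Set
open scoped ContDiff

namespace GS

/-- TASK CaA. Every causal curve crosses the hypersurface exactly once. Let `T` be smooth on `[-1, 1]` with
values in `(0, π)`, and let `τ(θ) = T(cos θ)` have slopes `m(θ)` with `|m| < 1` on `(0, π)`. If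
`ϑ : (0, π) → [0, π]` is 1-Lipschitz, then `t = T(cos ϑ(t))` for exactly one `t ∈ (0, π)`.

Proof. `τ` is continuous on `[0, π]`, so `|τ(x) - τ(y)| < |x - y|` for `x ≠ y` in `[0, π]` (mean value
theorem on the open interval between them). `g(t) = t - τ(ϑ(t))` is continuous on `(0, π)` and strictly
increasing: for `s < t` either `ϑ(s) = ϑ(t)` and `g(t) - g(s) = t - s`, or
`|τ(ϑ(t)) - τ(ϑ(s))| < |ϑ(t) - ϑ(s)| ≤ t - s`. Let `m₀ = min τ > 0` and `M₀ = max τ < π` on `[0, π]`; for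
`t < m₀`, `g(t) < 0`, for `t > M₀`, `g(t) > 0`. Intermediate value theorem. -/
theorem cross_once {T m : ℝ → ℝ} (hT : ContDiffOn ℝ ∞ T (Icc (-1) 1))
    (hr : ∀ ζ ∈ Icc (-1 : ℝ) 1, T ζ ∈ Ioo 0 π)
    (hm : ∀ θ ∈ Ioo 0 π, HasDerivAt (fun s => T (cos s)) (m θ) θ ∧ |m θ| < 1)
    {ϑ : ℝ → ℝ} (h1 : ∀ s ∈ Ioo 0 π, ϑ s ∈ Icc 0 π)
    (h2 : ∀ s ∈ Ioo 0 π, ∀ t ∈ Ioo 0 π, |ϑ s - ϑ t| ≤ |s - t|) :
    ∃! t, t ∈ Ioo 0 π ∧ t = T (cos (ϑ t)) := by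
  have hcos : MapsTo cos (Icc 0 π) (Icc (-1) 1) := fun x _ => ⟨neg_one_le_cos x, cos_le_one x⟩
  have hτc : ContinuousOn (fun s => T (cos s)) (Icc 0 π) :=
    hT.continuousOn.comp continuous_cos.continuousOn hcos
  have hmv : ∀ x ∈ Icc 0 π, ∀ y ∈ Icc 0 π, x < y → |T (cos y) - T (cos x)| < y - x := by
    intro x hx y hy hxy
    obtain ⟨c, hc, hc'⟩ := exists_hasDerivAt_eq_slope (fun s => T (cos s)) m hxy
      (hτc.mono (Icc_subset_Icc hx.1 hy.2))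
      (fun z hz => (hm z ⟨lt_of_le_of_lt hx.1 hz.1, lt_of_lt_of_le hz.2 hy.2⟩).1)
    have h3 := (hm c ⟨lt_of_le_of_lt hx.1 hc.1, lt_of_lt_of_le hc.2 hy.2⟩).2
    have h4 : 0 < y - x := sub_pos.2 hxy
    rw [hc', abs_div, abs_of_pos h4, div_lt_one h4] at h3
    exact h3
  have hmv' : ∀ x ∈ Icc 0 π, ∀ y ∈ Icc 0 π, x ≠ y → |T (cos y) - T (cos x)| < |y - x| := by
    intro x hx y hy hxy
    rcases lt_or_gt_of_ne hxy with h | h
    · rw [abs_of_pos (sub_pos.2 h)]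
      exact hmv x hx y hy h
    · rw [abs_sub_comm, abs_sub_comm y x, abs_of_pos (sub_pos.2 h)]
      exact hmv y hy x hx h
  have hmono : ∀ s ∈ Ioo 0 π, ∀ t ∈ Ioo 0 π, s < t →
      s - T (cos (ϑ s)) < t - T (cos (ϑ t)) := by
    intro s hs t ht hst
    by_cases h : ϑ s = ϑ t
    · rw [h]
      linarith
    · have h3 := hmv' _ (h1 s hs) _ (h1 t ht) h
      have h4 := h2 t ht s hs
      rw [abs_of_pos (sub_pos.2 hst)] at h4
      have h5 := le_abs_self (T (cos (ϑ t)) - T (cos (ϑ s)))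
      linarith
  have hϑc : ContinuousOn ϑ (Ioo 0 π) := by
    rw [Metric.continuousOn_iff]
    intro s hs ε hε
    refine ⟨ε, hε, fun t ht htε => ?_⟩
    rw [Real.dist_eq] at htε ⊢
    exact lt_of_le_of_lt (h2 t ht s hs) htε
  have hne : (Icc (0:ℝ) π).Nonempty := ⟨0, left_mem_Icc.2 pi_pos.le⟩
  obtain ⟨x0, hx0, hmin⟩ := isCompact_Icc.exists_isMinOn hne hτc
  obtain ⟨x1, hx1, hmax⟩ := isCompact_Icc.exists_isMaxOn hne hτc
  have hm0 := hr (cos x0) (hcos hx0)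
  have hM0 := hr (cos x1) (hcos hx1)
  have hle : T (cos x0) ≤ T (cos x1) := hmin hx1
  have ha : T (cos x0) / 2 ∈ Ioo 0 π := ⟨by linarith [hm0.1], by linarith [hm0.1, hm0.2]⟩
  have hb : (T (cos x1) + π) / 2 ∈ Ioo 0 π := ⟨by linarith [hM0.1, pi_pos], by linarith [hM0.2]⟩
  have hab : T (cos x0) / 2 ≤ (T (cos x1) + π) / 2 := by linarith [hm0.1, pi_pos]
  have hgc : ContinuousOn (fun t => t - T (cos (ϑ t))) (Icc (T (cos x0) / 2) ((T (cos x1) + π) / 2)) := by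
    have hsub : Icc (T (cos x0) / 2) ((T (cos x1) + π) / 2) ⊆ Ioo 0 π := fun t ht =>
      ⟨lt_of_lt_of_le ha.1 ht.1, lt_of_le_of_lt ht.2 hb.2⟩
    refine continuousOn_id.sub ?_
    exact ((hτc.comp hϑc h1).mono hsub)
  have hga : T (cos x0) / 2 - T (cos (ϑ (T (cos x0) / 2))) ≤ 0 := by
    have h3 : T (cos x0) ≤ T (cos (ϑ (T (cos x0) / 2))) := hmin (h1 _ ha)
    linarith [hm0.1]
  have hgb : 0 ≤ (T (cos x1) + π) / 2 - T (cos (ϑ ((T (cos x1) + π) / 2))) := by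
    have h3 : T (cos (ϑ ((T (cos x1) + π) / 2))) ≤ T (cos x1) := hmax (h1 _ hb)
    linarith [hM0.2]
  obtain ⟨t, ht, ht'⟩ := intermediate_value_Icc hab hgc ⟨hga, hgb⟩
  have htI : t ∈ Ioo 0 π := ⟨lt_of_lt_of_le ha.1 ht.1, lt_of_le_of_lt ht.2 hb.2⟩
  simp only at ht'
  refine ⟨t, ⟨htI, sub_eq_zero.1 ht'⟩, ?_⟩
  rintro s ⟨hs, hs'⟩
  have hs'' : s - T (cos (ϑ s)) = 0 := sub_eq_zero.2 hs'
  rcases lt_trichotomy s t with h | h | h
  · have := hmono s hs t htI h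
    linarith
  · exact h
  · have := hmono t htI s hs h
    linarith

end GS
end

section

open Real Set
open scoped ContDiff

namespace GS

/-- The right hand sides in the variable `ζ = cos θ`, in terms of `z = w/(1 - ζ²)` and
`y = (1 - ζ²) z²`: `T' = -z/√(f² + y)`, `w' = f_t f/√(f² + y)`, `f = f(T, ζ)`. -/
noncomputable def rT (f : ℝ → ℝ → ℝ) (ζ T z y : ℝ) : ℝ := -z / √(f T ζ ^ 2 + y)

noncomputable def rw' (f : ℝ → ℝ → ℝ) (ζ T y : ℝ) : ℝ := dt f T ζ * f T ζ / √(f T ζ ^ 2 + y)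

/-- `(T, w)` solves the equation of a maximal hypersurface on `(-1, 1)` in the variable `ζ`, between
two constants, and `|w| ≤ N (1 - ζ²)`. -/
def SolZ (f : ℝ → ℝ → ℝ) (m₀ M₀ N : ℝ) (T w : ℝ → ℝ) : Prop :=
  ∀ ζ ∈ Ioo (-1 : ℝ) 1, m₀ ≤ T ζ ∧ T ζ ≤ M₀ ∧ |w ζ| ≤ N * (1 - ζ ^ 2) ∧
    HasDerivAt T (rT f ζ (T ζ) (w ζ / (1 - ζ ^ 2)) (w ζ ^ 2 / (1 - ζ ^ 2))) ζ ∧
    HasDerivAt w (rw' f ζ (T ζ) (w ζ ^ 2 / (1 - ζ ^ 2))) ζ

/-- A solution on the closed interval `[0, 1]` including the axis `ζ = 1`. -/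
structure SolC (f : ℝ → ℝ → ℝ) (T w z : ℝ → ℝ) : Prop where
  cz : ContinuousOn z (Icc 0 1)
  rng : ∀ ζ ∈ Icc (0 : ℝ) 1, T ζ ∈ Ioo 0 π
  hw : ∀ ζ ∈ Icc (0 : ℝ) 1, w ζ = (1 - ζ ^ 2) * z ζ
  dT : ∀ ζ ∈ Icc (0 : ℝ) 1, HasDerivWithinAt T (rT f ζ (T ζ) (z ζ) ((1 - ζ ^ 2) * z ζ ^ 2))
    (Icc 0 1) ζ
  dw : ∀ ζ ∈ Icc (0 : ℝ) 1, HasDerivWithinAt w (rw' f ζ (T ζ) ((1 - ζ ^ 2) * z ζ ^ 2))
    (Icc 0 1) ζ

end GS
end

section

open Real Set
open scoped NNReal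

namespace GS

/-- `x` solves the differential equation `x' = v(t, x)` on `[a, b]`. -/
def Sol (v : ℝ → ℝ × ℝ → ℝ × ℝ) (a b : ℝ) (x : ℝ → ℝ × ℝ) : Prop :=
  ∀ t ∈ Icc a b, HasDerivWithinAt x (v t (x t)) (Icc a b) t

/-- `v` is Lipschitz in `x` with constant `K`, continuous in `t` and bounded by `L` on `[a, b]`. -/
structure Good (v : ℝ → ℝ × ℝ → ℝ × ℝ) (a b : ℝ) (K L : ℝ≥0) : Prop where
  lip : ∀ t ∈ Icc a b, LipschitzWith K (v t)
  cont : ∀ x, ContinuousOn (fun t => v t x) (Icc a b)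
  bdd : ∀ t ∈ Icc a b, ∀ x, ‖v t x‖ ≤ L

/-- TASK OdA. Global existence (Picard-Lindelöf): `IsPicardLindelof` on `[a, b]` with the ball of
radius `L (b - a)` (norm bound `L`), `exists_eq_forall_mem_Icc_hasDerivWithinAt` or similar. The
initial time `c` is any point of `[a, b]`. -/
theorem Good.exists_sol {v : ℝ → ℝ × ℝ → ℝ × ℝ} {a b : ℝ} {K L : ℝ≥0} (h : Good v a b K L) {c : ℝ}
    (hc : c ∈ Icc a b) (x₀ : ℝ × ℝ) : ∃ x, x c = x₀ ∧ Sol v a b x := by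
  have hab : a ≤ b := hc.1.trans hc.2
  have hP : IsPicardLindelof v (⟨c, hc⟩ : Icc a b) x₀ (L * (b - a).toNNReal) 0 L K :=
    { lipschitzOnWith := fun t ht => (h.lip t ht).lipschitzOnWith
      continuousOn := fun x _ => h.cont x
      norm_le := fun t ht x _ => h.bdd t ht x
      mul_max_le := by
        rw [NNReal.coe_zero, sub_zero, NNReal.coe_mul, Real.coe_toNNReal _ (sub_nonneg.mpr hab)]
        refine mul_le_mul_of_nonneg_left ?_ L.2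
        show max (b - c) (c - a) ≤ b - a
        exact max_le (by linarith [hc.1]) (by linarith [hc.2]) }
  obtain ⟨x, hx, hx'⟩ := hP.exists_eq_forall_mem_Icc_hasDerivWithinAt₀
  exact ⟨x, hx, hx'⟩

/-- Continuous dependence (Gronwall): two solutions satisfy
`dist (x t) (y t) ≤ dist (x c) (y c) * exp (K |t - c|)`, `c, t ∈ [a, b]`.
(`dist_le_of_trajectories_ODE` for `t ≥ c`; for `t ≤ c` reverse the time.) -/
theorem Good.dist_le {v : ℝ → ℝ × ℝ → ℝ × ℝ} {a b : ℝ} {K L : ℝ≥0} (h : Good v a b K L)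
    {x y : ℝ → ℝ × ℝ} (hx : Sol v a b x) (hy : Sol v a b y) {c t : ℝ} (hc : c ∈ Icc a b)
    (ht : t ∈ Icc a b) : dist (x t) (y t) ≤ dist (x c) (y c) * exp (K * |t - c|) := by
  have hcx : ∀ {z : ℝ → ℝ × ℝ}, Sol v a b z → ContinuousOn z (Icc a b) := fun hz τ hτ =>
    (hz τ hτ).continuousWithinAt
  rcases le_total c t with hct | hct
  · rw [abs_of_nonneg (sub_nonneg.mpr hct)]
    have key : ∀ {z : ℝ → ℝ × ℝ}, Sol v a b z → ∀ τ ∈ Ico c b,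
        HasDerivWithinAt z (v τ (z τ)) (Ici τ) τ := by
      intro z hz τ hτ
      exact (hz τ ⟨hc.1.trans hτ.1, hτ.2.le⟩).mono_of_mem_nhdsWithin
        (Icc_mem_nhdsGE_of_mem ⟨hc.1.trans hτ.1, hτ.2⟩)
    exact dist_le_of_trajectories_ODE_of_mem (v := v) (K := K) (s := fun _ => univ) (a := c)
      (b := b) (fun τ hτ => (h.lip τ ⟨hc.1.trans hτ.1, hτ.2.le⟩).lipschitzOnWith)
      ((hcx hx).mono (Icc_subset_Icc_left hc.1)) (key hx) (fun _ _ => mem_univ _)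
      ((hcx hy).mono (Icc_subset_Icc_left hc.1)) (key hy) (fun _ _ => mem_univ _) le_rfl
      t ⟨hct, ht.2⟩
  · rw [abs_of_nonpos (sub_nonpos.mpr hct)]
    have hmem : ∀ s ∈ Icc (-c) (-a), -s ∈ Icc a b := fun s hs =>
      ⟨by linarith [hs.2], by linarith [hs.1, hc.2]⟩
    have key : ∀ {z : ℝ → ℝ × ℝ}, Sol v a b z → ∀ τ ∈ Ico (-c) (-a),
        HasDerivWithinAt (fun s => z (-s)) (-(v (-τ) (z (-τ)))) (Ici τ) τ := by
      intro z hz τ hτ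
      have h1 := hz (-τ) (hmem τ ⟨hτ.1, hτ.2.le⟩)
      have h2 : HasDerivWithinAt (fun s : ℝ => -s) (-1 : ℝ) (Icc (-b) (-a)) τ :=
        (hasDerivAt_neg τ).hasDerivWithinAt
      have h3 : MapsTo (fun s : ℝ => -s) (Icc (-b) (-a)) (Icc a b) := fun s hs =>
        ⟨by linarith [hs.2], by linarith [hs.1]⟩
      have h4 := HasDerivWithinAt.scomp (x := τ) (h := fun s : ℝ => -s) h1 h2 h3
      rw [neg_one_smul] at h4
      have h5 : Icc (-b) (-a) ∈ nhdsWithin τ (Ici τ) :=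
        Icc_mem_nhdsGE_of_mem ⟨by linarith [hτ.1, hc.2], hτ.2⟩
      exact h4.mono_of_mem_nhdsWithin h5
    have hcx' : ∀ {z : ℝ → ℝ × ℝ}, Sol v a b z →
        ContinuousOn (fun s => z (-s)) (Icc (-c) (-a)) := fun hz =>
      (hcx hz).comp continuous_neg.continuousOn hmem
    have hlip : ∀ τ ∈ Ico (-c) (-a),
        LipschitzOnWith K (fun y => -(v (-τ) y)) (univ : Set (ℝ × ℝ)) := by
      intro τ hτ
      have h1 := h.lip (-τ) (hmem τ ⟨hτ.1, hτ.2.le⟩)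
      refine LipschitzWith.lipschitzOnWith ?_
      refine LipschitzWith.of_dist_le_mul fun p q => ?_
      rw [dist_neg_neg]
      exact h1.dist_le_mul p q
    have h6 := dist_le_of_trajectories_ODE_of_mem (v := fun s y => -(v (-s) y)) (K := K)
      (s := fun _ => univ) (a := -c) (b := -a) (f := fun s => x (-s)) (g := fun s => y (-s))
      (δ := dist (x c) (y c)) hlip (hcx' hx) (key hx) (fun _ _ => mem_univ _) (hcx' hy) (key hy)
      (fun _ _ => mem_univ _) (by simp) (-t) ⟨by linarith, by linarith [ht.1]⟩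
    simp only [neg_neg] at h6
    have h7 : -(t - c) = -t - -c := by ring
    rw [h7]
    exact h6

end GS
end

section

open Real Set Filter
open scoped ContDiff Topology

namespace GS

private theorem AxB_cont {f : ℝ → ℝ → ℝ} (sm : Sm univ f) {t ζ : ℝ} (ht : t ∈ Ioo 0 π) :
    ContinuousAt (Function.uncurry f) (t, ζ) := by
  have ho : IsOpen (Ioo 0 π ×ˢ (univ : Set ℝ)) := isOpen_Ioo.prod isOpen_univ
  exact sm.continuousOn.continuousAt (ho.mem_nhds ⟨ht, mem_univ _⟩)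

private theorem AxB_low {f : ℝ → ℝ → ℝ} (sm : Sm univ f) (pos : ∀ t ∈ Ioo 0 π, ∀ ζ, 0 < f t ζ)
    {m₀ M₀ : ℝ} (h0 : 0 < m₀) (h1 : M₀ < π) (hm : m₀ ≤ M₀) :
    ∃ c, 0 < c ∧ ∀ t ∈ Icc m₀ M₀, ∀ ζ ∈ Icc (0 : ℝ) 1, c ≤ f t ζ := by
  have hsub : Icc m₀ M₀ ×ˢ Icc (0 : ℝ) 1 ⊆ Ioo 0 π ×ˢ (univ : Set ℝ) := by
    rintro ⟨t, ζ⟩ ⟨ht, -⟩
    exact ⟨⟨by linarith [ht.1], by linarith [ht.2]⟩, mem_univ _⟩
  have hK : IsCompact (Icc m₀ M₀ ×ˢ Icc (0 : ℝ) 1) := isCompact_Icc.prod isCompact_Icc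
  have hne : (Icc m₀ M₀ ×ˢ Icc (0 : ℝ) 1).Nonempty :=
    ⟨(m₀, 0), ⟨⟨le_rfl, hm⟩, ⟨le_rfl, zero_le_one⟩⟩⟩
  obtain ⟨⟨t0, z0⟩, hmem, hmin⟩ := hK.exists_isMinOn hne (sm.continuousOn.mono hsub)
  refine ⟨f t0 z0, pos _ (hsub hmem).1 _, ?_⟩
  intro t ht ζ hζ
  exact hmin (show (t, ζ) ∈ Icc m₀ M₀ ×ˢ Icc (0 : ℝ) 1 from ⟨ht, hζ⟩)

private theorem AxB_rw {f : ℝ → ℝ → ℝ} (sm : Sm univ f) (pos : ∀ t ∈ Ioo 0 π, ∀ ζ, 0 < f t ζ)
    {l : Filter ℝ} {a b y : ℝ → ℝ} {ζ₁ T₁ y₁ : ℝ} (hT : T₁ ∈ Ioo 0 π) (hy : 0 ≤ y₁)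
    (ha : Tendsto a l (𝓝 ζ₁)) (hb : Tendsto b l (𝓝 T₁)) (hy' : Tendsto y l (𝓝 y₁)) :
    Tendsto (fun s => rw' f (a s) (b s) (y s)) l (𝓝 (rw' f ζ₁ T₁ y₁)) := by
  have hf : Tendsto (fun s => f (b s) (a s)) l (𝓝 (f T₁ ζ₁)) :=
    (AxB_cont sm (ζ := ζ₁) hT).tendsto.comp (hb.prodMk_nhds ha)
  have hd : Tendsto (fun s => dt f (b s) (a s)) l (𝓝 (dt f T₁ ζ₁)) :=
    (AxB_cont (Sm.dt isOpen_univ sm) (ζ := ζ₁) hT).tendsto.comp (hb.prodMk_nhds ha)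
  have hp := pos _ hT ζ₁
  have hne : √(f T₁ ζ₁ ^ 2 + y₁) ≠ 0 := by
    apply ne_of_gt
    apply Real.sqrt_pos.mpr
    positivity
  unfold rw'
  exact (hd.mul hf).div (((hf.pow 2).add hy').sqrt) hne

private theorem AxB_rT {f : ℝ → ℝ → ℝ} (sm : Sm univ f) (pos : ∀ t ∈ Ioo 0 π, ∀ ζ, 0 < f t ζ)
    {l : Filter ℝ} {a b z y : ℝ → ℝ} {ζ₁ T₁ z₁ y₁ : ℝ} (hT : T₁ ∈ Ioo 0 π) (hy : 0 ≤ y₁)
    (ha : Tendsto a l (𝓝 ζ₁)) (hb : Tendsto b l (𝓝 T₁)) (hz : Tendsto z l (𝓝 z₁))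
    (hy' : Tendsto y l (𝓝 y₁)) :
    Tendsto (fun s => rT f (a s) (b s) (z s) (y s)) l (𝓝 (rT f ζ₁ T₁ z₁ y₁)) := by
  have hf : Tendsto (fun s => f (b s) (a s)) l (𝓝 (f T₁ ζ₁)) :=
    (AxB_cont sm (ζ := ζ₁) hT).tendsto.comp (hb.prodMk_nhds ha)
  have hp := pos _ hT ζ₁
  have hne : √(f T₁ ζ₁ ^ 2 + y₁) ≠ 0 := by
    apply ne_of_gt
    apply Real.sqrt_pos.mpr
    positivity
  unfold rT
  exact hz.neg.div (((hf.pow 2).add hy').sqrt) hne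

/-- TASK AxB. Extension to the axis `ζ = 1`.

Proof. On `[0, 1)`: `|z| ≤ N` for `z = w/(1-ζ²)`, `y = w²/(1-ζ²) ≤ N² (1-ζ²)`, `f(T, ζ) ≥ c > 0` on the
compact `[m₀, M₀] × [0, 1]`, so `|T'| ≤ N/c` and `T` is Lipschitz on `[0, 1)`: it has a limit `T₁ ∈ [m₀, M₀]` at
`1` (`LipschitzOnWith` extension or Cauchy). `w → 0`, `y → 0`, so `w' → g₁ := f_t(T₁, 1) f(T₁, 1)/√(f(T₁,1)²)`.
Put `T'(1) = T₁`, `w'(1) = 0`: `w'` has the one-sided derivative `g₁` at `1`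
(`hasDerivWithinAt_Iic_of_tendsto_deriv` or similar), so `w(ζ)/(1-ζ) → -g₁` and `z → -g₁/2 =: z(1)`; then
`T' → -z(1)/√(f(T₁,1)²)`, again the one-sided derivative at `1`. (For `ζ ∈ [0, 1)`: `HasDerivAt` gives
`HasDerivWithinAt`; the new functions agree with the old ones near `ζ`.) -/
theorem exists_SolC {f : ℝ → ℝ → ℝ} (sm : Sm univ f) (pos : ∀ t ∈ Ioo 0 π, ∀ ζ, 0 < f t ζ)
    {m₀ M₀ N : ℝ} (h0 : 0 < m₀) (h1 : M₀ < π) {T w : ℝ → ℝ} (h : SolZ f m₀ M₀ N T w) :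
    ∃ T' w' z : ℝ → ℝ, SolC f T' w' z ∧ (∀ ζ ∈ Ico (0 : ℝ) 1, T' ζ = T ζ) := by
  have e0 := h 0 ⟨by norm_num, by norm_num⟩
  have hm : m₀ ≤ M₀ := e0.1.trans e0.2.1
  have hN : 0 ≤ N := by
    have := e0.2.2.1
    have h2 := abs_nonneg (w 0)
    norm_num at this
    linarith
  obtain ⟨c, hc, hlow⟩ := AxB_low sm pos h0 h1 hm
  have hIoo : ∀ ζ ∈ Ico (0 : ℝ) 1, ζ ∈ Ioo (-1 : ℝ) 1 := fun ζ hζ => ⟨by linarith [hζ.1], hζ.2⟩
  have hpos1 : ∀ ζ ∈ Ico (0 : ℝ) 1, 0 < 1 - ζ ^ 2 := fun ζ hζ => by nlinarith [hζ.1, hζ.2]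
  have hLip : LipschitzOnWith (Real.toNNReal (N / c)) T (Ico 0 1) := by
    apply Convex.lipschitzOnWith_of_nnnorm_hasDerivWithin_le (convex_Ico 0 1)
      (f' := fun ζ => rT f ζ (T ζ) (w ζ / (1 - ζ ^ 2)) (w ζ ^ 2 / (1 - ζ ^ 2)))
    · intro ζ hζ
      exact (h ζ (hIoo ζ hζ)).2.2.2.1.hasDerivWithinAt
    · intro ζ hζ
      obtain ⟨g0, g1, gw, -, -⟩ := h ζ (hIoo ζ hζ)
      have hp := hpos1 ζ hζ
      have hfl := hlow _ ⟨g0, g1⟩ ζ ⟨hζ.1, hζ.2.le⟩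
      have hz : |w ζ / (1 - ζ ^ 2)| ≤ N := by
        rw [abs_div, abs_of_pos hp, div_le_iff₀ hp]
        exact gw
      have hs : c ≤ √(f (T ζ) ζ ^ 2 + w ζ ^ 2 / (1 - ζ ^ 2)) := by
        apply Real.le_sqrt_of_sq_le
        have : 0 ≤ w ζ ^ 2 / (1 - ζ ^ 2) := by positivity
        nlinarith
      have : |rT f ζ (T ζ) (w ζ / (1 - ζ ^ 2)) (w ζ ^ 2 / (1 - ζ ^ 2))| ≤ N / c := by
        unfold rT
        rw [abs_div, abs_neg, abs_of_nonneg (Real.sqrt_nonneg _)]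
        exact div_le_div₀ hN hz hc hs
      rw [← NNReal.coe_le_coe, coe_nnnorm, Real.norm_eq_abs,
        Real.coe_toNNReal _ (div_nonneg hN hc.le)]
      exact this
  obtain ⟨g, hg, hgT⟩ := hLip.extend_real
  have hgc : Continuous g := hg.continuous
  have hev : ∀ᶠ ζ in 𝓝[<] (1 : ℝ), ζ ∈ Ioo (0 : ℝ) 1 := Ioo_mem_nhdsLT zero_lt_one
  have hg1 : Tendsto g (𝓝[<] 1) (𝓝 (g 1)) := hgc.continuousAt.tendsto.mono_left nhdsWithin_le_nhds
  have hid : Tendsto (fun ζ : ℝ => ζ) (𝓝[<] 1) (𝓝 1) := tendsto_id.mono_left nhdsWithin_le_nhds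
  have hgrng : ∀ ζ ∈ Icc (0 : ℝ) 1, g ζ ∈ Icc m₀ M₀ := by
    intro ζ hζ
    rcases lt_or_eq_of_le hζ.2 with hlt | heq
    · rw [← hgT ⟨hζ.1, hlt⟩]
      have := h ζ (hIoo ζ ⟨hζ.1, hlt⟩)
      exact ⟨this.1, this.2.1⟩
    · subst heq
      apply isClosed_Icc.mem_of_tendsto hg1
      filter_upwards [hev] with s hs
      rw [← hgT ⟨hs.1.le, hs.2⟩]
      have := h s (hIoo s ⟨hs.1.le, hs.2⟩)
      exact ⟨this.1, this.2.1⟩
  have hgrng' : ∀ ζ ∈ Icc (0 : ℝ) 1, g ζ ∈ Ioo 0 π := fun ζ hζ =>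
    ⟨by linarith [(hgrng ζ hζ).1], by linarith [(hgrng ζ hζ).2]⟩
  have hT1 : g 1 ∈ Ioo 0 π := hgrng' 1 ⟨zero_le_one, le_rfl⟩
  -- the function w
  set w₁ : ℝ → ℝ := fun ζ => if ζ < 1 then w ζ else 0 with hw₁
  have hw₁lt : ∀ ζ, ζ < 1 → w₁ ζ = w ζ := fun ζ hζ => by simp [hw₁, hζ]
  have hw₁1 : w₁ 1 = 0 := by simp [hw₁]
  have h1s : Tendsto (fun ζ : ℝ => N * (1 - ζ ^ 2)) (𝓝[<] 1) (𝓝 0) := by
    have : Tendsto (fun ζ : ℝ => N * (1 - ζ ^ 2)) (𝓝 1) (𝓝 (N * (1 - 1 ^ 2))) := by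
      apply Continuous.tendsto
      fun_prop
    have e : N * (1 - (1 : ℝ) ^ 2) = 0 := by ring
    rw [e] at this
    exact this.mono_left nhdsWithin_le_nhds
  have h2s : Tendsto (fun ζ : ℝ => N ^ 2 * (1 - ζ ^ 2)) (𝓝[<] 1) (𝓝 0) := by
    have : Tendsto (fun ζ : ℝ => N ^ 2 * (1 - ζ ^ 2)) (𝓝 1) (𝓝 (N ^ 2 * (1 - 1 ^ 2))) := by
      apply Continuous.tendsto
      fun_prop
    have e : N ^ 2 * (1 - (1 : ℝ) ^ 2) = 0 := by ring
    rw [e] at this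
    exact this.mono_left nhdsWithin_le_nhds
  have hwlim : Tendsto w (𝓝[<] 1) (𝓝 0) := by
    apply squeeze_zero_norm' _ h1s
    filter_upwards [hev] with s hs
    exact (h s (hIoo s ⟨hs.1.le, hs.2⟩)).2.2.1
  have hylim : Tendsto (fun ζ => w ζ ^ 2 / (1 - ζ ^ 2)) (𝓝[<] 1) (𝓝 0) := by
    apply squeeze_zero_norm' _ h2s
    filter_upwards [hev] with s hs
    have hp := hpos1 s ⟨hs.1.le, hs.2⟩
    have gw := (h s (hIoo s ⟨hs.1.le, hs.2⟩)).2.2.1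
    rw [Real.norm_eq_abs, abs_of_nonneg (by positivity), div_le_iff₀ hp]
    have := sq_le_sq' (by linarith [neg_abs_le (w s)]) (le_trans (le_abs_self (w s)) gw)
    calc w s ^ 2 ≤ (N * (1 - s ^ 2)) ^ 2 := this
      _ = N ^ 2 * (1 - s ^ 2) * (1 - s ^ 2) := by ring
  set g₁ := rw' f 1 (g 1) 0 with hg₁
  have hdw : ∀ ζ ∈ Ioo (0 : ℝ) 1,
      HasDerivAt w₁ (rw' f ζ (g ζ) (w ζ ^ 2 / (1 - ζ ^ 2))) ζ := by
    intro ζ hζ
    have := (h ζ (hIoo ζ ⟨hζ.1.le, hζ.2⟩)).2.2.2.2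
    rw [hgT ⟨hζ.1.le, hζ.2⟩] at this
    apply this.congr_of_eventuallyEq
    filter_upwards [Iio_mem_nhds hζ.2] with s hs
    exact hw₁lt s hs
  have hW : HasDerivWithinAt w₁ g₁ (Iic 1) 1 := by
    apply hasDerivWithinAt_Iic_of_tendsto_deriv (s := Ioo 0 1)
    · intro ζ hζ
      exact (hdw ζ hζ).differentiableAt.differentiableWithinAt
    · unfold ContinuousWithinAt
      rw [hw₁1]
      have : Tendsto w₁ (𝓝[<] 1) (𝓝 0) := by
        apply hwlim.congr'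
        filter_upwards [hev] with s hs
        exact (hw₁lt s hs.2).symm
      exact this.mono_left (nhdsWithin_mono _ (fun x hx => hx.2))
    · exact Ioo_mem_nhdsLT zero_lt_one
    · have := AxB_rw sm pos hT1 le_rfl hid hg1 hylim
      apply this.congr'
      filter_upwards [hev] with s hs
      exact ((hdw s hs).deriv).symm
  set z : ℝ → ℝ := fun ζ => if ζ < 1 then w ζ / (1 - ζ ^ 2) else -g₁ / 2 with hz
  have hzlt : ∀ ζ, ζ < 1 → z ζ = w ζ / (1 - ζ ^ 2) := fun ζ hζ => by simp [hz, hζ]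
  have hz1 : z 1 = -g₁ / 2 := by simp [hz]
  have hzlim : Tendsto z (𝓝[<] 1) (𝓝 (z 1)) := by
    have hsl : Tendsto (slope w₁ 1) (𝓝[<] 1) (𝓝 g₁) := by
      have := hasDerivWithinAt_iff_tendsto_slope.mp hW
      rw [Iic_sdiff_right] at this
      exact this
    have hp1 : Tendsto (fun ζ : ℝ => 1 + ζ) (𝓝[<] 1) (𝓝 (1 + 1)) :=
      (tendsto_const_nhds).add hid
    have := hsl.neg.div hp1 (by norm_num)
    have e : -g₁ / (1 + 1) = z 1 := by rw [hz1]; norm_num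
    rw [e] at this
    apply this.congr'
    filter_upwards [hev] with s hs
    rw [hzlt s hs.2, Pi.div_apply, slope_def_field, hw₁1, hw₁lt s hs.2]
    have h1 : s - 1 ≠ 0 := by linarith [hs.2] |> fun (_ : s - 1 < 0) => ne_of_lt ‹_›
    have h2 : 1 + s ≠ 0 := by
      have := hs.1
      positivity
    have h3 : (1 : ℝ) - s ^ 2 ≠ 0 := (hpos1 s ⟨hs.1.le, hs.2⟩).ne'
    field_simp
    ring
  have hzc : ContinuousOn z (Icc 0 1) := by
    intro ζ hζ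
    rcases lt_or_eq_of_le hζ.2 with hlt | heq
    · have hp := hpos1 ζ ⟨hζ.1, hlt⟩
      have hwc : ContinuousAt w ζ := (h ζ (hIoo ζ ⟨hζ.1, hlt⟩)).2.2.2.2.continuousAt
      have : ContinuousAt (fun s => w s / (1 - s ^ 2)) ζ :=
        hwc.div (by fun_prop) hp.ne'
      have h2 : ContinuousAt z ζ := by
        apply this.congr
        filter_upwards [Iio_mem_nhds hlt] with s hs
        exact (hzlt s hs).symm
      exact h2.continuousWithinAt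
    · subst heq
      rw [← continuousWithinAt_sdiff_self]
      exact hzlim.mono_left (nhdsWithin_mono _ (fun x hx => lt_of_le_of_ne hx.1.2 hx.2))
  have hyeq : ∀ ζ ∈ Ico (0 : ℝ) 1, (1 - ζ ^ 2) * z ζ ^ 2 = w ζ ^ 2 / (1 - ζ ^ 2) := by
    intro ζ hζ
    rw [hzlt ζ hζ.2]
    have hp := hpos1 ζ hζ
    field_simp
  have hdT : ∀ ζ ∈ Ioo (0 : ℝ) 1,
      HasDerivAt g (rT f ζ (g ζ) (z ζ) (w ζ ^ 2 / (1 - ζ ^ 2))) ζ := by
    intro ζ hζ
    have := (h ζ (hIoo ζ ⟨hζ.1.le, hζ.2⟩)).2.2.2.1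
    rw [← hzlt ζ hζ.2, hgT ⟨hζ.1.le, hζ.2⟩] at this
    apply this.congr_of_eventuallyEq
    filter_upwards [Ioo_mem_nhds hζ.1 hζ.2] with s hs
    exact (hgT ⟨hs.1.le, hs.2⟩).symm
  have hG : HasDerivWithinAt g (rT f 1 (g 1) (z 1) 0) (Iic 1) 1 := by
    apply hasDerivWithinAt_Iic_of_tendsto_deriv (s := Ioo 0 1)
    · intro ζ hζ
      exact (hdT ζ hζ).differentiableAt.differentiableWithinAt
    · exact hgc.continuousWithinAt
    · exact Ioo_mem_nhdsLT zero_lt_one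
    · have := AxB_rT sm pos hT1 le_rfl hid hg1 hzlim hylim
      apply this.congr'
      filter_upwards [hev] with s hs
      exact ((hdT s hs).deriv).symm
  refine ⟨g, w₁, z, ⟨hzc, hgrng', ?_, ?_, ?_⟩, ?_⟩
  · intro ζ hζ
    rcases lt_or_eq_of_le hζ.2 with hlt | heq
    · rw [hw₁lt ζ hlt, hzlt ζ hlt]
      have hp := hpos1 ζ ⟨hζ.1, hlt⟩
      field_simp
    · subst heq
      rw [hw₁1]
      norm_num
  · intro ζ hζ
    rcases lt_or_eq_of_le hζ.2 with hlt | heq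
    · have h3 := (h ζ (hIoo ζ ⟨hζ.1, hlt⟩)).2.2.2.1
      rw [← hzlt ζ hlt, hgT ⟨hζ.1, hlt⟩] at h3
      rw [hyeq ζ ⟨hζ.1, hlt⟩]
      apply h3.hasDerivWithinAt.congr_of_eventuallyEq
      · filter_upwards [mem_nhdsWithin_of_mem_nhds (Iio_mem_nhds hlt), self_mem_nhdsWithin]
          with s hs hs2
        exact (hgT ⟨hs2.1, hs⟩).symm
      · exact (hgT ⟨hζ.1, hlt⟩).symm
    · subst heq
      have e : (1 - (1 : ℝ) ^ 2) * z 1 ^ 2 = 0 := by ring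
      rw [e]
      exact hG.mono (fun x hx => hx.2)
  · intro ζ hζ
    rcases lt_or_eq_of_le hζ.2 with hlt | heq
    · have h3 := (h ζ (hIoo ζ ⟨hζ.1, hlt⟩)).2.2.2.2
      rw [hgT ⟨hζ.1, hlt⟩] at h3
      rw [hyeq ζ ⟨hζ.1, hlt⟩]
      apply h3.hasDerivWithinAt.congr_of_eventuallyEq
      · filter_upwards [mem_nhdsWithin_of_mem_nhds (Iio_mem_nhds hlt)] with s hs
        exact hw₁lt s hs
      · exact hw₁lt ζ hlt
    · subst heq
      have e : (1 - (1 : ℝ) ^ 2) * z 1 ^ 2 = 0 := by ring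
      rw [e]
      exact hW.mono (fun x hx => hx.2)
  · intro ζ hζ
    exact (hgT hζ).symm

end GS
end

section

open Real Set
open scoped ContDiff

namespace GS

private theorem AxE_comp {g : ℝ → ℝ → ℝ} (sm : Sm univ g) {T : ℝ → ℝ} {n : ℕ}
    (hT : ContDiffOn ℝ n T (Ioo (-1) 1)) (hm : ∀ ζ ∈ Ioo (-1 : ℝ) 1, T ζ ∈ Ioo 0 π) :
    ContDiffOn ℝ n (fun ζ => g (T ζ) ζ) (Ioo (-1) 1) := by
  have h1 : ContDiffOn ℝ n (Function.uncurry g) (Ioo 0 π ×ˢ univ) :=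
    ContDiffOn.of_le sm (by exact_mod_cast le_top)
  have h2 : ContDiffOn ℝ n (fun ζ : ℝ => (T ζ, ζ)) (Ioo (-1) 1) := hT.prodMk contDiffOn_id
  exact h1.comp h2 (fun ζ hζ => ⟨hm ζ hζ, mem_univ _⟩)

private theorem AxE_nat {f : ℝ → ℝ → ℝ} (sm : Sm univ f) (pos : ∀ t ∈ Ioo 0 π, ∀ ζ, 0 < f t ζ)
    {m₀ M₀ N : ℝ} (h0 : 0 < m₀) (h1 : M₀ < π) {T w : ℝ → ℝ} (h : SolZ f m₀ M₀ N T w) (n : ℕ) :
    ContDiffOn ℝ n T (Ioo (-1) 1) ∧ ContDiffOn ℝ n w (Ioo (-1) 1) := by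
  have hm : ∀ ζ ∈ Ioo (-1 : ℝ) 1, T ζ ∈ Ioo 0 π := fun ζ hζ =>
    ⟨lt_of_lt_of_le h0 (h ζ hζ).1, lt_of_le_of_lt (h ζ hζ).2.1 h1⟩
  induction n with
  | zero =>
    refine ⟨?_, ?_⟩
    · refine contDiffOn_zero.2 (fun ζ hζ => ?_)
      exact (h ζ hζ).2.2.2.1.continuousAt.continuousWithinAt
    · refine contDiffOn_zero.2 (fun ζ hζ => ?_)
      exact (h ζ hζ).2.2.2.2.continuousAt.continuousWithinAt
  | succ n ih =>
    obtain ⟨iT, iw⟩ := ih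
    have q0 : ∀ ζ ∈ Ioo (-1 : ℝ) 1, 0 < 1 - ζ ^ 2 := fun ζ hζ => by nlinarith [hζ.1, hζ.2]
    have cq : ContDiffOn ℝ n (fun ζ : ℝ => 1 - ζ ^ 2) (Ioo (-1) 1) :=
      contDiffOn_const.sub (contDiffOn_id.pow 2)
    have cf : ContDiffOn ℝ n (fun ζ => f (T ζ) ζ) (Ioo (-1) 1) := AxE_comp sm iT hm
    have cd : ContDiffOn ℝ n (fun ζ => dt f (T ζ) ζ) (Ioo (-1) 1) :=
      AxE_comp (Sm.dt isOpen_univ sm) iT hm
    have cz : ContDiffOn ℝ n (fun ζ => w ζ / (1 - ζ ^ 2)) (Ioo (-1) 1) :=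
      iw.div cq (fun ζ hζ => (q0 ζ hζ).ne')
    have cy : ContDiffOn ℝ n (fun ζ => w ζ ^ 2 / (1 - ζ ^ 2)) (Ioo (-1) 1) :=
      (iw.pow 2).div cq (fun ζ hζ => (q0 ζ hζ).ne')
    have sp : ∀ ζ ∈ Ioo (-1 : ℝ) 1, 0 < f (T ζ) ζ ^ 2 + w ζ ^ 2 / (1 - ζ ^ 2) := fun ζ hζ => by
      have a1 := pos (T ζ) (hm ζ hζ) ζ
      have a2 : 0 ≤ w ζ ^ 2 / (1 - ζ ^ 2) := div_nonneg (sq_nonneg _) (q0 ζ hζ).le
      positivity
    have cs : ContDiffOn ℝ n (fun ζ => √(f (T ζ) ζ ^ 2 + w ζ ^ 2 / (1 - ζ ^ 2)))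
        (Ioo (-1) 1) := ((cf.pow 2).add cy).sqrt (fun ζ hζ => (sp ζ hζ).ne')
    have ns : ∀ ζ ∈ Ioo (-1 : ℝ) 1, √(f (T ζ) ζ ^ 2 + w ζ ^ 2 / (1 - ζ ^ 2)) ≠ 0 := fun ζ hζ =>
      (Real.sqrt_pos.2 (sp ζ hζ)).ne'
    have c1 : ContDiffOn ℝ n (fun ζ => rT f ζ (T ζ) (w ζ / (1 - ζ ^ 2)) (w ζ ^ 2 / (1 - ζ ^ 2)))
        (Ioo (-1) 1) := cz.neg.div cs ns
    have c2 : ContDiffOn ℝ n (fun ζ => rw' f ζ (T ζ) (w ζ ^ 2 / (1 - ζ ^ 2)))
        (Ioo (-1) 1) := (cd.mul cf).div cs ns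
    push_cast
    refine ⟨?_, ?_⟩
    · rw [contDiffOn_succ_iff_deriv_of_isOpen isOpen_Ioo]
      refine ⟨fun ζ hζ => (h ζ hζ).2.2.2.1.differentiableAt.differentiableWithinAt,
        fun hh => absurd hh (by simp), ?_⟩
      exact c1.congr (fun ζ hζ => (h ζ hζ).2.2.2.1.deriv)
    · rw [contDiffOn_succ_iff_deriv_of_isOpen isOpen_Ioo]
      refine ⟨fun ζ hζ => (h ζ hζ).2.2.2.2.differentiableAt.differentiableWithinAt,
        fun hh => absurd hh (by simp), ?_⟩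
      exact c2.congr (fun ζ hζ => (h ζ hζ).2.2.2.2.deriv)

/-- TASK AxE. Interior smoothness: `T` and `w` are `C^k` on `(-1, 1)` for all `k` by induction (the
right hand sides are smooth functions of `ζ, T, w` for `ζ² < 1`; `f > 0`); `contDiffOn_succ_iff_deriv_of_isOpen`
or `contDiffOn_succ_of_fderiv_apply` etc. -/
theorem SolZ.smooth {f : ℝ → ℝ → ℝ} (sm : Sm univ f) (pos : ∀ t ∈ Ioo 0 π, ∀ ζ, 0 < f t ζ)
    {m₀ M₀ N : ℝ} (h0 : 0 < m₀) (h1 : M₀ < π) {T w : ℝ → ℝ} (h : SolZ f m₀ M₀ N T w) :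
    ContDiffOn ℝ ∞ T (Ioo (-1) 1) ∧ ContDiffOn ℝ ∞ w (Ioo (-1) 1) := by
  refine ⟨contDiffOn_infty.2 (fun n => ?_), contDiffOn_infty.2 (fun n => ?_)⟩
  · exact (AxE_nat sm pos h0 h1 h n).1
  · exact (AxE_nat sm pos h0 h1 h n).2

end GS
end

section

open Real Set
open scoped NNReal

namespace GS

/-- TASK OdB. Shooting. Let `v = (v₁, v₂)` be good on `[a, b]`, `|v₁| ≤ 1`, `v₂ > 0` where the first
coordinate is `≥ X₊` and `v₂ < 0` where it is `≤ X₋`. Then there is a solution `x = (τ, w)` on `[a, b]` with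
`w(a) = w(b) = 0`.

Proof. For `s ∈ ℝ` let `x_s` be the solution with `x_s(a) = (s, 0)` (`Good.exists_sol`). By
`Good.dist_le`, `s ↦ (x_s(b)).2` is continuous (Lipschitz). For `s ≥ X₊ + (b - a)` the first
coordinate stays `≥ X₊` on `[a, b]` (mean value inequality), so `w' > 0` and `w(b) > 0` (if `a < b`);
for `s ≤ X₋ - (b - a)`, `w(b) < 0`. Intermediate value theorem. -/
theorem shooting {v : ℝ → ℝ × ℝ → ℝ × ℝ} {a b : ℝ} (hab : a < b) {K L : ℝ≥0} (h : Good v a b K L)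
    (h1 : ∀ t ∈ Icc a b, ∀ x, |(v t x).1| ≤ 1) {Xm Xp : ℝ}
    (hp : ∀ t ∈ Icc a b, ∀ x w : ℝ, Xp ≤ x → 0 < (v t (x, w)).2)
    (hm : ∀ t ∈ Icc a b, ∀ x w : ℝ, x ≤ Xm → (v t (x, w)).2 < 0) :
    ∃ x, Sol v a b x ∧ (x a).2 = 0 ∧ (x b).2 = 0 := by
  have haI : a ∈ Icc a b := left_mem_Icc.2 hab.le
  have hbI : b ∈ Icc a b := right_mem_Icc.2 hab.le
  choose X hXa hX using fun s : ℝ => h.exists_sol haI (s, 0)
  -- the second coordinate at `b` depends continuously on `s`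
  have hcont : Continuous fun s => (X s b).2 := by
    have hL : LipschitzWith ⟨exp (K * |b - a|), (exp_pos _).le⟩ fun s => (X s b).2 := by
      refine LipschitzWith.of_dist_le_mul fun s s' => ?_
      have h2 := h.dist_le (hX s) (hX s') haI hbI
      rw [hXa, hXa] at h2
      have h3 : dist ((s, (0 : ℝ)) : ℝ × ℝ) (s', 0) = dist s s' := by
        rw [Prod.dist_eq]
        simp
      rw [h3] at h2
      have h4 : dist (X s b).2 (X s' b).2 ≤ dist (X s b) (X s' b) := by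
        rw [Prod.dist_eq]
        exact le_max_right _ _
      refine h4.trans (h2.trans (le_of_eq ?_))
      rw [mul_comm]
      rfl
    exact hL.continuous
  -- the first coordinate moves by at most `b - a`
  have hfst : ∀ s, ∀ t ∈ Icc a b, |(X s t).1 - s| ≤ b - a := by
    intro s t ht
    have h2 : ∀ u ∈ Icc a b, HasDerivWithinAt (fun u => (X s u).1) (v u (X s u)).1 (Icc a b) u :=
      fun u hu => (hasFDerivAt_fst (𝕜 := ℝ) (p := X s u)).comp_hasDerivWithinAt u (hX s u hu)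
    have h3 := Convex.norm_image_sub_le_of_norm_hasDerivWithin_le (C := 1) h2
      (fun u hu => by rw [norm_eq_abs]; exact h1 u hu _) (convex_Icc a b) haI ht
    rw [norm_eq_abs, norm_eq_abs, one_mul, hXa] at h3
    have h4 : |t - a| ≤ b - a := by
      rw [abs_of_nonneg (by linarith [ht.1])]
      linarith [ht.2]
    exact h3.trans h4
  -- mean value theorem for the second coordinate
  have hmvt : ∀ s, ∃ c ∈ Ioo a b, (v c (X s c)).2 = ((X s b).2 - 0) / (b - a) := by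
    intro s
    have h2 : ∀ u ∈ Icc a b, HasDerivWithinAt (fun u => (X s u).2) (v u (X s u)).2 (Icc a b) u :=
      fun u hu => (hasFDerivAt_snd (𝕜 := ℝ) (p := X s u)).comp_hasDerivWithinAt u (hX s u hu)
    obtain ⟨c, hc, hc'⟩ := exists_hasDerivAt_eq_slope (fun u => (X s u).2)
      (fun u => (v u (X s u)).2) hab (fun u hu => (h2 u hu).continuousWithinAt)
      (fun u hu => (h2 u (Ioo_subset_Icc_self hu)).hasDerivAt (Icc_mem_nhds hu.1 hu.2))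
    refine ⟨c, hc, ?_⟩
    rw [hc']
    simp only [hXa]
  have hpos : 0 ≤ (X (Xp + (b - a)) b).2 := by
    obtain ⟨c, hc, hc'⟩ := hmvt (Xp + (b - a))
    have h2 := (abs_le.1 (hfst (Xp + (b - a)) c (Ioo_subset_Icc_self hc))).1
    have h3 := hp c (Ioo_subset_Icc_self hc) (X (Xp + (b - a)) c).1 (X (Xp + (b - a)) c).2
      (by linarith)
    have h4 : 0 < ((X (Xp + (b - a)) b).2 - 0) / (b - a) := by
      rw [← hc']
      exact h3
    have h5 : 0 < b - a := by linarith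
    rw [div_pos_iff_of_pos_right h5] at h4
    linarith
  have hneg : (X (Xm - (b - a)) b).2 ≤ 0 := by
    obtain ⟨c, hc, hc'⟩ := hmvt (Xm - (b - a))
    have h2 := (abs_le.1 (hfst (Xm - (b - a)) c (Ioo_subset_Icc_self hc))).2
    have h3 := hm c (Ioo_subset_Icc_self hc) (X (Xm - (b - a)) c).1 (X (Xm - (b - a)) c).2
      (by linarith)
    have h4 : ((X (Xm - (b - a)) b).2 - 0) / (b - a) < 0 := by
      rw [← hc']
      exact h3
    have h5 : 0 < b - a := by linarith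
    rw [div_neg_iff] at h4
    rcases h4 with h4 | h4
    · linarith [h4.2]
    · linarith [h4.1]
  obtain ⟨s, hs⟩ := mem_range_of_exists_le_of_exists_ge hcont ⟨_, hneg⟩ ⟨_, hpos⟩
  exact ⟨X s, hX s, by rw [hXa], hs⟩

end GS
end

section

open Real Set

namespace GS

private theorem rev_mem {t : ℝ} (ht : t ∈ Ioo 0 π) : π - t ∈ Ioo 0 π := ⟨by linarith [ht.2], by linarith [ht.1]⟩

private theorem rev_C1 {S : Set ℝ} {f : ℝ → ℝ → ℝ} (hf : C1 S f) : C1 S (fun t θ => f (π - t) θ) := by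
  have h : ContDiffOn ℝ 1 (fun x : ℝ × ℝ => ((π - x.1, x.2) : ℝ × ℝ)) (Ioo 0 π ×ˢ S) := by
    apply ContDiff.contDiffOn
    fun_prop
  exact ContDiffOn.comp (t := Ioo 0 π ×ˢ S) hf h fun x hx => ⟨rev_mem hx.1, hx.2⟩

private theorem rev_dt (f : ℝ → ℝ → ℝ) (t θ : ℝ) : dt (fun t θ => f (π - t) θ) t θ = -dt f (π - t) θ := by
  unfold dt
  exact deriv_comp_const_sub (f := fun s => f s θ) π t

private theorem rev_dh (f : ℝ → ℝ → ℝ) (t θ : ℝ) : dh (fun t θ => f (π - t) θ) t θ = dh f (π - t) θ := rfl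

private theorem rev_sin1 (t θ : ℝ) : sin (π - t + θ) = sin (t - θ) := by
  rw [← sin_pi_sub (t - θ)]
  congr 1
  ring

private theorem rev_sin2 (t θ : ℝ) : sin (π - t - θ) = sin (t + θ) := by
  rw [← sin_pi_sub (t + θ)]
  congr 1
  ring

private theorem rev_cos1 (t θ : ℝ) : cos (π - t + θ) = -cos (t - θ) := by
  rw [← cos_pi_sub (t - θ)]
  congr 1
  ring

private theorem rev_cos2 (t θ : ℝ) : cos (π - t - θ) = -cos (t + θ) := by
  rw [← cos_pi_sub (t + θ)]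
  congr 1
  ring

/-- TASK SyB. The time reversal `t → π - t` of a package: `p^s(t,θ) = -p(π-t, θ)`,
`q^s(t,θ) = q(π-t, θ)`, `A^s(t,θ) = B(π-t, θ)`, `B^s = A`, `At^s = Bt`, `Bt^s = At` (at `(π-t, θ)`).
Proof: as for the reflection: `dt f^s t θ = -dt f (π-t) θ`, `dh f^s t θ = dh f (π-t) θ`;
`sin ((π - t) + θ) = sin (t - θ)`, `cos ((π - t) + θ) = -cos (t - θ)`, `sin ((π - t) - θ) = sin (t + θ)`,
`cos ((π - t) - θ) = -cos (t + θ)`, `cos (π - t)/sin (π - t) = -cos t/sin t`. E.g. `cu` for the reversed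
package is `cv` at `(π - t, θ)` multiplied by `-1`, and `cv` is `cu` at `(π - t, θ)` multiplied by `-1`. -/
theorem Dat.exists_rev (D : Dat) : ∃ D' : Dat,
    D'.p = (fun t θ => -D.p (π - t) θ) ∧ D'.q = (fun t θ => D.q (π - t) θ) := by
  refine ⟨{ p := fun t θ => -D.p (π - t) θ
            q := fun t θ => D.q (π - t) θ
            A := fun t θ => D.B (π - t) θ
            B := fun t θ => D.A (π - t) θ
            At := fun t θ => D.Bt (π - t) θ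
            Bt := fun t θ => D.At (π - t) θ
            cp := ?_, cq := rev_C1 D.cq, cA := rev_C1 D.cB, cB := rev_C1 D.cA, cAt := rev_C1 D.cBt
            cBt := rev_C1 D.cAt
            nA := fun t ht θ hθ => D.nB _ (rev_mem ht) θ hθ
            nB := fun t ht θ hθ => D.nA _ (rev_mem ht) θ hθ
            nAt := fun t ht θ hθ => D.nBt _ (rev_mem ht) θ hθ
            nBt := fun t ht θ hθ => D.nAt _ (rev_mem ht) θ hθ
            leA := ?_, leB := ?_, trA := ?_, trB := ?_, en := ?_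
            ax0 := fun t ht => (D.ax0 _ (rev_mem ht)).symm
            ax1 := fun t ht => (D.ax1 _ (rev_mem ht)).symm
            cu := ?_, cv := ?_ }, rfl, rfl⟩
  · exact (rev_C1 D.cp).neg
  · intro t ht θ hθ
    have h := D.leB _ (rev_mem ht) θ hθ
    rwa [sin_pi_sub] at h
  · intro t ht θ hθ
    have h := D.leA _ (rev_mem ht) θ hθ
    rwa [sin_pi_sub] at h
  · intro t ht θ hθ
    have h := D.trB _ (rev_mem ht) θ hθ
    rw [sin_pi_sub, rev_sin1, mul_comm (D.A (π - t) θ)] at h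
    rw [rev_dt, rev_dh]
    rw [abs_sub_comm] at h
    rwa [neg_add_eq_sub]
  · intro t ht θ hθ
    have h := D.trA _ (rev_mem ht) θ hθ
    rw [sin_pi_sub, rev_sin2, mul_comm (D.A (π - t) θ)] at h
    rw [rev_dt, rev_dh]
    rw [← abs_neg] at h
    rwa [← neg_add']
  · intro t ht θ hθ
    have h := D.en _ (rev_mem ht) θ hθ
    rw [sin_pi_sub, cos_pi_sub, neg_div, abs_neg] at h
    rw [rev_dt, rev_dt, rev_dh, rev_dh]
    rw [← abs_neg] at h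
    have e1 : -dt D.Bt (π - t) θ + -dt D.At (π - t) θ - (dh D.At (π - t) θ - dh D.Bt (π - t) θ) =
      -(dt D.At (π - t) θ + dt D.Bt (π - t) θ - (dh D.Bt (π - t) θ - dh D.At (π - t) θ)) := by ring
    rw [e1, add_comm (D.Bt (π - t) θ)]
    exact h
  · intro t ht θ hθ
    have h := D.cv _ (rev_mem ht) θ hθ
    rw [sin_pi_sub, rev_sin1, rev_cos1] at h
    show sin (t - θ) * (-D.p (π - t) θ - D.q (π - t) θ) = cos (t - θ) - D.B (π - t) θ - _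
    linear_combination -h
  · intro t ht θ hθ
    have h := D.cu _ (rev_mem ht) θ hθ
    rw [sin_pi_sub, rev_sin2, rev_cos2] at h
    show sin (t + θ) * (-D.p (π - t) θ + D.q (π - t) θ) = cos (t + θ) + D.A (π - t) θ + _
    linear_combination -h

end GS
end
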