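import Pool.Agent.Lib.MP_898b37_mp.GS.Geb
import Pool.Agent.Lib.MP_898b37_mp.GS.Red
import Pool.Agent.Lib.MP_898b37_mp.GS.CalcA
import Pool.Agent.Lib.MP_898b37_mp.GS.CalcB
import Pool.Agent.Lib.MP_898b37_mp.GS.CalcC
import Pool.Agent.Lib.MP_898b37_mp.GS.Reg

section

open Real Set
open scoped ContDiff Matrix

namespace GS

/-- the full contraction of the field -/
private theorem Gek_FF (g0 g1 u w v x0 x1 y0 y1 : ℝ) (Gi F : Matrix (Fin 4) (Fin 4) ℝ)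
    (hG : Gi = !![g0, 0, 0, 0; 0, g1, 0, 0; 0, 0, u, w; 0, 0, w, v])
    (hF : F = !![0, 0, x0, y0; 0, 0, x1, y1; -x0, -x1, 0, 0; -y0, -y1, 0, 0]) :
    ∑ c, ∑ d, F c d * (∑ k, ∑ l, Gi c k * Gi d l * F k l) =
      2 * g0 * (u * x0 ^ 2 + 2 * w * x0 * y0 + v * y0 ^ 2) +
      2 * g1 * (u * x1 ^ 2 + 2 * w * x1 * y1 + v * y1 ^ 2) := by
  subst hG hF
  simp [Fin.sum_univ_four]
  ring

/-- the stress tensor in terms of the entries -/
private theorem Gek_st (a P Q x y : ℝ → ℝ → ℝ) {t θ : ℝ} {p : Pt} (hp : p ∈ chart) (h0 : p 0 = t)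
    (h1 : p 1 = θ) (i j : Fin 4) {R A B e q x0 x1 y0 y1 : ℝ} (hR : R = sin t * sin θ)
    (hA : A = exp (P t θ)) (hB : B = exp (-P t θ)) (he : e = exp (-(2 * a t θ))) (hq : q = Q t θ)
    (hx0 : x0 = dt x t θ) (hx1 : x1 = dh x t θ) (hy0 : y0 = dt y t θ) (hy1 : y1 = dh y t θ) :
    8 * π * stress (mPQ a P Q) (fxy x y) i j p =
      2 * ((∑ c, ∑ d, !![-e, 0, 0, 0; 0, e, 0, 0; 0, 0, (A * q ^ 2 + B) / R, -(A * q) / R;
          0, 0, -(A * q) / R, A / R] c d *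
        !![0, 0, x0, y0; 0, 0, x1, y1; -x0, -x1, 0, 0; -y0, -y1, 0, 0] i c *
        !![0, 0, x0, y0; 0, 0, x1, y1; -x0, -x1, 0, 0; -y0, -y1, 0, 0] j d) -
      (1 / 2) * !![-e⁻¹, 0, 0, 0; 0, e⁻¹, 0, 0; 0, 0, R * A, R * A * q;
        0, 0, R * A * q, R * A * q ^ 2 + R * B] i j *
      (e / R * ((B * x1 ^ 2 + A * (y1 - q * x1) ^ 2) - (B * x0 ^ 2 + A * (y0 - q * x0) ^ 2)))) := by
  have hinv : (mPQ a P Q p)⁻¹ = !![-e, 0, 0, 0; 0, e, 0, 0; 0, 0, (A * q ^ 2 + B) / R, -(A * q) / R;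
          0, 0, -(A * q) / R, A / R] := by
    rw [mPQ_inv a P Q hp, h0, h1, hR, hA, hB, he, hq]
  have hm : mPQ a P Q p = !![-e⁻¹, 0, 0, 0; 0, e⁻¹, 0, 0; 0, 0, R * A, R * A * q;
        0, 0, R * A * q, R * A * q ^ 2 + R * B] := by
    rw [he, exp_neg, inv_inv, hR, hA, hB, hq, ← h0, ← h1]
    rfl
  have hF : fxy x y p = !![0, 0, x0, y0; 0, 0, x1, y1; -x0, -x1, 0, 0; -y0, -y1, 0, 0] := by
    rw [hx0, hx1, hy0, hy1, ← h0, ← h1]
    rfl
  have hFF := Gek_FF (-e) e ((A * q ^ 2 + B) / R) (-(A * q) / R) (A / R) x0 x1 y0 y1 _ _ hinv hF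
  have hRne : R ≠ 0 := by
    rw [hR, ← h0, ← h1]
    exact mul_ne_zero (sin_pos_of_pos_of_lt_pi hp.1.1 hp.1.2).ne' (sin_pos_of_pos_of_lt_pi hp.2.1 hp.2.2).ne'
  have hπ : π ≠ 0 := pi_ne_zero
  have h3 : ∑ c, ∑ d, fxy x y p c d * up (mPQ a P Q) (fxy x y) c d p =
      2 * (e / R * ((B * x1 ^ 2 + A * (y1 - q * x1) ^ 2) - (B * x0 ^ 2 + A * (y0 - q * x0) ^ 2))) := by
    unfold up
    rw [hFF]
    field_simp
    ring
  unfold stress
  rw [h3, ← hinv, ← hm, ← hF]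
  field_simp
  ring

/-- TASK Gek. Components of the stress tensor for `mPQ a P Q` and `fxy x y` (checked numerically), with
`D_t = y_t - Q x_t`, `D_θ = y_θ - Q x_θ`, `R = sin t sin θ`. Proof: `mPQ_inv`, `Fin.sum_univ_four`, unfold
`stress`, `up`, `fxy`, `mPQ`, then `field_simp; ring` with `exp (-P) = (exp P)⁻¹`,
`exp (-(2a)) = (exp (2a))⁻¹`. -/
theorem stress_00 (a P Q x y : ℝ → ℝ → ℝ) {t θ : ℝ} {p : Pt} (hp : p ∈ chart) (h0 : p 0 = t)
    (h1 : p 1 = θ) :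
    8 * π * stress (mPQ a P Q) (fxy x y) 0 0 p = (1 / (sin t * sin θ)) *
      (exp (-P t θ) * (dt x t θ ^ 2 + dh x t θ ^ 2)
        + exp (P t θ) * ((dt y t θ - Q t θ * dt x t θ) ^ 2 + (dh y t θ - Q t θ * dh x t θ) ^ 2)) := by
  have hRne : sin t * sin θ ≠ 0 := by
    rw [← h0, ← h1]
    exact mul_ne_zero (sin_pos_of_pos_of_lt_pi hp.1.1 hp.1.2).ne' (sin_pos_of_pos_of_lt_pi hp.2.1 hp.2.2).ne'
  have he : exp (-(2 * a t θ)) ≠ 0 := (exp_pos _).ne'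
  have hAB : exp (P t θ) * exp (-P t θ) = 1 := by rw [← exp_add]; simp
  rw [Gek_st a P Q x y hp h0 h1 0 0 rfl rfl rfl rfl rfl rfl rfl rfl rfl]
  generalize exp (-(2 * a t θ)) = e at he ⊢
  generalize exp (P t θ) = A at hAB ⊢
  generalize exp (-P t θ) = B at hAB ⊢
  generalize sin t * sin θ = R at hRne ⊢
  generalize Q t θ = q
  generalize dt x t θ = x0
  generalize dh x t θ = x1
  generalize dt y t θ = y0
  generalize dh y t θ = y1
  simp [Fin.sum_univ_four]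
  field_simp
  ring

theorem stress_11 (a P Q x y : ℝ → ℝ → ℝ) {t θ : ℝ} {p : Pt} (hp : p ∈ chart) (h0 : p 0 = t)
    (h1 : p 1 = θ) :
    8 * π * stress (mPQ a P Q) (fxy x y) 1 1 p = (1 / (sin t * sin θ)) *
      (exp (-P t θ) * (dt x t θ ^ 2 + dh x t θ ^ 2)
        + exp (P t θ) * ((dt y t θ - Q t θ * dt x t θ) ^ 2 + (dh y t θ - Q t θ * dh x t θ) ^ 2)) := by
  have hRne : sin t * sin θ ≠ 0 := by
    rw [← h0, ← h1]
    exact mul_ne_zero (sin_pos_of_pos_of_lt_pi hp.1.1 hp.1.2).ne' (sin_pos_of_pos_of_lt_pi hp.2.1 hp.2.2).ne'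
  have he : exp (-(2 * a t θ)) ≠ 0 := (exp_pos _).ne'
  have hAB : exp (P t θ) * exp (-P t θ) = 1 := by rw [← exp_add]; simp
  rw [Gek_st a P Q x y hp h0 h1 1 1 rfl rfl rfl rfl rfl rfl rfl rfl rfl]
  generalize exp (-(2 * a t θ)) = e at he ⊢
  generalize exp (P t θ) = A at hAB ⊢
  generalize exp (-P t θ) = B at hAB ⊢
  generalize sin t * sin θ = R at hRne ⊢
  generalize Q t θ = q
  generalize dt x t θ = x0
  generalize dh x t θ = x1
  generalize dt y t θ = y0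
  generalize dh y t θ = y1
  simp [Fin.sum_univ_four]
  field_simp
  ring

theorem stress_01 (a P Q x y : ℝ → ℝ → ℝ) {t θ : ℝ} {p : Pt} (hp : p ∈ chart) (h0 : p 0 = t)
    (h1 : p 1 = θ) :
    8 * π * stress (mPQ a P Q) (fxy x y) 0 1 p = (2 / (sin t * sin θ)) *
      (exp (-P t θ) * (dt x t θ * dh x t θ)
        + exp (P t θ) * ((dt y t θ - Q t θ * dt x t θ) * (dh y t θ - Q t θ * dh x t θ))) := by
  have hRne : sin t * sin θ ≠ 0 := by
    rw [← h0, ← h1]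
    exact mul_ne_zero (sin_pos_of_pos_of_lt_pi hp.1.1 hp.1.2).ne' (sin_pos_of_pos_of_lt_pi hp.2.1 hp.2.2).ne'
  have he : exp (-(2 * a t θ)) ≠ 0 := (exp_pos _).ne'
  have hAB : exp (P t θ) * exp (-P t θ) = 1 := by rw [← exp_add]; simp
  rw [Gek_st a P Q x y hp h0 h1 0 1 rfl rfl rfl rfl rfl rfl rfl rfl rfl]
  generalize exp (-(2 * a t θ)) = e at he ⊢
  generalize exp (P t θ) = A at hAB ⊢
  generalize exp (-P t θ) = B at hAB ⊢
  generalize sin t * sin θ = R at hRne ⊢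
  generalize Q t θ = q
  generalize dt x t θ = x0
  generalize dh x t θ = x1
  generalize dt y t θ = y0
  generalize dh y t θ = y1
  simp [Fin.sum_univ_four]
  field_simp
  ring

theorem stress_22 (a P Q x y : ℝ → ℝ → ℝ) {t θ : ℝ} {p : Pt} (hp : p ∈ chart) (h0 : p 0 = t)
    (h1 : p 1 = θ) :
    8 * π * stress (mPQ a P Q) (fxy x y) 2 2 p = exp (-(2 * a t θ)) *
      ((-dt x t θ ^ 2 + dh x t θ ^ 2) - exp (2 * P t θ) *
        (-(dt y t θ - Q t θ * dt x t θ) ^ 2 + (dh y t θ - Q t θ * dh x t θ) ^ 2)) := by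
  have hRne : sin t * sin θ ≠ 0 := by
    rw [← h0, ← h1]
    exact mul_ne_zero (sin_pos_of_pos_of_lt_pi hp.1.1 hp.1.2).ne' (sin_pos_of_pos_of_lt_pi hp.2.1 hp.2.2).ne'
  have he : exp (-(2 * a t θ)) ≠ 0 := (exp_pos _).ne'
  have hAB : exp (P t θ) * exp (-P t θ) = 1 := by rw [← exp_add]; simp
  rw [Gek_st a P Q x y hp h0 h1 2 2 rfl rfl rfl rfl rfl rfl rfl rfl rfl]
  have hexp : exp (2 * P t θ) = exp (P t θ) ^ 2 := by
    rw [sq, ← exp_add]; congr 1; ring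
  rw [hexp]
  generalize exp (-(2 * a t θ)) = e at he ⊢
  generalize exp (P t θ) = A at hAB ⊢
  generalize exp (-P t θ) = B at hAB ⊢
  generalize sin t * sin θ = R at hRne ⊢
  generalize Q t θ = q
  generalize dt x t θ = x0
  generalize dh x t θ = x1
  generalize dt y t θ = y0
  generalize dh y t θ = y1
  simp [Fin.sum_univ_four]
  field_simp
  linear_combination (-(x1 ^ 2 - x0 ^ 2)) * hAB

theorem stress_23 (a P Q x y : ℝ → ℝ → ℝ) {t θ : ℝ} {p : Pt} (hp : p ∈ chart) (h0 : p 0 = t)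
    (h1 : p 1 = θ) :
    8 * π * stress (mPQ a P Q) (fxy x y) 2 3 p = exp (-(2 * a t θ)) *
      (Q t θ * ((-dt x t θ ^ 2 + dh x t θ ^ 2) - exp (2 * P t θ) *
        (-(dt y t θ - Q t θ * dt x t θ) ^ 2 + (dh y t θ - Q t θ * dh x t θ) ^ 2))
      + 2 * (-(dt x t θ * (dt y t θ - Q t θ * dt x t θ))
        + dh x t θ * (dh y t θ - Q t θ * dh x t θ))) := by
  have hRne : sin t * sin θ ≠ 0 := by
    rw [← h0, ← h1]
    exact mul_ne_zero (sin_pos_of_pos_of_lt_pi hp.1.1 hp.1.2).ne' (sin_pos_of_pos_of_lt_pi hp.2.1 hp.2.2).ne'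
  have he : exp (-(2 * a t θ)) ≠ 0 := (exp_pos _).ne'
  have hAB : exp (P t θ) * exp (-P t θ) = 1 := by rw [← exp_add]; simp
  rw [Gek_st a P Q x y hp h0 h1 2 3 rfl rfl rfl rfl rfl rfl rfl rfl rfl]
  have hexp : exp (2 * P t θ) = exp (P t θ) ^ 2 := by
    rw [sq, ← exp_add]; congr 1; ring
  rw [hexp]
  generalize exp (-(2 * a t θ)) = e at he ⊢
  generalize exp (P t θ) = A at hAB ⊢
  generalize exp (-P t θ) = B at hAB ⊢
  generalize sin t * sin θ = R at hRne ⊢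
  generalize Q t θ = q
  generalize dt x t θ = x0
  generalize dh x t θ = x1
  generalize dt y t θ = y0
  generalize dh y t θ = y1
  simp [Fin.sum_univ_four]
  field_simp
  linear_combination (-(q * (x1 ^ 2 - x0 ^ 2))) * hAB

end GS
end

section

open Real Set
open scoped ContDiff Matrix

namespace GS

/-- TASK Gel. The densities `√|det g| F^{ab}` for `mPQ a P Q` and `fxy x y` on the chart:
`√|g| F^{02} = -(e^{-P} x_t - Q e^P D_t)`, `√|g| F^{12} = e^{-P} x_θ - Q e^P D_θ`,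
`√|g| F^{03} = -e^P D_t`, `√|g| F^{13} = e^P D_θ`, `√|g| F^{23} = 0`, `√|g| F^{22} = √|g| F^{33} = 0`
(checked numerically). Proof: `mPQ_inv`, `mPQ_sqrt`, `Fin.sum_univ_four`, unfold `up`, `fxy`. -/
theorem dens_up (a P Q x y : ℝ → ℝ → ℝ) {p : Pt} (hp : p ∈ chart) :
    √|(mPQ a P Q p).det| * up (mPQ a P Q) (fxy x y) 0 2 p =
      -(exp (-P (p 0) (p 1)) * dt x (p 0) (p 1)
        - Q (p 0) (p 1) * exp (P (p 0) (p 1)) * Det Q x y (p 0) (p 1)) ∧
    √|(mPQ a P Q p).det| * up (mPQ a P Q) (fxy x y) 1 2 p =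
      exp (-P (p 0) (p 1)) * dh x (p 0) (p 1)
        - Q (p 0) (p 1) * exp (P (p 0) (p 1)) * Deh Q x y (p 0) (p 1) ∧
    √|(mPQ a P Q p).det| * up (mPQ a P Q) (fxy x y) 0 3 p =
      -(exp (P (p 0) (p 1)) * Det Q x y (p 0) (p 1)) ∧
    √|(mPQ a P Q p).det| * up (mPQ a P Q) (fxy x y) 1 3 p =
      exp (P (p 0) (p 1)) * Deh Q x y (p 0) (p 1) ∧
    up (mPQ a P Q) (fxy x y) 2 2 p = 0 ∧ up (mPQ a P Q) (fxy x y) 3 3 p = 0 ∧
    up (mPQ a P Q) (fxy x y) 2 3 p = 0 ∧ up (mPQ a P Q) (fxy x y) 3 2 p = 0 := by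
  have h0 : sin (p 0) ≠ 0 := (sin_pos_of_pos_of_lt_pi hp.1.1 hp.1.2).ne'
  have h1 : sin (p 1) ≠ 0 := (sin_pos_of_pos_of_lt_pi hp.2.1 hp.2.2).ne'
  have hE : exp (2 * a (p 0) (p 1)) * exp (-(2 * a (p 0) (p 1))) = 1 := by
    rw [← exp_add, add_neg_cancel, exp_zero]
  obtain ⟨E, hEd⟩ : ∃ E, E = exp (2 * a (p 0) (p 1)) := ⟨_, rfl⟩
  obtain ⟨E', hEd'⟩ : ∃ E', E' = exp (-(2 * a (p 0) (p 1))) := ⟨_, rfl⟩
  obtain ⟨u, hu⟩ : ∃ u, u = exp (P (p 0) (p 1)) := ⟨_, rfl⟩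
  obtain ⟨v, hv⟩ : ∃ v, v = exp (-P (p 0) (p 1)) := ⟨_, rfl⟩
  unfold up Det Deh
  rw [mPQ_sqrt a P Q hp, mPQ_inv a P Q hp]
  rw [← hEd, ← hEd'] at hE
  rw [← hEd, ← hEd', ← hu, ← hv]
  simp only [Fin.sum_univ_four, fxy]
  refine ⟨?_, ?_, ?_, ?_, ?_, ?_, ?_, ?_⟩
  all_goals simp
  · field_simp
    linear_combination (-(dt x (p 0) (p 1) * (u * Q (p 0) (p 1) ^ 2 + v)) + u * Q (p 0) (p 1) * dt y (p 0) (p 1)) * hE
  · field_simp
    linear_combination (dh x (p 0) (p 1) * (u * Q (p 0) (p 1) ^ 2 + v) - u * Q (p 0) (p 1) * dh y (p 0) (p 1)) * hE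
  · field_simp
    linear_combination (-(u * (dt y (p 0) (p 1) - Q (p 0) (p 1) * dt x (p 0) (p 1)))) * hE
  · field_simp
    linear_combination (u * (dh y (p 0) (p 1) - Q (p 0) (p 1) * dh x (p 0) (p 1))) * hE

/-- The two Maxwell equations. Proof: `∑_a ∂_a (√|g| F^{ab}) = 0` for `b = 3` is
`-(e^P D_t)_t + (e^P D_θ)_θ = 0` (`pd_congr`, `pd0`, `pd1`; the terms `a = 2, 3` vanish), i.e. `ey` times
`-e^P`; for `b = 2`: `-(e^{-P} x_t - Q e^P D_t)_t + (e^{-P} x_θ - Q e^P D_θ)_θ = 0`, and the first equation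
gives `ex`. -/
theorem maxwell {a P Q x y : ℝ → ℝ → ℝ} (hP : Sm (Ioo 0 π) P) (hQ : Sm (Ioo 0 π) Q)
    (hx : Sm (Ioo 0 π) x) (hy : Sm (Ioo 0 π) y)
    (h : ∀ p ∈ chart, ∀ b, ∑ c, pd c (fun q => √|(mPQ a P Q q).det| *
      up (mPQ a P Q) (fxy x y) c b q) p = 0) {t θ : ℝ} (ht : t ∈ Ioo 0 π) (hθ : θ ∈ Ioo 0 π) :
    (dt P t θ * Det Q x y t θ - dh P t θ * Deh Q x y t θ + (dt (dt y) t θ - dh (dh y) t θ)
      - (dt Q t θ * dt x t θ - dh Q t θ * dh x t θ)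
      - Q t θ * (dt (dt x) t θ - dh (dh x) t θ) = 0) ∧
    ((dt (dt x) t θ - dh (dh x) t θ) - (dt P t θ * dt x t θ - dh P t θ * dh x t θ) =
      exp (2 * P t θ) * (dt Q t θ * Det Q x y t θ - dh Q t θ * Deh Q x y t θ)) := by
  have hO : IsOpen (Ioo (0 : ℝ) π) := isOpen_Ioo
  have hPt := hP.c1.hasDt hO ht hθ
  have hPh := hP.c1.hasDh hO ht hθ
  have hQt := hQ.c1.hasDt hO ht hθ
  have hQh := hQ.c1.hasDh hO ht hθ
  have hxt := (hx.dt hO).c1.hasDt hO ht hθ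
  have hxh := (hx.dh hO).c1.hasDh hO ht hθ
  have hyt := (hy.dt hO).c1.hasDt hO ht hθ
  have hyh := (hy.dh hO).c1.hasDh hO ht hθ
  have hDt : HasDerivAt (fun s => Det Q x y s θ)
      (dt (dt y) t θ - (dt Q t θ * dt x t θ + Q t θ * dt (dt x) t θ)) t := hyt.sub (hQt.mul hxt)
  have hDh : HasDerivAt (fun s => Deh Q x y t s)
      (dh (dh y) t θ - (dh Q t θ * dh x t θ + Q t θ * dh (dh x) t θ)) θ := hyh.sub (hQh.mul hxh)
  obtain ⟨p, hpd⟩ : ∃ p : Pt, p = ![t, θ, 0, 0] := ⟨_, rfl⟩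
  have hp0 : p 0 = t := by rw [hpd]; rfl
  have hp1 : p 1 = θ := by rw [hpd]; rfl
  have hp : p ∈ chart := ⟨by rw [hp0]; exact ht, by rw [hp1]; exact hθ⟩
  have hz : ∀ c : Fin 4, pd c (fun _ => (0 : ℝ)) p = 0 := fun c => by
    unfold pd
    exact deriv_const _ _
  -- the four derivatives
  have h02 : pd 0 (fun q => √|(mPQ a P Q q).det| * up (mPQ a P Q) (fxy x y) 0 2 q) p =
      -(exp (-P t θ) * (-dt P t θ) * dt x t θ + exp (-P t θ) * dt (dt x) t θ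
        - ((dt Q t θ * exp (P t θ) + Q t θ * (exp (P t θ) * dt P t θ)) * Det Q x y t θ
          + Q t θ * exp (P t θ) * (dt (dt y) t θ - (dt Q t θ * dt x t θ + Q t θ * dt (dt x) t θ)))) := by
    rw [pd_congr hp (fun q hq => (dens_up a P Q x y hq).1),
      pd0 (fun t θ => -(exp (-P t θ) * dt x t θ - Q t θ * exp (P t θ) * Det Q x y t θ)), hp0, hp1]
    exact ((hPt.neg.exp.mul hxt).sub ((hQt.mul hPt.exp).mul hDt)).neg.deriv
  have h12 : pd 1 (fun q => √|(mPQ a P Q q).det| * up (mPQ a P Q) (fxy x y) 1 2 q) p =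
      exp (-P t θ) * (-dh P t θ) * dh x t θ + exp (-P t θ) * dh (dh x) t θ
        - ((dh Q t θ * exp (P t θ) + Q t θ * (exp (P t θ) * dh P t θ)) * Deh Q x y t θ
          + Q t θ * exp (P t θ) * (dh (dh y) t θ - (dh Q t θ * dh x t θ + Q t θ * dh (dh x) t θ))) := by
    rw [pd_congr hp (fun q hq => (dens_up a P Q x y hq).2.1),
      pd1 (fun t θ => exp (-P t θ) * dh x t θ - Q t θ * exp (P t θ) * Deh Q x y t θ), hp0, hp1]
    exact ((hPh.neg.exp.mul hxh).sub ((hQh.mul hPh.exp).mul hDh)).deriv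
  have h03 : pd 0 (fun q => √|(mPQ a P Q q).det| * up (mPQ a P Q) (fxy x y) 0 3 q) p =
      -(exp (P t θ) * dt P t θ * Det Q x y t θ
        + exp (P t θ) * (dt (dt y) t θ - (dt Q t θ * dt x t θ + Q t θ * dt (dt x) t θ))) := by
    rw [pd_congr hp (fun q hq => (dens_up a P Q x y hq).2.2.1),
      pd0 (fun t θ => -(exp (P t θ) * Det Q x y t θ)), hp0, hp1]
    exact (hPt.exp.mul hDt).neg.deriv
  have h13 : pd 1 (fun q => √|(mPQ a P Q q).det| * up (mPQ a P Q) (fxy x y) 1 3 q) p =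
      exp (P t θ) * dh P t θ * Deh Q x y t θ
        + exp (P t θ) * (dh (dh y) t θ - (dh Q t θ * dh x t θ + Q t θ * dh (dh x) t θ)) := by
    rw [pd_congr hp (fun q hq => (dens_up a P Q x y hq).2.2.2.1),
      pd1 (fun t θ => exp (P t θ) * Deh Q x y t θ), hp0, hp1]
    exact (hPh.exp.mul hDh).deriv
  have h22 : pd 2 (fun q => √|(mPQ a P Q q).det| * up (mPQ a P Q) (fxy x y) 2 2 q) p = 0 := by
    rw [pd_congr (g := fun _ => 0) hp (fun q hq => by rw [(dens_up a P Q x y hq).2.2.2.2.1, mul_zero])]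
    exact hz 2
  have h33 : pd 3 (fun q => √|(mPQ a P Q q).det| * up (mPQ a P Q) (fxy x y) 3 3 q) p = 0 := by
    rw [pd_congr (g := fun _ => 0) hp (fun q hq => by rw [(dens_up a P Q x y hq).2.2.2.2.2.1, mul_zero])]
    exact hz 3
  have h23 : pd 2 (fun q => √|(mPQ a P Q q).det| * up (mPQ a P Q) (fxy x y) 2 3 q) p = 0 := by
    rw [pd_congr (g := fun _ => 0) hp (fun q hq => by rw [(dens_up a P Q x y hq).2.2.2.2.2.2.1, mul_zero])]
    exact hz 2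
  have h32 : pd 3 (fun q => √|(mPQ a P Q q).det| * up (mPQ a P Q) (fxy x y) 3 2 q) p = 0 := by
    rw [pd_congr (g := fun _ => 0) hp (fun q hq => by rw [(dens_up a P Q x y hq).2.2.2.2.2.2.2, mul_zero])]
    exact hz 3
  have e3 := h p hp 3
  have e2 := h p hp 2
  rw [Fin.sum_univ_four, h03, h13, h23, h33] at e3
  rw [Fin.sum_univ_four, h02, h12, h22, h32] at e2
  have hu : exp (P t θ) ≠ 0 := (exp_pos _).ne'
  have huv : exp (P t θ) * exp (-P t θ) = 1 := by rw [← exp_add, add_neg_cancel, exp_zero]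
  have hu2 : exp (2 * P t θ) = exp (P t θ) ^ 2 := by rw [two_mul, exp_add, sq]
  have e4 : exp (P t θ) * (dt P t θ * Det Q x y t θ - dh P t θ * Deh Q x y t θ
      + (dt (dt y) t θ - dh (dh y) t θ) - (dt Q t θ * dt x t θ - dh Q t θ * dh x t θ)
      - Q t θ * (dt (dt x) t θ - dh (dh x) t θ)) = 0 := by
    linear_combination (-1) * e3
  have e5 := (mul_eq_zero.1 e4).resolve_left hu
  refine ⟨e5, ?_⟩
  rw [hu2]
  have e6 : exp (P t θ) * (exp (-P t θ) * ((dt (dt x) t θ - dh (dh x) t θ)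
      - (dt P t θ * dt x t θ - dh P t θ * dh x t θ))) =
      exp (P t θ) * (exp (P t θ) * (dt Q t θ * Det Q x y t θ - dh Q t θ * Deh Q x y t θ)) := by
    linear_combination (-exp (P t θ)) * e2 + exp (P t θ) ^ 2 * Q t θ * e5
  linear_combination e6 - ((dt (dt x) t θ - dh (dh x) t θ)
      - (dt P t θ * dt x t θ - dh P t θ * dh x t θ)) * huv

end GS
end

section

open Real Set

namespace GS

/-- The densities are smooth on the square. -/
theorem sm_AA {P Q x y : ℝ → ℝ → ℝ} (hP : Sm (Ioo 0 π) P) (hQ : Sm (Ioo 0 π) Q)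
    (hx : Sm (Ioo 0 π) x) (hy : Sm (Ioo 0 π) y) : Sm (Ioo 0 π) (AA P Q x y) := by
  have o : IsOpen (Ioo (0 : ℝ) π) := isOpen_Ioo
  exact ((((((Sm.fst _ Real.contDiff_sin).mul (Sm.snd _ Real.contDiff_sin)).div (Sm.const _ 4)
      (fun _ _ _ _ => by norm_num))).mul
    ((((hP.dt o).sub (hP.dh o)).pow 2).add
      ((((Sm.const _ 2).mul hP).exp).mul (((hQ.dt o).sub (hQ.dh o)).pow 2)))).add
    ((hP.neg.exp).mul (((hx.dt o).sub (hx.dh o)).pow 2))).add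
    ((hP.exp).mul ((((hy.dt o).sub (hQ.mul (hx.dt o))).sub
      ((hy.dh o).sub (hQ.mul (hx.dh o)))).pow 2))

theorem sm_BB {P Q x y : ℝ → ℝ → ℝ} (hP : Sm (Ioo 0 π) P) (hQ : Sm (Ioo 0 π) Q)
    (hx : Sm (Ioo 0 π) x) (hy : Sm (Ioo 0 π) y) : Sm (Ioo 0 π) (BB P Q x y) := by
  have o : IsOpen (Ioo (0 : ℝ) π) := isOpen_Ioo
  exact ((((((Sm.fst _ Real.contDiff_sin).mul (Sm.snd _ Real.contDiff_sin)).div (Sm.const _ 4)
      (fun _ _ _ _ => by norm_num))).mul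
    ((((hP.dt o).add (hP.dh o)).pow 2).add
      ((((Sm.const _ 2).mul hP).exp).mul (((hQ.dt o).add (hQ.dh o)).pow 2)))).add
    ((hP.neg.exp).mul (((hx.dt o).add (hx.dh o)).pow 2))).add
    ((hP.exp).mul ((((hy.dt o).sub (hQ.mul (hx.dt o))).add
      ((hy.dh o).sub (hQ.mul (hx.dh o)))).pow 2))

/-- TASK Rea. Transport identity for `A` (checked numerically, sources included):
`A_t + A_θ = (1/4) sin (t - θ) (P_t² - P_θ² + e^{2P}(Q_t² - Q_θ²))`.

Proof. `A_t + A_θ` is the derivative at `s = 0` of `A(t + s, θ + s)` (`C1.line` with `c = d = 1`). Along the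
line `P_t - P_θ` has derivative `P_tt - P_θθ` (mixed terms cancel by `Sm.comm`), `P` has `P_t + P_θ`,
`D_t - D_θ = (y_t - y_θ) - Q (x_t - x_θ)` has derivative
`(y_tt - y_θθ) - (Q_t + Q_θ)(x_t - x_θ) - Q (x_tt - x_θθ)`, `R` has `cos t sin θ + sin t cos θ`.
Insert `eP`, `eQ`, `ey`, `ex` (each gives `P_tt - P_θθ`, `Q_tt - Q_θθ`, ... ; multiply by `R`) and compare:
polynomial identity in the first derivatives, `E = exp P`, `exp (-P) = E⁻¹`, `exp (2P) = E²`,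
`sin (t - θ) = sin t cos θ - cos t sin θ`. -/
theorem Red.transA {a P Q x y : ℝ → ℝ → ℝ} (h : Red a P Q x y) {t θ : ℝ} (ht : t ∈ Ioo 0 π)
    (hθ : θ ∈ Ioo 0 π) : dt (AA P Q x y) t θ + dh (AA P Q x y) t θ =
      sin (t - θ) / 4 * ((dt P t θ ^ 2 - dh P t θ ^ 2)
        + exp (2 * P t θ) * (dt Q t θ ^ 2 - dh Q t θ ^ 2)) := by
  have o : IsOpen (Ioo (0 : ℝ) π) := isOpen_Ioo
  have L : ∀ {f : ℝ → ℝ → ℝ}, Sm (Ioo 0 π) f →
      HasDerivAt (fun s => f (t + s) (θ + s)) (dt f t θ + dh f t θ) 0 := by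
    intro f hf
    have := hf.c1.line isOpen_Ioo ht hθ 1 1
    simpa only [one_mul] using this
  have dS : HasDerivAt (fun s => sin (t + s)) (cos t) 0 := by
    have := ((hasDerivAt_id (0 : ℝ)).const_add t).sin
    simpa using this
  have ds : HasDerivAt (fun s => sin (θ + s)) (cos θ) 0 := by
    have := ((hasDerivAt_id (0 : ℝ)).const_add θ).sin
    simpa using this
  have LP := L h.sP
  have LPt := L (h.sP.dt o)
  have LPh := L (h.sP.dh o)
  have LQ := L h.sQ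
  have LQt := L (h.sQ.dt o)
  have LQh := L (h.sQ.dh o)
  have Lxt := L (h.sx.dt o)
  have Lxh := L (h.sx.dh o)
  have Lyt := L (h.sy.dt o)
  have Lyh := L (h.sy.dh o)
  have h1 := L (sm_AA h.sP h.sQ h.sx h.sy)
  have h2 := (((((dS.fun_mul ds).div_const 4).fun_mul
    (((LPt.fun_sub LPh).fun_pow 2).fun_add
      (((LP.const_mul 2).exp).fun_mul ((LQt.fun_sub LQh).fun_pow 2)))).fun_add
    ((LP.fun_neg.exp).fun_mul ((Lxt.fun_sub Lxh).fun_pow 2))).fun_add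
    (LP.exp.fun_mul (((Lyt.fun_sub (LQ.fun_mul Lxt)).fun_sub
      (Lyh.fun_sub (LQ.fun_mul Lxh))).fun_pow 2)))
  have h3 := HasDerivAt.unique h1 h2
  have cP := h.sP.comm o ht hθ
  have cQ := h.sQ.comm o ht hθ
  have cx := h.sx.comm o ht hθ
  have cy := h.sy.comm o ht hθ
  have eP := h.eP t ht θ hθ
  have eQ := h.eQ t ht θ hθ
  have ey := h.ey t ht θ hθ
  have ex := h.ex t ht θ hθ
  have e2 : exp (2 * P t θ) = exp (P t θ) ^ 2 := by
    rw [two_mul, Real.exp_add, sq]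
  have ei : exp (-P t θ) * exp (P t θ) = 1 := by
    rw [← Real.exp_add, neg_add_cancel, Real.exp_zero]
  rw [h3]
  simp only [add_zero, e2, sin_sub, Det, Deh, Nat.cast_ofNat, Nat.add_one_sub_one, pow_one,
    cP, cQ, cx, cy] at eP eQ ey ex ⊢
  generalize exp (-P t θ) = Ei at *
  generalize exp (P t θ) = E at *
  generalize dt (dt P) t θ = Ptt at *
  generalize dh (dh P) t θ = Phh at *
  generalize dh (dt P) t θ = Pth at *
  generalize dt (dt Q) t θ = Qtt at *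
  generalize dh (dh Q) t θ = Qhh at *
  generalize dh (dt Q) t θ = Qth at *
  generalize dt (dt x) t θ = xtt at *
  generalize dh (dh x) t θ = xhh at *
  generalize dh (dt x) t θ = xth at *
  generalize dt (dt y) t θ = ytt at *
  generalize dh (dh y) t θ = yhh at *
  generalize dh (dt y) t θ = yth at *
  generalize dt P t θ = Pt at *
  generalize dh P t θ = Ph at *
  generalize dt Q t θ = Qt at *
  generalize dh Q t θ = Qh at *
  generalize dt x t θ = xt at *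
  generalize dh x t θ = xh at *
  generalize dt y t θ = yt at *
  generalize dh y t θ = yh at *
  generalize Q t θ = Q0 at *
  generalize sin t = S at *
  generalize cos t = C at *
  generalize sin θ = s at *
  generalize cos θ = c at *
  clear h1 h2 h3 LP LPt LPh LQ LQt LQh Lxt Lxh Lyt Lyh L dS ds
  linear_combination (Pt - Ph) / 2 * eP + E ^ 2 * (Qt - Qh) / 2 * eQ + 2 * Ei * (xt - xh) * ex
    + 2 * E * ((yt - Q0 * xt) - (yh - Q0 * xh)) * ey
    + 2 * E * ((Qt - Qh) * (xh * (yh - Q0 * xh) - xt * (yt - Q0 * xt))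
      + (xt - xh) * (Qt * (yt - Q0 * xt) - Qh * (yh - Q0 * xh))) * ei

end GS
end

section

open Real Set

namespace GS

private theorem Rec_sq {f : ℝ → ℝ} {f' t : ℝ} (h : HasDerivAt f f' t) :
    HasDerivAt (fun s => f s ^ 2) (2 * f t * f') t := by
  refine (h.pow 2).congr_deriv ?_
  simp

/-- Derivative of a density (general form with functions of one variable). -/
private theorem Rec_dens {r u₁ q₁ x₁ d₁ p : ℝ → ℝ} {r' u' q' x' d' p' t : ℝ} (hr : HasDerivAt r r' t)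
    (hu : HasDerivAt u₁ u' t) (hq : HasDerivAt q₁ q' t) (hx : HasDerivAt x₁ x' t)
    (hd : HasDerivAt d₁ d' t) (hp : HasDerivAt p p' t) :
    HasDerivAt (fun s => r s / 4 * (u₁ s ^ 2 + exp (2 * p s) * q₁ s ^ 2) + exp (-p s) * x₁ s ^ 2
        + exp (p s) * d₁ s ^ 2)
      (r' / 4 * (u₁ t ^ 2 + exp (2 * p t) * q₁ t ^ 2)
        + r t / 4 * (2 * u₁ t * u' + (2 * p' * exp (2 * p t) * q₁ t ^ 2
            + exp (2 * p t) * (2 * q₁ t * q')))
        + (-p' * exp (-p t) * x₁ t ^ 2 + exp (-p t) * (2 * x₁ t * x'))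
        + (p' * exp (p t) * d₁ t ^ 2 + exp (p t) * (2 * d₁ t * d'))) t := by
  have h1 := (hr.div_const 4).mul ((Rec_sq hu).add (((hp.const_mul 2).exp).mul (Rec_sq hq)))
  have h2 := (hp.neg.exp).mul (Rec_sq hx)
  have h3 := (hp.exp).mul (Rec_sq hd)
  refine ((h1.add h2).add h3).congr_deriv ?_
  simp only [Pi.add_apply, Pi.mul_apply, Pi.neg_apply]
  ring

private theorem Rec_log {θ : ℝ} (hθ : θ ∈ Ioo 0 π) :
    HasDerivAt (fun s => log ((1 - cos s) / sin s)) (1 / sin θ) θ := by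
  have hs : 0 < sin θ := sin_pos_of_mem_Ioo hθ
  have hc : 0 < 1 - cos θ := by
    have h1 : cos θ < cos 0 := cos_lt_cos_of_nonneg_of_le_pi le_rfl hθ.2.le hθ.1
    rw [cos_zero] at h1
    linarith
  have h1 : HasDerivAt (fun s => 1 - cos s) (sin θ) θ := by
    simpa using (hasDerivAt_cos θ).const_sub 1
  have h2 := (h1.div (hasDerivAt_sin θ) hs.ne').log (div_pos hc hs).ne'
  refine h2.congr_deriv ?_
  have h3 := sin_sq_add_cos_sq θ
  simp only [Pi.div_apply]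
  rw [div_div, div_eq_div_iff (by positivity) hs.ne']
  field_simp
  linear_combination h3

/-- TASK Rec. Energy identity for the regularised densities (checked numerically, sources included). Let
`P = L(θ) + U` with `L' = 1/sin θ`. Then with `e = AU + BU`, `f = BU - AU`:
`e_t - f_θ = -(1/2) cos t sin θ (U_t² - U_θ² + e^{2P}(Q_t² - Q_θ²))`.

Proof. `e = R/2 (U_t² + U_θ² + e^{2P}(Q_t² + Q_θ²)) + 2 e^{-P}(x_t² + x_θ²) + 2 e^P (D_t² + D_θ²)`,
`f = R (U_t U_θ + e^{2P} Q_t Q_θ) + 4 e^{-P} x_t x_θ + 4 e^P D_t D_θ`. `P_t = U_t`, `P_θ = U_θ + 1/sin θ`,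
so `eP` reads `R(U_tt - U_θθ) + cos t sin θ U_t - sin t cos θ U_θ = R e^{2P}(Q_t² - Q_θ²) + 2 [...]`
(`R (1/sin θ)' + sin t cos θ/sin θ = 0`). Differentiate and insert `eP`, `eQ`, `ey`, `ex`: a polynomial
identity. The hypothesis `hU` gives `U = P - L` on the square, in particular `dt U = dt P`,
`dh U = dh P - 1/sin θ` and second derivatives `dt (dt U) = dt (dt P)`,
`dh (dh U) = dh (dh P) + cos θ/sin² θ`. -/
theorem Red.energy {a P Q x y U : ℝ → ℝ → ℝ} (h : Red a P Q x y) (hU' : Sm (Ioo 0 π) U)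
    (hU : ∀ t ∈ Ioo 0 π, ∀ θ ∈ Ioo 0 π, P t θ = log ((1 - cos θ) / sin θ) + U t θ)
    {t θ : ℝ} (ht : t ∈ Ioo 0 π) (hθ : θ ∈ Ioo 0 π) :
    (dt (AU U P Q x y) t θ + dt (BU U P Q x y) t θ)
      - (dh (BU U P Q x y) t θ - dh (AU U P Q x y) t θ) =
      -(cos t * sin θ / 2) * ((dt U t θ ^ 2 - dh U t θ ^ 2)
        + exp (2 * P t θ) * (dt Q t θ ^ 2 - dh Q t θ ^ 2)) := by
  have hS : IsOpen (Ioo (0 : ℝ) π) := isOpen_Ioo
  have Dt : ∀ {f : ℝ → ℝ → ℝ}, Sm (Ioo 0 π) f → HasDerivAt (fun s => f s θ) (dt f t θ) t :=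
    fun hf => hf.c1.hasDt hS ht hθ
  have Dh : ∀ {f : ℝ → ℝ → ℝ}, Sm (Ioo 0 π) f → HasDerivAt (fun s => f t s) (dh f t θ) θ :=
    fun hf => hf.c1.hasDh hS ht hθ
  have hRt : HasDerivAt (fun s => sin s * sin θ) (cos t * sin θ) t := (hasDerivAt_sin t).mul_const _
  have hRh : HasDerivAt (fun s => sin t * sin s) (sin t * cos θ) θ := (hasDerivAt_sin θ).const_mul _
  -- the covariant derivatives
  have hDtt : HasDerivAt (fun s => Det Q x y s θ)
      (dt (dt y) t θ - (dt Q t θ * dt x t θ + Q t θ * dt (dt x) t θ)) t :=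
    (Dt (h.sy.dt hS)).sub ((Dt h.sQ).mul (Dt (h.sx.dt hS)))
  have hDht : HasDerivAt (fun s => Deh Q x y s θ)
      (dh (dt y) t θ - (dt Q t θ * dh x t θ + Q t θ * dh (dt x) t θ)) t := by
    have h1 := (Dt (h.sy.dh hS)).sub ((Dt h.sQ).mul (Dt (h.sx.dh hS)))
    rw [h.sy.comm hS ht hθ, h.sx.comm hS ht hθ] at h1
    exact h1
  have hDth : HasDerivAt (fun s => Det Q x y t s)
      (dh (dt y) t θ - (dh Q t θ * dt x t θ + Q t θ * dh (dt x) t θ)) θ :=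
    (Dh (h.sy.dt hS)).sub ((Dh h.sQ).mul (Dh (h.sx.dt hS)))
  have hDhh : HasDerivAt (fun s => Deh Q x y t s)
      (dh (dh y) t θ - (dh Q t θ * dh x t θ + Q t θ * dh (dh x) t θ)) θ :=
    (Dh (h.sy.dh hS)).sub ((Dh h.sQ).mul (Dh (h.sx.dh hS)))
  have hUht := Dt (hU'.dh hS)
  have hQht := Dt (h.sQ.dh hS)
  have hxht := Dt (h.sx.dh hS)
  rw [hU'.comm hS ht hθ] at hUht
  rw [h.sQ.comm hS ht hθ] at hQht
  rw [h.sx.comm hS ht hθ] at hxht
  have eAt := (Rec_dens hRt ((Dt (hU'.dt hS)).sub hUht) ((Dt (h.sQ.dt hS)).sub hQht)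
    ((Dt (h.sx.dt hS)).sub hxht) (hDtt.sub hDht) (Dt h.sP)).deriv
  have eBt := (Rec_dens hRt ((Dt (hU'.dt hS)).add hUht) ((Dt (h.sQ.dt hS)).add hQht)
    ((Dt (h.sx.dt hS)).add hxht) (hDtt.add hDht) (Dt h.sP)).deriv
  have eAh := (Rec_dens hRh ((Dh (hU'.dt hS)).sub (Dh (hU'.dh hS))) ((Dh (h.sQ.dt hS)).sub (Dh (h.sQ.dh hS)))
    ((Dh (h.sx.dt hS)).sub (Dh (h.sx.dh hS))) (hDth.sub hDhh) (Dh h.sP)).deriv
  have eBh := (Rec_dens hRh ((Dh (hU'.dt hS)).add (Dh (hU'.dh hS))) ((Dh (h.sQ.dt hS)).add (Dh (h.sQ.dh hS)))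
    ((Dh (h.sx.dt hS)).add (Dh (h.sx.dh hS))) (hDth.add hDhh) (Dh h.sP)).deriv
  change dt (AU U P Q x y) t θ = _ at eAt
  change dt (BU U P Q x y) t θ = _ at eBt
  change dh (AU U P Q x y) t θ = _ at eAh
  change dh (BU U P Q x y) t θ = _ at eBh
  rw [eAt, eBt, eAh, eBh]
  clear eAt eBt eAh eBh
  simp only [Pi.add_apply, Pi.sub_apply]
  -- the derivatives of `P`
  have hPt : ∀ s ∈ Ioo 0 π, dt P s θ = dt U s θ := by
    intro s hs
    have h1 : (fun s => P s θ) =ᶠ[nhds s] fun s => log ((1 - cos θ) / sin θ) + U s θ :=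
      Filter.eventually_of_mem (isOpen_Ioo.mem_nhds hs) fun s' hs' => hU s' hs' θ hθ
    have h2 : deriv (fun s => log ((1 - cos θ) / sin θ) + U s θ) s = dt U s θ :=
      ((hU'.c1.hasDt hS hs hθ).const_add _).deriv
    exact h1.deriv_eq.trans h2
  have hPh : ∀ s ∈ Ioo 0 π, dh P t s = 1 / sin s + dh U t s := by
    intro s hs
    have h1 : (fun s => P t s) =ᶠ[nhds s] fun s => log ((1 - cos s) / sin s) + U t s :=
      Filter.eventually_of_mem (isOpen_Ioo.mem_nhds hs) fun s' hs' => hU t ht s' hs'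
    have h2 : deriv (fun s => log ((1 - cos s) / sin s) + U t s) s = 1 / sin s + dh U t s :=
      ((Rec_log hs).add (hU'.c1.hasDh hS ht hs)).deriv
    exact h1.deriv_eq.trans h2
  have hPtt : dt (dt P) t θ = dt (dt U) t θ := by
    have h1 : (fun s => dt P s θ) =ᶠ[nhds t] fun s => dt U s θ :=
      Filter.eventually_of_mem (isOpen_Ioo.mem_nhds ht) fun s' hs' => hPt s' hs'
    exact h1.deriv_eq
  have hs0 : sin θ ≠ 0 := (sin_pos_of_mem_Ioo hθ).ne'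
  have hPhh : dh (dh P) t θ = -cos θ / sin θ ^ 2 + dh (dh U) t θ := by
    have h1 : (fun s => dh P t s) =ᶠ[nhds θ] fun s => 1 / sin s + dh U t s :=
      Filter.eventually_of_mem (isOpen_Ioo.mem_nhds hθ) fun s' hs' => hPh s' hs'
    have h2 : HasDerivAt (fun s => 1 / sin s) (-cos θ / sin θ ^ 2) θ := by
      have h3 := (hasDerivAt_sin θ).inv hs0
      refine (h3.congr_of_eventuallyEq (Filter.Eventually.of_forall fun s => ?_))
      simp
    have h3 : deriv (fun s => 1 / sin s + dh U t s) θ = -cos θ / sin θ ^ 2 + dh (dh U) t θ :=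
      (h2.add (Dh (hU'.dh hS))).deriv
    exact h1.deriv_eq.trans h3
  have eP := h.eP t ht θ hθ
  have eQ := h.eQ t ht θ hθ
  have ey := h.ey t ht θ hθ
  have ex := h.ex t ht θ hθ
  rw [hPtt, hPhh, hPt t ht, hPh θ hθ] at eP
  rw [hPt t ht, hPh θ hθ] at eQ ey ex
  rw [hPt t ht, hPh θ hθ]
  have hE2 : exp (2 * P t θ) = exp (P t θ) ^ 2 := by
    rw [two_mul, exp_add, sq]
  have hEi : exp (P t θ) * exp (-P t θ) = 1 := by
    rw [← exp_add, add_neg_cancel, exp_zero]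
  simp only [hE2] at eP ex ⊢
  obtain ⟨w, hw⟩ : ∃ w, w = 1 / sin θ := ⟨_, rfl⟩
  have hw1 : w * sin θ = 1 := by rw [hw]; field_simp
  have hw2 : -cos θ / sin θ ^ 2 = -cos θ * w ^ 2 := by rw [hw]; field_simp
  rw [hw2] at eP
  rw [← hw] at eP eQ ex ey ⊢
  generalize exp (P t θ) = E at *
  generalize exp (-P t θ) = Ei at *
  unfold Det Deh at *

  linear_combination dt U t θ * eP + E ^ 2 * dt Q t θ * eQ + 4 * Ei * dt x t θ * ex
    + 4 * E * (dt y t θ - Q t θ * dt x t θ) * ey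
    + 4 * E * (dt Q t θ * dh x t θ - dh Q t θ * dt x t θ) * (dh y t θ - Q t θ * dh x t θ) * hEi
    - dt U t θ * sin t * cos θ * w * hw1

end GS
end

section

open Real Set

namespace GS

/-- TASK Reh. The regular densities are smooth on `(0, π) × ℝ` (in `(t, θ)`), nonnegative for
`θ ∈ [0, π]` and vanish at the axes (`s = 0`). Nonnegativity (`ε = ±1`, `s ≥ 0`, `1 ± ζ ≥ 0`,
`s² = (1-ζ)(1+ζ)`): `s (1-ζ) X² ∓ 2 s² X Y + s (1+ζ) Y² ≥ 0` since `s² = s √(1-ζ) √(1+ζ)`,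
i.e. `s (√(1-ζ) X ∓ √(1+ζ) Y)²`. -/
theorem sm_rg (G : Gowdy) (ε : ℝ) : Sm univ (G.rg ε) := by
  have hU : Sm univ G.U := G.smU
  have hW : Sm univ G.W := G.smW
  have hα : Sm univ G.α := G.smα
  have hβ : Sm univ G.β := G.smβ
  have hU0 := hU.cos
  have hU1 := (hU.dt isOpen_univ).cos
  have hU2 := (hU.dh isOpen_univ).cos
  have hW0 := hW.cos
  have hW1 := (hW.dt isOpen_univ).cos
  have hW2 := (hW.dh isOpen_univ).cos
  have hα0 := hα.cos
  have hα1 := (hα.dt isOpen_univ).cos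
  have hα2 := (hα.dh isOpen_univ).cos
  have hβ0 := hβ.cos
  have hβ1 := (hβ.dt isOpen_univ).cos
  have hβ2 := (hβ.dh isOpen_univ).cos
  have hs : Sm univ (fun _ θ => sin θ) := Sm.snd univ Real.contDiff_sin
  have hS : Sm univ (fun t _ => sin t) := Sm.fst univ Real.contDiff_sin
  have hz : Sm univ (fun _ θ => cos θ) := Sm.snd univ Real.contDiff_cos
  have c1 : Sm univ (fun _ _ => (1 : ℝ)) := Sm.const univ 1
  have c2 : Sm univ (fun _ _ => (2 : ℝ)) := Sm.const univ 2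
  have c4 : Sm univ (fun _ _ => (4 : ℝ)) := Sm.const univ 4
  have cε : Sm univ (fun _ _ => ε) := Sm.const univ ε
  have h4 : ∀ t ∈ Ioo (0 : ℝ) π, ∀ θ ∈ (univ : Set ℝ), (4 : ℝ) ≠ 0 := fun _ _ _ _ => by norm_num
  have hp := c1.add hz
  have hm := c1.sub hz
  have hV := hW0.add (hp.mul hW2)
  have hγ := hα0.sub (hm.mul hα2)
  have hδ := hβ0.add (hp.mul hβ2)
  have hμ := hβ1.sub ((hm.mul hW0).mul hα1)
  have hν := hδ.add ((hp.mul hW0).mul hγ)
  have t1 := ((hS.mul hs).div c4 h4).mul ((hU1.add (cε.mul (hs.mul hU2))).pow 2)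
  have t2 := (((hS.div c4 h4).mul (c2.mul hU0).exp).mul hs).mul
    (((hs.mul hW1).add (cε.mul (hm.mul hV))).pow 2)
  have t3 := hU0.neg.exp.mul (((((hs.mul hm).mul (hα1.pow 2)).sub
    ((((c2.mul cε).mul (hs.pow 2)).mul hα1).mul hγ))).add ((hs.mul hp).mul (hγ.pow 2)))
  have t4 := hU0.exp.mul ((((hs.mul hp).mul (hμ.pow 2)).add
    ((((c2.mul cε).mul (hs.pow 2)).mul hμ).mul hν)).add ((hs.mul hm).mul (hν.pow 2)))
  exact ((t1.add t2).add t3).add t4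

private theorem Reh_sq {s a b : ℝ} (hs : 0 ≤ s) (ha : 0 ≤ a) (hb : 0 ≤ b) (h : s ^ 2 = a * b) :
    ∃ p q : ℝ, p ^ 2 = a ∧ q ^ 2 = b ∧ s = p * q := by
  refine ⟨√a, √b, Real.sq_sqrt ha, Real.sq_sqrt hb, ?_⟩
  rw [← Real.sqrt_mul ha, ← h, Real.sqrt_sq hs]

theorem rg_nonneg (G : Gowdy) {ε : ℝ} (hε : ε = 1 ∨ ε = -1) {t θ : ℝ} (ht : t ∈ Ioo 0 π)
    (hθ : θ ∈ Icc 0 π) : 0 ≤ G.rg ε t θ := by
  have hs : 0 ≤ sin θ := Real.sin_nonneg_of_mem_Icc hθ
  have hS : 0 ≤ sin t := (Real.sin_pos_of_mem_Ioo ht).le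
  have ha : 0 ≤ 1 - cos θ := by linarith [Real.cos_le_one θ]
  have hb : 0 ≤ 1 + cos θ := by linarith [Real.neg_one_le_cos θ]
  have hsq : sin θ ^ 2 = (1 - cos θ) * (1 + cos θ) := by
    have := Real.sin_sq_add_cos_sq θ
    nlinarith
  obtain ⟨p, q, hp, hq, hpq⟩ := Reh_sq hs ha hb hsq
  have hε2 : ε ^ 2 = 1 := by rcases hε with h | h <;> rw [h] <;> norm_num
  have k1 : ∀ X Y : ℝ, 0 ≤ sin θ * (1 - cos θ) * X ^ 2 - 2 * ε * sin θ ^ 2 * X * Y +
      sin θ * (1 + cos θ) * Y ^ 2 := by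
    intro X Y
    have e : sin θ * (1 - cos θ) * X ^ 2 - 2 * ε * sin θ ^ 2 * X * Y + sin θ * (1 + cos θ) * Y ^ 2 =
        sin θ * (p * X - ε * q * Y) ^ 2 := by
      rw [← hp, ← hq]
      have e1 : sin θ ^ 2 = sin θ * (p * q) := by rw [pow_two, ← hpq]
      rw [e1]
      linear_combination (-(sin θ * q ^ 2 * Y ^ 2)) * hε2
    rw [e]
    positivity
  have k2 : ∀ X Y : ℝ, 0 ≤ sin θ * (1 + cos θ) * X ^ 2 + 2 * ε * sin θ ^ 2 * X * Y +
      sin θ * (1 - cos θ) * Y ^ 2 := by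
    intro X Y
    have e : sin θ * (1 + cos θ) * X ^ 2 + 2 * ε * sin θ ^ 2 * X * Y + sin θ * (1 - cos θ) * Y ^ 2 =
        sin θ * (q * X + ε * p * Y) ^ 2 := by
      rw [← hp, ← hq]
      have e1 : sin θ ^ 2 = sin θ * (p * q) := by rw [pow_two, ← hpq]
      rw [e1]
      linear_combination (-(sin θ * p ^ 2 * Y ^ 2)) * hε2
    rw [e]
    positivity
  unfold Gowdy.rg
  dsimp only
  refine add_nonneg (add_nonneg (add_nonneg ?_ ?_) ?_) ?_
  · positivity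
  · positivity
  · exact mul_nonneg (Real.exp_pos _).le (k1 _ _)
  · exact mul_nonneg (Real.exp_pos _).le (k2 _ _)

theorem rg_axis (G : Gowdy) (ε t : ℝ) : G.rg ε t 0 = 0 ∧ G.rg ε t π = 0 := by
  constructor
  · unfold Gowdy.rg
    simp
  · unfold Gowdy.rg
    simp

end GS
end

section

open Real Set MeasureTheory
open scoped ContDiff

namespace GS

/-- TASK PiA. Smoothness of a parametric integral. For `f` smooth on `(0, π) × ℝ` the function
`I_j(f)(t, ζ) = ∫_0^1 λ^j f(t, 1 - λ (1 - ζ)) dλ` is smooth on `(0, π) × ℝ`.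

Proof. By induction on `n : ℕ`: for all `f` (smooth) and `j`, `I_j(f)` is `C^n` on the open set. It has at
every point the Fréchet derivative `(τ, z) ↦ I_j(f_t) τ + I_{j+1}(f_ζ) z` (differentiation under the
integral, `hasFDerivAt_integral_of_dominated_of_fderiv_le` or the interval version: the integrand is `C¹`
in the parameters with a derivative continuous in `(t, ζ, λ)`, hence bounded on compact sets), and
`f_t = dt f`, `f_ζ = dh f` are smooth (`Sm.dt`, `Sm.dh`); `contDiffOn_succ_iff_fderiv_of_isOpen` (or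
`contDiffOn_succ_of_fderiv...`). Then `contDiffOn_infty`. -/
theorem Sm.parInt {f : ℝ → ℝ → ℝ} (hf : Sm univ f) (j : ℕ) :
    Sm univ (fun t ζ => ∫ l in (0 : ℝ)..1, l ^ j * f t (1 - l * (1 - ζ))) := by
  have hs : IsOpen (Ioo (0:ℝ) π ×ˢ (univ : Set ℝ)) := isOpen_Ioo.prod isOpen_univ
  let χ : ContDiffBump (0 : ℝ) := ⟨2, 3, by norm_num, by norm_num⟩
  let g : ℝ × ℝ → ℝ → ℝ := fun p x => χ x * ((-x) ^ j * f p.1 (1 + x * (1 - p.2)))
  have hg : ContDiffOn ℝ ∞ ↿g ((Ioo (0:ℝ) π ×ˢ (univ : Set ℝ)) ×ˢ (univ : Set ℝ)) := by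
    have h1 : ContDiffOn ℝ ∞ (fun q : (ℝ × ℝ) × ℝ => χ q.2) ((Ioo (0:ℝ) π ×ˢ (univ : Set ℝ)) ×ˢ (univ : Set ℝ)) :=
      (χ.contDiff.comp contDiff_snd).contDiffOn
    have h2 : ContDiffOn ℝ ∞ (fun q : (ℝ × ℝ) × ℝ => (-q.2) ^ j) ((Ioo (0:ℝ) π ×ˢ (univ : Set ℝ)) ×ˢ (univ : Set ℝ)) :=
      ((contDiff_snd.neg).pow j).contDiffOn
    have h3 : ContDiff ℝ ∞ (fun q : (ℝ × ℝ) × ℝ => ((q.1.1, 1 + q.2 * (1 - q.1.2)) : ℝ × ℝ)) := by fun_prop
    have h4 : ContDiffOn ℝ ∞ (fun q : (ℝ × ℝ) × ℝ => Function.uncurry f (q.1.1, 1 + q.2 * (1 - q.1.2)))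
        ((Ioo (0:ℝ) π ×ˢ (univ : Set ℝ)) ×ˢ (univ : Set ℝ)) := by
      refine ContDiffOn.comp hf h3.contDiffOn ?_
      rintro ⟨⟨a, b⟩, x⟩ hx
      exact ⟨hx.1.1, trivial⟩
    exact h1.mul (h2.mul h4)
  have hloc : LocallyIntegrable (indicator (Ioc (0:ℝ) 1) (fun _ => (1:ℝ))) volume := by
    apply Integrable.locallyIntegrable
    rw [integrable_indicator_iff measurableSet_Ioc]
    exact integrableOn_const (by simp) (by simp)
  have hk : IsCompact (Metric.closedBall (0:ℝ) 3) := isCompact_closedBall 0 3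
  have hgs : ∀ p, ∀ x, p ∈ (Ioo (0:ℝ) π ×ˢ (univ : Set ℝ)) → x ∉ Metric.closedBall (0:ℝ) 3 → g p x = 0 := by
    intro p x _ hx
    have h : χ x = 0 := by
      apply χ.zero_of_le_dist
      rw [Metric.mem_closedBall, not_le] at hx
      exact hx.le
    show χ x * _ = 0
    rw [h, zero_mul]
  have key := contDiffOn_convolution_right_with_param_comp (n := ⊤) (μ := volume) (ContinuousLinearMap.mul ℝ ℝ)
    (v := fun _ : ℝ × ℝ => (0:ℝ)) contDiffOn_const hs hk hgs hloc hg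
  refine key.congr ?_
  rintro ⟨t, ζ⟩ _
  show (∫ l in (0 : ℝ)..1, l ^ j * f t (1 - l * (1 - ζ))) = _
  rw [MeasureTheory.convolution_def, intervalIntegral.integral_of_le zero_le_one, ← integral_indicator measurableSet_Ioc]
  congr 1
  funext l
  by_cases hl : l ∈ Ioc (0:ℝ) 1
  · rw [indicator_of_mem hl, indicator_of_mem hl]
    have hχ : χ (0 - l) = 1 := by
      apply χ.one_of_mem_closedBall
      rw [Metric.mem_closedBall, Real.dist_eq, abs_le]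
      show -2 ≤ 0 - l - 0 ∧ 0 - l - 0 ≤ 2
      constructor <;> linarith [hl.1, hl.2]
    show _ = (1:ℝ) * (χ (0 - l) * ((-(0 - l)) ^ j * f t (1 + (0 - l) * (1 - ζ))))
    rw [hχ, one_mul, one_mul]
    congr 2
    · ring
    · ring
  · rw [indicator_of_notMem hl, indicator_of_notMem hl]
    show (0:ℝ) = (0:ℝ) * _
    rw [zero_mul]

/-- Primitive with the value `0` at `ζ = 1`: `A(t, ζ) = (1 - ζ) α(t, ζ)`, `A_ζ = f`, with `α` smooth
(`α = -∫_0^1 f(t, 1 - l (1 - ζ)) dl`; substitution and the fundamental theorem of calculus). -/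
theorem exists_prim1 {f : ℝ → ℝ → ℝ} (hf : Sm univ f) : ∃ α : ℝ → ℝ → ℝ, Sm univ α ∧
    ∀ t ∈ Ioo 0 π, ∀ ζ, HasDerivAt (fun z => (1 - z) * α t z) (f t ζ) ζ := by
  refine ⟨fun t ζ => - ∫ l in (0 : ℝ)..1, l ^ 0 * f t (1 - l * (1 - ζ)), (Sm.parInt hf 0).neg, ?_⟩
  intro t ht ζ
  have hc : Continuous (f t) := by
    have h1 := hf.continuousOn
    have h2 : ContinuousOn (fun z : ℝ => Function.uncurry f (t, z)) univ := by
      refine h1.comp (by fun_prop) ?_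
      intro z _
      exact ⟨ht, trivial⟩
    exact continuousOn_univ.1 h2
  have e : (fun z => (1 - z) * - ∫ l in (0 : ℝ)..1, l ^ 0 * f t (1 - l * (1 - z))) =
      fun z => ∫ y in (1:ℝ)..z, f t y := by
    funext z
    have h1 := intervalIntegral.mul_integral_comp_sub_mul (a := 0) (b := 1) (f := f t) (1 - z) 1
    have h2 : (∫ l in (0 : ℝ)..1, l ^ 0 * f t (1 - l * (1 - z))) = ∫ l in (0 : ℝ)..1, f t (1 - (1 - z) * l) := by
      refine intervalIntegral.integral_congr fun l _ => ?_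
      show l ^ 0 * f t (1 - l * (1 - z)) = f t (1 - (1 - z) * l)
      rw [pow_zero, one_mul, mul_comm l]
    have e1 : 1 - (1 - z) * 1 = z := by ring
    have e2 : 1 - (1 - z) * 0 = 1 := by ring
    rw [e1, e2] at h1
    rw [h2, mul_neg, h1, intervalIntegral.integral_symm z 1]
  rw [e]
  exact (hc.integral_hasStrictDerivAt 1 ζ).hasDerivAt

/-- Primitive with the value `0` at `ζ = -1`: `A(t, ζ) = (1 + ζ) β(t, ζ)`, `A_ζ = f`, with `β` smooth
(apply the previous statement to `f(t, -ζ)`). -/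
theorem exists_prim2 {f : ℝ → ℝ → ℝ} (hf : Sm univ f) : ∃ β : ℝ → ℝ → ℝ, Sm univ β ∧
    ∀ t ∈ Ioo 0 π, ∀ ζ, HasDerivAt (fun z => (1 + z) * β t z) (f t ζ) ζ := by
  have hf' : Sm univ (fun t ζ => f t (-ζ)) := by
    have h3 : ContDiff ℝ ∞ (fun q : ℝ × ℝ => ((q.1, -q.2) : ℝ × ℝ)) := by fun_prop
    refine ContDiffOn.comp (g := Function.uncurry f) hf h3.contDiffOn ?_
    rintro ⟨a, b⟩ hx
    exact ⟨hx.1, trivial⟩
  obtain ⟨α, hα, hd⟩ := exists_prim1 hf'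
  have hα' : Sm univ (fun t ζ => α t (-ζ)) := by
    have h3 : ContDiff ℝ ∞ (fun q : ℝ × ℝ => ((q.1, -q.2) : ℝ × ℝ)) := by fun_prop
    refine ContDiffOn.comp (g := Function.uncurry α) hα h3.contDiffOn ?_
    rintro ⟨a, b⟩ hx
    exact ⟨hx.1, trivial⟩
  refine ⟨fun t ζ => -α t (-ζ), hα'.neg, ?_⟩
  intro t ht ζ
  have h1 := hd t ht (-ζ)
  have h2 : HasDerivAt (fun z : ℝ => -z) (-1) ζ := hasDerivAt_neg ζ
  have h3 := (h1.scomp ζ h2).neg
  have e : (fun z => (1 + z) * -α t (-z)) = -((fun z => (1 - z) * α t z) ∘ fun z => -z) := by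
    funext z
    simp only [Pi.neg_apply, Function.comp]
    ring
  rw [e]
  convert! h3 using 1
  simp

end GS
end
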