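import Pool.Agent.Lib.MP_898b37_mp.GS.Geb
import Pool.Agent.Lib.MP_898b37_mp.GS.OdC
import Pool.Agent.Lib.MP_898b37_mp.GS.Rej
import Pool.Agent.Lib.MP_898b37_mp.GS.PoA
import Pool.Agent.Lib.MP_898b37_mp.GS.Gea
import Pool.Agent.Lib.MP_898b37_mp.Mg.G010

section

open Real Set
open scoped ContDiff Matrix

namespace GS

private theorem McA_pd0 (τ : ℝ → ℝ) (p : Pt) : pd 0 (fun q => q 0 - τ (q 1)) p = 1 := by
  rw [pd0 (fun t θ => t - τ θ) p, dt]
  exact ((hasDerivAt_id (p 0)).sub_const (τ (p 1))).deriv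

private theorem McA_pd1 {τ : ℝ → ℝ} {m : ℝ} {p : Pt} (h : HasDerivAt τ m (p 1)) :
    pd 1 (fun q => q 0 - τ (q 1)) p = -m := by
  rw [pd1 (fun t θ => t - τ θ) p, dh]
  exact (h.const_sub (p 0)).deriv

private theorem McA_pd2 (τ : ℝ → ℝ) (p : Pt) : pd 2 (fun q => q 0 - τ (q 1)) p = 0 :=
  pd2 (fun t θ => t - τ θ) p

private theorem McA_pd3 (τ : ℝ → ℝ) (p : Pt) : pd 3 (fun q => q 0 - τ (q 1)) p = 0 :=
  pd3 (fun t θ => t - τ θ) p

/-- The entries of the inverse metric which are needed. -/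
private theorem McA_inv (G : Gowdy) {p : Pt} (hp : p ∈ chart) :
    (G.met p)⁻¹ 0 0 = -exp (-(2 * G.as (p 0) (p 1))) ∧ (G.met p)⁻¹ 0 1 = 0 ∧
    (G.met p)⁻¹ 1 0 = 0 ∧ (G.met p)⁻¹ 1 1 = exp (-(2 * G.as (p 0) (p 1))) ∧
    (G.met p)⁻¹ 2 0 = 0 ∧ (G.met p)⁻¹ 2 1 = 0 ∧ (G.met p)⁻¹ 3 0 = 0 ∧ (G.met p)⁻¹ 3 1 = 0 := by
  rw [met_eq G hp, mPQ_inv _ _ _ hp]
  exact ⟨rfl, rfl, rfl, rfl, rfl, rfl, rfl, rfl⟩

/-- TASK McA. Geometry of a `U(1) × U(1)`-invariant hypersurface `t = τ(θ)`: the level sets of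
`φ = q 0 - τ (q 1)` for the metric of a Gowdy spacetime, at a point `p` of the chart. With
`m = τ' (θ)`: `g(∇φ, ∇φ) = e^{-2a}(m² - 1)`.
Proof: `met_eq`, `mPQ_inv`, `Fin.sum_univ_four`; `pd 0 φ = 1`, `pd 1 φ = -m`, `pd 2 φ = pd 3 φ = 0`. -/
theorem gradSq_graph (G : Gowdy) {τ : ℝ → ℝ} {m : ℝ} {p : Pt} (hp : p ∈ chart)
    (h : HasDerivAt τ m (p 1)) :
    gradSq G.met (fun q => q 0 - τ (q 1)) p = exp (-(2 * G.as (p 0) (p 1))) * (m ^ 2 - 1) := by
  obtain ⟨i00, i01, i10, i11, i20, i21, i30, i31⟩ := McA_inv G hp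
  rw [gradSq]
  simp only [Fin.sum_univ_four, McA_pd0, McA_pd1 h, McA_pd2, McA_pd3, i00, i01, i10, i11]
  ring

/-- The flux density `√|det g| n^i` of the unit normal: `F/√(1-m²)` for `i = 0`, `F m/√(1-m²)` for
`i = 1` and `0` for `i = 2, 3`, where `F = FF G.f = e^a sin t sin θ`. -/
theorem flux_graph (G : Gowdy) {τ : ℝ → ℝ} {m : ℝ} {p : Pt} (hp : p ∈ chart)
    (h : HasDerivAt τ m (p 1)) (hm : |m| < 1) :
    √|(G.met p).det| * normal G.met (fun q => q 0 - τ (q 1)) 0 p =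
      FF G.f (p 0) (p 1) / √(1 - m ^ 2) ∧
    √|(G.met p).det| * normal G.met (fun q => q 0 - τ (q 1)) 1 p =
      FF G.f (p 0) (p 1) * m / √(1 - m ^ 2) ∧
    normal G.met (fun q => q 0 - τ (q 1)) 2 p = 0 ∧
    normal G.met (fun q => q 0 - τ (q 1)) 3 p = 0 := by
  obtain ⟨i00, i01, i10, i11, i20, i21, i30, i31⟩ := McA_inv G hp
  have hm2 : 0 < 1 - m ^ 2 := by
    rw [abs_lt] at hm
    nlinarith [hm.1, hm.2]
  have hsq : 0 < √(1 - m ^ 2) := Real.sqrt_pos.2 hm2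
  have hdet : √|(G.met p).det| = exp (2 * G.as (p 0) (p 1)) * (sin (p 0) * sin (p 1)) := by
    rw [met_eq G hp]
    exact mPQ_sqrt _ _ _ hp
  have hroot : √(-gradSq G.met (fun q => q 0 - τ (q 1)) p) =
      exp (-G.as (p 0) (p 1)) * √(1 - m ^ 2) := by
    rw [gradSq_graph G hp h]
    have e : -(exp (-(2 * G.as (p 0) (p 1))) * (m ^ 2 - 1)) =
        exp (-G.as (p 0) (p 1)) ^ 2 * (1 - m ^ 2) := by
      rw [← Real.exp_nat_mul]
      have e2 : ((2 : ℕ) : ℝ) * -G.as (p 0) (p 1) = -(2 * G.as (p 0) (p 1)) := by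
        push_cast
        ring
      rw [e2]
      ring
    rw [e, Real.sqrt_mul (by positivity), Real.sqrt_sq (Real.exp_pos _).le]
  have hF : FF G.f (p 0) (p 1) = exp (G.as (p 0) (p 1)) * (sin (p 0) * sin (p 1)) := by
    rw [FF, Gowdy.f, Gowdy.as]
    ring
  have hexp : exp (2 * G.as (p 0) (p 1)) * exp (-(2 * G.as (p 0) (p 1))) =
      exp (G.as (p 0) (p 1)) * exp (-G.as (p 0) (p 1)) := by
    rw [← Real.exp_add, ← Real.exp_add]
    congr 1
    ring
  have hpos := Real.exp_pos (-G.as (p 0) (p 1))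
  have g0 : grad G.met (fun q => q 0 - τ (q 1)) 0 p = -exp (-(2 * G.as (p 0) (p 1))) := by
    rw [grad]
    simp only [Fin.sum_univ_four, McA_pd0, McA_pd1 h, McA_pd2, McA_pd3, i00, i01]
    ring
  have g1 : grad G.met (fun q => q 0 - τ (q 1)) 1 p = -(exp (-(2 * G.as (p 0) (p 1))) * m) := by
    rw [grad]
    simp only [Fin.sum_univ_four, McA_pd0, McA_pd1 h, McA_pd2, McA_pd3, i10, i11]
    ring
  have g2 : grad G.met (fun q => q 0 - τ (q 1)) 2 p = 0 := by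
    rw [grad]
    simp only [Fin.sum_univ_four, McA_pd0, McA_pd1 h, McA_pd2, McA_pd3, i20, i21]
    ring
  have g3 : grad G.met (fun q => q 0 - τ (q 1)) 3 p = 0 := by
    rw [grad]
    simp only [Fin.sum_univ_four, McA_pd0, McA_pd1 h, McA_pd2, McA_pd3, i30, i31]
    ring
  refine ⟨?_, ?_, ?_, ?_⟩
  · rw [normal, hroot, g0, neg_neg, hdet, hF, ← mul_div_assoc, div_eq_div_iff (by positivity)
      hsq.ne']
    linear_combination (sin (p 0) * sin (p 1)) * √(1 - m ^ 2) * hexp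
  · rw [normal, hroot, g1, neg_neg, hdet, hF, ← mul_div_assoc, div_eq_div_iff (by positivity)
      hsq.ne']
    linear_combination (sin (p 0) * sin (p 1)) * m * √(1 - m ^ 2) * hexp
  · rw [normal, g2, neg_zero, zero_div]
  · rw [normal, g3, neg_zero, zero_div]

/-- TASK McA, main statement. If `τ` has the slope `m(θ)` for all `θ ∈ (0, π)`, `|m| < 1`, and
`m` has the derivative `m'` at `θ₀ = p 1`, `p ∈ chart`, then the mean curvature of the level set of `φ`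
through `p` is `0` as soon as `F m'/(1 - m²) + F_t + m F_θ = 0` at `(p 0, p 1)`.
Proof: `meanCurv = (√|g|)⁻¹ (∂_t (F(t,θ)/√(1-m(θ)²)) + ∂_θ (F(t,θ) m(θ)/√(1-m(θ)²)))` (`pd_congr`,
`flux_graph`; `pd 2`, `pd 3` of `√|g| n` vanish near `p`), and the bracket is
`(F_t + F_θ m + F m'/(1-m²))/√(1-m²)`: `(m/√(1-m²))' = m'/((1-m²)√(1-m²))`. -/
theorem meanCurv_graph (G : Gowdy) {τ m : ℝ → ℝ} {m' : ℝ}
    (h : ∀ θ ∈ Ioo 0 π, HasDerivAt τ (m θ) θ ∧ |m θ| < 1) {p : Pt} (hp : p ∈ chart)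
    (h' : HasDerivAt m m' (p 1))
    (he : FF G.f (p 0) (p 1) * m' / (1 - m (p 1) ^ 2) + dt (FF G.f) (p 0) (p 1)
      + m (p 1) * dh (FF G.f) (p 0) (p 1) = 0) :
    meanCurv G.met (fun q => q 0 - τ (q 1)) p = 0 := by
  have hp' := hp
  obtain ⟨hp0, hp1⟩ := hp'
  have hsm : Sm univ (FF G.f) := (G.sf.cos).mul (Sm.snd univ Real.contDiff_sin)
  have hdt := C1.hasDt isOpen_univ hsm.c1 hp0 (mem_univ (p 1))
  have hdh := C1.hasDh isOpen_univ hsm.c1 hp0 (mem_univ (p 1))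
  have hm := (h (p 1) hp1).2
  have hm2 : 0 < 1 - m (p 1) ^ 2 := by
    rw [abs_lt] at hm
    nlinarith [hm.1, hm.2]
  have hsq : 0 < √(1 - m (p 1) ^ 2) := Real.sqrt_pos.2 hm2
  have k0 : pd 0 (fun q => √|(G.met q).det| * normal G.met (fun q => q 0 - τ (q 1)) 0 q) p =
      dt (FF G.f) (p 0) (p 1) / √(1 - m (p 1) ^ 2) := by
    rw [pd_congr (g := fun q => FF G.f (q 0) (q 1) / √(1 - m (q 1) ^ 2)) hp
      (fun q hq => (flux_graph G hq (h (q 1) hq.2).1 (h (q 1) hq.2).2).1),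
      pd0 (fun t θ => FF G.f t θ / √(1 - m θ ^ 2)) p, dt]
    exact (hdt.div_const _).deriv
  have k1 : pd 1 (fun q => √|(G.met q).det| * normal G.met (fun q => q 0 - τ (q 1)) 1 q) p =
      (dh (FF G.f) (p 0) (p 1) * m (p 1) + FF G.f (p 0) (p 1) * m' / (1 - m (p 1) ^ 2)) /
        √(1 - m (p 1) ^ 2) := by
    rw [pd_congr (g := fun q => FF G.f (q 0) (q 1) * m (q 1) / √(1 - m (q 1) ^ 2)) hp
      (fun q hq => (flux_graph G hq (h (q 1) hq.2).1 (h (q 1) hq.2).2).2.1),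
      pd1 (fun t θ => FF G.f t θ * m θ / √(1 - m θ ^ 2)) p, dh]
    have d1 : HasDerivAt (fun θ => 1 - m θ ^ 2) (-(2 * m (p 1) * m')) (p 1) := by
      have := (h'.pow 2).const_sub 1
      refine this.congr_deriv ?_
      push_cast
      ring
    have d2 := d1.sqrt hm2.ne'
    have d3 := (hdh.mul h').div d2 hsq.ne'
    have d4 := d3.deriv
    refine Eq.trans ?_ (d4.trans ?_)
    · rfl
    · have e1 : √(1 - m (p 1) ^ 2) ^ 2 = 1 - m (p 1) ^ 2 := Real.sq_sqrt hm2.le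
      have e4 : ((fun s => FF G.f (p 0) s) * m) (p 1) = FF G.f (p 0) (p 1) * m (p 1) := rfl
      rw [e4]
      generalize hs : √(1 - m (p 1) ^ 2) = s at *
      rw [← e1]
      field_simp
      have e2 : s ^ 2 + m (p 1) ^ 2 = 1 := by rw [e1]; ring
      linear_combination (FF G.f (p 0) (p 1) * m') * e2
  have k2 : pd 2 (fun q => √|(G.met q).det| * normal G.met (fun q => q 0 - τ (q 1)) 2 q) p =
      0 := by
    rw [pd_congr (g := fun q => (fun _ _ => (0 : ℝ)) (q 0) (q 1)) hp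
      (fun q hq => by
        rw [(flux_graph G hq (h (q 1) hq.2).1 (h (q 1) hq.2).2).2.2.1, mul_zero])]
    exact pd2 (fun _ _ => (0 : ℝ)) p
  have k3 : pd 3 (fun q => √|(G.met q).det| * normal G.met (fun q => q 0 - τ (q 1)) 3 q) p =
      0 := by
    rw [pd_congr (g := fun q => (fun _ _ => (0 : ℝ)) (q 0) (q 1)) hp
      (fun q hq => by
        rw [(flux_graph G hq (h (q 1) hq.2).1 (h (q 1) hq.2).2).2.2.2, mul_zero])]
    exact pd3 (fun _ _ => (0 : ℝ)) p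
  rw [meanCurv, Fin.sum_univ_four, k0, k1, k2, k3, add_zero, add_zero, ← add_div]
  have e3 : dt (FF G.f) (p 0) (p 1) + (dh (FF G.f) (p 0) (p 1) * m (p 1) +
      FF G.f (p 0) (p 1) * m' / (1 - m (p 1) ^ 2)) = 0 := by
    rw [← he]
    ring
  rw [e3, zero_div, mul_zero]

end GS
end

section

open Real Set
open scoped ContDiff Matrix

namespace GS

/-- A function of `(t, θ)` with vanishing `θ`-derivative on `(0, π)` and value `0` at `θ = 0` vanishes. -/
private theorem PoB_zero {f : ℝ → ℝ → ℝ} (hf : Sm univ f) {t : ℝ} (ht : t ∈ Ioo 0 π)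
    (h : ∀ θ ∈ Ioo 0 π, dh f t θ = 0) (h0 : f t 0 = 0) : ∀ θ ∈ Ioo 0 π, f t θ = 0 := by
  intro θ hθ
  have hd : ∀ s : ℝ, HasDerivAt (fun s => f t s) (dh f t s) s := fun s =>
    C1.hasDh isOpen_univ hf.c1 ht (mem_univ s)
  obtain ⟨c, hc, hc2⟩ := exists_hasDerivAt_eq_slope (fun s => f t s) (fun s => dh f t s) hθ.1
    (fun s _ => (hd s).continuousAt.continuousWithinAt) (fun s _ => hd s)
  rw [h c ⟨hc.1, hc.2.trans hθ.2⟩] at hc2
  rcases div_eq_zero_iff.1 hc2.symm with h1 | h1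
  · rw [h0, sub_zero] at h1
    exact h1
  · exact absurd h1 (by
      have := hθ.1
      linarith)

private theorem PoB_pd (i : Fin 4) (hi : i ≠ 0) (hi' : i ≠ 1) (S : Space) (p : Pt) (a b : Fin 4) :
    pd i (fun q => √|(S.met q).det| * up S.met S.field a b q) p = 0 := by
  unfold pd
  have e0 : ∀ s : ℝ, Function.update p i s 0 = p 0 := fun s => Function.update_of_ne hi.symm _ _
  have e1 : ∀ s : ℝ, Function.update p i s 1 = p 1 := fun s => Function.update_of_ne hi'.symm _ _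
  have h1 : ∀ s : ℝ, S.met (Function.update p i s) = S.met p := by
    intro s
    unfold Space.met
    rw [e0 s, e1 s]
  have h2 : ∀ s : ℝ, S.field (Function.update p i s) = S.field p := by
    intro s
    unfold Space.field
    rw [e0 s, e1 s]
  have h3 : (fun s : ℝ => √|(S.met (Function.update p i s)).det| *
      up S.met S.field a b (Function.update p i s)) = fun _ => √|(S.met p).det| * up S.met S.field a b p := by
    funext s
    unfold up
    rw [h1, h2]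
  rw [h3]
  exact deriv_const _ _

private theorem PoB_chart {t θ : ℝ} (ht : t ∈ Ioo 0 π) (hθ : θ ∈ Ioo 0 π) :
    (![t, θ, 0, 0] : Pt) ∈ chartS := ⟨ht, hθ⟩

/-- TASK PoB. The components `F_{tθ}` and `F_{xy}` of an invariant Maxwell field vanish.

Proof. `closed` with `(a, b, c) = (0, 2, 3)` and `(1, 2, 3)` gives `∂_t F_{23} = ∂_θ F_{23} = 0` on the chart
(the components only depend on `p 0, p 1`; `pd 2 = pd 3 = 0`), so `F_{23} = (1 - ζ²) f23(t, ζ)` is
constant on the square (mean value theorem in each variable) and tends to `0` for `θ → 0` (`f23` is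
continuous at `(t, 1)`): it is `0`, and `1 - ζ² > 0`.
`coclosed` with `b = 0` and `b = 1`: the function `√|g| F^{01}` of `Space.dens01` (`up 1 0 = -up 0 1`;
`up 0 0 = up 1 1 = 0`; the terms `a = 2, 3` have `pd 2 = pd 3 = 0` because everything depends on
`(p 0, p 1)` only) has vanishing `pd 0` and `pd 1`, so it is constant on the square, and it tends to
`0` for `θ → 0`: `f01 = 0`. (It is helpful to note that `p ↦ √|det (S.met p)| * up S.met S.field i j p` is a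
function of `(p 0, p 1)` only: `S.met` and `S.field` are.) -/
theorem Space.f01_f23 (S : Space) (h : EinsteinMaxwell S.met S.field chartS) :
    ∀ t ∈ Ioo 0 π, ∀ θ ∈ Ioo 0 π, S.f01 t (cos θ) = 0 ∧ S.f23 t (cos θ) = 0 := by
  intro t ht
  -- the component F23
  have s23 : Sm univ (fun t θ => (1 - cos θ ^ 2) * S.f23 t (cos θ)) :=
    Sm.mul (Sm.sub (Sm.const univ 1) (Sm.pow (Sm.snd univ Real.contDiff_cos) 2))
      (Sm.cos (f := S.f23) S.sm23)
  have z23 : ∀ θ ∈ Ioo 0 π, (1 - cos θ ^ 2) * S.f23 t (cos θ) = 0 := by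
    apply PoB_zero s23 ht
    · intro θ hθ
      have h1 := h.closed ![t, θ, 0, 0] (PoB_chart ht hθ) 1 2 3
      have e1 : pd 1 (fun q : Pt => S.field q 2 3) ![t, θ, 0, 0] =
          dh (fun t θ => (1 - cos θ ^ 2) * S.f23 t (cos θ)) t θ :=
        pd1 (fun t θ => (1 - cos θ ^ 2) * S.f23 t (cos θ)) ![t, θ, 0, 0]
      have e2 : pd 2 (fun q : Pt => S.field q 3 1) ![t, θ, 0, 0] = 0 :=
        pd2 (fun t θ => -(-(sin θ * S.f13 t (cos θ)))) ![t, θ, 0, 0]
      have e3 : pd 3 (fun q : Pt => S.field q 1 2) ![t, θ, 0, 0] = 0 :=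
        pd3 (fun t θ => -(sin θ * S.f12 t (cos θ))) ![t, θ, 0, 0]
      rw [e1, e2, e3, add_zero, add_zero] at h1
      exact h1
    · rw [cos_zero]
      norm_num
  -- the component F01
  set D : ℝ → ℝ → ℝ := fun t θ =>
    -(exp (-(2 * S.a t (cos θ))) * S.c * sin t * sin θ ^ 2 * S.f01 t (cos θ)) with hD
  have s01 : Sm univ D := by
    have h1 : Sm univ (fun t θ => exp (-(2 * S.a t (cos θ)))) :=
      Sm.exp (Sm.neg (Sm.mul (Sm.const univ 2) (Sm.cos (f := S.a) S.sma)))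
    have h2 : Sm univ (fun t θ => exp (-(2 * S.a t (cos θ))) * S.c) := Sm.mul h1 (Sm.const univ S.c)
    have h3 : Sm univ (fun t θ => exp (-(2 * S.a t (cos θ))) * S.c * sin t) :=
      Sm.mul h2 (Sm.fst univ Real.contDiff_sin)
    have h4 : Sm univ (fun t θ => exp (-(2 * S.a t (cos θ))) * S.c * sin t * sin θ ^ 2) :=
      Sm.mul h3 (Sm.pow (Sm.snd univ Real.contDiff_sin) 2)
    exact Sm.neg (Sm.mul h4 (Sm.cos (f := S.f01) S.sm01))
  have z01 : ∀ θ ∈ Ioo 0 π, D t θ = 0 := by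
    apply PoB_zero s01 ht
    · intro θ hθ
      have hp : (![t, θ, 0, 0] : Pt) ∈ chartS := PoB_chart ht hθ
      have h1 := h.coclosed ![t, θ, 0, 0] hp 0
      rw [Fin.sum_univ_four] at h1
      have e0 : pd 0 (fun q => √|(S.met q).det| * up S.met S.field 0 0 q) ![t, θ, 0, 0] = 0 := by
        have h2 := pd_congr (i := 0) (f := fun q => √|(S.met q).det| * up S.met S.field 0 0 q)
          (g := fun _ => 0) (p := ![t, θ, 0, 0]) hp (fun q hq => by
            rw [(S.dens01 hq).2.2.1, mul_zero])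
        rw [h2]
        unfold pd
        exact deriv_const _ _
      have e1 : pd 1 (fun q => √|(S.met q).det| * up S.met S.field 1 0 q) ![t, θ, 0, 0] = dh D t θ := by
        have h2 := pd_congr (i := 1) (f := fun q => √|(S.met q).det| * up S.met S.field 1 0 q)
          (g := fun q => D (q 0) (q 1)) (p := ![t, θ, 0, 0]) hp (fun q hq => by
            rw [(S.dens01 hq).2.1, mul_neg, (S.dens01 hq).1])
        rw [h2, pd1]
        rfl
      rw [e0, e1, PoB_pd 2 (by decide) (by decide), PoB_pd 3 (by decide) (by decide)] at h1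
      linarith
    · rw [hD]
      simp
  intro θ hθ
  have hs : 0 < sin θ := sin_pos_of_mem_Ioo hθ
  have hst : 0 < sin t := sin_pos_of_mem_Ioo ht
  constructor
  · have h1 := z01 θ hθ
    rw [hD] at h1
    simp only [neg_eq_zero] at h1
    have h2 : exp (-(2 * S.a t (cos θ))) * S.c * sin t * sin θ ^ 2 ≠ 0 :=
      (mul_pos (mul_pos (mul_pos (exp_pos _) S.hc) hst) (pow_pos hs 2)).ne'
    exact (mul_eq_zero.1 h1).resolve_left h2
  · have h1 := z23 θ hθ
    have h2 : 1 - cos θ ^ 2 ≠ 0 := by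
      have h3 := Real.sin_sq_add_cos_sq θ
      have h4 : 0 < sin θ ^ 2 := pow_pos hs 2
      have : 1 - cos θ ^ 2 = sin θ ^ 2 := by linarith
      rw [this]
      exact h4.ne'
    exact (mul_eq_zero.1 h1).resolve_left h2

/-- The remaining closedness relations: `∂_t F_{12} = ∂_θ F_{02}` and `∂_t F_{13} = ∂_θ F_{03}`, in the
variables `(t, ζ)`: `∂_t f12 = ∂_ζ ((1 - ζ) f02)` for `ζ ∈ (-1, 1)` (divide by `-sin θ`). -/
theorem Space.closed12 (S : Space) (h : EinsteinMaxwell S.met S.field chartS) :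
    ∀ t ∈ Ioo 0 π, ∀ ζ ∈ Ioo (-1 : ℝ) 1,
      dt S.f12 t ζ = dh (fun t z => (1 - z) * S.f02 t z) t ζ ∧
      dt S.f13 t ζ = dh (fun t z => (1 + z) * S.f03 t z) t ζ := by
  intro t ht ζ hζ
  have hθ : arccos ζ ∈ Ioo 0 π := ⟨arccos_pos.2 hζ.2, arccos_lt_pi.2 hζ.1⟩
  have hcos : cos (arccos ζ) = ζ := cos_arccos hζ.1.le hζ.2.le
  generalize arccos ζ = θ at hθ hcos
  subst hcos
  have hs : 0 < sin θ := sin_pos_of_mem_Ioo hθ
  have hp : (![t, θ, 0, 0] : Pt) ∈ chartS := PoB_chart ht hθ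
  have k2 : Sm univ (fun t z => (1 - z) * S.f02 t z) :=
    Sm.mul (Sm.sub (Sm.const univ 1) (Sm.snd univ contDiff_id)) S.sm02
  have k3 : Sm univ (fun t z => (1 + z) * S.f03 t z) :=
    Sm.mul (Sm.add (Sm.const univ 1) (Sm.snd univ contDiff_id)) S.sm03
  constructor
  · have h1 := h.closed ![t, θ, 0, 0] hp 0 1 2
    have e1 : pd 0 (fun q : Pt => S.field q 1 2) ![t, θ, 0, 0] =
        dt (fun t θ => -(sin θ * S.f12 t (cos θ))) t θ :=
      pd0 (fun t θ => -(sin θ * S.f12 t (cos θ))) ![t, θ, 0, 0]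
    have e2 : pd 1 (fun q : Pt => S.field q 2 0) ![t, θ, 0, 0] =
        dh (fun t θ => -((1 - cos θ) * S.f02 t (cos θ))) t θ :=
      pd1 (fun t θ => -((1 - cos θ) * S.f02 t (cos θ))) ![t, θ, 0, 0]
    have e3 : pd 2 (fun q : Pt => S.field q 0 1) ![t, θ, 0, 0] = 0 :=
      pd2 (fun t θ => -(sin θ * S.f01 t (cos θ))) ![t, θ, 0, 0]
    rw [e1, e2, e3, add_zero] at h1
    have h2 : dt (fun t θ => -(sin θ * S.f12 t (cos θ))) t θ = -(sin θ * dt S.f12 t (cos θ)) :=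
      ((C1.hasDt isOpen_univ (Sm.c1 S.sm12) ht (mem_univ (cos θ))).const_mul (sin θ)).neg.deriv
    have h3 : dh (fun t θ => -((1 - cos θ) * S.f02 t (cos θ))) t θ =
        -(-sin θ * dh (fun t z => (1 - z) * S.f02 t z) t (cos θ)) := by
      rw [← Sm.dh_cos k2 ht θ]
      exact (C1.hasDh isOpen_univ (Sm.cos k2).c1 ht (mem_univ θ)).neg.deriv
    have h4 : dt (fun t θ => -(sin θ * S.f12 t (cos θ))) t θ +
        dh (fun t θ => -((1 - cos θ) * S.f02 t (cos θ))) t θ = 0 := h1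
    rw [h2, h3] at h4
    have h5 : sin θ * (dt S.f12 t (cos θ) - dh (fun t z => (1 - z) * S.f02 t z) t (cos θ)) = 0 := by
      linear_combination -h4
    exact sub_eq_zero.1 ((mul_eq_zero.1 h5).resolve_left hs.ne')
  · have h1 := h.closed ![t, θ, 0, 0] hp 0 1 3
    have e1 : pd 0 (fun q : Pt => S.field q 1 3) ![t, θ, 0, 0] =
        dt (fun t θ => -(sin θ * S.f13 t (cos θ))) t θ :=
      pd0 (fun t θ => -(sin θ * S.f13 t (cos θ))) ![t, θ, 0, 0]
    have e2 : pd 1 (fun q : Pt => S.field q 3 0) ![t, θ, 0, 0] =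
        dh (fun t θ => -((1 + cos θ) * S.f03 t (cos θ))) t θ :=
      pd1 (fun t θ => -((1 + cos θ) * S.f03 t (cos θ))) ![t, θ, 0, 0]
    have e3 : pd 3 (fun q : Pt => S.field q 0 1) ![t, θ, 0, 0] = 0 :=
      pd3 (fun t θ => -(sin θ * S.f01 t (cos θ))) ![t, θ, 0, 0]
    rw [e1, e2, e3, add_zero] at h1
    have h2 : dt (fun t θ => -(sin θ * S.f13 t (cos θ))) t θ = -(sin θ * dt S.f13 t (cos θ)) :=
      ((C1.hasDt isOpen_univ (Sm.c1 S.sm13) ht (mem_univ (cos θ))).const_mul (sin θ)).neg.deriv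
    have h3 : dh (fun t θ => -((1 + cos θ) * S.f03 t (cos θ))) t θ =
        -(-sin θ * dh (fun t z => (1 + z) * S.f03 t z) t (cos θ)) := by
      rw [← Sm.dh_cos k3 ht θ]
      exact (C1.hasDh isOpen_univ (Sm.cos k3).c1 ht (mem_univ θ)).neg.deriv
    have h4 : dt (fun t θ => -(sin θ * S.f13 t (cos θ))) t θ +
        dh (fun t θ => -((1 + cos θ) * S.f03 t (cos θ))) t θ = 0 := h1
    rw [h2, h3] at h4
    have h5 : sin θ * (dt S.f13 t (cos θ) - dh (fun t z => (1 + z) * S.f03 t z) t (cos θ)) = 0 := by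
      linear_combination -h4
    exact sub_eq_zero.1 ((mul_eq_zero.1 h5).resolve_left hs.ne')

end GS
end

section

open Real Set
open scoped ContDiff Matrix

namespace GS

private theorem PoC_key {A f g : ℝ → ℝ → ℝ} (hA : Sm univ A) (hg : Sm univ g)
    (h1 : ∀ t ∈ Ioo 0 π, ∀ ζ, dh A t ζ = f t ζ)
    (h2 : ∀ t ∈ Ioo 0 π, ∀ ζ ∈ Ioo (-1 : ℝ) 1, dt f t ζ = dh g t ζ)
    {e : ℝ} (he : e = 1 ∨ e = -1) (h3 : ∀ t ∈ Ioo 0 π, dt A t e = g t e) :
    ∀ t ∈ Ioo 0 π, ∀ ζ ∈ Ioo (-1 : ℝ) 1, dt A t ζ = g t ζ := by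
  intro t ht ζ hζ
  have hdA : ∀ z, HasDerivAt (fun z => dt A t z) (dh (dt A) t z) z := fun z =>
    C1.hasDh isOpen_univ (Sm.c1 (Sm.dt isOpen_univ hA)) ht (mem_univ z)
  have hdg : ∀ z, HasDerivAt (fun z => g t z) (dh g t z) z := fun z =>
    C1.hasDh isOpen_univ (Sm.c1 hg) ht (mem_univ z)
  have hD : ∀ z, HasDerivAt (fun z => dt A t z - g t z) (dh (dt A) t z - dh g t z) z :=
    fun z => (hdA z).sub (hdg z)
  have h0 : ∀ z ∈ Ioo (-1 : ℝ) 1, dh (dt A) t z - dh g t z = 0 := by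
    intro z hz
    rw [← h2 t ht z hz, ← Sm.comm isOpen_univ hA ht (mem_univ z)]
    have h4 : dt (dh A) t z = dt f t z := by
      unfold GS.dt
      apply Filter.EventuallyEq.deriv_eq
      filter_upwards [Ioo_mem_nhds ht.1 ht.2] with s hs
      exact h1 s hs z
    rw [h4, sub_self]
  have hmvt : ∀ a b : ℝ, a < b → (∀ z ∈ Ioo a b, z ∈ Ioo (-1 : ℝ) 1) →
      dt A t b - g t b = dt A t a - g t a := by
    intro a b hab hsub
    obtain ⟨c, hc, hc'⟩ := exists_hasDerivAt_eq_slope (fun z => dt A t z - g t z)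
      (fun z => dh (dt A) t z - dh g t z) hab
      (fun z _ => (hD z).continuousAt.continuousWithinAt) (fun z _ => hD z)
    rw [h0 c (hsub c hc)] at hc'
    have h5 : b - a ≠ 0 := by linarith
    have h6 := (div_eq_zero_iff.1 hc'.symm).resolve_right h5
    linarith
  have he3 := h3 t ht
  rcases he with rfl | rfl
  · have h7 := hmvt ζ 1 hζ.2 (fun z hz => ⟨hζ.1.trans hz.1, hz.2⟩)
    linarith
  · have h7 := hmvt (-1) ζ hζ.1 (fun z hz => ⟨hz.1, hz.2.trans hζ.2⟩)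
    linarith

/-- TASK PoC. An invariant solution is, up to a homothety, of the form `Gowdy` on the chart.

Proof. Let `α₀`, `β₀` be the functions of `exists_prim1` for `f12` and of `exists_prim2` for `f13`:
`∂_ζ ((1 - ζ) α₀) = f12`, `∂_ζ ((1 + ζ) β₀) = f13` for `t ∈ (0, π)`, and let `G` be `S.g0` with
`α = α₀/√c`, `β = β₀/√c`. Then `√c G.field = F` on the chart: with `x = (1 - cos θ) α₀(t, cos θ)`,
`x_θ = -sin θ f12 = F_{12}`, and `x_t = F_{02}`: the function `g(ζ) = (1 - ζ)(f02 - dt α₀)(t, ζ)` has on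
`(-1, 1)` the derivative `∂_t f12 - ∂_t f12 = 0` (`Space.closed12`; `∂_ζ ∂_t ((1-ζ) α₀) = ∂_t f12` by
`Sm.comm` for the smooth function `(1 - ζ) α₀`, whose `dh` is `f12` on the strip) and tends to `0` at
`ζ = 1`, so `g = 0`. In the same way for `y` (limit at `ζ = -1`). `F_{01} = F_{23} = 0` by `Space.f01_f23`.
Use `field_eq` for `G`. -/
theorem Space.exists_gowdy (S : Space) (h : EinsteinMaxwell S.met S.field chartS) :
    ∃ G : Gowdy, (∀ p, S.met p = S.c • G.met p) ∧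
      ∀ p ∈ chart, S.field p = √S.c • G.field p := by
  have hc : 0 < √S.c := Real.sqrt_pos.2 S.hc
  have s12 : Sm univ (fun t ζ => S.f12 t ζ / √S.c) :=
    Sm.div (f := S.f12) S.sm12 (Sm.const univ (√S.c)) (fun _ _ _ _ => hc.ne')
  have s13 : Sm univ (fun t ζ => S.f13 t ζ / √S.c) :=
    Sm.div (f := S.f13) S.sm13 (Sm.const univ (√S.c)) (fun _ _ _ _ => hc.ne')
  have sid : Sm univ (fun _ ζ => ζ) := Sm.snd univ contDiff_id
  have sm1 : Sm univ (fun _ ζ => 1 - ζ) := Sm.sub (Sm.const univ 1) sid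
  have sp1 : Sm univ (fun _ ζ => 1 + ζ) := Sm.add (Sm.const univ 1) sid
  obtain ⟨α, smα, hα⟩ := exists_prim1 s12
  obtain ⟨β, smβ, hβ⟩ := exists_prim2 s13
  have sA : Sm univ (fun t ζ => (1 - ζ) * α t ζ) := Sm.mul sm1 smα
  have sB : Sm univ (fun t ζ => (1 + ζ) * β t ζ) := Sm.mul sp1 smβ
  have s02 : Sm univ (fun t ζ => (1 - ζ) * S.f02 t ζ / √S.c) :=
    Sm.div (Sm.mul sm1 (g := S.f02) S.sm02) (Sm.const univ (√S.c)) (fun _ _ _ _ => hc.ne')
  have s03 : Sm univ (fun t ζ => (1 + ζ) * S.f03 t ζ / √S.c) :=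
    Sm.div (Sm.mul sp1 (g := S.f03) S.sm03) (Sm.const univ (√S.c)) (fun _ _ _ _ => hc.ne')
  have hxt := PoC_key (A := fun t ζ => (1 - ζ) * α t ζ) (f := fun t ζ => S.f12 t ζ / √S.c)
    (g := fun t ζ => (1 - ζ) * S.f02 t ζ / √S.c) sA s02 (fun t ht ζ => (hα t ht ζ).deriv)
    (fun t ht ζ hζ => by
      have h1 := (S.closed12 h t ht ζ hζ).1
      unfold dt dh at h1 ⊢
      rw [deriv_div_const, deriv_div_const, h1]) (e := 1) (Or.inl rfl)
    (fun t ht => by
      unfold dt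
      simp)
  have hyt := PoC_key (A := fun t ζ => (1 + ζ) * β t ζ) (f := fun t ζ => S.f13 t ζ / √S.c)
    (g := fun t ζ => (1 + ζ) * S.f03 t ζ / √S.c) sB s03 (fun t ht ζ => (hβ t ht ζ).deriv)
    (fun t ht ζ hζ => by
      have h1 := (S.closed12 h t ht ζ hζ).2
      unfold dt dh at h1 ⊢
      rw [deriv_div_const, deriv_div_const, h1]) (e := -1) (Or.inr rfl)
    (fun t ht => by
      unfold dt
      simp)
  refine ⟨{ S.g0 with
    α := α
    β := β
    smα := smα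
    smβ := smβ }, fun p => S.met_smul p, fun p hp => ?_⟩
  rw [field_eq]
  have ht : p 0 ∈ Ioo 0 π := hp.1
  have hθ : p 1 ∈ Ioo 0 π := hp.2
  have hζ : cos (p 1) ∈ Ioo (-1 : ℝ) 1 := by
    constructor
    · rw [← Real.cos_pi]
      exact Real.cos_lt_cos_of_nonneg_of_le_pi hθ.1.le le_rfl hθ.2
    · rw [← Real.cos_zero]
      exact Real.cos_lt_cos_of_nonneg_of_le_pi le_rfl hθ.2.le hθ.1
  obtain ⟨e01, e23⟩ := S.f01_f23 h (p 0) ht (p 1) hθ
  set G : Gowdy := { S.g0 with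
    α := α
    β := β
    smα := smα
    smβ := smβ } with hG
  have exx : G.x = fun t θ => (fun t ζ => (1 - ζ) * α t ζ) t (cos θ) := rfl
  have eyy : G.y = fun t θ => (fun t ζ => (1 + ζ) * β t ζ) t (cos θ) := rfl
  have e1 : dt G.x (p 0) (p 1) = (1 - cos (p 1)) * S.f02 (p 0) (cos (p 1)) / √S.c := by
    exact hxt (p 0) ht (cos (p 1)) hζ
  have e2 : dt G.y (p 0) (p 1) = (1 + cos (p 1)) * S.f03 (p 0) (cos (p 1)) / √S.c := by
    exact hyt (p 0) ht (cos (p 1)) hζ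
  have e3 : dh G.x (p 0) (p 1) = -sin (p 1) * (S.f12 (p 0) (cos (p 1)) / √S.c) := by
    have h1 := Sm.dh_cos sA ht (p 1)
    rw [exx, h1]
    congr 1
    exact (hα (p 0) ht (cos (p 1))).deriv
  have e4 : dh G.y (p 0) (p 1) = -sin (p 1) * (S.f13 (p 0) (cos (p 1)) / √S.c) := by
    have h1 := Sm.dh_cos sB ht (p 1)
    rw [eyy, h1]
    congr 1
    exact (hβ (p 0) ht (cos (p 1))).deriv
  have r : ∀ x : ℝ, √S.c * (x / √S.c) = x := fun x => mul_div_cancel₀ x hc.ne'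
  ext i j
  fin_cases i <;> fin_cases j <;>
    simp [Space.field, fxy, e1, e2, e3, e4, e01, e23] <;> field_simp

end GS
end
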