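import Pool.Agent.Lib.MP_898b37_mp.GS.Dat
import Pool.Agent.Lib.MP_898b37_mp.GS.CalcA
import Pool.Agent.Lib.MP_898b37_mp.GS.Geo

section

open Real Set MeasureTheory intervalIntegral

namespace GS

private theorem EnA_fd {S : Set ℝ} (hS : IsOpen S) {e : ℝ → ℝ → ℝ} (he : C1 S e) :
    ContinuousOn (fderiv ℝ (Function.uncurry e)) (Ioo 0 π ×ˢ S) :=
  ContDiffOn.continuousOn_fderiv_of_isOpen he (isOpen_Ioo.prod hS) le_rfl

private theorem EnA_diff {S : Set ℝ} (hS : IsOpen S) {e : ℝ → ℝ → ℝ} (he : C1 S e) {q : ℝ × ℝ}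
    (hq : q ∈ Ioo 0 π ×ˢ S) :
    HasFDerivAt (Function.uncurry e) (fderiv ℝ (Function.uncurry e) q) q := by
  have h1 : ContDiffAt ℝ 1 (Function.uncurry e) q :=
    ContDiffOn.contDiffAt he ((isOpen_Ioo.prod hS).mem_nhds hq)
  exact (h1.differentiableAt one_ne_zero).hasFDerivAt

private theorem EnA_dt {S : Set ℝ} (hS : IsOpen S) {e : ℝ → ℝ → ℝ} (he : C1 S e) {q : ℝ × ℝ}
    (hq : q ∈ Ioo 0 π ×ˢ S) :
    HasDerivAt (fun s => e s q.2) (fderiv ℝ (Function.uncurry e) q (1, 0)) q.1 := by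
  have h1 := EnA_diff hS he hq
  have h2 : HasDerivAt (fun s : ℝ => (s, q.2)) ((1 : ℝ), (0 : ℝ)) q.1 :=
    (hasDerivAt_id q.1).prodMk (hasDerivAt_const q.1 q.2)
  have h3 : HasFDerivAt (Function.uncurry e) (fderiv ℝ (Function.uncurry e) q)
      ((fun s : ℝ => (s, q.2)) q.1) := h1
  exact h3.comp_hasDerivAt q.1 h2

private theorem EnA_dh {S : Set ℝ} (hS : IsOpen S) {e : ℝ → ℝ → ℝ} (he : C1 S e) {q : ℝ × ℝ}
    (hq : q ∈ Ioo 0 π ×ˢ S) :
    HasDerivAt (fun s => e q.1 s) (fderiv ℝ (Function.uncurry e) q (0, 1)) q.2 := by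
  have h1 := EnA_diff hS he hq
  have h2 : HasDerivAt (fun s : ℝ => (q.1, s)) ((0 : ℝ), (1 : ℝ)) q.2 :=
    (hasDerivAt_const q.2 q.1).prodMk (hasDerivAt_id q.2)
  have h3 : HasFDerivAt (Function.uncurry e) (fderiv ℝ (Function.uncurry e) q)
      ((fun s : ℝ => (q.1, s)) q.2) := h1
  exact h3.comp_hasDerivAt q.2 h2

/-- Continuity of the partial derivatives. -/
theorem C1.cont_dt {S : Set ℝ} (hS : IsOpen S) {e : ℝ → ℝ → ℝ} (he : C1 S e) :
    ContinuousOn (Function.uncurry (dt e)) (Ioo 0 π ×ˢ S) := by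
  have h1 : ContinuousOn (fun q : ℝ × ℝ => fderiv ℝ (Function.uncurry e) q (1, 0))
      (Ioo 0 π ×ˢ S) := (EnA_fd hS he).clm_apply continuousOn_const
  refine h1.congr fun q hq => ?_
  exact (EnA_dt hS he hq).deriv

theorem C1.cont_dh {S : Set ℝ} (hS : IsOpen S) {e : ℝ → ℝ → ℝ} (he : C1 S e) :
    ContinuousOn (Function.uncurry (dh e)) (Ioo 0 π ×ˢ S) := by
  have h1 : ContinuousOn (fun q : ℝ × ℝ => fderiv ℝ (Function.uncurry e) q (0, 1))
      (Ioo 0 π ×ˢ S) := (EnA_fd hS he).clm_apply continuousOn_const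
  refine h1.congr fun q hq => ?_
  exact (EnA_dh hS he hq).deriv

/-- TASK EnA. The energy function is differentiable: if `e` is `C1` on `(0, π) × ℝ` then
`t ↦ ∫_0^π e(t, θ) dθ` has derivative `∫_0^π e_t(t, θ) dθ`.
Proof: `intervalIntegral.hasDerivAt_integral_of_dominated_loc_of_deriv_le` on a small compact
interval around `t`; the derivative `dt e` is continuous on `Ioo 0 π ×ˢ univ` (it is
`fderiv ℝ (uncurry e) (t, θ) (1, 0)`, `ContDiffOn.continuousOn_fderiv_of_isOpen`), hence bounded on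
compact sets. -/
theorem hasDerivAt_energy {e : ℝ → ℝ → ℝ} (he : C1 univ e) {t : ℝ} (ht : t ∈ Ioo 0 π) (b : ℝ) :
    HasDerivAt (fun s => ∫ θ in (0 : ℝ)..b, e s θ) (∫ θ in (0 : ℝ)..b, dt e t θ) t := by
  obtain ⟨ε, hε, hsub⟩ := Metric.nhds_basis_closedBall.mem_iff.1 (isOpen_Ioo.mem_nhds ht)
  have hcont : ContinuousOn (Function.uncurry e) (Ioo 0 π ×ˢ univ) := ContDiffOn.continuousOn he
  have hce : ∀ s ∈ Ioo 0 π, Continuous (e s) := by
    intro s hs
    have h2 : Continuous fun θ : ℝ => (s, θ) := by fun_prop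
    have h1 : ContinuousOn (Function.uncurry e ∘ fun θ : ℝ => (s, θ)) univ :=
      hcont.comp h2.continuousOn fun θ _ => ⟨hs, mem_univ _⟩
    exact continuousOn_univ.1 h1
  have hcd : Continuous (dt e t) := by
    have h2 : Continuous fun θ : ℝ => (t, θ) := by fun_prop
    have h1 : ContinuousOn (Function.uncurry (dt e) ∘ fun θ : ℝ => (t, θ)) univ :=
      (C1.cont_dt isOpen_univ he).comp h2.continuousOn fun θ _ => ⟨ht, mem_univ _⟩
    exact continuousOn_univ.1 h1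
  have hK : IsCompact (Metric.closedBall t ε ×ˢ uIcc (0 : ℝ) b) :=
    (isCompact_closedBall t ε).prod isCompact_uIcc
  have hdK : ContinuousOn (Function.uncurry (dt e)) (Metric.closedBall t ε ×ˢ uIcc (0 : ℝ) b) :=
    (C1.cont_dt isOpen_univ he).mono (prod_mono hsub (subset_univ _))
  obtain ⟨C, hC⟩ := hK.exists_bound_of_continuousOn hdK
  refine (intervalIntegral.hasDerivAt_integral_of_dominated_loc_of_deriv_le
    (F := fun s θ => e s θ) (F' := fun s θ => dt e s θ) (bound := fun _ => C)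
    (Metric.closedBall_mem_nhds t hε) ?_ ?_ ?_ ?_ ?_ ?_).2
  · filter_upwards [isOpen_Ioo.mem_nhds ht] with s hs
    exact (hce s hs).aestronglyMeasurable
  · exact (hce t ht).intervalIntegrable 0 b
  · exact hcd.aestronglyMeasurable
  · refine Filter.Eventually.of_forall fun θ hθ s hs => ?_
    exact hC (s, θ) ⟨hs, uIoc_subset_uIcc hθ⟩
  · exact intervalIntegrable_const
  · refine Filter.Eventually.of_forall fun θ _ s hs => ?_
    have h1 := EnA_dt isOpen_univ he (q := (s, θ)) ⟨hsub hs, mem_univ _⟩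
    have h2 : dt e s θ = fderiv ℝ (Function.uncurry e) (s, θ) (1, 0) := h1.deriv
    rw [h2]
    exact h1

end GS
end

section

open Real Set MeasureTheory intervalIntegral

namespace GS

private theorem EnB_contAt {e : ℝ → ℝ → ℝ} (he : C1 univ e) {s : ℝ} (hs : s ∈ Ioo 0 π) (θ : ℝ) :
    ContinuousAt (Function.uncurry e) (s, θ) :=
  he.continuousOn.continuousAt ((isOpen_Ioo.prod isOpen_univ).mem_nhds ⟨hs, mem_univ _⟩)

private theorem EnB_cont {e : ℝ → ℝ → ℝ} (he : C1 univ e) {s : ℝ} (hs : s ∈ Ioo 0 π) :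
    Continuous (e s) := by
  rw [continuous_iff_continuousAt]
  intro θ
  have h1 : ContinuousAt (fun θ : ℝ => ((s, θ) : ℝ × ℝ)) θ :=
    (Continuous.prodMk_right s).continuousAt
  exact ContinuousAt.comp (f := fun θ : ℝ => ((s, θ) : ℝ × ℝ)) (EnB_contAt he hs θ) h1

/-- TASK EnB. Leibniz rule with a moving upper end: if `e` is `C1` on `(0, π) × ℝ` and `t ∈ (0, π)` then
`K(s) = ∫_0^{s - u} e(s, θ) dθ` has derivative `e(t, t - u) + ∫_0^{t - u} e_t(t, θ) dθ` at `t`.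
Proof: let `G(s, b) = ∫_0^b e(s, θ) dθ`. Then `K(s) = G(s, s - u)`,
`K(s) - K(t) = (G(s, s - u) - G(s, t - u)) + (G(s, t - u) - G(t, t - u))`. The second difference is
treated with `hasDerivAt_energy` (`b = t - u`). The first is `∫_{t-u}^{s-u} e(s, θ) dθ`
`= (s - t) e(t, t - u) + o(s - t)` because `e` is continuous at `(t, t - u)`: for `ε > 0` there is
`δ` with `|e(s, θ) - e(t, t - u)| ≤ ε` for `|s - t| ≤ δ`, `|θ - (t - u)| ≤ δ`, and then
`|∫_{t-u}^{s-u} (e(s, θ) - e(t, t - u)) dθ| ≤ ε |s - t|`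
(`intervalIntegral.norm_integral_le_of_norm_le_const`). -/
theorem hasDerivAt_moving {e : ℝ → ℝ → ℝ} (he : C1 univ e) (u : ℝ) {t : ℝ} (ht : t ∈ Ioo 0 π) :
    HasDerivAt (fun s => ∫ θ in (0 : ℝ)..(s - u), e s θ)
      (e t (t - u) + ∫ θ in (0 : ℝ)..(t - u), dt e t θ) t := by
  have hA := hasDerivAt_energy he ht (t - u)
  have hB : HasDerivAt (fun s => ∫ θ in (t - u)..(s - u), e s θ) (e t (t - u)) t := by
    rw [hasDerivAt_iff_isLittleO, Asymptotics.isLittleO_iff]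
    intro c hc
    have h1 := EnB_contAt he ht (t - u)
    rw [Metric.continuousAt_iff] at h1
    obtain ⟨δ, hδ, h2⟩ := h1 c hc
    have h3 : ∀ᶠ s in nhds t, s ∈ Ioo 0 π := isOpen_Ioo.mem_nhds ht
    have h4 : ∀ᶠ s in nhds t, dist s t < δ := Metric.ball_mem_nhds t hδ
    filter_upwards [h3, h4] with s hs hd
    have h5 : (∫ θ in (t - u)..(s - u), e s θ) - (s - t) * e t (t - u) =
        ∫ θ in (t - u)..(s - u), (e s θ - e t (t - u)) := by
      rw [intervalIntegral.integral_sub ((EnB_cont he hs).intervalIntegrable _ _)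
        intervalIntegrable_const, intervalIntegral.integral_const, smul_eq_mul]
      ring
    rw [intervalIntegral.integral_same, sub_zero, smul_eq_mul, h5]
    have h6 : ‖∫ θ in (t - u)..(s - u), (e s θ - e t (t - u))‖ ≤ c * |(s - u) - (t - u)| := by
      apply intervalIntegral.norm_integral_le_of_norm_le_const
      intro θ hθ
      have h7 : |θ - (t - u)| ≤ |s - t| := by
        rw [Set.mem_uIoc] at hθ
        rcases hθ with hθ | hθ
        · rw [abs_of_nonneg (by linarith [hθ.1]), abs_of_nonneg (by linarith [hθ.1, hθ.2])]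
          linarith [hθ.2]
        · rw [abs_of_nonpos (by linarith [hθ.2]), abs_of_nonpos (by linarith [hθ.1, hθ.2])]
          linarith [hθ.1]
      have h8 : dist ((s, θ) : ℝ × ℝ) (t, t - u) < δ := by
        rw [Prod.dist_eq]
        apply max_lt hd
        rw [Real.dist_eq] at hd ⊢
        exact lt_of_le_of_lt h7 hd
      have h9 := h2 h8
      rw [Real.dist_eq] at h9
      exact h9.le
    refine h6.trans (le_of_eq ?_)
    rw [Real.norm_eq_abs]
    congr 2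
    ring
  have hsum := hB.add hA
  refine hsum.congr_of_eventuallyEq ?_
  have h3 : ∀ᶠ s in nhds t, s ∈ Ioo 0 π := isOpen_Ioo.mem_nhds ht
  filter_upwards [h3] with s hs
  show (∫ θ in (0 : ℝ)..(s - u), e s θ) =
    (∫ θ in (t - u)..(s - u), e s θ) + ∫ θ in (0 : ℝ)..(t - u), e s θ
  rw [add_comm, intervalIntegral.integral_add_adjacent_intervals
    ((EnB_cont he hs).intervalIntegrable _ _) ((EnB_cont he hs).intervalIntegrable _ _)]

end GS
end

section

open Real Set MeasureTheory intervalIntegral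

namespace GS

/-- The total energy `E(t) = ∫_0^π (At + Bt) dθ`. -/
noncomputable def Dat.En (D : Dat) (t : ℝ) : ℝ := ∫ θ in (0 : ℝ)..π, (D.At t θ + D.Bt t θ)

/-- The constant `M = E(1) sin 1`. -/
noncomputable def Dat.M (D : Dat) : ℝ := D.En 1 * sin 1

private theorem EnC_c1 (D : Dat) : C1 univ (fun t θ => D.At t θ + D.Bt t θ) :=
  D.cAt.add D.cBt

private theorem EnC_slice {e : ℝ → ℝ → ℝ}
    (he : ContinuousOn (Function.uncurry e) (Ioo 0 π ×ˢ (univ : Set ℝ))) {t : ℝ}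
    (ht : t ∈ Ioo 0 π) : Continuous fun θ => e t θ :=
  he.comp_continuous (f := fun θ : ℝ => (t, θ)) (by fun_prop) fun θ => ⟨ht, mem_univ θ⟩

private theorem EnC_cont {e : ℝ → ℝ → ℝ} (he : C1 univ e) {t : ℝ} (ht : t ∈ Ioo 0 π) :
    Continuous fun θ => e t θ :=
  EnC_slice he.continuousOn ht

/-- TASK EnC. `E(t) ≤ M / sin t` for `0 < t ≤ 1`.
Proof: put `e = At + Bt`, `f = Bt - At` (both `C1 univ`). By `hasDerivAt_energy`,
`E'(t) = ∫_0^π e_t dθ`. By `D.en`, `e_t ≥ f_θ - (cos t / sin t) e` for `t ∈ (0, π/2)`,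
`θ ∈ [0, π]` (`|cos t / sin t| = cos t / sin t`), and
`∫_0^π f_θ dθ = f(t, π) - f(t, 0) = 0` by `D.ax0`, `D.ax1`
(`intervalIntegral.integral_eq_sub_of_hasDerivAt`). So `E' ≥ -(cos t / sin t) E` and
`(E sin t)' = sin t (E' + (cos t / sin t) E) ≥ 0` on `(0, π/2)`; `E sin t` is monotone on
`(0, π/2)` (`monotoneOn_of_deriv_nonneg`), and `1 < π/2`. -/
theorem Dat.En_le (D : Dat) {t : ℝ} (h0 : 0 < t) (h1 : t ≤ 1) : D.En t ≤ D.M / sin t := by
  have hpi : (1 : ℝ) < π / 2 := by have := Real.pi_gt_three; linarith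
  have hsub : ∀ s ∈ Ioo (0 : ℝ) (π / 2), s ∈ Ioo (0 : ℝ) π := fun s hs => ⟨hs.1, by
    have := Real.pi_pos
    linarith [hs.2]⟩
  -- the derivative of the energy
  have hE : ∀ s ∈ Ioo (0 : ℝ) π, HasDerivAt D.En
      (∫ θ in (0 : ℝ)..π, dt (fun t θ => D.At t θ + D.Bt t θ) s θ) s := fun s hs =>
    hasDerivAt_energy (EnC_c1 D) hs π
  have hge : ∀ s ∈ Ioo (0 : ℝ) (π / 2), -(cos s / sin s) * D.En s ≤
      ∫ θ in (0 : ℝ)..π, dt (fun t θ => D.At t θ + D.Bt t θ) s θ := by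
    intro s hs
    have hs' := hsub s hs
    have hsin : 0 < sin s := sin_pos_of_pos_of_lt_pi hs'.1 hs'.2
    have hcos : 0 < cos s := cos_pos_of_mem_Ioo ⟨by linarith [hs.1, Real.pi_pos], hs.2⟩
    have cA : Continuous fun θ => D.At s θ := EnC_cont D.cAt hs'
    have cB : Continuous fun θ => D.Bt s θ := EnC_cont D.cBt hs'
    have cdA : Continuous fun θ => dh D.At s θ :=
      EnC_slice (C1.cont_dh isOpen_univ D.cAt) hs'
    have cdB : Continuous fun θ => dh D.Bt s θ :=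
      EnC_slice (C1.cont_dh isOpen_univ D.cBt) hs'
    have cde : Continuous fun θ => dt (fun t θ => D.At t θ + D.Bt t θ) s θ :=
      EnC_slice (C1.cont_dt isOpen_univ (EnC_c1 D)) hs'
    have hz : ∫ θ in (0 : ℝ)..π, (dh D.Bt s θ - dh D.At s θ) = 0 := by
      rw [intervalIntegral.integral_eq_sub_of_hasDerivAt (f := fun θ => D.Bt s θ - D.At s θ)]
      · simp only [D.ax0 s hs', D.ax1 s hs']
        ring
      · intro θ _
        exact (C1.hasDh isOpen_univ D.cBt hs' (mem_univ θ)).sub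
          (C1.hasDh isOpen_univ D.cAt hs' (mem_univ θ))
      · exact (cdB.sub cdA).intervalIntegrable _ _
    have h2 : -(cos s / sin s) * D.En s = ∫ θ in (0 : ℝ)..π,
        ((dh D.Bt s θ - dh D.At s θ) + -(cos s / sin s) * (D.At s θ + D.Bt s θ)) := by
      have i1 : IntervalIntegrable (fun θ => dh D.Bt s θ - dh D.At s θ) volume 0 π :=
        (cdB.sub cdA).intervalIntegrable _ _
      have i2 : IntervalIntegrable (fun θ => -(cos s / sin s) * (D.At s θ + D.Bt s θ)) volume 0 π :=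
        (continuous_const.mul (cA.add cB)).intervalIntegrable _ _
      rw [intervalIntegral.integral_add i1 i2, hz, zero_add, intervalIntegral.integral_const_mul]
      rfl
    rw [h2]
    refine intervalIntegral.integral_mono_on Real.pi_pos.le
      (((cdB.sub cdA).add (continuous_const.mul (cA.add cB))).intervalIntegrable _ _)
      (cde.intervalIntegrable _ _) fun θ hθ => ?_
    have h3 := D.en s hs' θ hθ
    have h4 : dt (fun t θ => D.At t θ + D.Bt t θ) s θ = dt D.At s θ + dt D.Bt s θ :=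
      ((C1.hasDt isOpen_univ D.cAt hs' (mem_univ θ)).add
        (C1.hasDt isOpen_univ D.cBt hs' (mem_univ θ))).deriv
    rw [h4]
    rw [abs_of_pos (div_pos hcos hsin)] at h3
    have h5 := (abs_le.1 h3).1
    linarith
  have hg : ∀ s ∈ Ioo (0 : ℝ) (π / 2), HasDerivAt (fun s => D.En s * sin s)
      ((∫ θ in (0 : ℝ)..π, dt (fun t θ => D.At t θ + D.Bt t θ) s θ) * sin s + D.En s * cos s) s :=
    fun s hs => (hE s (hsub s hs)).mul (hasDerivAt_sin s)
  have hmono : MonotoneOn (fun s => D.En s * sin s) (Ioo 0 (π / 2)) := by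
    refine monotoneOn_of_deriv_nonneg (convex_Ioo _ _)
      (fun s hs => (hg s hs).continuousAt.continuousWithinAt)
      (fun s hs => ?_) (fun s hs => ?_)
    · rw [interior_Ioo] at hs
      exact (hg s hs).differentiableAt.differentiableWithinAt
    · rw [interior_Ioo] at hs
      rw [(hg s hs).deriv]
      have hs' := hsub s hs
      have hsin : 0 < sin s := sin_pos_of_pos_of_lt_pi hs'.1 hs'.2
      have h6 := mul_le_mul_of_nonneg_right (hge s hs) hsin.le
      have h7 : -(cos s / sin s) * D.En s * sin s = -(cos s * D.En s) := by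
        field_simp
      rw [h7] at h6
      linarith
  have h8 : D.En t * sin t ≤ D.En 1 * sin 1 :=
    hmono ⟨h0, by linarith⟩ ⟨one_pos, hpi⟩ h1
  have hsin : 0 < sin t := sin_pos_of_pos_of_lt_pi h0 (by have := Real.pi_gt_three; linarith)
  rw [le_div_iff₀ hsin]
  exact h8

theorem Dat.En_nonneg (D : Dat) {t : ℝ} (ht : t ∈ Ioo 0 π) : 0 ≤ D.En t :=
  intervalIntegral.integral_nonneg Real.pi_pos.le fun θ hθ =>
    add_nonneg (D.nAt t ht θ hθ) (D.nBt t ht θ hθ)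

/-- `0 ≤ ∫_0^b (At + Bt) dθ ≤ E(t)` for `0 ≤ b ≤ π` (the integrand is nonnegative on `[0, π]`). -/
theorem Dat.part_le (D : Dat) {t : ℝ} (ht : t ∈ Ioo 0 π) {b : ℝ} (hb : b ∈ Icc 0 π) :
    0 ≤ ∫ θ in (0 : ℝ)..b, (D.At t θ + D.Bt t θ) ∧
    ∫ θ in (0 : ℝ)..b, (D.At t θ + D.Bt t θ) ≤ D.En t := by
  have hc : Continuous fun θ => D.At t θ + D.Bt t θ := EnC_cont (EnC_c1 D) ht
  have h1 : 0 ≤ ∫ θ in (0 : ℝ)..b, (D.At t θ + D.Bt t θ) :=
    intervalIntegral.integral_nonneg hb.1 fun θ hθ =>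
      add_nonneg (D.nAt t ht θ ⟨hθ.1, hθ.2.trans hb.2⟩) (D.nBt t ht θ ⟨hθ.1, hθ.2.trans hb.2⟩)
  have h2 : 0 ≤ ∫ θ in b..π, (D.At t θ + D.Bt t θ) :=
    intervalIntegral.integral_nonneg hb.2 fun θ hθ =>
      add_nonneg (D.nAt t ht θ ⟨hb.1.trans hθ.1, hθ.2⟩) (D.nBt t ht θ ⟨hb.1.trans hθ.1, hθ.2⟩)
  have h3 := intervalIntegral.integral_add_adjacent_intervals
    (hc.intervalIntegrable (μ := volume) 0 b) (hc.intervalIntegrable (μ := volume) b π)
  refine ⟨h1, ?_⟩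
  rw [Dat.En, ← h3]
  linarith

end GS
end

section

open Real Set MeasureTheory intervalIntegral

namespace GS

/-- The energy `K_u(t) = ∫_0^{t - u} (At + Bt) dθ` to the left of the null line `u = const`. -/
noncomputable def Dat.K (D : Dat) (u t : ℝ) : ℝ := ∫ θ in (0 : ℝ)..(t - u), (D.At t θ + D.Bt t θ)

private theorem EnD_e (D : Dat) : C1 univ (fun t θ => D.At t θ + D.Bt t θ) :=
  ContDiffOn.add D.cAt D.cBt

private theorem EnD_slice {f : ℝ → ℝ → ℝ} (hf : ContinuousOn (Function.uncurry f) (Ioo 0 π ×ˢ univ))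
    {t : ℝ} (ht : t ∈ Ioo 0 π) : Continuous (f t) := by
  have h1 : ContinuousOn (fun θ : ℝ => Function.uncurry f (t, θ)) univ :=
    hf.comp (by fun_prop) fun θ _ => ⟨ht, mem_univ _⟩
  exact continuousOn_univ.1 h1

private theorem EnD_dt (D : Dat) {t : ℝ} (ht : t ∈ Ioo 0 π) (θ : ℝ) :
    dt (fun t θ => D.At t θ + D.Bt t θ) t θ = dt D.At t θ + dt D.Bt t θ :=
  ((D.cAt.hasDt isOpen_univ ht (mem_univ θ)).add (D.cBt.hasDt isOpen_univ ht (mem_univ θ))).deriv

/-- TASK EnD. Flux inequality: for `0 < t < π/2` and `0 ≤ t - u ≤ π` the function `K_u` has a derivative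
`k` at `t` with `2 Bt(t, t - u) - (cos t / sin t) K_u(t) ≤ k`.
Proof: `hasDerivAt_moving` for `e = At + Bt` gives `k = e(t, t - u) + ∫_0^{t - u} e_t dθ`. By `D.en`
`e_t ≥ f_θ - (cos t / sin t) e`, `f = Bt - At`, on `[0, t - u] ⊆ [0, π]`, and
`∫_0^{t-u} f_θ = f(t, t - u) - f(t, 0) = f(t, t - u)` by `D.ax0`; finally
`e + f = 2 Bt`. -/
theorem Dat.K_deriv (D : Dat) {u t : ℝ} (h0 : 0 < t) (h1 : t < π / 2) (h2 : 0 ≤ t - u)
    (h3 : t - u ≤ π) :
    ∃ k, HasDerivAt (D.K u) k t ∧ 2 * D.Bt t (t - u) - (cos t / sin t) * D.K u t ≤ k := by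
  have ht : t ∈ Ioo 0 π := ⟨h0, by linarith [pi_pos]⟩
  have hs : 0 < sin t := sin_pos_of_mem_Ioo ht
  have hc : 0 < cos t := cos_pos_of_mem_Ioo ⟨by linarith [pi_pos], h1⟩
  refine ⟨_, hasDerivAt_moving (EnD_e D) u ht, ?_⟩
  have cA : Continuous (D.At t) := EnD_slice D.cAt.continuousOn ht
  have cB : Continuous (D.Bt t) := EnD_slice D.cBt.continuousOn ht
  have cdt : Continuous (dt (fun t θ => D.At t θ + D.Bt t θ) t) :=
    EnD_slice ((EnD_e D).cont_dt isOpen_univ) ht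
  have cdA : Continuous (dh D.At t) := EnD_slice (D.cAt.cont_dh isOpen_univ) ht
  have cdB : Continuous (dh D.Bt t) := EnD_slice (D.cBt.cont_dh isOpen_univ) ht
  have c1 : Continuous (fun θ => dh D.Bt t θ - dh D.At t θ) := by fun_prop
  have c2 : Continuous (fun θ => (cos t / sin t) * (D.At t θ + D.Bt t θ)) := by fun_prop
  have hftc : ∫ θ in (0 : ℝ)..(t - u), (dh D.Bt t θ - dh D.At t θ) =
      D.Bt t (t - u) - D.At t (t - u) := by
    have h4 := intervalIntegral.integral_eq_sub_of_hasDerivAt (a := 0) (b := t - u)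
      (f := fun θ => D.Bt t θ - D.At t θ) (f' := fun θ => dh D.Bt t θ - dh D.At t θ)
      (fun θ _ => (D.cBt.hasDh isOpen_univ ht (mem_univ θ)).sub
        (D.cAt.hasDh isOpen_univ ht (mem_univ θ))) (c1.intervalIntegrable _ _)
    rw [h4, D.ax0 t ht]
    ring
  have hmono : ∫ θ in (0 : ℝ)..(t - u), ((dh D.Bt t θ - dh D.At t θ) -
      (cos t / sin t) * (D.At t θ + D.Bt t θ)) ≤
      ∫ θ in (0 : ℝ)..(t - u), dt (fun t θ => D.At t θ + D.Bt t θ) t θ := by
    refine intervalIntegral.integral_mono_on h2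
      ((c1.sub c2).intervalIntegrable _ _)
      (cdt.intervalIntegrable _ _) fun θ hθ => ?_
    have h5 := D.en t ht θ ⟨hθ.1, hθ.2.trans h3⟩
    rw [abs_of_pos (div_pos hc hs)] at h5
    rw [EnD_dt D ht]
    linarith [(abs_le.1 h5).1]
  have hK : ∫ θ in (0 : ℝ)..(t - u), ((dh D.Bt t θ - dh D.At t θ) -
      (cos t / sin t) * (D.At t θ + D.Bt t θ)) =
      (D.Bt t (t - u) - D.At t (t - u)) - (cos t / sin t) * D.K u t := by
    rw [intervalIntegral.integral_sub (c1.intervalIntegrable _ _)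
      (c2.intervalIntegrable _ _), hftc,
      intervalIntegral.integral_const_mul]
    rfl
  rw [hK] at hmono
  linarith

/-- `0 ≤ K_u(t) ≤ M / sin t` (`Dat.part_le`, `Dat.En_le`). -/
theorem Dat.K_bounds (D : Dat) {u t : ℝ} (h0 : 0 < t) (h1 : t ≤ 1) (h2 : 0 ≤ t - u)
    (h3 : t - u ≤ π) : 0 ≤ D.K u t ∧ D.K u t ≤ D.M / sin t := by
  have ht : t ∈ Ioo 0 π := ⟨h0, by linarith [pi_gt_three]⟩
  obtain ⟨h4, h5⟩ := D.part_le ht ⟨h2, h3⟩
  exact ⟨h4, h5.trans (D.En_le h0 h1)⟩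

/-- `M ≥ 0`. -/
theorem Dat.M_nonneg (D : Dat) : 0 ≤ D.M := by
  have h1 : (1 : ℝ) ∈ Ioo 0 π := ⟨one_pos, by linarith [pi_gt_three]⟩
  exact mul_nonneg (D.En_nonneg h1) (sin_pos_of_mem_Ioo h1).le

/-- Weighted flux inequality: for `0 < t ≤ 3/4`, `0 ≤ t - u ≤ π` the function
`L(t) = √t K_u(t) - (5/2) M / √t` has a derivative `l` at `t` with `2 √t Bt(t, t - u) ≤ l`.
Proof: `l = K/(2√t) + √t k + (5/4) M t^{-3/2} ≥ √t (2 Bt - (cos t/sin t) K) + (5/4) M t^{-3/2}` (`K ≥ 0`)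
and `cos t / sin t ≤ 1 / t` (`t cos t ≤ sin t`), `K ≤ M / sin t ≤ M / ((4/5) t)`
(`sin t ≥ t - t³/4 ≥ (4/5) t` for `0 < t ≤ 3/4`, `Real.sin_gt_sub_cube`), so that
`√t (cos t/sin t) K ≤ (5/4) M t^{-3/2}`. -/
theorem Dat.L_deriv (D : Dat) {u t : ℝ} (h0 : 0 < t) (h1 : t ≤ 3 / 4) (h2 : 0 ≤ t - u)
    (h3 : t - u ≤ π) :
    ∃ l, HasDerivAt (fun s => √s * D.K u s - (5 / 2) * D.M / √s) l t ∧
      2 * √t * D.Bt t (t - u) ≤ l := by
  have hpi := pi_gt_three
  have ht : t ∈ Ioo 0 π := ⟨h0, by linarith⟩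
  have hs : 0 < sin t := sin_pos_of_mem_Ioo ht
  have hc : 0 < cos t := cos_pos_of_mem_Ioo ⟨by linarith, by linarith⟩
  obtain ⟨k, hk, hk2⟩ := D.K_deriv (u := u) h0 (by linarith : t < π / 2) h2 h3
  obtain ⟨hK0, hK1⟩ := D.K_bounds (u := u) h0 (by linarith : t ≤ 1) h2 h3
  have hM := D.M_nonneg
  have hr : 0 < √t := Real.sqrt_pos.2 h0
  have hrr : √t * √t = t := Real.mul_self_sqrt h0.le
  have hsq : HasDerivAt (fun s => √s) (1 / (2 * √t)) t := Real.hasDerivAt_sqrt h0.ne'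
  have hd := (hsq.mul hk).sub ((hasDerivAt_const t ((5 / 2) * D.M)).div hsq hr.ne')
  refine ⟨_, hd, ?_⟩
  have hsin : (4 / 5) * t ≤ sin t := by
    have h5 := Real.sin_gt_sub_cube h0
    nlinarith [mul_pos h0 h0, mul_nonneg h0.le (mul_nonneg (sub_nonneg.2 h1) (add_pos h0 (by norm_num : (0:ℝ) < 3 / 4)).le)]
  have hcot : cos t / sin t ≤ 1 / t := by
    rw [div_le_div_iff₀ hs h0]
    have h6 := Real.lt_tan h0 (by linarith : t < π / 2)
    rw [Real.tan_eq_sin_div_cos, lt_div_iff₀ hc] at h6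
    linarith
  have hKt : D.K u t ≤ (5 / 4) * D.M / t := by
    refine hK1.trans ?_
    rw [div_le_div_iff₀ hs h0]
    nlinarith
  have hmain : √t * ((cos t / sin t) * D.K u t) ≤ (5 / 4) * D.M / (t * √t) := by
    calc √t * ((cos t / sin t) * D.K u t) ≤ √t * ((1 / t) * ((5 / 4) * D.M / t)) :=
          mul_le_mul_of_nonneg_left (mul_le_mul hcot hKt hK0 (by positivity)) hr.le
      _ = (5 / 4) * D.M / (t * √t) := by
          field_simp
          rw [pow_two, hrr]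
  have hl : 1 / (2 * √t) * D.K u t + √t * k -
      (0 * √t - (5 / 2) * D.M * (1 / (2 * √t))) / √t ^ 2 =
      D.K u t / (2 * √t) + √t * k + (5 / 4) * D.M / (t * √t) := by
    rw [pow_two, hrr]
    field_simp
    ring
  rw [hl]
  have h7 : √t * (2 * D.Bt t (t - u) - (cos t / sin t) * D.K u t) ≤ √t * k :=
    mul_le_mul_of_nonneg_left hk2 hr.le
  have h8 : 0 ≤ D.K u t / (2 * √t) := div_nonneg hK0 (by positivity)
  rw [mul_sub] at h7
  linarith

end GS
end

section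

open Real Set

namespace GS

/-- TASK TrA (small numerical facts). -/
theorem sin_lower {x : ℝ} (h0 : 0 < x) (h1 : x ≤ 3 / 4) : (4 / 5) * x ≤ sin x := by
  have := Real.sin_gt_sub_cube h0
  have h2 : x ^ 3 / 6 ≤ (1 / 5) * x := by nlinarith [mul_pos h0 h0]
  linarith

/-- `R ≥ (16/25) t θ`. -/
theorem R_lower {t θ : ℝ} (ht : 0 < t) (ht1 : t ≤ 3 / 4) (hθ : 0 < θ) (hθ1 : θ ≤ 3 / 4) :
    (16 / 25) * (t * θ) ≤ sin t * sin θ := by
  have h1 := sin_lower ht ht1
  have h2 := sin_lower hθ hθ1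
  have h3 : (4 / 5 * t) * (4 / 5 * θ) ≤ sin t * sin θ :=
    mul_le_mul h1 h2 (by positivity) (le_trans (by positivity) h1)
  calc (16 / 25) * (t * θ) = (4 / 5 * t) * (4 / 5 * θ) := by ring
    _ ≤ _ := h3

/-- Young's inequality in the form used for the transport estimate. -/
theorem young {X Y μ s : ℝ} (hX : 0 ≤ X) (hY : 0 < Y) (hμ : 0 < μ) (hs : 0 < s) :
    √(2 * X) / Y ≤ (1 / 2) * (μ * (2 * √s * X) + μ⁻¹ * (1 / √s) * (1 / Y ^ 2)) := by
  have hr : √(2 * X) ^ 2 = 2 * X := Real.sq_sqrt (by positivity)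
  have hs' : 0 < √s := Real.sqrt_pos.2 hs
  have hc : 0 < μ * √s := mul_pos hμ hs'
  have key : √(2 * X) / Y ≤ (1 / 2) * ((μ * √s) * √(2 * X) ^ 2 + 1 / ((μ * √s) * Y ^ 2)) := by
    have h1 : (1 / 2) * ((μ * √s) * √(2 * X) ^ 2 + 1 / ((μ * √s) * Y ^ 2)) - √(2 * X) / Y =
        ((μ * √s) * √(2 * X) * Y - 1) ^ 2 / (2 * (μ * √s) * Y ^ 2) := by
      field_simp
      ring
    have h2 : 0 ≤ ((μ * √s) * √(2 * X) * Y - 1) ^ 2 / (2 * (μ * √s) * Y ^ 2) := by positivity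
    linarith
  refine key.trans (le_of_eq ?_)
  rw [hr]
  field_simp

/-- `√(x + y) ≤ √x + √y`. -/
theorem sqrt_add_le' {x y : ℝ} (hx : 0 ≤ x) (hy : 0 ≤ y) : √(x + y) ≤ √x + √y := by
  rw [Real.sqrt_le_iff]
  refine ⟨by positivity, ?_⟩
  have h1 := Real.sq_sqrt hx
  have h2 := Real.sq_sqrt hy
  have h3 : 0 ≤ √x * √y := by positivity
  nlinarith

/-- Basic differential inequality along the null line `u = t - θ = const` for
`ρ = √(A + ε)`: for `t ∈ (0, 3/4]`, `θ = t - u ∈ (0, 3/4]` and every `ε > 0` the function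
`s ↦ √(A(s, s - u) + ε)` has a derivative `d` at `t` with
`|d| ≤ (1/2) |u| (√(2 Bt)/R + 1 / (√(2R) sin θ))`, `R = sin t sin θ`.
Proof: the derivative of `s ↦ A(s, s - u)` is `A_t + A_θ` (`D.cA` and `C1.curve`, which may be
reproved here with `ContDiffOn.contDiffAt`), so `d = (A_t + A_θ)/(2 √(A + ε))` and
`|d| ≤ |sin u| √(A B)/(2 R √(A+ε)) ≤ (1/2)|u| √B / R` by `D.trA`, `√(AB) = √A √B`,
`√A ≤ √(A + ε)`. By `D.leB`, `B ≤ 2 Bt + sin t/(2 sin θ)`, hence `√B ≤ √(2 Bt) + √(sin t/(2 sin θ))`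
and `√(sin t / (2 sin θ))/R = 1/(√(2R) sin θ)`
(`R/(2 sin² θ) = sin t/(2 sin θ)`). -/
theorem Dat.rho_deriv (D : Dat) {u t ε : ℝ} (hε : 0 < ε) (h0 : 0 < t) (h1 : t ≤ 3 / 4)
    (h2 : 0 < t - u) (h3 : t - u ≤ 3 / 4) :
    ∃ d, HasDerivAt (fun s => √(D.A s (s - u) + ε)) d t ∧
      |d| ≤ (1 / 2) * |u| * (√(2 * D.Bt t (t - u)) / (sin t * sin (t - u)) +
        1 / (√(2 * (sin t * sin (t - u))) * sin (t - u))) := by
  have hpi : (3 : ℝ) < π := Real.pi_gt_three
  have ht : t ∈ Ioo 0 π := ⟨h0, by linarith⟩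
  have hθ : t - u ∈ Ioo 0 π := ⟨h2, by linarith⟩
  have hst : 0 < sin t := Real.sin_pos_of_mem_Ioo ht
  have hsθ : 0 < sin (t - u) := Real.sin_pos_of_mem_Ioo hθ
  have hR : 0 < sin t * sin (t - u) := mul_pos hst hsθ
  have hA := D.nA t ht (t - u) hθ
  have hB := D.nB t ht (t - u) hθ
  have hBt := D.nBt t ht (t - u) ⟨hθ.1.le, hθ.2.le⟩
  have hd := C1.curve isOpen_Ioo D.cA (hasDerivAt_id t) ((hasDerivAt_id t).sub_const u)
    (by simpa using ht) (by simpa using hθ)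
  have hd2 := (hd.add_const ε).sqrt (by
    have : 0 < D.A t (t - u) + ε := by linarith
    simpa using this.ne')
  refine ⟨_, hd2, ?_⟩
  simp only [id, one_mul]
  set θ := t - u with hθdef
  have hu : t - θ = u := by rw [hθdef]; ring
  have htr := D.trA t ht θ hθ
  rw [hu] at htr
  have hsin : |sin u| ≤ |u| := Real.abs_sin_le_abs
  have hsqA : √(D.A t θ) ≤ √(D.A t θ + ε) := Real.sqrt_le_sqrt (by linarith)
  have hpos : 0 < √(D.A t θ + ε) := Real.sqrt_pos.2 (by linarith)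
  have hsB : √(D.B t θ) ≤ √(2 * D.Bt t θ) + √(sin t / (2 * sin θ)) :=
    (Real.sqrt_le_sqrt (D.leB t ht θ hθ)).trans (sqrt_add_le' (by positivity) (by positivity))
  have hid : √(sin t / (2 * sin θ)) / (sin t * sin θ) = 1 / (√(2 * (sin t * sin θ)) * sin θ) := by
    have e1 : √(sin t / (2 * sin θ)) * √(2 * (sin t * sin θ)) = sin t := by
      rw [← Real.sqrt_mul (by positivity)]
      have : sin t / (2 * sin θ) * (2 * (sin t * sin θ)) = sin t ^ 2 := by
        field_simp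
      rw [this, Real.sqrt_sq hst.le]
    have e2 : 0 < √(2 * (sin t * sin θ)) := Real.sqrt_pos.2 (by positivity)
    rw [div_eq_div_iff hR.ne' (by positivity), one_mul]
    calc √(sin t / (2 * sin θ)) * (√(2 * (sin t * sin θ)) * sin θ)
        = (√(sin t / (2 * sin θ)) * √(2 * (sin t * sin θ))) * sin θ := by ring
      _ = sin t * sin θ := by rw [e1]
  rw [abs_div, abs_of_pos (show 0 < 2 * √(D.A t θ + ε) by positivity), div_le_iff₀ (by positivity)]
  calc |dt D.A t θ + dh D.A t θ| ≤ |sin u| * √(D.A t θ * D.B t θ) / (sin t * sin θ) := htr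
    _ ≤ |u| * (√(D.A t θ + ε) * (√(2 * D.Bt t θ) + √(sin t / (2 * sin θ)))) / (sin t * sin θ) := by
        apply div_le_div_of_nonneg_right _ hR.le
        rw [Real.sqrt_mul hA]
        exact mul_le_mul hsin (mul_le_mul hsqA hsB (Real.sqrt_nonneg _) (Real.sqrt_nonneg _))
          (by positivity) (abs_nonneg _)
    _ = 1 / 2 * |u| * (√(2 * D.Bt t θ) / (sin t * sin θ) +
          √(sin t / (2 * sin θ)) / (sin t * sin θ)) * (2 * √(D.A t θ + ε)) := by
        field_simp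
    _ = _ := by rw [hid]

end GS
end

section

open Real Set

namespace GS

/-- TASK TrD. On the null line `v = 1` the function `A` is `1 + O(u)`.
Proof: `g(u) = A((1+u)/2, (1-u)/2)` is `C¹` on `(-1, 1)` (composition of `D.cA` with an affine map,
the points `((1+u)/2, (1-u)/2)` are in `(0, π) × (0, π)`), so its derivative is bounded on `[-1/2, 1/2]`
by some `L ≥ 0` and `|g(u) - g(0)| ≤ L |u|`; `g(0) = A(1/2, 1/2) = 1` by `D.cu` at `t = θ = 1/2`
(`sin 0 = 0`, `cos 0 = 1`). -/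
theorem Dat.exists_L (D : Dat) : ∃ L : ℝ, 0 ≤ L ∧ ∀ u : ℝ, |u| ≤ 1 / 2 →
    |D.A ((1 + u) / 2) ((1 - u) / 2) - 1| ≤ L * |u| := by
  have hpi : (3 : ℝ) < π := Real.pi_gt_three
  have hmaps : MapsTo (fun u : ℝ => ((1 + u) / 2, (1 - u) / 2)) (Ioo (-1 : ℝ) 1)
      (Ioo 0 π ×ˢ Ioo 0 π) := by
    intro u hu
    exact ⟨⟨by linarith [hu.1], by linarith [hu.2]⟩, ⟨by linarith [hu.2], by linarith [hu.1]⟩⟩
  have hg : ContDiffOn ℝ 1 (fun u : ℝ => D.A ((1 + u) / 2) ((1 - u) / 2)) (Ioo (-1 : ℝ) 1) := by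
    have h1 : ContDiffOn ℝ 1 (fun u : ℝ => ((1 + u) / 2, (1 - u) / 2)) (Ioo (-1 : ℝ) 1) := by
      apply ContDiff.contDiffOn
      fun_prop
    exact D.cA.comp h1 hmaps
  have hcd := hg.continuousOn_deriv_of_isOpen isOpen_Ioo le_rfl
  obtain ⟨L, hL⟩ := (isCompact_Icc (a := (-1 / 2 : ℝ)) (b := 1 / 2)).exists_bound_of_continuousOn
    (hcd.mono (fun x hx => ⟨by linarith [hx.1], by linarith [hx.2]⟩))
  have hdiag : D.A ((1 + 0) / 2) ((1 - 0) / 2) = 1 := by
    have ht : (1 / 2 : ℝ) ∈ Ioo 0 π := ⟨by norm_num, by linarith⟩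
    have h := D.cu (1 / 2) ht (1 / 2) ht
    simp only [sub_self, sin_zero, cos_zero, zero_mul] at h
    have h2 : (1 + 0) / 2 = (1 / 2 : ℝ) := by norm_num
    have h3 : (1 - 0) / 2 = (1 / 2 : ℝ) := by norm_num
    rw [h2, h3]
    simp at h
    linarith
  refine ⟨max L 0, le_max_right _ _, fun u hu => ?_⟩
  have hmem : ∀ x ∈ Icc (-1 / 2 : ℝ) (1 / 2),
      DifferentiableAt ℝ (fun u : ℝ => D.A ((1 + u) / 2) ((1 - u) / 2)) x := by
    intro x hx
    have hx' : x ∈ Ioo (-1 : ℝ) 1 := ⟨by linarith [hx.1], by linarith [hx.2]⟩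
    exact (hg.contDiffAt (isOpen_Ioo.mem_nhds hx')).differentiableAt (by norm_num)
  have hu' := abs_le.1 hu
  have := (convex_Icc (-1 / 2 : ℝ) (1 / 2)).norm_image_sub_le_of_norm_deriv_le
    (f := fun u : ℝ => D.A ((1 + u) / 2) ((1 - u) / 2)) (C := L) (x := 0) (y := u)
    hmem hL ⟨by norm_num, by norm_num⟩ ⟨by linarith [hu'.1], hu'.2⟩
  simp only [Real.norm_eq_abs, sub_zero] at this
  have h0 : D.A ((1 + 0) / 2) ((1 - 0) / 2) = 1 := hdiag
  simp only [sub_zero] at h0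
  rw [h0] at this
  exact this.trans (mul_le_mul_of_nonneg_right (le_max_left _ _) (abs_nonneg _))

/-- `A(t, t) = 1` on the diagonal. -/
theorem Dat.A_diag (D : Dat) {t : ℝ} (ht : t ∈ Ioo 0 π) : D.A t t = 1 := by
  have h := D.cu t ht t ht
  simp at h
  linarith

end GS
end

section

open Real Set
open scoped ContDiff Matrix

namespace GS

/-- TASK Gej. The stress tensor is trace free, so the Einstein-Maxwell equations are `Ric = 8π T`.
Proof. Contract the Einstein equation with `g^{ab}`: `∑ g^{ab} R_{ab} = scal`,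
`∑_{a,b} g^{ab} g_{ab} = 4` (`g` symmetric and invertible), and
`∑ g^{ab} 8π T_{ab} = 2 (∑ g^{ab} g^{cd} F_{ac} F_{bd} - ∑ F_{cd} F^{cd}) = 0` (`g⁻¹` symmetric, relabel).
So `scal - 2 scal = 0`. -/
theorem ric_eq_stress {g F : Ten} {O : Set Pt} (h : EinsteinMaxwell g F O) {p : Pt} (hp : p ∈ O)
    (hs : (g p).IsSymm) (hd : (g p).det ≠ 0) (a b : Fin 4) :
    ric g a b p = 8 * π * stress g F a b p := by
  have hG : (g p)⁻¹ * g p = 1 := Matrix.nonsing_inv_mul _ (isUnit_iff_ne_zero.2 hd)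
  have h4 : ∑ a, ∑ b, (g p)⁻¹ a b * g p a b = 4 := by
    calc ∑ a, ∑ b, (g p)⁻¹ a b * g p a b = ∑ a : Fin 4, ((g p)⁻¹ * g p) a a := by
          refine Finset.sum_congr rfl fun a _ => ?_
          rw [Matrix.mul_apply]
          refine Finset.sum_congr rfl fun b _ => ?_
          rw [hs.apply]
      _ = 4 := by
          rw [hG]
          simp
  have hXY : ∑ a, ∑ b, (g p)⁻¹ a b * (∑ c, ∑ d, (g p)⁻¹ c d * F p a c * F p b d) =
      ∑ c, ∑ d, F p c d * up g F c d p := by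
    unfold up
    simp only [Finset.mul_sum]
    refine Finset.sum_congr rfl fun a _ => ?_
    rw [Finset.sum_comm]
    refine Finset.sum_congr rfl fun c _ => ?_
    refine Finset.sum_congr rfl fun b _ => ?_
    refine Finset.sum_congr rfl fun d _ => ?_
    ring
  have hT : ∑ a, ∑ b, (g p)⁻¹ a b * stress g F a b p = 0 := by
    have e : ∀ a b, (g p)⁻¹ a b * stress g F a b p =
        (1 / (4 * π)) * ((g p)⁻¹ a b * (∑ c, ∑ d, (g p)⁻¹ c d * F p a c * F p b d)) -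
          (1 / (4 * π)) * (1 / 4) * (∑ c, ∑ d, F p c d * up g F c d p) *
            ((g p)⁻¹ a b * g p a b) := by
      intro a b
      unfold stress
      ring
    simp only [e, Finset.sum_sub_distrib, ← Finset.mul_sum]
    rw [hXY, h4]
    ring
  have hE : ∑ a, ∑ b, (g p)⁻¹ a b * (ric g a b p - (1 / 2) * scal g p * g p a b) =
      ∑ a, ∑ b, (g p)⁻¹ a b * (8 * π * stress g F a b p) :=
    Finset.sum_congr rfl fun a _ => Finset.sum_congr rfl fun b _ => by rw [h.einstein p hp a b]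
  have hL : ∑ a, ∑ b, (g p)⁻¹ a b * (ric g a b p - (1 / 2) * scal g p * g p a b) =
      scal g p - (1 / 2) * scal g p * 4 := by
    have e : ∀ a b, (g p)⁻¹ a b * (ric g a b p - (1 / 2) * scal g p * g p a b) =
        (g p)⁻¹ a b * ric g a b p - (1 / 2) * scal g p * ((g p)⁻¹ a b * g p a b) := by
      intro a b
      ring
    simp only [e, Finset.sum_sub_distrib, ← Finset.mul_sum]
    rw [h4]
    rfl
  have hR : ∑ a, ∑ b, (g p)⁻¹ a b * (8 * π * stress g F a b p) = 0 := by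
    have e : ∀ a b, (g p)⁻¹ a b * (8 * π * stress g F a b p) =
        8 * π * ((g p)⁻¹ a b * stress g F a b p) := by
      intro a b
      ring
    simp only [e, ← Finset.mul_sum]
    rw [hT, mul_zero]
  have h0 : scal g p = 0 := by
    rw [hL, hR] at hE
    linarith
  have h1 := h.einstein p hp a b
  rw [h0, mul_zero, zero_mul, sub_zero] at h1
  exact h1

end GS
end
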