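import Mathlib
import Pool.Agent.Lib.MP_898b37_mp.Mg.G001
import Pool.Agent.Lib.MP_898b37_mp.GS.OdC
import Pool.Agent.Lib.MP_898b37_mp.GS.CalcB
import Pool.Agent.Lib.MP_898b37_mp.GS.Dat
import Pool.Agent.Lib.MP_898b37_mp.GS.CalcA

section

open Real Set
open scoped ContDiff

namespace GS

/-- TASK AxA. Change of variable `ζ = cos θ`: `T(ζ) = τ(arccos ζ)`, `W(ζ) = w(arccos ζ)`.
Proof: `arccos' = -1/√(1 - ζ²)` (`Real.hasDerivAt_arccos`), `sin (arccos ζ) = √(1 - ζ²) =: s > 0`,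
`FF f (τ θ) θ = f(T, ζ) s`. `T' = -(w/√(f² s² + w²))/s = -(w/s²)/√(f² + w²/s²)`,
`W' = (f_t s)(f s)/(s √(f² s² + w²)) = f_t f/√(f² + w²/s²)`. -/
theorem to_zeta {f : ℝ → ℝ → ℝ} {m₀ M₀ N : ℝ} {τ w : ℝ → ℝ}
    (pos : ∀ t ∈ Ioo 0 π, ∀ ζ, 0 < f t ζ) (h0 : 0 < m₀) (h1 : M₀ < π)
    (h : ∀ θ ∈ Ioo 0 π, m₀ ≤ τ θ ∧ τ θ ≤ M₀ ∧ |w θ| ≤ N * sin θ ^ 2 ∧
      HasDerivAt τ (w θ / √(FF f (τ θ) θ ^ 2 + w θ ^ 2)) θ ∧
      HasDerivAt w (-(dt f (τ θ) (cos θ) * sin θ) * FF f (τ θ) θ /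
        √(FF f (τ θ) θ ^ 2 + w θ ^ 2)) θ) :
    SolZ f m₀ M₀ N (fun ζ => τ (arccos ζ)) (fun ζ => w (arccos ζ)) := by
  intro ζ hζ
  have hθ : arccos ζ ∈ Ioo 0 π := by
    refine ⟨Real.arccos_pos.mpr hζ.2, ?_⟩
    exact Real.arccos_lt_pi.mpr hζ.1
  obtain ⟨g0, g1, gw, gt, gd⟩ := h _ hθ
  have hcos : cos (arccos ζ) = ζ := Real.cos_arccos hζ.1.le hζ.2.le
  have hsin : sin (arccos ζ) = √(1 - ζ ^ 2) := Real.sin_arccos ζ
  have h1s : 0 < 1 - ζ ^ 2 := by nlinarith [hζ.1, hζ.2]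
  have hs : 0 < √(1 - ζ ^ 2) := Real.sqrt_pos.mpr h1s
  have hsq : √(1 - ζ ^ 2) ^ 2 = 1 - ζ ^ 2 := Real.sq_sqrt h1s.le
  have hT : τ (arccos ζ) ∈ Ioo 0 π := ⟨by linarith, by linarith⟩
  have hf := pos _ hT ζ
  have hac : HasDerivAt arccos (-(1 / √(1 - ζ ^ 2))) ζ :=
    Real.hasDerivAt_arccos (by linarith [hζ.1]) (by linarith [hζ.2])
  set s := √(1 - ζ ^ 2) with hsdef
  set T := τ (arccos ζ) with hTdef
  set W := w (arccos ζ) with hWdef
  have hFF : FF f T (arccos ζ) = f T ζ * s := by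
    unfold FF
    rw [hcos, hsin]
  have hsqrt : √(FF f T (arccos ζ) ^ 2 + W ^ 2) = s * √(f T ζ ^ 2 + W ^ 2 / (1 - ζ ^ 2)) := by
    rw [hFF]
    have : (f T ζ * s) ^ 2 + W ^ 2 = s ^ 2 * (f T ζ ^ 2 + W ^ 2 / (1 - ζ ^ 2)) := by
      rw [hsq]
      field_simp
      rw [hsq]
    rw [this, Real.sqrt_mul (sq_nonneg s), Real.sqrt_sq hs.le]
  have hrpos : 0 < √(f T ζ ^ 2 + W ^ 2 / (1 - ζ ^ 2)) := by
    apply Real.sqrt_pos.mpr
    have : 0 ≤ W ^ 2 / (1 - ζ ^ 2) := by positivity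
    positivity
  refine ⟨g0, g1, ?_, ?_, ?_⟩
  · rw [hsin, hsq] at gw
    exact gw
  · have := gt.comp ζ hac
    rw [hsqrt] at this
    have e : rT f ζ T (W / (1 - ζ ^ 2)) (W ^ 2 / (1 - ζ ^ 2)) =
        W / (s * √(f T ζ ^ 2 + W ^ 2 / (1 - ζ ^ 2))) * -(1 / s) := by
      unfold rT
      rw [← hsq]
      rw [← hsq] at hrpos
      field_simp
    show HasDerivAt (τ ∘ arccos) (rT f ζ T (W / (1 - ζ ^ 2)) (W ^ 2 / (1 - ζ ^ 2))) ζ
    rw [e]
    exact this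
  · have := gd.comp ζ hac
    rw [hsqrt, hcos, hsin, hFF] at this
    have e : rw' f ζ T (W ^ 2 / (1 - ζ ^ 2)) =
        -(dt f T ζ * s) * (f T ζ * s) / (s * √(f T ζ ^ 2 + W ^ 2 / (1 - ζ ^ 2))) * -(1 / s) := by
      unfold rw'
      field_simp
    show HasDerivAt (w ∘ arccos) (rw' f ζ T (W ^ 2 / (1 - ζ ^ 2))) ζ
    rw [e]
    exact this

end GS
end

section

open Real Set MeasureTheory
open scoped ContDiff Topology

namespace GS

private theorem AxC_ext (n : ℕ) : ∀ {h : ℝ → ℝ}, ContDiffOn ℝ n h (Icc 0 1) →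
    ∃ H : ℝ → ℝ, ContDiff ℝ n H ∧ ∀ x ∈ Icc (0 : ℝ) 1, H x = h x := by
  induction n with
  | zero =>
    intro h hh
    have hc : ContinuousOn h (Icc 0 1) := hh.continuousOn
    refine ⟨IccExtend (zero_le_one) (domRestrict (Icc 0 1) h), ?_, ?_⟩
    · rw [Nat.cast_zero, contDiff_zero]
      exact hc.domRestrict.Icc_extend'
    · intro x hx
      rw [IccExtend_of_mem _ _ hx]; rfl
  | succ n ih =>
    intro h hh
    rw [Nat.cast_succ] at hh
    obtain ⟨hd, -, hk⟩ := (contDiffOn_succ_iff_derivWithin (uniqueDiffOn_Icc zero_lt_one)).1 hh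
    obtain ⟨H', hH', he⟩ := ih hk
    have hHc : Continuous H' := hH'.continuous
    have key : ∀ x, HasDerivAt (fun x => h 0 + ∫ t in (0:ℝ)..x, H' t) (H' x) x := fun x =>
      (intervalIntegral.integral_hasDerivAt_right (hHc.intervalIntegrable _ _)
        (hHc.stronglyMeasurableAtFilter _ _) hHc.continuousAt).const_add _
    refine ⟨fun x => h 0 + ∫ t in (0:ℝ)..x, H' t, ?_, ?_⟩
    · rw [Nat.cast_succ, contDiff_succ_iff_deriv]
      refine ⟨fun x => (key x).differentiableAt, by simp, ?_⟩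
      rw [show deriv (fun x => h 0 + ∫ t in (0:ℝ)..x, H' t) = H' from
        funext fun x => (key x).deriv]
      exact hH'
    · intro x hx
      have h2 : ∫ t in (0:ℝ)..x, H' t = h x - h 0 := by
        refine intervalIntegral.integral_eq_sub_of_hasDerivAt_of_le hx.1
          (hd.continuousOn.mono (Icc_subset_Icc le_rfl hx.2)) ?_ (hHc.intervalIntegrable _ _)
        intro t ht
        have htI : t ∈ Icc (0 : ℝ) 1 := ⟨ht.1.le, ht.2.le.trans hx.2⟩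
        rw [he t htI]
        exact (hd t htI).hasDerivWithinAt.hasDerivAt (Icc_mem_nhds ht.1 (ht.2.trans_le hx.2))
      simp only [h2]
      ring

private theorem AxC_par (k : ℕ) : ∀ (j : ℕ) {φ : ℝ → ℝ}, ContDiff ℝ k φ →
    ContDiff ℝ k (fun ζ => ∫ l in (0:ℝ)..1, l ^ j * φ (1 + l * (ζ - 1))) := by
  induction k with
  | zero =>
    intro j φ h
    rw [Nat.cast_zero, contDiff_zero] at h ⊢
    exact intervalIntegral.continuous_parametric_intervalIntegral_of_continuous' (by fun_prop) 0 1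
  | succ k ih =>
    intro j φ h
    rw [Nat.cast_succ, contDiff_succ_iff_deriv] at h
    obtain ⟨hd, -, hk⟩ := h
    have hc := hk.continuous
    have hφ := hd.continuous
    have key : ∀ x, HasDerivAt (fun ζ => ∫ l in (0:ℝ)..1, l ^ j * φ (1 + l * (ζ - 1)))
        (∫ l in (0:ℝ)..1, l ^ (j + 1) * deriv φ (1 + l * (x - 1))) x := by
      intro x
      have hcF : Continuous (fun p : ℝ × ℝ => p.2 ^ (j + 1) * deriv φ (1 + p.2 * (p.1 - 1))) := by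
        fun_prop
      obtain ⟨C, hC⟩ := ((isCompact_closedBall x 1).prod
        (isCompact_Icc (a := (0 : ℝ)) (b := 1))).exists_bound_of_continuousOn hcF.continuousOn
      refine (intervalIntegral.hasDerivAt_integral_of_dominated_loc_of_deriv_le
        (F := fun ζ l => l ^ j * φ (1 + l * (ζ - 1)))
        (F' := fun ζ l => l ^ (j + 1) * deriv φ (1 + l * (ζ - 1)))
        (s := Metric.ball x 1) (bound := fun _ => C) (Metric.ball_mem_nhds x one_pos) ?_ ?_ ?_ ?_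
        ?_ ?_).2
      · refine Filter.Eventually.of_forall fun ζ => ?_
        have : Continuous (fun l : ℝ => l ^ j * φ (1 + l * (ζ - 1))) := by fun_prop
        exact this.aestronglyMeasurable
      · have : Continuous (fun l : ℝ => l ^ j * φ (1 + l * (x - 1))) := by fun_prop
        exact this.intervalIntegrable _ _
      · have : Continuous (fun l : ℝ => l ^ (j + 1) * deriv φ (1 + l * (x - 1))) := by fun_prop
        exact this.aestronglyMeasurable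
      · refine Filter.Eventually.of_forall fun l hl ζ hζ => ?_
        rw [uIoc_of_le zero_le_one] at hl
        exact hC (ζ, l) ⟨Metric.ball_subset_closedBall hζ, hl.1.le, hl.2⟩
      · exact intervalIntegrable_const
      · refine Filter.Eventually.of_forall fun l _ ζ _ => ?_
        have h1 : HasDerivAt (fun ζ : ℝ => 1 + l * (ζ - 1)) l ζ := by
          simpa using (((hasDerivAt_id ζ).sub_const 1).const_mul l).const_add 1
        have h2 := ((hd (1 + l * (ζ - 1))).hasDerivAt.comp ζ h1).const_mul (l ^ j)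
        refine h2.congr_deriv ?_
        ring
    rw [Nat.cast_succ, contDiff_succ_iff_deriv]
    refine ⟨fun x => (key x).differentiableAt, by simp, ?_⟩
    rw [show deriv (fun ζ => ∫ l in (0:ℝ)..1, l ^ j * φ (1 + l * (ζ - 1))) = fun x =>
      ∫ l in (0:ℝ)..1, l ^ (j + 1) * deriv φ (1 + l * (x - 1)) from
        funext fun x => (key x).deriv]
    exact ih (j + 1) hk

/-- TASK AxC. Division by `1 - ζ` on the closed interval `[0, 1]`: if `h` is `C^{k+1}` on `[0, 1]` and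
`h 1 = 0`, then `h ζ = (1 - ζ) g ζ` with `g` of class `C^k` on `[0, 1]`.

Proof. `g(ζ) = -∫_0^1 h'(1 + λ (ζ - 1)) dλ`, `h' = derivWithin h [0, 1]`. For continuous `φ` on `[0, 1]` and
`j ∈ ℕ` let `I_j(φ)(ζ) = ∫_0^1 λ^j φ(1 + λ(ζ - 1)) dλ` (`1 + λ(ζ-1) ∈ [0, 1]`). It is continuous on `[0, 1]`, and
if `φ` is `C¹` on `[0, 1]` then `I_j(φ)` has the derivative (within `[0, 1]`) `I_{j+1}(φ')` (Fubini and the
fundamental theorem: `I_j(φ)(ζ) - I_j(φ)(ζ') = ∫_{ζ'}^{ζ} I_{j+1}(φ')(x) dx`; or the difference quotients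
converge uniformly by the uniform continuity of `φ'`). By induction on `k`, for all `j`: `φ ∈ C^k` implies
`I_j(φ) ∈ C^k` (`contDiffOn_succ_iff_derivWithin`, `uniqueDiffOn_Icc`). -/
theorem div_smooth (k : ℕ) {h : ℝ → ℝ} (hh : ContDiffOn ℝ (k + 1) h (Icc 0 1)) (h1 : h 1 = 0) :
    ∃ g : ℝ → ℝ, ContDiffOn ℝ k g (Icc 0 1) ∧ ∀ ζ ∈ Icc (0 : ℝ) 1, h ζ = (1 - ζ) * g ζ := by
  obtain ⟨H, hH, he⟩ := AxC_ext (k + 1) (h := h) (by exact_mod_cast hh)
  rw [Nat.cast_succ, contDiff_succ_iff_deriv] at hH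
  obtain ⟨hd, -, hk⟩ := hH
  have hc := hk.continuous
  refine ⟨fun ζ => -∫ l in (0:ℝ)..1, l ^ 0 * deriv H (1 + l * (ζ - 1)),
    (AxC_par k 0 hk).neg.contDiffOn, ?_⟩
  intro ζ hζ
  have h2 : ∫ l in (0:ℝ)..1, deriv H (1 + l * (ζ - 1)) * (ζ - 1) = H ζ - H 1 := by
    have := intervalIntegral.integral_eq_sub_of_hasDerivAt (a := 0) (b := 1)
      (f := fun l : ℝ => H (1 + l * (ζ - 1)))
      (f' := fun l => deriv H (1 + l * (ζ - 1)) * (ζ - 1)) ?_ ?_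
    · rw [this]
      simp
    · intro l _
      have h1 : HasDerivAt (fun l : ℝ => 1 + l * (ζ - 1)) (ζ - 1) l := by
        simpa using ((hasDerivAt_id l).mul_const (ζ - 1)).const_add 1
      exact (hd (1 + l * (ζ - 1))).hasDerivAt.comp l h1
    · have : Continuous (fun l : ℝ => deriv H (1 + l * (ζ - 1)) * (ζ - 1)) := by fun_prop
      exact this.intervalIntegrable _ _
  rw [intervalIntegral.integral_mul_const, he ζ hζ, he 1 ⟨zero_le_one, le_rfl⟩, h1] at h2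
  simp only [pow_zero, one_mul]
  linear_combination -h2

/-- A function with a `C^k` derivative within `[0, 1]` is `C^{k+1}` on `[0, 1]`. -/
theorem succ_smooth (k : ℕ) {h h' : ℝ → ℝ} (hd : ∀ ζ ∈ Icc (0 : ℝ) 1,
    HasDerivWithinAt h (h' ζ) (Icc 0 1) ζ) (hk : ContDiffOn ℝ k h' (Icc 0 1)) :
    ContDiffOn ℝ (k + 1) h (Icc 0 1) := by
  rw [contDiffOn_succ_iff_derivWithin (uniqueDiffOn_Icc zero_lt_one)]
  refine ⟨fun ζ hζ => (hd ζ hζ).differentiableWithinAt, by simp, ?_⟩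
  exact hk.congr fun ζ hζ => (hd ζ hζ).derivWithin (uniqueDiffOn_Icc zero_lt_one ζ hζ)

end GS
end

section

open Real Set
open scoped ContDiff

namespace GS

/-- The derivative at `1` of a product with `1 - ζ`. -/
theorem AxD_one {u W : ℝ → ℝ} (hu : ContinuousOn u (Icc 0 1))
    (hW : ∀ ζ ∈ Icc (0 : ℝ) 1, W ζ = (1 - ζ) * u ζ) : HasDerivWithinAt W (-u 1) (Icc 0 1) 1 := by
  rw [hasDerivWithinAt_iff_tendsto_slope]
  have h1 : Filter.Tendsto (fun ζ => -u ζ) (nhdsWithin 1 (Icc 0 1 \ {1})) (nhds (-u 1)) :=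
    ((hu 1 ⟨zero_le_one, le_rfl⟩).mono sdiff_subset).neg
  refine h1.congr' ?_
  filter_upwards [self_mem_nhdsWithin] with ζ hζ
  have h2 : ζ - 1 ≠ 0 := sub_ne_zero.2 hζ.2
  rw [slope_def_field, hW ζ hζ.1, hW 1 ⟨zero_le_one, le_rfl⟩]
  field_simp
  ring

theorem AxD_nonneg {z : ℝ → ℝ} {ζ : ℝ} (hζ : ζ ∈ Icc (0 : ℝ) 1) : 0 ≤ (1 - ζ ^ 2) * z ζ ^ 2 := by
  have h1 : 0 ≤ 1 - ζ ^ 2 := by nlinarith [hζ.1, hζ.2]
  exact mul_nonneg h1 (sq_nonneg _)

theorem AxD_g1 {f : ℝ → ℝ → ℝ} {T w z : ℝ → ℝ} (h : SolC f T w z) :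
    rw' f 1 (T 1) ((1 - 1 ^ 2) * z 1 ^ 2) = -2 * z 1 := by
  have hc : ContinuousOn (fun ζ => (1 + ζ) * z ζ) (Icc 0 1) :=
    (continuous_const.add continuous_id).continuousOn.mul h.cz
  have h1 : HasDerivWithinAt w (-((1 + 1) * z 1)) (Icc 0 1) 1 := by
    refine AxD_one hc fun ζ hζ => ?_
    rw [h.hw ζ hζ]
    ring
  have h2 := h.dw 1 ⟨zero_le_one, le_rfl⟩
  have h3 := (uniqueDiffOn_Icc (zero_lt_one (α := ℝ)) 1 ⟨zero_le_one, le_rfl⟩).eq_deriv _ h2 h1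
  rw [h3]
  ring

theorem AxD_y {f : ℝ → ℝ → ℝ} {T w z : ℝ → ℝ} (h : SolC f T w z) :
    ∀ ζ ∈ Icc (0 : ℝ) 1, HasDerivWithinAt (fun ζ => (1 - ζ ^ 2) * z ζ ^ 2)
      (2 * z ζ * rw' f ζ (T ζ) ((1 - ζ ^ 2) * z ζ ^ 2) + 2 * ζ * z ζ ^ 2) (Icc 0 1) ζ := by
  intro ζ hζ
  rcases eq_or_lt_of_le hζ.2 with h1 | h1
  · rw [h1]
    have hc : ContinuousOn (fun ζ => (1 + ζ) * z ζ ^ 2) (Icc 0 1) :=
      (continuous_const.add continuous_id).continuousOn.mul (h.cz.pow 2)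
    have h2 : HasDerivWithinAt (fun ζ => (1 - ζ ^ 2) * z ζ ^ 2) (-((1 + 1) * z 1 ^ 2)) (Icc 0 1) 1 := by
      refine AxD_one hc fun ζ _ => ?_
      ring
    rw [AxD_g1 h]
    have e : 2 * z 1 * (-2 * z 1) + 2 * 1 * z 1 ^ 2 = -((1 + 1) * z 1 ^ 2) := by ring
    rw [e]
    exact h2
  · have hne : 1 - ζ ^ 2 ≠ 0 := by
      have h2 : 0 < 1 - ζ ^ 2 := by nlinarith [hζ.1]
      exact h2.ne'
    have hden : HasDerivWithinAt (fun ζ : ℝ => 1 - ζ ^ 2) (-(2 * ζ)) (Icc 0 1) ζ := by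
      have h3 := (((hasDerivAt_id ζ).pow 2).const_sub 1).hasDerivWithinAt (s := Icc 0 1)
      simpa using h3
    have hnum := (h.dw ζ hζ).pow 2
    have hq := hnum.div hden hne
    refine (hq.congr_deriv ?_).congr (fun x hx => ?_) ?_
    · rw [h.hw ζ hζ]
      simp only [Pi.pow_apply]
      rw [h.hw ζ hζ]
      field_simp
      ring
    · simp only [Pi.pow_apply, Pi.div_apply]
      rw [h.hw x hx]
      rcases eq_or_ne (1 - x ^ 2) 0 with h4 | h4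
      · rw [h4]
        simp
      · field_simp
    · simp only [Pi.pow_apply, Pi.div_apply]
      rw [h.hw ζ hζ]
      field_simp

theorem AxD_comp {F : ℝ → ℝ → ℝ} (sm : Sm univ F) {T : ℝ → ℝ} {n : ℕ}
    (hT : ContDiffOn ℝ n T (Icc 0 1)) (hr : ∀ ζ ∈ Icc (0 : ℝ) 1, T ζ ∈ Ioo 0 π) :
    ContDiffOn ℝ n (fun ζ => F (T ζ) ζ) (Icc 0 1) := by
  have h1 : ContDiffOn ℝ n (Function.uncurry F) (Ioo 0 π ×ˢ univ) :=
    ContDiffOn.of_le sm (by exact_mod_cast le_top)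
  exact h1.comp (hT.prodMk contDiffOn_id) fun ζ hζ => ⟨hr ζ hζ, mem_univ _⟩

theorem AxD_sqrt {f : ℝ → ℝ → ℝ} (sm : Sm univ f) (pos : ∀ t ∈ Ioo 0 π, ∀ ζ, 0 < f t ζ) {T y : ℝ → ℝ}
    {n : ℕ} (hT : ContDiffOn ℝ n T (Icc 0 1)) (hr : ∀ ζ ∈ Icc (0 : ℝ) 1, T ζ ∈ Ioo 0 π)
    (hy : ContDiffOn ℝ n y (Icc 0 1)) (hy0 : ∀ ζ ∈ Icc (0 : ℝ) 1, 0 ≤ y ζ) :
    ContDiffOn ℝ n (fun ζ => √(f (T ζ) ζ ^ 2 + y ζ)) (Icc 0 1) ∧
      ∀ ζ ∈ Icc (0 : ℝ) 1, √(f (T ζ) ζ ^ 2 + y ζ) ≠ 0 := by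
  have h1 : ∀ ζ ∈ Icc (0 : ℝ) 1, 0 < f (T ζ) ζ ^ 2 + y ζ := by
    intro ζ hζ
    have h2 := pos _ (hr ζ hζ) ζ
    have h3 := hy0 ζ hζ
    positivity
  exact ⟨(((AxD_comp sm hT hr).pow 2).add hy).sqrt fun ζ hζ => (h1 ζ hζ).ne',
    fun ζ hζ => (Real.sqrt_pos.2 (h1 ζ hζ)).ne'⟩

theorem AxD_g {f : ℝ → ℝ → ℝ} (sm : Sm univ f) (pos : ∀ t ∈ Ioo 0 π, ∀ ζ, 0 < f t ζ) {T y : ℝ → ℝ}
    {n : ℕ} (hT : ContDiffOn ℝ n T (Icc 0 1)) (hr : ∀ ζ ∈ Icc (0 : ℝ) 1, T ζ ∈ Ioo 0 π)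
    (hy : ContDiffOn ℝ n y (Icc 0 1)) (hy0 : ∀ ζ ∈ Icc (0 : ℝ) 1, 0 ≤ y ζ) :
    ContDiffOn ℝ n (fun ζ => rw' f ζ (T ζ) (y ζ)) (Icc 0 1) := by
  obtain ⟨h1, h2⟩ := AxD_sqrt sm pos hT hr hy hy0
  exact ((AxD_comp (Sm.dt isOpen_univ sm) hT hr).mul (AxD_comp sm hT hr)).div h1 h2

theorem AxD_T {f : ℝ → ℝ → ℝ} (sm : Sm univ f) (pos : ∀ t ∈ Ioo 0 π, ∀ ζ, 0 < f t ζ)
    {T y z : ℝ → ℝ} {n : ℕ} (hT : ContDiffOn ℝ n T (Icc 0 1))
    (hr : ∀ ζ ∈ Icc (0 : ℝ) 1, T ζ ∈ Ioo 0 π) (hy : ContDiffOn ℝ n y (Icc 0 1))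
    (hy0 : ∀ ζ ∈ Icc (0 : ℝ) 1, 0 ≤ y ζ) (hz : ContDiffOn ℝ n z (Icc 0 1)) :
    ContDiffOn ℝ n (fun ζ => rT f ζ (T ζ) (z ζ) (y ζ)) (Icc 0 1) := by
  obtain ⟨h1, h2⟩ := AxD_sqrt sm pos hT hr hy hy0
  exact hz.neg.div h1 h2

theorem AxD_main {f : ℝ → ℝ → ℝ} (sm : Sm univ f) (pos : ∀ t ∈ Ioo 0 π, ∀ ζ, 0 < f t ζ)
    {T w z : ℝ → ℝ} (h : SolC f T w z) (k : ℕ) :
    ContDiffOn ℝ k T (Icc 0 1) ∧ ContDiffOn ℝ k z (Icc 0 1) := by
  induction k with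
  | zero =>
    refine ⟨?_, ?_⟩
    · rw [Nat.cast_zero, contDiffOn_zero]
      exact fun ζ hζ => (h.dT ζ hζ).continuousWithinAt
    · rw [Nat.cast_zero, contDiffOn_zero]
      exact h.cz
  | succ k ih =>
    obtain ⟨hT, hz⟩ := ih
    have hy0 : ∀ ζ ∈ Icc (0 : ℝ) 1, 0 ≤ (1 - ζ ^ 2) * z ζ ^ 2 := fun ζ hζ => AxD_nonneg hζ
    have hid : ContDiffOn ℝ k (fun ζ : ℝ => ζ) (Icc 0 1) := contDiffOn_id
    have hy : ContDiffOn ℝ k (fun ζ => (1 - ζ ^ 2) * z ζ ^ 2) (Icc 0 1) :=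
      (contDiffOn_const.sub (hid.pow 2)).mul (hz.pow 2)
    have hg := AxD_g sm pos hT h.rng hy hy0
    have hy1 : ContDiffOn ℝ (k + 1) (fun ζ => (1 - ζ ^ 2) * z ζ ^ 2) (Icc 0 1) := by
      refine succ_smooth k (AxD_y h) ?_
      exact ((contDiffOn_const.mul hz).mul hg).add
        ((contDiffOn_const.mul hid).mul (hz.pow 2))
    have hT1 : ContDiffOn ℝ (k + 1) T (Icc 0 1) :=
      succ_smooth k h.dT (AxD_T sm pos hT h.rng hy hy0 hz)
    have hT1' : ContDiffOn ℝ ((k + 1 : ℕ)) T (Icc 0 1) := by exact_mod_cast hT1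
    have hy1' : ContDiffOn ℝ ((k + 1 : ℕ)) (fun ζ => (1 - ζ ^ 2) * z ζ ^ 2) (Icc 0 1) := by
      exact_mod_cast hy1
    refine ⟨hT1', ?_⟩
    have hg1 := AxD_g sm pos hT1' h.rng hy1' hy0
    have hw2 := succ_smooth (k + 1) h.dw hg1
    have hw1 : w 1 = 0 := by
      rw [h.hw 1 ⟨zero_le_one, le_rfl⟩]
      ring
    obtain ⟨g2, hg2, hg2e⟩ := div_smooth (k + 1) hw2 hw1
    have hd : ContDiffOn ℝ ((k + 1 : ℕ)) (fun ζ => g2 ζ / (1 + ζ)) (Icc 0 1) := by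
      refine hg2.div (contDiffOn_const.add contDiffOn_id) fun ζ hζ => ?_
      have h1 : 0 < 1 + ζ := by linarith [hζ.1]
      exact h1.ne'
    refine hd.congr fun ζ hζ => ?_
    have h1 : 0 < 1 + ζ := by linarith [hζ.1]
    rw [eq_div_iff h1.ne']
    rcases eq_or_lt_of_le hζ.2 with h2 | h2
    · subst h2
      have h3 := AxD_one hg2.continuousOn hg2e
      have h4 := h.dw 1 ⟨zero_le_one, le_rfl⟩
      have h5 := (uniqueDiffOn_Icc (zero_lt_one (α := ℝ)) 1 ⟨zero_le_one, le_rfl⟩).eq_deriv _ h4 h3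
      rw [AxD_g1 h] at h5
      linarith
    · have h3 := h.hw ζ hζ
      rw [hg2e ζ hζ] at h3
      have h4 : 1 - ζ ≠ 0 := by
        intro h5
        linarith
      have h5 : (1 - ζ) * g2 ζ = (1 - ζ) * (z ζ * (1 + ζ)) := by
        rw [h3]
        ring
      exact (mul_left_cancel₀ h4 h5).symm

/-- TASK AxD. Smoothness up to the axis (bootstrap).

Proof. Let `I = [0, 1]`, `y(ζ) = (1 - ζ²) z(ζ)²`, `g(ζ) = rw' f ζ (T ζ) (y ζ)`. Induction on `k`: `T` and `z` are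
`C^k` on `I`. `k = 0`: `T` is differentiable, `z` continuous by `cz`. Step `k → k + 1`:
 (1) `y` is `C^{k+1}`: within `I`, `y` has the derivative `2 z g + 2 ζ z²`. For `ζ < 1`, `y = w²/(1-ζ²)` with
     `w' = g`: `y' = 2 w g/(1-ζ²) + 2 ζ w²/(1-ζ²)² = 2 z g + 2 ζ z²`. At `ζ = 1`: `y = w z`,
     `(y(ζ) - 0)/(ζ - 1) = z(ζ) w(ζ)/(ζ - 1) → z(1) g(1)` and `g(1) = -2 z(1)` (because
     `w = (1-ζ²) z`, `w(ζ)/(ζ-1) = -(1+ζ) z(ζ) → -2 z(1)`), so `z(1) g(1) = 2 z(1) g(1) + 2 z(1)²`.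
     The derivative is `C^k` since `z`, `T`, `y` are `C^k` and `g` is a smooth function of `(T, ζ, y)`
     (`f`, `dt f` smooth on `(0, π) × ℝ`, `f² + y > 0`, `f > 0`, `y ≥ 0`); use `succ_smooth`.
 (2) `T` is `C^{k+1}`: its derivative `rT f ζ (T ζ) (z ζ) (y ζ)` is `C^k`.
 (3) `g` is `C^{k+1}` by (1), (2); `w` is `C^{k+2}` by `succ_smooth`; `w(1) = 0`, so by `div_smooth`
     `w = (1 - ζ) g₂` with `g₂` of class `C^{k+1}`, and `z = g₂/(1 + ζ)` on `[0, 1)`, and at `1` by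
     continuity. So `z` is `C^{k+1}`.
`ContDiffOn ℝ ∞` is `ContDiffOn ℝ k` for all `k : ℕ` (`contDiffOn_infty`). -/
theorem SolC.smooth {f : ℝ → ℝ → ℝ} (sm : Sm univ f) (pos : ∀ t ∈ Ioo 0 π, ∀ ζ, 0 < f t ζ)
    {T w z : ℝ → ℝ} (h : SolC f T w z) : ContDiffOn ℝ ∞ T (Icc 0 1) := by
  rw [contDiffOn_infty]
  exact fun n => (AxD_main sm pos h n).1

end GS
end

section

open Real Set Filter
open scoped ContDiff Topology

namespace GS

/-- Reflection `ζ → -ζ`: `T^-(ζ) = T(-ζ)`, `w^-(ζ) = -w(-ζ)` solve the equation for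
`f^-(t, ζ) = f(t, -ζ)`. -/
theorem SolZ.refl {f : ℝ → ℝ → ℝ} {m₀ M₀ N : ℝ} {T w : ℝ → ℝ} (h : SolZ f m₀ M₀ N T w) :
    SolZ (fun t ζ => f t (-ζ)) m₀ M₀ N (fun ζ => T (-ζ)) (fun ζ => -w (-ζ)) := by
  intro ζ hζ
  obtain ⟨a1, a2, a3, a4, a5⟩ := h (-ζ) ⟨by linarith [hζ.2], by linarith [hζ.1]⟩
  have hneg : HasDerivAt (fun x : ℝ => -x) (-1) ζ := hasDerivAt_neg ζ
  have hsq : (-ζ) ^ 2 = ζ ^ 2 := by ring
  rw [hsq] at a3 a4 a5
  refine ⟨a1, a2, ?_, ?_, ?_⟩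
  · rw [abs_neg]
    exact a3
  · have h1 := HasDerivAt.comp ζ a4 hneg
    have e1 : rT f (-ζ) (T (-ζ)) (w (-ζ) / (1 - ζ ^ 2)) (w (-ζ) ^ 2 / (1 - ζ ^ 2)) * -1 =
        rT (fun t ζ => f t (-ζ)) ζ (T (-ζ)) (-w (-ζ) / (1 - ζ ^ 2)) ((-w (-ζ)) ^ 2 / (1 - ζ ^ 2)) := by
      unfold rT
      rw [neg_sq]
      ring
    rw [e1] at h1
    exact h1
  · have h1 := (HasDerivAt.comp ζ a5 hneg).neg
    have e1 : -(rw' f (-ζ) (T (-ζ)) (w (-ζ) ^ 2 / (1 - ζ ^ 2)) * -1) =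
        rw' (fun t ζ => f t (-ζ)) ζ (T (-ζ)) ((-w (-ζ)) ^ 2 / (1 - ζ ^ 2)) := by
      unfold rw' dt
      rw [neg_sq]
      ring
    rw [e1] at h1
    exact h1

/-- TASK AxF. The function `T` extends to a smooth function on `[-1, 1]` with values in `(0, π)`.

Proof. `exists_SolC` and `SolC.smooth` give the extension to `[0, 1]`, and, applied to the
reflected solution (`SolZ.refl`), the extension to `[-1, 0]`. Let `T'` be `T` on `(-1, 1)` with the two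
limit values at `±1`. `ContDiffWithinAt ℝ ∞ T' [-1, 1]` at `ζ ∈ (-1, 1)`: `SolZ.smooth` and congruence near
`ζ`; at `ζ = 1`: `[-1, 1]` and `[0, 1]` have the same germ at `1` (`ContDiffWithinAt` depends only on
`𝓝[s] 1`), `SolC.smooth`; at `ζ = -1`: compose with `ζ ↦ -ζ`. -/
theorem SolZ.extend {f : ℝ → ℝ → ℝ} (sm : Sm univ f) (pos : ∀ t ∈ Ioo 0 π, ∀ ζ, 0 < f t ζ)
    {m₀ M₀ N : ℝ} (h0 : 0 < m₀) (h1 : M₀ < π) {T w : ℝ → ℝ} (h : SolZ f m₀ M₀ N T w) :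
    ∃ T' : ℝ → ℝ, ContDiffOn ℝ ∞ T' (Icc (-1) 1) ∧ (∀ ζ ∈ Icc (-1 : ℝ) 1, T' ζ ∈ Ioo 0 π) ∧
      ∀ ζ ∈ Ioo (-1 : ℝ) 1, T' ζ = T ζ := by
  have sm' : Sm univ (fun t ζ => f t (-ζ)) := by
    unfold Sm at sm ⊢
    have h2 : ContDiff ℝ ∞ (fun q : ℝ × ℝ => (q.1, -q.2)) := contDiff_fst.prodMk contDiff_snd.neg
    exact sm.comp h2.contDiffOn fun q hq => ⟨hq.1, mem_univ _⟩
  have pos' : ∀ t ∈ Ioo 0 π, ∀ ζ, 0 < (fun t ζ => f t (-ζ)) t ζ := fun t ht ζ => pos t ht (-ζ)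
  obtain ⟨T1, w1, z1, hC1, e1⟩ := exists_SolC sm pos h0 h1 h
  obtain ⟨T2, w2, z2, hC2, e2⟩ := exists_SolC sm' pos' h0 h1 h.refl
  have S1 := hC1.smooth sm pos
  have S2 := hC2.smooth sm' pos'
  have S0 := (SolZ.smooth sm pos h0 h1 h).1
  set T' : ℝ → ℝ := fun ζ => if ζ < 0 then T2 (-ζ) else T1 ζ with hT'
  have hneg : ∀ ζ, ζ < 0 → T' ζ = T2 (-ζ) := fun ζ hζ => if_pos hζ
  have hpos : ∀ ζ, 0 ≤ ζ → T' ζ = T1 ζ := fun ζ hζ => if_neg (not_lt.2 hζ)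
  have heq : ∀ ζ ∈ Ioo (-1 : ℝ) 1, T' ζ = T ζ := by
    intro ζ hζ
    rcases lt_or_ge ζ 0 with h2 | h2
    · rw [hneg ζ h2, e2 (-ζ) ⟨by linarith, by linarith [hζ.1]⟩]
      rw [neg_neg]
    · rw [hpos ζ h2, e1 ζ ⟨h2, hζ.2⟩]
  refine ⟨T', ?_, ?_, heq⟩
  · intro ζ hζ
    rcases eq_or_lt_of_le hζ.2 with h2 | h2
    · subst h2
      have h3 : ContDiffWithinAt ℝ ∞ T1 (Icc (-1) 1 ∩ Ioi 0) 1 :=
        (S1 1 ⟨zero_le_one, le_rfl⟩).mono fun y hy => ⟨le_of_lt hy.2, hy.1.2⟩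
      have h4 : ContDiffWithinAt ℝ ∞ T' (Icc (-1) 1 ∩ Ioi 0) 1 :=
        h3.congr (fun y hy => hpos y (le_of_lt hy.2)) (hpos 1 zero_le_one)
      exact (contDiffWithinAt_inter (Ioi_mem_nhds zero_lt_one)).1 h4
    · rcases eq_or_lt_of_le hζ.1 with h3 | h3
      · subst h3
        have h4 : ContDiffWithinAt ℝ ∞ (fun y => T2 (-y)) (Icc (-1) 1 ∩ Iio 0) (-1) := by
          have h5 : ContDiffWithinAt ℝ ∞ T2 (Icc 0 1) (-(-1 : ℝ)) := by
            rw [neg_neg]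
            exact S2 1 ⟨zero_le_one, le_rfl⟩
          refine h5.comp (-1) (contDiff_neg.contDiffWithinAt) fun y hy => ?_
          have h6 : y < 0 := hy.2
          exact ⟨by linarith, by linarith [hy.1.1]⟩
        have h5 : ContDiffWithinAt ℝ ∞ T' (Icc (-1) 1 ∩ Iio 0) (-1) :=
          h4.congr (fun y hy => hneg y hy.2) (hneg (-1) (by norm_num))
        exact (contDiffWithinAt_inter (Iio_mem_nhds (by norm_num))).1 h5
      · have h4 : Ioo (-1 : ℝ) 1 ∈ 𝓝 ζ := Ioo_mem_nhds h3 h2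
        have h5 : ContDiffAt ℝ ∞ T ζ := S0.contDiffAt h4
        have h6 : T' =ᶠ[𝓝 ζ] T := by
          filter_upwards [h4] with y hy
          exact heq y hy
        exact (h5.congr_of_eventuallyEq h6).contDiffWithinAt
  · intro ζ hζ
    rcases lt_or_ge ζ 0 with h2 | h2
    · rw [hneg ζ h2]
      exact hC2.rng (-ζ) ⟨by linarith, by linarith [hζ.1]⟩
    · rw [hpos ζ h2]
      exact hC1.rng ζ ⟨h2, hζ.2⟩

end GS
end

section

open Real Set

namespace GS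

/-- `κ = (1/2) (1/5)^{5/4}`. -/
noncomputable def kap : ℝ := (1 / 2) * (1 / 5 : ℝ) ^ (5 / 4 : ℝ)

/-- `v_k = (κ/C)⁴`. -/
noncomputable def vk (C : ℝ) : ℝ := (kap / C) ^ 4

/-- `t₀ = (v_k/200)²/(30 C)`. -/
noncomputable def tz (C : ℝ) : ℝ := (vk C / 200) ^ 2 / (30 * C)

/-- `v_c = (t₀⁴ + 800 C² t₀²)^{1/4}`. -/
noncomputable def vc (C : ℝ) : ℝ := (tz C ^ 4 + 800 * C ^ 2 * tz C ^ 2) ^ (1 / 4 : ℝ)

/-- First piece of the barrier: `u = (v_c⁴ - v⁴)/(800 C² t₀)`. -/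
noncomputable def u1 (C v : ℝ) : ℝ := (vc C ^ 4 - v ^ 4) / (800 * C ^ 2 * tz C)

/-- Second piece of the barrier: `u = -(2/(9κ)) (v^{9/4} - v_c^{9/4})`. -/
noncomputable def u2 (C v : ℝ) : ℝ := -(2 / (9 * kap)) * (v ^ (9 / 4 : ℝ) - vc C ^ (9 / 4 : ℝ))

private theorem BaB_pow {x : ℝ} (hx : 0 ≤ x) (a : ℝ) (n : ℕ) : (x ^ a) ^ n = x ^ (a * n) := by
  rw [Real.rpow_mul hx, Real.rpow_natCast]

private theorem BaB_a4 : ((1 / 5 : ℝ) ^ (5 / 4 : ℝ)) ^ 4 = 1 / 3125 := by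
  rw [BaB_pow (by norm_num)]
  have h : (5 / 4 : ℝ) * ((4 : ℕ) : ℝ) = ((5 : ℕ) : ℝ) := by norm_num
  rw [h, Real.rpow_natCast]
  norm_num

private theorem BaB_le {x y : ℝ} (hx : 0 ≤ x) (hy : 0 ≤ y) {n : ℕ} (hn : n ≠ 0)
    (h : x ^ n ≤ y ^ n) : x ≤ y := (pow_le_pow_iff_left₀ hx hy hn).1 h

/-- TASK BaB. Constants. `(1/5)^{5/4}`: its fourth power is `1/3125`, so `3/25 ≤ (1/5)^{5/4} ≤ 7/50`
(`0.1337...`). -/
theorem kap_bounds : 3 / 50 ≤ kap ∧ kap ≤ 7 / 100 := by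
  have h0 : 0 ≤ (1 / 5 : ℝ) ^ (5 / 4 : ℝ) := Real.rpow_nonneg (by norm_num) _
  have h1 : (3 / 25 : ℝ) ≤ (1 / 5 : ℝ) ^ (5 / 4 : ℝ) :=
    BaB_le (n := 4) (by norm_num) h0 (by norm_num) (by rw [BaB_a4]; norm_num)
  have h2 : (1 / 5 : ℝ) ^ (5 / 4 : ℝ) ≤ 7 / 50 :=
    BaB_le (n := 4) h0 (by norm_num) (by norm_num) (by rw [BaB_a4]; norm_num)
  rw [kap]
  constructor <;> linarith

theorem kap_val : kap / (1 / 5 : ℝ) ^ (5 / 4 : ℝ) = 1 / 2 := by
  have h0 : 0 < (1 / 5 : ℝ) ^ (5 / 4 : ℝ) := Real.rpow_pos_of_pos (by norm_num) _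
  rw [kap]
  field_simp

/-- Elementary facts on the constants. `v_c⁴ = t₀⁴ + 800 C² t₀²`; `v_c ≤ v_k/200` since
`t₀ ≤ C` gives `v_c⁴ ≤ 900 C² t₀² = (v_k/200)⁴`; `v_c² ≤ 30 C t₀`; `28 C t₀ ≤ v_c²`. -/
theorem consts {C : ℝ} (hC : 1 ≤ C) :
    0 < vk C ∧ vk C ≤ 1 / 1000 ∧ 0 < tz C ∧ tz C ≤ 1 / 1000 ∧ 0 < vc C ∧
    vc C ^ 4 = tz C ^ 4 + 800 * C ^ 2 * tz C ^ 2 ∧ vc C ≤ vk C / 200 ∧
    vc C ^ 2 ≤ 30 * C * tz C ∧ 28 * C * tz C ≤ vc C ^ 2 ∧ 28 * tz C ≤ vc C := by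
  obtain ⟨hk1, hk2⟩ := kap_bounds
  have hC0 : 0 < C := by linarith
  have hk0 : 0 < kap := by linarith
  have hvk : 0 < vk C := by
    rw [vk]
    positivity
  have hvk2 : vk C ≤ 1 / 1000 := by
    rw [vk]
    have h1 : kap / C ≤ 7 / 100 := by
      rw [div_le_iff₀ hC0]
      nlinarith
    have h2 : (kap / C) ^ 4 ≤ (7 / 100) ^ 4 := pow_le_pow_left₀ (by positivity) h1 4
    refine h2.trans ?_
    norm_num
  have htz : 0 < tz C := by
    rw [tz]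
    positivity
  have hsq : (vk C / 200) ^ 2 = 30 * C * tz C := by
    rw [tz]
    field_simp
  have htz2 : tz C ≤ 1 / 1000 := by
    have h1 : (vk C / 200) ^ 2 ≤ 1 / 1000 := by nlinarith
    rw [hsq] at h1
    nlinarith
  have hin : 0 < tz C ^ 4 + 800 * C ^ 2 * tz C ^ 2 := by positivity
  have hvc : 0 < vc C := Real.rpow_pos_of_pos hin _
  have hvc4 : vc C ^ 4 = tz C ^ 4 + 800 * C ^ 2 * tz C ^ 2 := by
    rw [vc, BaB_pow hin.le]
    have h : (1 / 4 : ℝ) * ((4 : ℕ) : ℝ) = 1 := by norm_num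
    rw [h, Real.rpow_one]
  have hle : tz C ^ 2 ≤ C ^ 2 := pow_le_pow_left₀ htz.le (by linarith) 2
  have ht2 : 0 < tz C ^ 2 := by positivity
  have hC2 : 0 < C ^ 2 := by positivity
  have hup : vc C ^ 4 ≤ (30 * C * tz C) ^ 2 := by
    rw [hvc4]
    have : tz C ^ 4 ≤ C ^ 2 * tz C ^ 2 := by
      calc tz C ^ 4 = tz C ^ 2 * tz C ^ 2 := by ring
        _ ≤ C ^ 2 * tz C ^ 2 := mul_le_mul_of_nonneg_right hle ht2.le
    nlinarith [mul_pos hC2 ht2]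
  have h8 : vc C ^ 2 ≤ 30 * C * tz C := by
    refine BaB_le (n := 2) (by positivity) (by positivity) (by norm_num) ?_
    calc (vc C ^ 2) ^ 2 = vc C ^ 4 := by ring
      _ ≤ _ := hup
  have h9 : 28 * C * tz C ≤ vc C ^ 2 := by
    refine BaB_le (n := 2) (by positivity) (by positivity) (by norm_num) ?_
    calc (28 * C * tz C) ^ 2 = 784 * (C ^ 2 * tz C ^ 2) := by ring
      _ ≤ tz C ^ 4 + 800 * C ^ 2 * tz C ^ 2 := by nlinarith [mul_pos hC2 ht2, pow_pos htz 4]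
      _ = (vc C ^ 2) ^ 2 := by rw [← hvc4]; ring
  refine ⟨hvk, hvk2, htz, htz2, hvc, hvc4, ?_, h8, h9, ?_⟩
  · refine BaB_le (n := 2) hvc.le (by positivity) (by norm_num) ?_
    rw [hsq]
    exact h8
  · refine BaB_le (n := 2) (by positivity) hvc.le (by norm_num) ?_
    refine le_trans ?_ h9
    nlinarith

/-- The slope jumps up at `v_c`: `100 C² t₀/v_c³ ≤ κ/v_c^{5/4}`. Proof: `28 C t₀ ≤ v_c²` gives
`100 C² t₀ ≤ (100/28) C v_c²`, and `(100/28) C v_c^{1/4} ≤ κ` because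
`v_c ≤ v_k/200 = (κ/C)⁴/200` and `(100/28)⁴ ≤ 200`. -/
theorem slope_jump {C : ℝ} (hC : 1 ≤ C) :
    100 * C ^ 2 * tz C / vc C ^ 3 ≤ kap / vc C ^ (5 / 4 : ℝ) := by
  obtain ⟨hk1, hk2⟩ := kap_bounds
  have hC0 : 0 < C := by linarith
  have hk0 : 0 < kap := by linarith
  obtain ⟨hvk, -, htz, -, hvc, -, h7, -, h9, -⟩ := consts hC
  obtain ⟨w, hw, hw4⟩ : ∃ w : ℝ, 0 < w ∧ vc C = w ^ 4 := by
    refine ⟨vc C ^ (1 / 4 : ℝ), Real.rpow_pos_of_pos hvc _, ?_⟩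
    rw [BaB_pow hvc.le]
    have h : (1 / 4 : ℝ) * ((4 : ℕ) : ℝ) = 1 := by norm_num
    rw [h, Real.rpow_one]
  have hw5 : vc C ^ (5 / 4 : ℝ) = w ^ 5 := by
    have e : w ^ 4 = w ^ (4 : ℝ) := by
      rw [← Real.rpow_natCast]
      norm_num
    rw [hw4, e, ← Real.rpow_mul hw.le]
    have h : (4 : ℝ) * (5 / 4) = ((5 : ℕ) : ℝ) := by norm_num
    rw [h, Real.rpow_natCast]
  have h10 : 100 / 28 * C * w ≤ kap := by
    refine BaB_le (n := 4) (by positivity) hk0.le (by norm_num) ?_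
    have h11 : w ^ 4 ≤ (kap / C) ^ 4 / 200 := by
      rw [← hw4]
      exact h7
    calc (100 / 28 * C * w) ^ 4 = (100 / 28) ^ 4 * C ^ 4 * w ^ 4 := by ring
      _ ≤ (100 / 28) ^ 4 * C ^ 4 * ((kap / C) ^ 4 / 200) :=
          mul_le_mul_of_nonneg_left h11 (by positivity)
      _ = (100 / 28) ^ 4 / 200 * kap ^ 4 := by
          field_simp
      _ ≤ kap ^ 4 := by nlinarith [pow_pos hk0 4]
  rw [hw5, hw4, div_le_div_iff₀ (by positivity) (by positivity)]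
  rw [hw4] at h9
  calc 100 * C ^ 2 * tz C * w ^ 5 = 100 / 28 * C * (28 * C * tz C) * w ^ 5 := by ring
    _ ≤ 100 / 28 * C * ((w ^ 4) ^ 2) * w ^ 5 :=
        mul_le_mul_of_nonneg_right (mul_le_mul_of_nonneg_left h9 (by positivity)) (by positivity)
    _ = (100 / 28 * C * w) * w ^ 12 := by ring
    _ ≤ kap * w ^ 12 := mul_le_mul_of_nonneg_right h10 (by positivity)
    _ = kap * (w ^ 4) ^ 3 := by ring

/-- `u1` at the two ends and its derivatives; `u1 C t₀ = t₀`, `u1 C v_c = 0`. -/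
theorem u1_facts {C : ℝ} (hC : 1 ≤ C) :
    u1 C (tz C) = tz C ∧ u1 C (vc C) = 0 ∧
    (∀ v, HasDerivAt (u1 C) (-v ^ 3 / (200 * C ^ 2 * tz C)) v) ∧
    (∀ v, HasDerivAt (fun v => -v ^ 3 / (200 * C ^ 2 * tz C)) (-3 * v ^ 2 / (200 * C ^ 2 * tz C)) v) ∧
    (∀ v > 0, -v ^ 3 / (200 * C ^ 2 * tz C) < 0) := by
  have hC0 : 0 < C := by linarith
  obtain ⟨-, -, htz, -, hvc, h6, -, -, -, -⟩ := consts hC
  refine ⟨?_, ?_, fun v => ?_, fun v => ?_, fun v hv => ?_⟩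
  · rw [u1, h6]
    field_simp
    ring
  · rw [u1, sub_self, zero_div]
  · have h1 := ((hasDerivAt_pow 4 v).const_sub (vc C ^ 4)).div_const (800 * C ^ 2 * tz C)
    refine h1.congr_deriv ?_
    push_cast
    field_simp
    ring
  · have h1 := ((hasDerivAt_pow 3 v).neg).div_const (200 * C ^ 2 * tz C)
    refine h1.congr_deriv ?_
    push_cast
    ring
  · rw [div_lt_iff₀ (by positivity), zero_mul]
    have : 0 < v ^ 3 := by positivity
    linarith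

theorem u2_facts {C : ℝ} (hC : 1 ≤ C) :
    u2 C (vc C) = 0 ∧
    (∀ v > 0, HasDerivAt (u2 C) (-(1 / (2 * kap)) * v ^ (5 / 4 : ℝ)) v) ∧
    (∀ v > 0, HasDerivAt (fun v => -(1 / (2 * kap)) * v ^ (5 / 4 : ℝ))
      (-(5 / (8 * kap)) * v ^ (1 / 4 : ℝ)) v) ∧
    (∀ v > 0, -(1 / (2 * kap)) * v ^ (5 / 4 : ℝ) < 0) := by
  obtain ⟨hk1, hk2⟩ := kap_bounds
  have hk0 : 0 < kap := by linarith
  refine ⟨?_, fun v hv => ?_, fun v hv => ?_, fun v hv => ?_⟩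
  · rw [u2, sub_self, mul_zero]
  · have h1 := ((Real.hasDerivAt_rpow_const (x := v) (p := 9 / 4) (Or.inl hv.ne')).sub_const
      (vc C ^ (9 / 4 : ℝ))).const_mul (-(2 / (9 * kap)))
    refine h1.congr_deriv ?_
    have e : (9 / 4 : ℝ) - 1 = 5 / 4 := by norm_num
    rw [e]
    field_simp
    ring
  · have h1 := (Real.hasDerivAt_rpow_const (x := v) (p := 5 / 4) (Or.inl hv.ne')).const_mul
      (-(1 / (2 * kap)))
    refine h1.congr_deriv ?_
    have e : (5 / 4 : ℝ) - 1 = 1 / 4 := by norm_num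
    rw [e]
    field_simp
    ring
  · have h1 : 0 < v ^ (5 / 4 : ℝ) := Real.rpow_pos_of_pos hv _
    have h2 : 0 < 1 / (2 * kap) := by positivity
    nlinarith

end GS
end

section

open Real Set

namespace GS

/-- TASK BaC. Lower bounds of `bv = p + q`: for `0 < t, θ` and `v = t + θ ≤ 1`
`p + q ≥ 1/v - v/2 + (3v - (3/4) v³)/(4 t θ) ≥ 4/v - (5/4) v`.
Proof: `cos v ≥ 1 - v²/2`, `0 < sin v ≤ v` give `cos v/sin v ≥ 1/v - v/2`; `sin v ≥ v - v³/4`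
(`Real.sin_gt_sub_cube`) and `sin t sin θ ≤ t θ` give the second term; `4 t θ ≤ v²`. -/
theorem bv_low {C : ℝ} {p q : ℝ → ℝ → ℝ} (H : LB C p q) {t θ : ℝ} (ht : 0 < t) (hθ : 0 < θ)
    (h1 : t + θ ≤ 1) :
    1 / (t + θ) - (t + θ) / 2 + (3 * (t + θ) - (3 / 4) * (t + θ) ^ 3) / (4 * t * θ) ≤
      p t θ + q t θ := by
  have hv : 0 < t + θ := by linarith
  have hpi := Real.pi_gt_three
  have h0 := H.n0 t θ ht hθ (by linarith)
  set v := t + θ with hvd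
  have hsv : 0 < sin v := Real.sin_pos_of_pos_of_lt_pi hv (by linarith)
  have hsv' : sin v ≤ v := Real.sin_le hv.le
  have hst : 0 < sin t := Real.sin_pos_of_pos_of_lt_pi ht (by linarith)
  have hst' : sin t ≤ t := Real.sin_le ht.le
  have hsθ : 0 < sin θ := Real.sin_pos_of_pos_of_lt_pi hθ (by linarith)
  have hsθ' : sin θ ≤ θ := Real.sin_le hθ.le
  have hc := Real.one_sub_sq_div_two_le_cos (x := v)
  have hs := (Real.sin_gt_sub_cube hv).le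
  have h2 : 1 / v - v / 2 ≤ cos v / sin v := by
    have e : 1 / v - v / 2 = (1 - v ^ 2 / 2) / v := by field_simp
    rw [e]
    exact (div_le_div_of_nonneg_left (by nlinarith) hsv hsv').trans (div_le_div_of_nonneg_right hc hsv.le)
  have h3 : (3 * v - (3 / 4) * v ^ 3) / (4 * t * θ) ≤ (3 / 4) * sin v / (sin t * sin θ) := by
    have e : (3 * v - (3 / 4) * v ^ 3) / (4 * t * θ) = ((3 / 4) * (v - v ^ 3 / 4)) / (t * θ) := by
      rw [div_eq_div_iff (by positivity) (by positivity)]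
      ring
    rw [e]
    have h4 : (3 / 4) * (v - v ^ 3 / 4) ≤ (3 / 4) * sin v := by
      have : 0 < v ^ 3 := by positivity
      linarith
    calc ((3 / 4) * (v - v ^ 3 / 4)) / (t * θ) ≤ ((3 / 4) * sin v) / (t * θ) :=
          div_le_div_of_nonneg_right h4 (by positivity)
      _ ≤ (3 / 4) * sin v / (sin t * sin θ) :=
          div_le_div_of_nonneg_left (by positivity) (by positivity) (mul_le_mul hst' hsθ' hsθ.le ht.le)
  linarith

theorem bv_low' {C : ℝ} {p q : ℝ → ℝ → ℝ} (H : LB C p q) {t θ : ℝ} (ht : 0 < t) (hθ : 0 < θ)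
    (h1 : t + θ ≤ 1) : 4 / (t + θ) - (5 / 4) * (t + θ) ≤ p t θ + q t θ := by
  have h0 := bv_low H ht hθ h1
  have hv : 0 < t + θ := by linarith
  have h4 : 4 * t * θ ≤ (t + θ) ^ 2 := by nlinarith [sq_nonneg (t - θ)]
  set v := t + θ with hvd
  have h5 : 0 ≤ 3 * v - (3 / 4) * v ^ 3 := by
    have e : 3 * v - (3 / 4) * v ^ 3 = v * (3 - (3 / 4) * v ^ 2) := by ring
    rw [e]
    have : v ^ 2 ≤ 1 := by nlinarith
    exact mul_nonneg hv.le (by linarith)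
  have h6 : (3 * v - (3 / 4) * v ^ 3) / v ^ 2 ≤ (3 * v - (3 / 4) * v ^ 3) / (4 * t * θ) :=
    div_le_div_of_nonneg_left h5 (by positivity) h4
  have e : (3 * v - (3 / 4) * v ^ 3) / v ^ 2 = 3 * (1 / v) - (3 / 4) * v := by
    field_simp
  rw [e] at h6
  have e2 : 4 / v = 4 * (1 / v) := by ring
  rw [e2]
  linarith

/-- `b ≤ 1/(2r)` for `r = θ - t > 0`, `θ + t < π`: from `b2`, `R > 0`, `sin r > 0`,
`cos r/sin r ≤ 1/r` (`r cos r ≤ sin r` for `0 < r < π`). -/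
theorem b_le_inv {C : ℝ} {p q : ℝ → ℝ → ℝ} (H : LB C p q) {t θ : ℝ} (ht : 0 < t) (hθ : t < θ)
    (h1 : t + θ < π) : (q t θ - p t θ) / 2 ≤ 1 / (2 * (θ - t)) := by
  have hpi := Real.pi_gt_three
  have h0 := H.b2 t θ ht hθ h1
  have hr : 0 < θ - t := by linarith
  have hsr : 0 < sin (θ - t) := Real.sin_pos_of_pos_of_lt_pi hr (by linarith)
  have hst : 0 < sin t := Real.sin_pos_of_pos_of_lt_pi ht (by linarith)
  have hsθ : 0 < sin θ := Real.sin_pos_of_pos_of_lt_pi (by linarith) (by linarith)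
  have h2 : 0 ≤ (3 / 4) * sin (θ - t) / (sin t * sin θ) := by positivity
  have h3 : cos (θ - t) / sin (θ - t) ≤ 1 / (θ - t) := by
    rw [div_le_div_iff₀ hsr hr, one_mul]
    by_cases h4 : θ - t < π / 2
    · have hc : 0 < cos (θ - t) := Real.cos_pos_of_mem_Ioo ⟨by linarith, h4⟩
      have h5 := (Real.lt_tan hr h4).le
      rw [Real.tan_eq_sin_div_cos, le_div_iff₀ hc] at h5
      linarith
    · have hc : cos (θ - t) ≤ 0 := Real.cos_nonpos_of_pi_div_two_le_of_le (not_lt.mp h4) (by linarith)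
      nlinarith
  have e : 1 / (2 * (θ - t)) = (1 / (θ - t)) / 2 := by
    field_simp
  rw [e]
  linarith

/-- Flat slices: `p > 0` where `sin² θ > (7/3) sin² t`, `t < θ`, `t + θ < π`, `t < π/2`.
Proof: `2 p = (p + q) - (q - p) ≥ cos v/sin v - cos r/sin r + (3/4)(sin v + sin r)/R` with
`v = θ + t`, `r = θ - t`, which is
`-sin(2t)/(sin v sin r) + (3/2) cos t/sin t`, `sin v sin r = sin²θ - sin² t`. -/
theorem p_pos {C : ℝ} {p q : ℝ → ℝ → ℝ} (H : LB C p q) {t θ : ℝ} (ht : 0 < t) (hθ : t < θ)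
    (h1 : t + θ < π) (h2 : t < π / 2) (h3 : (7 / 3) * sin t ^ 2 < sin θ ^ 2) : 0 < p t θ := by
  have hpi := Real.pi_gt_three
  have h4 := H.b2 t θ ht hθ h1
  have h5 := H.n0 t θ ht (by linarith) h1
  have hr : 0 < θ - t := by linarith
  have hT : 0 < sin (θ - t) := Real.sin_pos_of_pos_of_lt_pi hr (by linarith)
  have hS : 0 < sin (t + θ) := Real.sin_pos_of_pos_of_lt_pi (by linarith) h1
  have ha : 0 < sin t := Real.sin_pos_of_pos_of_lt_pi ht (by linarith)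
  have hc : 0 < sin θ := Real.sin_pos_of_pos_of_lt_pi (by linarith) (by linarith)
  have hb : 0 < cos t := Real.cos_pos_of_mem_Ioo ⟨by linarith, h2⟩
  have i1 := Real.sin_sq_add_cos_sq t
  have i2 := Real.sin_sq_add_cos_sq θ
  have eS := Real.sin_add t θ
  have eT := Real.sin_sub θ t
  have eCS := Real.cos_add t θ
  have eCT := Real.cos_sub θ t
  have e1 : sin (t + θ) * sin (θ - t) = sin θ ^ 2 - sin t ^ 2 := by
    rw [eS, eT]
    linear_combination (sin θ ^ 2) * i1 - (sin t ^ 2) * i2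
  have e2 : cos (t + θ) / sin (t + θ) - cos (θ - t) / sin (θ - t) = - (2 * sin t * cos t) / (sin (t + θ) * sin (θ - t)) := by
    rw [div_sub_div _ _ hS.ne' hT.ne']
    congr 1
    rw [eS, eT, eCS, eCT]
    linear_combination (- 2 * sin t * cos t) * i2
  have e3 : (3 / 4) * sin (t + θ) / (sin t * sin θ) + (3 / 4) * sin (θ - t) / (sin t * sin θ) = (3 / 2) * cos t / sin t := by
    rw [eS, eT]
    field_simp
    ring
  have h6 : 0 < sin (t + θ) * sin (θ - t) := mul_pos hS hT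
  have h7 : (2 * sin t * cos t) / (sin (t + θ) * sin (θ - t)) < (3 / 2) * cos t / sin t := by
    rw [div_lt_div_iff₀ h6 ha, e1]
    have : 0 < cos t * (sin θ ^ 2 - (7 / 3) * sin t ^ 2) := mul_pos hb (by linarith)
    nlinarith
  rw [neg_div] at e2
  linarith

end GS
end

section

open Real Set

namespace GS

/-- TASK BaA. Graph of a parametrised curve. Let `u` be `C²` on `(0, ∞)` with `u' < 0`. The curve
`θ = (v - u(v))/2`, `t = (v + u(v))/2`, `v > 0`, is the graph `t = σ(θ)` of a `C²` function with slope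
`m = (1 + u')/(1 - u') ∈ (-1, 1)` and `m' = 4 u''/(1 - u')³`.

Proof: `g(v) = (v - u(v))/2` has derivative `(1 - u'(v))/2 > 1/2` on `(0, ∞)`, so it is strictly
increasing there and has an inverse `V` on the image (an open interval, by the intermediate value
theorem), which is continuous (a strictly monotone function with open interval image; or
`HasStrictDerivAt.to_localInverse`) and `HasDerivAt V (2/(1 - u'(v))) (g v)`
(`HasDerivAt.of_local_left_inverse`). Put `σ θ = V θ - θ` (`t = v - θ`) and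
`m θ = 2/(1 - u'(V θ)) - 1`. -/
theorem arc {u u' u'' : ℝ → ℝ} (h1 : ∀ v > 0, HasDerivAt u (u' v) v)
    (h2 : ∀ v > 0, HasDerivAt u' (u'' v) v) (h3 : ∀ v > 0, u' v < 0) :
    ∃ σ m : ℝ → ℝ, ∀ v > 0, σ ((v - u v) / 2) = (v + u v) / 2 ∧
      HasDerivAt σ (m ((v - u v) / 2)) ((v - u v) / 2) ∧
      m ((v - u v) / 2) = (1 + u' v) / (1 - u' v) ∧ |m ((v - u v) / 2)| < 1 ∧
      HasDerivAt m (4 * u'' v / (1 - u' v) ^ 3) ((v - u v) / 2) := by
  have hg : ∀ v > 0, HasDerivAt (fun v => (v - u v) / 2) ((1 - u' v) / 2) v := fun v hv =>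
    ((hasDerivAt_id v).sub (h1 v hv)).div_const 2
  have hmono : StrictMonoOn (fun v => (v - u v) / 2) (Ioi 0) := by
    refine strictMonoOn_of_deriv_pos (convex_Ioi 0) ?_ ?_
    · intro v hv
      exact (hg v hv).continuousAt.continuousWithinAt
    · intro v hv
      rw [interior_Ioi] at hv
      rw [(hg v hv).deriv]
      have := h3 v hv
      linarith
  have hinj : InjOn (fun v => (v - u v) / 2) (Ioi 0) := hmono.injOn
  obtain ⟨V, hV⟩ : ∃ V : ℝ → ℝ, ∀ v > 0, V ((v - u v) / 2) = v := by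
    refine ⟨Function.invFunOn (fun v => (v - u v) / 2) (Ioi 0), fun v hv => ?_⟩
    exact hinj.leftInvOn_invFunOn hv
  have hVd : ∀ v > 0, HasDerivAt V (2 / (1 - u' v)) ((v - u v) / 2) := by
    intro v hv
    have hs : HasStrictDerivAt (fun v => (v - u v) / 2) ((1 - u' v) / 2) v := by
      refine hasStrictDerivAt_of_hasDerivAt_of_continuousAt (f' := fun v => (1 - u' v) / 2) ?_ ?_
      · filter_upwards [Ioi_mem_nhds hv] with x hx
        exact hg x hx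
      · exact (continuousAt_const.sub (h2 v hv).continuousAt).div_const 2
    have hne : (1 - u' v) / 2 ≠ 0 := by
      have := h3 v hv
      apply ne_of_gt
      linarith
    have hL := (hs.to_localInverse hne).hasDerivAt
    have hev := (hs.hasStrictFDerivAt_equiv hne).eventually_right_inverse
    have hval : hs.localInverse (fun v => (v - u v) / 2) ((1 - u' v) / 2) v hne
        ((v - u v) / 2) = v := (hs.hasStrictFDerivAt_equiv hne).localInverse_apply_image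
    have hpos : ∀ᶠ y in nhds ((v - u v) / 2),
        0 < hs.localInverse (fun v => (v - u v) / 2) ((1 - u' v) / 2) v hne y := by
      refine hL.continuousAt.eventually (p := fun z => 0 < z) ?_
      rw [hval]
      exact Ioi_mem_nhds hv
    have heq : V =ᶠ[nhds ((v - u v) / 2)]
        hs.localInverse (fun v => (v - u v) / 2) ((1 - u' v) / 2) v hne := by
      filter_upwards [hev, hpos] with y hy1 hy2
      have h4 := hV _ hy2
      have h5 : (hs.localInverse (fun v => (v - u v) / 2) ((1 - u' v) / 2) v hne y -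
        u (hs.localInverse (fun v => (v - u v) / 2) ((1 - u' v) / 2) v hne y)) / 2 = y := hy1
      rw [h5] at h4
      exact h4
    have h6 := hL.congr_of_eventuallyEq heq
    rwa [inv_div] at h6
  refine ⟨fun θ => V θ - θ, fun θ => 2 / (1 - u' (V θ)) - 1, fun v hv => ?_⟩
  have hu := h3 v hv
  have hVv := hV v hv
  have hpos : 0 < 1 - u' v := by linarith
  have hm : 2 / (1 - u' (V ((v - u v) / 2))) - 1 = (1 + u' v) / (1 - u' v) := by
    rw [hVv]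
    field_simp
    ring
  refine ⟨?_, ?_, hm, ?_, ?_⟩
  · show V ((v - u v) / 2) - (v - u v) / 2 = _
    rw [hVv]
    ring
  · have h7 := (hVd v hv).sub (hasDerivAt_id ((v - u v) / 2))
    have h8 : 2 / (1 - u' (V ((v - u v) / 2))) - 1 = 2 / (1 - u' v) - 1 := by rw [hVv]
    show HasDerivAt (fun θ => V θ - θ) (2 / (1 - u' (V ((v - u v) / 2))) - 1) ((v - u v) / 2)
    rw [h8]
    exact h7
  · show |2 / (1 - u' (V ((v - u v) / 2))) - 1| < 1
    rw [hm, abs_lt]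
    constructor
    · rw [lt_div_iff₀ hpos]
      linarith
    · rw [div_lt_iff₀ hpos]
      linarith
  · have h9 : HasDerivAt (fun θ => u' (V θ)) (u'' v * (2 / (1 - u' v))) ((v - u v) / 2) := by
      have h10 : HasDerivAt u' (u'' v) (V ((v - u v) / 2)) := by
        rw [hVv]
        exact h2 v hv
      exact HasDerivAt.comp _ h10 (hVd v hv)
    have h11 : HasDerivAt (fun θ => 1 - u' (V θ)) (-(u'' v * (2 / (1 - u' v))))
        ((v - u v) / 2) := h9.const_sub 1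
    have h12 : 1 - u' (V ((v - u v) / 2)) ≠ 0 := by
      rw [hVv]
      exact hpos.ne'
    have h13 := ((hasDerivAt_const ((v - u v) / 2) (2 : ℝ)).div h11 h12).sub_const 1
    refine h13.congr_deriv ?_
    simp only [hVv]
    field_simp
    ring

/-- The condition `H > 0` in terms of `y = -1/(2u')`, `y' = u''/(2u'²)`:
multiply `HP` by `(1 - u')/(-2u') > 0`. -/
theorem HP_of_y {p q : ℝ → ℝ → ℝ} {t θ u' u'' : ℝ} (hu : u' < 0)
    (h : 0 < u'' / (2 * u' ^ 2) + (-1 / (2 * u')) * (p t θ + q t θ) - (q t θ - p t θ) / 2) :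
    HP p q t θ ((1 + u') / (1 - u')) (4 * u'' / (1 - u') ^ 3) := by
  have hpos : 0 < 1 - u' := by linarith
  have hne : u' ≠ 0 := hu.ne
  have hm : 1 - ((1 + u') / (1 - u')) ^ 2 = -4 * u' / (1 - u') ^ 2 := by
    field_simp
    ring
  have key : 4 * u'' / (1 - u') ^ 3 / (1 - ((1 + u') / (1 - u')) ^ 2) + p t θ +
      (1 + u') / (1 - u') * q t θ =
      (-2 * u' / (1 - u')) * (u'' / (2 * u' ^ 2) + (-1 / (2 * u')) * (p t θ + q t θ) -
        (q t θ - p t θ) / 2) := by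
    rw [hm]
    field_simp
    ring
  rw [HP, key]
  refine mul_pos (div_pos (by linarith) hpos) h

end GS
end

section

open Real Set

namespace GS

private theorem SyA_C1 {S S' : Set ℝ} {f : ℝ → ℝ → ℝ} (hf : C1 S f) (hS : ∀ x ∈ S', π - x ∈ S) :
    C1 S' (fun t θ => f t (π - θ)) := by
  have h1 : ContDiffOn ℝ 1 (fun x : ℝ × ℝ => (x.1, π - x.2)) (Ioo 0 π ×ˢ S') := by
    fun_prop
  exact ContDiffOn.comp hf h1 fun x hx => ⟨hx.1, hS _ hx.2⟩

private theorem SyA_dh (f : ℝ → ℝ → ℝ) (t θ : ℝ) :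
    dh (fun t θ => f t (π - θ)) t θ = -dh f t (π - θ) :=
  deriv_comp_const_sub (f t) π θ

private theorem SyA_dt (f : ℝ → ℝ → ℝ) (t θ : ℝ) :
    dt (fun t θ => f t (π - θ)) t θ = dt f t (π - θ) := rfl

private theorem SyA_mo {θ : ℝ} (h : θ ∈ Ioo 0 π) : π - θ ∈ Ioo 0 π :=
  ⟨sub_pos.2 h.2, sub_lt_self _ h.1⟩

private theorem SyA_mc {θ : ℝ} (h : θ ∈ Icc 0 π) : π - θ ∈ Icc 0 π :=
  ⟨sub_nonneg.2 h.2, sub_le_self _ h.1⟩

private theorem SyA_s1 (t θ : ℝ) : sin (t + (π - θ)) = -sin (t - θ) := by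
  rw [show t + (π - θ) = t - θ + π by ring, sin_add_pi]

private theorem SyA_c1 (t θ : ℝ) : cos (t + (π - θ)) = -cos (t - θ) := by
  rw [show t + (π - θ) = t - θ + π by ring, cos_add_pi]

private theorem SyA_s2 (t θ : ℝ) : sin (t - (π - θ)) = -sin (t + θ) := by
  rw [show t - (π - θ) = t + θ - π by ring, sin_sub_pi]

private theorem SyA_c2 (t θ : ℝ) : cos (t - (π - θ)) = -cos (t + θ) := by
  rw [show t - (π - θ) = t + θ - π by ring, cos_sub_pi]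

/-- TASK SyA. The reflection `θ → π - θ` of a package: `p^r(t,θ) = p(t, π-θ)`,
`q^r(t,θ) = -q(t, π-θ)`, `A^r(t,θ) = B(t, π-θ)`, `B^r = A`, `At^r = Bt`, `Bt^r = At` (at `(t, π-θ)`).
Proof: `C1` by composition with an affine map; `dt f^r t θ = dt f t (π-θ)`,
`dh f^r t θ = -dh f t (π-θ)` (`C1.hasDh`, chain rule, `HasDerivAt.deriv`; for `en` at `θ ∈ [0, π]` the
functions are `C1 univ`); `sin (t + (π - θ)) = -sin (t - θ)`, `cos (t + (π - θ)) = -cos (t - θ)`,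
`sin (π - θ) = sin θ`. E.g. `cu` for the reflection is `cv` at `(t, π - θ)` multiplied by `-1`. -/
theorem Dat.exists_refl (D : Dat) : ∃ D' : Dat,
    D'.p = (fun t θ => D.p t (π - θ)) ∧ D'.q = (fun t θ => -D.q t (π - θ)) := by
  refine ⟨{
    p := fun t θ => D.p t (π - θ)
    q := fun t θ => -D.q t (π - θ)
    A := fun t θ => D.B t (π - θ)
    B := fun t θ => D.A t (π - θ)
    At := fun t θ => D.Bt t (π - θ)
    Bt := fun t θ => D.At t (π - θ)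
    cp := SyA_C1 D.cp fun x hx => SyA_mo hx
    cq := (SyA_C1 D.cq fun x hx => SyA_mo hx).neg
    cA := SyA_C1 D.cB fun x hx => SyA_mo hx
    cB := SyA_C1 D.cA fun x hx => SyA_mo hx
    cAt := SyA_C1 D.cBt fun x _ => mem_univ _
    cBt := SyA_C1 D.cAt fun x _ => mem_univ _
    nA := fun t ht θ hθ => D.nB t ht _ (SyA_mo hθ)
    nB := fun t ht θ hθ => D.nA t ht _ (SyA_mo hθ)
    nAt := fun t ht θ hθ => D.nBt t ht _ (SyA_mc hθ)
    nBt := fun t ht θ hθ => D.nAt t ht _ (SyA_mc hθ)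
    leA := fun t ht θ hθ => by
      have h := D.leB t ht _ (SyA_mo hθ)
      rwa [sin_pi_sub] at h
    leB := fun t ht θ hθ => by
      have h := D.leA t ht _ (SyA_mo hθ)
      rwa [sin_pi_sub] at h
    trA := fun t ht θ hθ => by
      have h := D.trB t ht _ (SyA_mo hθ)
      rw [sin_pi_sub, SyA_s1, abs_neg, mul_comm (D.A t (π - θ))] at h
      rwa [SyA_dt, SyA_dh, ← sub_eq_add_neg]
    trB := fun t ht θ hθ => by
      have h := D.trA t ht _ (SyA_mo hθ)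
      rw [sin_pi_sub, SyA_s2, abs_neg, mul_comm (D.A t (π - θ))] at h
      rwa [SyA_dt, SyA_dh, sub_neg_eq_add]
    en := fun t ht θ hθ => by
      have h := D.en t ht _ (SyA_mc hθ)
      rw [SyA_dt, SyA_dt, SyA_dh, SyA_dh]
      rw [add_comm (D.Bt t (π - θ))]
      have e : dt D.Bt t (π - θ) + dt D.At t (π - θ) - (-dh D.At t (π - θ) - -dh D.Bt t (π - θ)) =
          dt D.At t (π - θ) + dt D.Bt t (π - θ) - (dh D.Bt t (π - θ) - dh D.At t (π - θ)) := by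
        ring
      rw [e]
      exact h
    ax0 := fun t ht => by
      have h := D.ax1 t ht
      rw [sub_zero]
      exact h.symm
    ax1 := fun t ht => by
      have h := D.ax0 t ht
      rw [sub_self]
      exact h.symm
    cu := fun t ht θ hθ => by
      have h := D.cv t ht _ (SyA_mo hθ)
      rw [sin_pi_sub, SyA_s1, SyA_c1, neg_sq] at h
      linear_combination -h
    cv := fun t ht θ hθ => by
      have h := D.cu t ht _ (SyA_mo hθ)
      rw [sin_pi_sub, SyA_s2, SyA_c2, neg_sq] at h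
      linear_combination -h }, rfl, rfl⟩

end GS
end
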