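import Pool.Agent.Lib.MP_898b37_mp.Mg.G002

section

open Real Set

namespace GS

/-- `u` in terms of `K = 100 C²`. -/
private theorem BaD_u {C t v u w : ℝ} (hC : 1 ≤ C) (ht : 0 < t)
    (hw : w ^ 4 = t ^ 4 + 800 * C ^ 2 * t ^ 2) (hu : u = (w ^ 4 - v ^ 4) / (800 * C ^ 2 * t)) :
    800 * C ^ 2 * t * u = t ^ 4 + 800 * C ^ 2 * t ^ 2 - v ^ 4 := by
  have hC0 : 0 < C := by linarith
  rw [hu, ← hw]
  field_simp

/-- Case (i). -/
private theorem BaD_i {C t₀ v u t θ S B : ℝ} (hC : 1 ≤ C) (ht0 : 0 < t₀) (hv0 : t₀ < v)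
    (hv : v ≤ 1 / 1000) (hvt : v ≤ 5 / 2 * t₀) (hu : 99 / 100 * t₀ ≤ u) (htv : t + θ = v)
    (htu : t - θ = u) (ht : 0 < t) (hθ : 0 < θ)
    (hS : 1 / v - v / 2 + (3 * v - (3 / 4) * v ^ 3) / (4 * t * θ) ≤ S)
    (hB : B ≤ C / (u * t * θ)) :
    0 < -(300 * C ^ 2 * t₀) / v ^ 4 + (100 * C ^ 2 * t₀ / v ^ 3) * S - B := by
  have hC0 : 0 < C := by linarith
  have hvp : 0 < v := by linarith
  have hup : 0 < u := by linarith
  set X : ℝ := 4 * t * θ with hX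
  have hXp : 0 < X := by positivity
  have hXv : X ≤ v ^ 2 := by
    have : X = v ^ 2 - u ^ 2 := by rw [hX, ← htv, ← htu]; ring
    nlinarith [sq_nonneg u]
  -- lower bound of S - 3 / v
  have h1 : v / (2 * X) ≤ S - 3 / v := by
    have h2 : 2 / v + v / 2 + v / (2 * X) ≤ (3 * v - (3 / 4) * v ^ 3) / X := by
      have h3 : (3 * v - (3 / 4) * v ^ 3) / X = v / (2 * X) + (5 / 2 * v - (3 / 4) * v ^ 3) / X := by
        field_simp
        ring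
      have h4 : 2 / v + v / 2 ≤ (5 / 2 * v - (3 / 4) * v ^ 3) / X := by
        rw [le_div_iff₀ hXp]
        have h5 : (2 / v + v / 2) * X ≤ (2 / v + v / 2) * v ^ 2 :=
          mul_le_mul_of_nonneg_left hXv (by positivity)
        have h6 : (2 / v + v / 2) * v ^ 2 = 2 * v + v ^ 3 / 2 := by
          field_simp
        have h7 : v ^ 2 ≤ 1 / 1000000 := by nlinarith
        nlinarith [h5, h6]
      rw [h3]
      linarith
    have h8 : 3 / v = 1 / v + 2 / v := by ring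
    rw [h8]
    linarith
  have h9 : (100 * C ^ 2 * t₀ / v ^ 3) * (v / (2 * X)) ≤
      -(300 * C ^ 2 * t₀) / v ^ 4 + (100 * C ^ 2 * t₀ / v ^ 3) * S := by
    have h10 : (100 * C ^ 2 * t₀ / v ^ 3) * (v / (2 * X)) ≤
        (100 * C ^ 2 * t₀ / v ^ 3) * (S - 3 / v) := mul_le_mul_of_nonneg_left h1 (by positivity)
    have h11 : (100 * C ^ 2 * t₀ / v ^ 3) * (S - 3 / v) =
        -(300 * C ^ 2 * t₀) / v ^ 4 + (100 * C ^ 2 * t₀ / v ^ 3) * S := by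
      field_simp
      ring
    linarith
  have h12 : C / (u * t * θ) < (100 * C ^ 2 * t₀ / v ^ 3) * (v / (2 * X)) := by
    have h13 : (100 * C ^ 2 * t₀ / v ^ 3) * (v / (2 * X)) =
        (100 * C ^ 2 * t₀ / (8 * v ^ 2)) / (t * θ) := by
      rw [hX]
      field_simp
      ring
    have h14 : C / (u * t * θ) = (C / u) / (t * θ) := by
      field_simp
    rw [h13, h14]
    apply div_lt_div_of_pos_right _ (by positivity)
    rw [div_lt_div_iff₀ hup (by positivity)]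
    have h15 : v ^ 2 ≤ (5 / 2 * t₀) ^ 2 := pow_le_pow_left₀ hvp.le hvt 2
    have h16 : 99 / 100 * t₀ * t₀ ≤ t₀ * u := by nlinarith
    have h17 : C * (8 * v ^ 2) ≤ 50 * C * t₀ ^ 2 := by nlinarith
    have h18 : 99 * C ^ 2 * t₀ ^ 2 ≤ 100 * C ^ 2 * t₀ * u := by
      have : 0 ≤ 100 * C ^ 2 := by positivity
      nlinarith [mul_le_mul_of_nonneg_left h16 this]
    have h19 : 50 * C * t₀ ^ 2 < 99 * C ^ 2 * t₀ ^ 2 := by
      have h20 : 0 < t₀ ^ 2 := by positivity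
      have h21 : 50 * C < 99 * C ^ 2 := by nlinarith
      nlinarith
    linarith
  linarith

/-- Case (ii). -/
private theorem BaD_ii {C t₀ v u w S B : ℝ} (hC : 1 ≤ C) (ht0 : 0 < t₀) (hv0 : t₀ < v)
    (hv : v ≤ 1 / 1000) (hvw : v ≤ w) (hw : w ^ 2 ≤ 30 * C * t₀) (hut : u ≤ t₀)
    (hS : 4 / v - (5 / 4) * v ≤ S) (hB : B ≤ C * (1 / v ^ 2 + u / v ^ 4)) :
    0 < -(300 * C ^ 2 * t₀) / v ^ 4 + (100 * C ^ 2 * t₀ / v ^ 3) * S - B := by
  have hC0 : 0 < C := by linarith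
  have hvp : 0 < v := by linarith
  have hv2 : v ^ 2 ≤ 30 * C * t₀ := (pow_le_pow_left₀ hvp.le hvw 2).trans hw
  have hv3 : v ^ 2 ≤ 1 / 1000000 := by nlinarith
  have h1 : (100 * C ^ 2 * t₀ / v ^ 3) * (4 / v - (5 / 4) * v) ≤ (100 * C ^ 2 * t₀ / v ^ 3) * S :=
    mul_le_mul_of_nonneg_left hS (by positivity)
  have h2 : -(300 * C ^ 2 * t₀) / v ^ 4 + (100 * C ^ 2 * t₀ / v ^ 3) * (4 / v - (5 / 4) * v) =
      (100 * C ^ 2 * t₀ * (1 - (5 / 4) * v ^ 2)) / v ^ 4 := by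
    field_simp
    ring
  have h3 : C * (1 / v ^ 2 + u / v ^ 4) = (C * v ^ 2 + C * u) / v ^ 4 := by
    field_simp
  have h4 : (C * v ^ 2 + C * u) / v ^ 4 < (100 * C ^ 2 * t₀ * (1 - (5 / 4) * v ^ 2)) / v ^ 4 := by
    apply div_lt_div_of_pos_right _ (by positivity)
    have h5 : C * v ^ 2 ≤ 30 * C ^ 2 * t₀ := by nlinarith
    have h6 : C * u ≤ C ^ 2 * t₀ := by
      have h7 : C * u ≤ C * t₀ := mul_le_mul_of_nonneg_left hut hC0.le
      have h8 : C * t₀ ≤ C ^ 2 * t₀ := by nlinarith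
      linarith
    have h9 : 90 * (C ^ 2 * t₀) ≤ 100 * C ^ 2 * t₀ * (1 - (5 / 4) * v ^ 2) := by
      have h10 : 0 < C ^ 2 * t₀ := by positivity
      nlinarith
    have h11 : 0 < C ^ 2 * t₀ := by positivity
    linarith
  rw [← h2, ← h3] at h4
  linarith

/-- TASK BaD. `H > 0` on the first piece, `v ∈ (t₀, v_c]`; `y = 100 C² t₀/v³`, `K = 100 C²`.
Write `u = u1 C v`, `t = (v + u)/2`, `θ = (v - u)/2`, `y' = -3 K t₀/v⁴`.

Proof. `u1 C` is decreasing, so `0 ≤ u < t₀ < v`, `t, θ > 0`, `t + θ = v ≤ v_c ≤ 1/1000`,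
`t - θ = u`.
(i) `v ≤ (5/2) t₀`: `u = t₀ - (v⁴ - t₀⁴)/(8 K t₀) ≥ (99/100) t₀` (`(39/8)... t₀² ≤ K/100`), `v ≤ 3u`
(that is `2θ ≤ t`), `u ≤ 1/3`. With `X = 4 t θ ≤ v²`: `-3/v + bv ≥ (v - (5/4) v³)/X ≥ v/(2X)` by
`bv_low` (`3v/X - 2/v ≥ v/X` as `X ≤ v²`, `v/2 ≤ v³/(2X)`), so
`y' + y bv ≥ K t₀/(2 v² X) = K t₀/(8 v² t θ)`; `b ≤ C/(u t θ)` by `H.b3`; and `K t₀ u > 8 C v²`
since `v ≤ (5/2) t₀`, `u ≥ (99/100) t₀`, `K ≥ 100 C`.
(ii) `v ≥ (5/2) t₀`: `0 ≤ u ≤ t₀ ≤ (2/5) v`, so `θ ≤ t ≤ 3θ` and `H.b1`: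
`b ≤ C/v² + C t₀/v⁴`; `y' + y bv ≥ (1 - (5/4) v²) K t₀/v⁴ ≥ (9/10) K t₀/v⁴` by `bv_low'`; and
`(9/10) K t₀ > C v² + C t₀` because `v² ≤ v_c² ≤ 30 C t₀` and `K = 100 C²`, `C ≥ 1`. -/
theorem piece1 {C : ℝ} (hC : 1 ≤ C) {p q : ℝ → ℝ → ℝ} (H : LB C p q) {v : ℝ} (h1 : tz C < v)
    (h2 : v ≤ vc C) :
    0 < -(300 * C ^ 2 * tz C) / v ^ 4 + (100 * C ^ 2 * tz C / v ^ 3) *
        (p ((v + u1 C v) / 2) ((v - u1 C v) / 2) + q ((v + u1 C v) / 2) ((v - u1 C v) / 2)) -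
      (q ((v + u1 C v) / 2) ((v - u1 C v) / 2) - p ((v + u1 C v) / 2) ((v - u1 C v) / 2)) / 2 := by
  obtain ⟨c1, c2, c3, c4, c5, c6, c7, c8, c9, c10⟩ := consts hC
  have hC0 : 0 < C := by linarith
  have hu := BaD_u (u := u1 C v) (v := v) hC c3 c6 rfl
  set t₀ := tz C with ht₀
  set w := vc C with hw
  set u := u1 C v with hudef
  have hvp : 0 < v := by linarith
  have hw1 : w ≤ 1 / 1000 := by linarith
  have hv1 : v ≤ 1 / 1000 := h2.trans hw1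
  have hKp : 0 < 800 * C ^ 2 * t₀ := by positivity
  have hv4 : v ^ 4 ≤ w ^ 4 := pow_le_pow_left₀ hvp.le h2 4
  have hu0 : 0 ≤ u := by
    have h3 : 0 ≤ 800 * C ^ 2 * t₀ * u := by rw [hu]; linarith
    exact nonneg_of_mul_nonneg_right h3 hKp
  have hut : u < t₀ := by
    have h4 : t₀ ^ 4 < v ^ 4 := pow_lt_pow_left₀ h1 c3.le (by norm_num)
    have h5 : 800 * C ^ 2 * t₀ * u < 800 * C ^ 2 * t₀ * t₀ := by rw [hu]; nlinarith
    exact lt_of_mul_lt_mul_left h5 hKp.le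
  have ht : 0 < (v + u) / 2 := by linarith
  have hθ : 0 < (v - u) / 2 := by linarith
  have hsum : (v + u) / 2 + (v - u) / 2 = v := by ring
  have hdif : (v + u) / 2 - (v - u) / 2 = u := by ring
  by_cases hc : v ≤ 5 / 2 * t₀
  · have hu99 : 99 / 100 * t₀ ≤ u := by
      have h6 : v ^ 4 ≤ (5 / 2 * t₀) ^ 4 := pow_le_pow_left₀ hvp.le hc 4
      have h7 : (5 / 2 * t₀) ^ 4 = 625 / 16 * t₀ ^ 4 := by ring
      have h8 : t₀ ^ 2 ≤ 1 / 1000000 := by nlinarith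
      have h9 : t₀ ^ 4 ≤ 1 / 1000000 * t₀ ^ 2 := by nlinarith [sq_nonneg t₀]
      have h10 : t₀ ^ 2 ≤ C ^ 2 * t₀ ^ 2 := by nlinarith [sq_nonneg t₀, sq_nonneg (C - 1)]
      have h11 : 800 * C ^ 2 * t₀ * (99 / 100 * t₀) ≤ 800 * C ^ 2 * t₀ * u := by
        rw [hu]
        nlinarith
      exact le_of_mul_le_mul_left h11 hKp
    have hS := bv_low H ht hθ (by rw [hsum]; linarith)
    have hB := H.b3 _ _ hθ (by linarith : 2 * ((v - u) / 2) ≤ (v + u) / 2) (by rw [hdif]; linarith)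
    rw [hsum] at hS
    rw [hdif] at hB
    exact BaD_i hC c3 h1 hv1 hc hu99 hsum hdif ht hθ hS hB
  · push Not at hc
    have hS := bv_low' H ht hθ (by rw [hsum]; linarith)
    have hB := H.b1 _ _ hθ (by linarith : (v - u) / 2 ≤ (v + u) / 2)
      (by linarith : (v + u) / 2 ≤ 3 * ((v - u) / 2)) (by rw [hsum]; linarith)
    rw [hsum] at hS
    rw [hsum, hdif] at hB
    exact BaD_ii hC c3 h1 hv1 h2 c8 hut.le hS hB

end GS
end

section

open Real Set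

namespace GS

private theorem BaE_split {v : ℝ} (hv : 0 < v) :
    v ^ (9 / 4 : ℝ) = v * v ^ (5 / 4 : ℝ) := by
  have h : (9 / 4 : ℝ) = 1 + 5 / 4 := by norm_num
  rw [h, Real.rpow_add hv, Real.rpow_one]

private theorem BaE_split' {v : ℝ} (hv : 0 < v) :
    v ^ (5 / 4 : ℝ) = v * v ^ (1 / 4 : ℝ) := by
  have h : (5 / 4 : ℝ) = 1 + 1 / 4 := by norm_num
  rw [h, Real.rpow_add hv, Real.rpow_one]

/-- Bounds of `r = -u2` on the second piece. `r ≤ (2/(9κ)) v^{9/4} ≤ (4/9) v` for `v ≤ 1/5`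
(`v^{5/4} ≤ 2κ`), and `r > 0` for `v > v_c`. -/
theorem u2_range {C : ℝ} (hC : 1 ≤ C) {v : ℝ} (h1 : vc C ≤ v) (h2 : v ≤ 1 / 5) :
    u2 C v ≤ 0 ∧ -((4 / 9) * v) ≤ u2 C v ∧ (vc C < v → u2 C v < 0) := by
  obtain ⟨-, -, -, -, hc, -⟩ := consts hC
  have hk : 0 < kap := lt_of_lt_of_le (by norm_num) kap_bounds.1
  have hv : 0 < v := lt_of_lt_of_le hc h1
  have hk2 : 0 < 2 / (9 * kap) := by positivity
  have hm : vc C ^ (9 / 4 : ℝ) ≤ v ^ (9 / 4 : ℝ) := Real.rpow_le_rpow hc.le h1 (by norm_num)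
  have hsp : v ^ (9 / 4 : ℝ) = v * v ^ (5 / 4 : ℝ) := BaE_split hv
  have hW : v ^ (5 / 4 : ℝ) ≤ 2 * kap := by
    have h3 : v ^ (5 / 4 : ℝ) ≤ (1 / 5 : ℝ) ^ (5 / 4 : ℝ) :=
      Real.rpow_le_rpow hv.le h2 (by norm_num)
    unfold kap
    linarith
  have hc9 : 0 < vc C ^ (9 / 4 : ℝ) := Real.rpow_pos_of_pos hc _
  refine ⟨?_, ?_, fun h => ?_⟩
  · unfold u2
    nlinarith
  · unfold u2
    have h4 : 2 / (9 * kap) * (v ^ (9 / 4 : ℝ) - vc C ^ (9 / 4 : ℝ)) ≤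
        2 / (9 * kap) * (v * (2 * kap)) := by
      refine mul_le_mul_of_nonneg_left ?_ hk2.le
      rw [hsp] at hm ⊢
      have := mul_le_mul_of_nonneg_left hW hv.le
      linarith
    have h5 : 2 / (9 * kap) * (v * (2 * kap)) = (4 / 9) * v := by
      field_simp
      ring
    linarith
  · have h6 : vc C ^ (9 / 4 : ℝ) < v ^ (9 / 4 : ℝ) := Real.rpow_lt_rpow hc.le h (by norm_num)
    unfold u2
    have := mul_pos hk2 (sub_pos.2 h6)
    linarith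

/-- TASK BaE. `H > 0` on the second piece, `v ∈ [v_c, 1/5]`; `y = κ/v^{5/4}`,
`y' = -(5/4) κ/v^{9/4}`. Write `r = -u2 C v ≥ 0`, `t = (v - r)/2`, `θ = (v + r)/2`.

Proof. `r ≤ (4/9) v`, so `t, θ > 0`; `bv_low'` gives
`y' + y bv ≥ (11/4 - (5/4) v²) κ v^{-9/4} ≥ (27/10) κ v^{-9/4}` (`v ≤ 1/5`).
(i) `v ≤ v_k`: `θ ≤ 3t` (as `r ≤ v/2`), `H.b1'`: `b ≤ C/v²`, and
`C v^{1/4} ≤ κ` because `v ≤ v_k = (κ/C)⁴`, so `C/v² ≤ κ v^{-9/4}`.
(ii) `v > v_k`: `v_c ≤ v/200`, `b_le_inv`: `b ≤ 1/(2r) = 9κ/(4 (v^{9/4} - v_c^{9/4}))`, and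
`v_c^{9/4} ≤ v^{9/4}/200`, so `b ≤ (9/4)(200/199) κ v^{-9/4} < (27/10) κ v^{-9/4}`. -/
theorem piece2 {C : ℝ} (hC : 1 ≤ C) {p q : ℝ → ℝ → ℝ} (H : LB C p q) {v : ℝ} (h1 : vc C ≤ v)
    (h2 : v ≤ 1 / 5) :
    0 < -(5 / 4) * kap / v ^ (9 / 4 : ℝ) + (kap / v ^ (5 / 4 : ℝ)) *
        (p ((v + u2 C v) / 2) ((v - u2 C v) / 2) + q ((v + u2 C v) / 2) ((v - u2 C v) / 2)) -
      (q ((v + u2 C v) / 2) ((v - u2 C v) / 2) - p ((v + u2 C v) / 2) ((v - u2 C v) / 2)) / 2 := by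
  obtain ⟨hK, -, -, -, hc, -, hcK, -⟩ := consts hC
  obtain ⟨hu0, hu1, hu2⟩ := u2_range hC h1 h2
  have hk : 0 < kap := lt_of_lt_of_le (by norm_num) kap_bounds.1
  have hv : 0 < v := lt_of_lt_of_le hc h1
  have hC0 : 0 < C := lt_of_lt_of_le one_pos hC
  set u := u2 C v with hu
  set t := (v + u) / 2 with ht
  set θ := (v - u) / 2 with hθ
  have htp : 0 < t := by rw [ht]; linarith
  have hθp : 0 < θ := by rw [hθ]; linarith
  have hs : t + θ = v := by rw [ht, hθ]; ring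
  have hd : θ - t = -u := by rw [ht, hθ]; ring
  have hπ : (3 : ℝ) < π := Real.pi_gt_three
  have hbv := bv_low' H htp hθp (by rw [hs]; linarith)
  rw [hs] at hbv
  have hW : 0 < v ^ (5 / 4 : ℝ) := Real.rpow_pos_of_pos hv _
  have hsp : v ^ (9 / 4 : ℝ) = v * v ^ (5 / 4 : ℝ) := BaE_split hv
  set W := v ^ (5 / 4 : ℝ) with hWdef
  set E := kap / (v * W) with hE
  have hEp : 0 < E := by rw [hE]; positivity
  have hv2 : v ^ 2 ≤ 1 / 25 := by nlinarith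
  -- the first two terms
  have hmain : (27 / 10) * E ≤ -(5 / 4) * kap / v ^ (9 / 4 : ℝ) +
      (kap / W) * (p t θ + q t θ) := by
    have h3 : (kap / W) * (4 / v - (5 / 4) * v) ≤ (kap / W) * (p t θ + q t θ) :=
      mul_le_mul_of_nonneg_left hbv (by positivity)
    have h4 : -(5 / 4) * kap / v ^ (9 / 4 : ℝ) + (kap / W) * (4 / v - (5 / 4) * v) =
        (11 / 4 - (5 / 4) * v ^ 2) * E := by
      rw [hsp, hE]
      field_simp
      ring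
    have h5 : (27 / 10) * E ≤ (11 / 4 - (5 / 4) * v ^ 2) * E :=
      mul_le_mul_of_nonneg_right (by linarith) hEp.le
    linarith
  -- the bound of `b`
  have hb : (q t θ - p t θ) / 2 < (27 / 10) * E := by
    rcases le_or_gt v (vk C) with hvk | hvk
    · have h3 := H.b1' t θ htp (by rw [ht, hθ]; linarith) (by rw [ht, hθ]; linarith)
        (by rw [hs]; linarith)
      rw [hs] at h3
      have h4 : v ^ (1 / 4 : ℝ) ≤ kap / C := by
        have h5 : v ^ (1 / 4 : ℝ) ≤ (vk C) ^ (1 / 4 : ℝ) :=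
          Real.rpow_le_rpow hv.le hvk (by norm_num)
        have h6 : (vk C) ^ (1 / 4 : ℝ) = kap / C := by
          unfold vk
          rw [← Real.rpow_natCast, ← Real.rpow_mul (by positivity)]
          norm_num
        linarith
      have h7 : W = v * v ^ (1 / 4 : ℝ) := BaE_split' hv
      have h8 : C * W ≤ kap * v := by
        have h9 : C * v ^ (1 / 4 : ℝ) ≤ kap := by
          have := mul_le_mul_of_nonneg_left h4 hC0.le
          rwa [mul_div_cancel₀ _ hC0.ne'] at this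
        rw [h7]
        nlinarith
      have h10 : C / v ^ 2 ≤ E := by
        rw [hE, div_le_div_iff₀ (by positivity) (by positivity)]
        nlinarith
      nlinarith
    · have hcv : vc C ≤ v / 200 := by linarith
      have hu3 : u < 0 := hu2 (by linarith)
      have htθ : t < θ := by linarith
      have h3 := b_le_inv H htp htθ (by rw [hs]; linarith)
      rw [hd] at h3
      have hc5 : vc C ^ (5 / 4 : ℝ) ≤ W :=
        Real.rpow_le_rpow hc.le (by linarith) (by norm_num)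
      have hc50 : 0 < vc C ^ (5 / 4 : ℝ) := Real.rpow_pos_of_pos hc _
      have h4 : vc C ^ (9 / 4 : ℝ) ≤ v * W / 200 := by
        rw [BaE_split hc]
        calc vc C * vc C ^ (5 / 4 : ℝ) ≤ v / 200 * W :=
              mul_le_mul hcv hc5 hc50.le (by positivity)
          _ = v * W / 200 := by ring
      have h5 : (2 / (9 * kap)) * ((199 / 200) * (v * W)) ≤ -u := by
        rw [hu]
        unfold u2
        rw [hsp]
        have : (2 / (9 * kap)) * ((199 / 200) * (v * W)) ≤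
            (2 / (9 * kap)) * (v * W - vc C ^ (9 / 4 : ℝ)) :=
          mul_le_mul_of_nonneg_left (by linarith) (by positivity)
        linarith
      have h6 : 0 < (2 / (9 * kap)) * ((199 / 200) * (v * W)) := by positivity
      have h7 : 1 / (2 * -u) ≤ 1 / (2 * ((2 / (9 * kap)) * ((199 / 200) * (v * W)))) :=
        one_div_le_one_div_of_le (by positivity) (by linarith)
      have h8 : 1 / (2 * ((2 / (9 * kap)) * ((199 / 200) * (v * W)))) = (450 / 199) * E := by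
        rw [hE]
        field_simp
        ring
      have h9 : (450 / 199 : ℝ) * E < (27 / 10) * E :=
        mul_lt_mul_of_pos_right (by norm_num) hEp
      linarith
  linarith

end GS
end

section

open Real Set

namespace GS

/-- The end of the second piece: `θ₁ = (1/5 - u2 C (1/5))/2`. -/
noncomputable def th1 (C : ℝ) : ℝ := (1 / 5 - u2 C (1 / 5)) / 2

/-- The height of the flat piece: `t₁ = (1/5 + u2 C (1/5))/2`. -/
noncomputable def tt1 (C : ℝ) : ℝ := (1 / 5 + u2 C (1 / 5)) / 2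

/-- TASK BaF. Numerical facts on the flat piece: `r₁ = -u2 C (1/5) = (4/9)(1/5)(1 - (5 v_c)^{9/4})`
(`2/(9κ) (1/5)^{9/4} = (4/9)(1/5)`), `(5 v_c)^{9/4} ≤ 5 v_c ≤ 1/200`, so `r₁ ≥ 11/125 = 0.088`,
`θ₁ ≥ 18/125 = 0.144`, `t₁ ≤ 7/125 = 0.056`, `sin θ₁ ≥ θ₁ - θ₁³/4`, `sin t₁ ≤ t₁`; hence
`(7/3) sin² t₁ < sin² θ` for `θ ∈ [θ₁, π/2]`. -/
theorem flat_facts {C : ℝ} (hC : 1 ≤ C) :
    vc C / 2 < th1 C ∧ th1 C < 1 / 5 ∧ 0 < tt1 C ∧ tt1 C ≤ 7 / 125 ∧ 18 / 125 ≤ th1 C ∧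
    ∀ θ ∈ Icc (th1 C) (π / 2), (7 / 3) * sin (tt1 C) ^ 2 < sin θ ^ 2 := by
  obtain ⟨hvk, hvk1, htz, htz1, hvc, hvc4, hvck, hvc30, hvc28, hvct⟩ := consts hC
  obtain ⟨hk1, hk2⟩ := kap_bounds
  have hk0 : 0 < kap := by linarith
  have hvcs : vc C ≤ 1 / 200000 := by linarith
  have ha : (1 / 5 : ℝ) ^ (9 / 4 : ℝ) = (1 / 5) * (2 * kap) := by
    rw [show (9 / 4 : ℝ) = 1 + 5 / 4 by norm_num, Real.rpow_add (by norm_num), Real.rpow_one]
    unfold kap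
    ring
  have hb : vc C ^ (9 / 4 : ℝ) = (1 / 5 : ℝ) ^ (9 / 4 : ℝ) * (5 * vc C) ^ (9 / 4 : ℝ) := by
    rw [← Real.mul_rpow (by norm_num) (by positivity)]
    congr 1
    ring
  have he0 : 0 < (5 * vc C) ^ (9 / 4 : ℝ) := by positivity
  have he1 : (5 * vc C) ^ (9 / 4 : ℝ) ≤ 5 * vc C := by
    have h1 := Real.rpow_le_rpow_of_exponent_ge (x := 5 * vc C) (y := 9 / 4) (z := 1)
      (by positivity) (by linarith) (by norm_num)
    rwa [Real.rpow_one] at h1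
  have hu : u2 C (1 / 5) = -(4 / 45) * (1 - (5 * vc C) ^ (9 / 4 : ℝ)) := by
    unfold u2
    rw [hb, ha]
    field_simp
    ring
  generalize (5 * vc C) ^ (9 / 4 : ℝ) = ε at he0 he1 hu
  have h18 : 18 / 125 ≤ th1 C := by
    unfold th1
    rw [hu]
    linarith
  have h7 : tt1 C ≤ 7 / 125 := by
    unfold tt1
    rw [hu]
    linarith
  have htt : 0 < tt1 C := by
    unfold tt1
    rw [hu]
    linarith
  refine ⟨by linarith, ?_, htt, h7, h18, ?_⟩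
  · unfold th1
    rw [hu]
    linarith
  · intro θ hθ
    have hpi := Real.pi_gt_three
    have h1 : sin (18 / 125) ≤ sin θ := by
      apply Real.sin_le_sin_of_le_of_le_pi_div_two
      · linarith
      · exact hθ.2
      · linarith [hθ.1]
    have h2 := Real.sin_gt_sub_cube (x := 18 / 125) (by norm_num)
    have h3 : sin (tt1 C) ≤ tt1 C := Real.sin_le htt.le
    have h4 : 0 < sin (tt1 C) := Real.sin_pos_of_pos_of_lt_pi htt (by linarith)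
    have h5 : sin (tt1 C) ≤ 7 / 125 := h3.trans h7
    have h6 : (14 / 100 : ℝ) ≤ sin θ := by
      have : (14 / 100 : ℝ) ≤ 18 / 125 - (18 / 125) ^ 3 / 6 := by norm_num
      linarith
    have h8 : sin (tt1 C) ^ 2 ≤ (7 / 125) ^ 2 := by gcongr
    have h9 : (14 / 100 : ℝ) ^ 2 ≤ sin θ ^ 2 := by gcongr
    calc (7 / 3) * sin (tt1 C) ^ 2 ≤ (7 / 3) * (7 / 125) ^ 2 := by gcongr
      _ < (14 / 100 : ℝ) ^ 2 := by norm_num
      _ ≤ sin θ ^ 2 := h9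

/-- The arcs of the two pieces exist. -/
theorem arcs_exist {C : ℝ} (hC : 1 ≤ C) : ∃ σ₁ m₁ σ₂ m₂ : ℝ → ℝ,
    (∀ v > 0, σ₁ ((v - u1 C v) / 2) = (v + u1 C v) / 2 ∧
      HasDerivAt σ₁ (m₁ ((v - u1 C v) / 2)) ((v - u1 C v) / 2) ∧
      m₁ ((v - u1 C v) / 2) =
        (1 + -v ^ 3 / (200 * C ^ 2 * tz C)) / (1 - -v ^ 3 / (200 * C ^ 2 * tz C)) ∧
      |m₁ ((v - u1 C v) / 2)| < 1 ∧
      HasDerivAt m₁ (4 * (-3 * v ^ 2 / (200 * C ^ 2 * tz C)) /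
        (1 - -v ^ 3 / (200 * C ^ 2 * tz C)) ^ 3) ((v - u1 C v) / 2)) ∧
    (∀ v > 0, σ₂ ((v - u2 C v) / 2) = (v + u2 C v) / 2 ∧
      HasDerivAt σ₂ (m₂ ((v - u2 C v) / 2)) ((v - u2 C v) / 2) ∧
      m₂ ((v - u2 C v) / 2) =
        (1 + -(1 / (2 * kap)) * v ^ (5 / 4 : ℝ)) / (1 - -(1 / (2 * kap)) * v ^ (5 / 4 : ℝ)) ∧
      |m₂ ((v - u2 C v) / 2)| < 1 ∧
      HasDerivAt m₂ (4 * (-(5 / (8 * kap)) * v ^ (1 / 4 : ℝ)) /
        (1 - -(1 / (2 * kap)) * v ^ (5 / 4 : ℝ)) ^ 3) ((v - u2 C v) / 2)) := by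
  obtain ⟨_, _, h1, h2, h3⟩ := u1_facts hC
  obtain ⟨_, h4, h5, h6⟩ := u2_facts hC
  obtain ⟨σ₁, m₁, hs1⟩ := arc (u := u1 C) (u' := fun v => -v ^ 3 / (200 * C ^ 2 * tz C))
    (u'' := fun v => -3 * v ^ 2 / (200 * C ^ 2 * tz C)) (fun v _ => h1 v) (fun v _ => h2 v) h3
  obtain ⟨σ₂, m₂, hs2⟩ := arc (u := u2 C) (u' := fun v => -(1 / (2 * kap)) * v ^ (5 / 4 : ℝ))
    (u'' := fun v => -(5 / (8 * kap)) * v ^ (1 / 4 : ℝ)) h4 h5 h6
  exact ⟨σ₁, m₁, σ₂, m₂, hs1, hs2⟩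

/-- Every `θ ∈ (0, v_c/2]` is `(v - u1 C v)/2` for a unique `v ∈ (t₀, v_c]`, and every
`θ ∈ [v_c/2, θ₁]` is `(v - u2 C v)/2` for a unique `v ∈ [v_c, 1/5]` (intermediate value theorem;
both functions are continuous and strictly increasing). -/
theorem param1 {C : ℝ} (hC : 1 ≤ C) {θ : ℝ} (h0 : 0 < θ) (h1 : θ ≤ vc C / 2) :
    ∃ v, tz C < v ∧ v ≤ vc C ∧ θ = (v - u1 C v) / 2 := by
  obtain ⟨hvk, hvk1, htz, htz1, hvc, hvc4, hvck, hvc30, hvc28, hvct⟩ := consts hC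
  obtain ⟨he0, he1, hd, _, _⟩ := u1_facts hC
  have hc : ContinuousOn (fun v => (v - u1 C v) / 2) (Icc (tz C) (vc C)) := by
    intro v _
    exact ((continuousAt_id.sub (hd v).continuousAt).div_const 2).continuousWithinAt
  have hi := intermediate_value_Icc (by linarith) hc
  have hm : θ ∈ Icc ((tz C - u1 C (tz C)) / 2) ((vc C - u1 C (vc C)) / 2) := by
    rw [he0, he1]
    constructor <;> linarith
  obtain ⟨v, hv, hvθ⟩ := hi hm
  have hvθ' : (v - u1 C v) / 2 = θ := hvθ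
  refine ⟨v, ?_, hv.2, hvθ'.symm⟩
  rcases lt_or_eq_of_le hv.1 with h | h
  · exact h
  · exfalso
    rw [← h, he0] at hvθ'
    linarith

theorem param2 {C : ℝ} (hC : 1 ≤ C) {θ : ℝ} (h0 : vc C / 2 ≤ θ) (h1 : θ ≤ th1 C) :
    ∃ v, vc C ≤ v ∧ v ≤ 1 / 5 ∧ θ = (v - u2 C v) / 2 := by
  obtain ⟨hvk, hvk1, htz, htz1, hvc, hvc4, hvck, hvc30, hvc28, hvct⟩ := consts hC
  obtain ⟨he0, hd, _, _⟩ := u2_facts hC
  have hc : ContinuousOn (fun v => (v - u2 C v) / 2) (Icc (vc C) (1 / 5)) := by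
    intro v hv
    have hv0 : 0 < v := lt_of_lt_of_le hvc hv.1
    exact ((continuousAt_id.sub (hd v hv0).continuousAt).div_const 2).continuousWithinAt
  have hi := intermediate_value_Icc (by linarith) hc
  have hm : θ ∈ Icc ((vc C - u2 C (vc C)) / 2) ((1 / 5 - u2 C (1 / 5)) / 2) := by
    rw [he0]
    constructor
    · linarith
    · exact h1
  obtain ⟨v, hv, hvθ⟩ := hi hm
  have hvθ' : (v - u2 C v) / 2 = θ := hvθ
  exact ⟨v, hv.1, hv.2, hvθ'.symm⟩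

end GS
end
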