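import Pool.Agent.Lib.MP_898b37_mp.Mg.G003

section

open Real Set

namespace GS

private theorem BaG_par1 {C : ℝ} (hC : 1 ≤ C) {x : ℝ} (hx : 0 ≤ x) :
    ∃ v > 0, x = (v - u1 C v) / 2 := by
  obtain ⟨-, -, htz, -, hvc, -⟩ := consts hC
  have hC0 : 0 < C := by linarith
  have hD : 0 < 800 * C ^ 2 * tz C := by positivity
  have hcont : Continuous fun v => (v - u1 C v) / 2 := by
    unfold u1
    fun_prop
  have h0 : (0 - u1 C 0) / 2 < 0 := by
    have h1 : 0 < u1 C 0 := by
      unfold u1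
      have h2 : 0 < vc C ^ 4 := by positivity
      exact div_pos (by linarith [zero_pow (M₀ := ℝ) (four_ne_zero : (4 : ℕ) ≠ 0)]) hD
    linarith
  have h1 : x ≤ ((2 * x + vc C) - u1 C (2 * x + vc C)) / 2 := by
    have h2 : u1 C (2 * x + vc C) ≤ 0 := by
      unfold u1
      refine div_nonpos_of_nonpos_of_nonneg ?_ hD.le
      have h3 : vc C ^ 4 ≤ (2 * x + vc C) ^ 4 := pow_le_pow_left₀ hvc.le (by linarith) 4
      linarith
    linarith
  obtain ⟨v, hv, hvx⟩ := intermediate_value_Icc (show (0 : ℝ) ≤ 2 * x + vc C by linarith)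
    hcont.continuousOn ⟨h0.le.trans hx, h1⟩
  refine ⟨v, lt_of_le_of_ne hv.1 ?_, hvx.symm⟩
  rintro rfl
  exact absurd hvx (by simp only; linarith)

private theorem BaG_par2 {C : ℝ} (hC : 1 ≤ C) {x : ℝ} (hx : 0 ≤ x) :
    ∃ v > 0, x = (v - u2 C v) / 2 := by
  obtain ⟨-, -, htz, -, hvc, -⟩ := consts hC
  have hk := kap_bounds.1
  have hD : 0 < 2 / (9 * kap) := by
    have : 0 < kap := by linarith
    positivity
  have hcont : Continuous fun v => (v - u2 C v) / 2 := by
    unfold u2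
    have h := Real.continuous_rpow_const (q := 9 / 4) (by norm_num)
    fun_prop
  have h0 : (0 - u2 C 0) / 2 < 0 := by
    have h1 : 0 < u2 C 0 := by
      unfold u2
      rw [Real.zero_rpow (by norm_num)]
      have h2 : 0 < vc C ^ (9 / 4 : ℝ) := Real.rpow_pos_of_pos hvc _
      nlinarith
    linarith
  have h1 : x ≤ ((2 * x + vc C) - u2 C (2 * x + vc C)) / 2 := by
    have h2 : u2 C (2 * x + vc C) ≤ 0 := by
      unfold u2
      have h3 : vc C ^ (9 / 4 : ℝ) ≤ (2 * x + vc C) ^ (9 / 4 : ℝ) :=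
        Real.rpow_le_rpow hvc.le (by linarith) (by norm_num)
      nlinarith
    linarith
  obtain ⟨v, hv, hvx⟩ := intermediate_value_Icc (show (0 : ℝ) ≤ 2 * x + vc C by linarith)
    hcont.continuousOn ⟨h0.le.trans hx, h1⟩
  refine ⟨v, lt_of_le_of_ne hv.1 ?_, hvx.symm⟩
  rintro rfl
  exact absurd hvx (by simp only; linarith)

private theorem BaG_lip {σ m : ℝ → ℝ} (h : ∀ x, 0 ≤ x → HasDerivAt σ (m x) x ∧ |m x| < 1)
    {x y : ℝ} (hx : 0 ≤ x) (hy : 0 ≤ y) : |σ x - σ y| ≤ |x - y| := by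
  have h1 := (convex_Ici (0 : ℝ)).norm_image_sub_le_of_norm_hasDerivWithin_le (f := σ) (f' := m)
    (C := 1) (fun z hz => (h z hz).1.hasDerivWithinAt)
    (fun z hz => by rw [Real.norm_eq_abs]; exact (h z hz).2.le) hy hx
  rw [one_mul] at h1
  exact h1

/-- The two clamps. -/
private theorem BaG_clamp {a b : ℝ} (ha : 0 ≤ a) (hab : a ≤ b) {x y : ℝ} (hxy : y ≤ x) :
    |max 0 (min x a) - max 0 (min y a)| + |max a (min x b) - max a (min y b)| ≤ x - y := by
  have h1 : max 0 (min y a) ≤ max 0 (min x a) :=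
    max_le_max le_rfl (min_le_min hxy le_rfl)
  have h2 : max a (min y b) ≤ max a (min x b) :=
    max_le_max le_rfl (min_le_min hxy le_rfl)
  rw [abs_of_nonneg (by linarith), abs_of_nonneg (by linarith)]
  rcases le_total x a with hxa | hxa <;> rcases le_total y a with hya | hya <;>
    rcases le_total x b with hxb | hxb <;> rcases le_total y b with hyb | hyb <;>
    simp only [min_eq_left, min_eq_right, hxa, hya, hxb, hyb, max_eq_left, max_eq_right, ha, hab] <;>
    first
    | linarith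
    | (rcases le_total 0 x with h0 | h0 <;> rcases le_total 0 y with h0' | h0' <;>
        simp only [max_eq_left, max_eq_right, h0, h0'] <;> linarith)

/-- `HP` on the first piece. -/
private theorem BaG_HP1 {C : ℝ} (hC : 1 ≤ C) {p q : ℝ → ℝ → ℝ} (H : LB C p q) {v : ℝ}
    (h1 : tz C < v) (h2 : v ≤ vc C) :
    HP p q ((v + u1 C v) / 2) ((v - u1 C v) / 2)
      ((1 + -v ^ 3 / (200 * C ^ 2 * tz C)) / (1 - -v ^ 3 / (200 * C ^ 2 * tz C)))
      (4 * (-3 * v ^ 2 / (200 * C ^ 2 * tz C)) / (1 - -v ^ 3 / (200 * C ^ 2 * tz C)) ^ 3) := by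
  obtain ⟨-, -, htz, -⟩ := consts hC
  have hv : 0 < v := htz.trans h1
  have hC0 : 0 < C := by linarith
  refine HP_of_y ((u1_facts hC).2.2.2.2 v hv) ?_
  have h := piece1 hC H h1 h2
  have e1 : -3 * v ^ 2 / (200 * C ^ 2 * tz C) / (2 * (-v ^ 3 / (200 * C ^ 2 * tz C)) ^ 2) =
      -(300 * C ^ 2 * tz C) / v ^ 4 := by
    field_simp
    ring
  have e2 : -1 / (2 * (-v ^ 3 / (200 * C ^ 2 * tz C))) = 100 * C ^ 2 * tz C / v ^ 3 := by
    field_simp
    ring
  rw [e1, e2]
  exact h

/-- `HP` on the second piece. -/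
private theorem BaG_HP2 {C : ℝ} (hC : 1 ≤ C) {p q : ℝ → ℝ → ℝ} (H : LB C p q) {v : ℝ}
    (h1 : vc C ≤ v) (h2 : v ≤ 1 / 5) :
    HP p q ((v + u2 C v) / 2) ((v - u2 C v) / 2)
      ((1 + -(1 / (2 * kap)) * v ^ (5 / 4 : ℝ)) / (1 - -(1 / (2 * kap)) * v ^ (5 / 4 : ℝ)))
      (4 * (-(5 / (8 * kap)) * v ^ (1 / 4 : ℝ)) /
        (1 - -(1 / (2 * kap)) * v ^ (5 / 4 : ℝ)) ^ 3) := by
  obtain ⟨-, -, -, -, hvc, -⟩ := consts hC
  have hv : 0 < v := hvc.trans_le h1
  have hk : 0 < kap := by linarith [kap_bounds.1]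
  refine HP_of_y ((u2_facts hC).2.2.2 v hv) ?_
  have h := piece2 hC H h1 h2
  have a1 : 0 < v ^ (5 / 4 : ℝ) := Real.rpow_pos_of_pos hv _
  have a2 : 0 < v ^ (9 / 4 : ℝ) := Real.rpow_pos_of_pos hv _
  have a3 : v ^ (1 / 4 : ℝ) * v ^ (9 / 4 : ℝ) = v ^ (5 / 4 : ℝ) * v ^ (5 / 4 : ℝ) := by
    rw [← Real.rpow_add hv, ← Real.rpow_add hv]
    norm_num
  have e1 : -(5 / (8 * kap)) * v ^ (1 / 4 : ℝ) / (2 * (-(1 / (2 * kap)) * v ^ (5 / 4 : ℝ)) ^ 2) =
      -(5 / 4) * kap / v ^ (9 / 4 : ℝ) := by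
    have a4 : (2 * (-(1 / (2 * kap)) * v ^ (5 / 4 : ℝ)) ^ 2) ≠ 0 := by
      refine mul_ne_zero two_ne_zero (pow_ne_zero 2 (mul_ne_zero (neg_ne_zero.mpr ?_) a1.ne'))
      positivity
    rw [div_eq_div_iff a4 a2.ne']
    field_simp
    nlinarith [a3]
  have e2 : -1 / (2 * (-(1 / (2 * kap)) * v ^ (5 / 4 : ℝ))) = kap / v ^ (5 / 4 : ℝ) := by
    field_simp
  rw [e1, e2]
  exact h

/-- TASK BaG. The half barrier on `[0, π/2]`. There is a function `τ` on `ℝ` with:
it is 1-Lipschitz, `0 < τ ≤ 1/5` on `[0, π/2]`, constant on `[θ₁, ∞)`, increasing slope near `0`, and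
for all `p, q` with `LB C p q` it satisfies `BLoc` at all `θ ∈ (0, π/2)`, moreover `0 < p (τ (π/2)) (π/2)`.

Proof. Take `σ₁, m₁, σ₂, m₂` from `arcs_exist` and let `τ θ = σ₁ 0` for `θ ≤ 0`, `τ = σ₁` on
`[0, v_c/2]`, `τ = σ₂` on `[v_c/2, θ₁]` and `τ = t₁` on `[θ₁, ∞)`. The values agree at the junctions:
`σ₁(v_c/2) = v_c/2 = σ₂(v_c/2)` (parameter `v = v_c`, `u1 = u2 = 0`), `σ₂(θ₁) = t₁` (parameter `1/5`);
`σ₁ 0 = t₀` (parameter `t₀`, `u1 C t₀ = t₀`). Slopes: `|m| < 1` on each piece, so `τ` is 1-Lipschitz.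
On the pieces `t = (v + u)/2 ≤ v ≤ 1/5` and `t > 0` (`u1 ≥ 0`; `u2 ≥ -(4/9) v`).
Let `LB C p q` hold and `θ ∈ (0, π/2)`.
 * `θ < v_c/2`: by `param1`, `θ = (v - u1 C v)/2`, `v ∈ (t₀, v_c)`; `σ₁ = σ₂' = σ₁` in `BLoc`; `HP`
   follows from `HP_of_y` and `piece1` (`-1/(2u') = 100 C² t₀/v³`, `u''/(2u'²) = -300 C² t₀/v⁴`).
 * `θ = v_c/2`: left arc `σ₁`, right arc `σ₂` (`piece1` and `piece2` at `v = v_c`),
   `m₁ ≤ m₂` because `m = (2y - 1)/(2y + 1)` is increasing in `y` and `slope_jump`.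
 * `v_c/2 < θ < θ₁`: `param2`, `piece2`, `HP_of_y` (`-1/(2u') = κ/v^{5/4}`,
   `u''/(2u'²) = -(5/4) κ/v^{9/4}`).
 * `θ = θ₁`: left arc `σ₂` with `v = 1/5`: there `u' = -1` (`kap_val`), slope `0`; right arc the constant
   `t₁` with `m = 0`, `m' = 0`; `HP` for it is `0 < p t₁ θ₁`, `p_pos` with `flat_facts`.
 * `θ > θ₁`: both arcs are the constant `t₁`, `p_pos`, `flat_facts`
   (`t₁ < θ`, `t₁ + θ < π`, `t₁ < π/2`).
Choose `δ` so small that `[θ - δ, θ + δ]` meets only the adjacent pieces and stays in the range of the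
parametrisations (for `HasDerivAt` one needs the points near `v_c/2` and `θ₁` to be parametrised by
some `v > 0` also beyond the piece: the parametrisations `v ↦ (v - u(v))/2` are defined, continuous and
strictly increasing for all `v > 0`).
`end0`: for `v ∈ (t₀, 2 t₀)` the slope of `σ₁` is positive (`-u' = v³/(200 C² t₀) < 1`); these `v` give all
small `θ > 0`, and there `τ = σ₁` on a neighbourhood, so `HasDerivAt τ`. -/
theorem half_barrier {C : ℝ} (hC : 1 ≤ C) : ∃ τ : ℝ → ℝ,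
    (∀ x y, |τ x - τ y| ≤ |x - y|) ∧ (∀ x ∈ Icc 0 (π / 2), 0 < τ x ∧ τ x ≤ 1 / 5) ∧
    (∀ x, th1 C ≤ x → τ x = τ (π / 2)) ∧
    (∃ δ > 0, ∀ θ ∈ Ioo 0 δ, ∃ μ > 0, HasDerivAt τ μ θ) ∧
    ∀ p q : ℝ → ℝ → ℝ, LB C p q →
      (∀ θ ∈ Ioo 0 (π / 2), BLoc p q τ θ) ∧ 0 < p (τ (π / 2)) (π / 2) := by
  obtain ⟨σ₁, m₁, σ₂, m₂, hA1, hA2⟩ := arcs_exist hC
  obtain ⟨-, hvk, htz, htz1, hvc, hvc4, hvcvk, -, -, h28⟩ := consts hC
  obtain ⟨hu1t, hu1c, -⟩ := u1_facts hC
  obtain ⟨hu2c, -⟩ := u2_facts hC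
  obtain ⟨hth, hth5, htt, htt7, hth18, hflat⟩ := flat_facts hC
  have hpi := Real.pi_gt_three
  have hC0 : 0 < C := by linarith
  have hD : 0 < 800 * C ^ 2 * tz C := by positivity
  -- the arcs at all `x ≥ 0`
  have d1 : ∀ x, 0 ≤ x → HasDerivAt σ₁ (m₁ x) x ∧ |m₁ x| < 1 := by
    intro x hx
    obtain ⟨v, hv, rfl⟩ := BaG_par1 hC hx
    exact ⟨(hA1 v hv).2.1, (hA1 v hv).2.2.2.1⟩
  have d2 : ∀ x, 0 ≤ x → HasDerivAt σ₂ (m₂ x) x ∧ |m₂ x| < 1 := by
    intro x hx
    obtain ⟨v, hv, rfl⟩ := BaG_par2 hC hx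
    exact ⟨(hA2 v hv).2.1, (hA2 v hv).2.2.2.1⟩
  -- the junctions
  have s0 : σ₁ 0 = tz C := by
    have h := (hA1 (tz C) htz).1
    rw [hu1t, sub_self, zero_div] at h
    rw [h]
    ring
  have s1 : σ₁ (vc C / 2) = vc C / 2 := by
    have h := (hA1 (vc C) hvc).1
    rw [hu1c, sub_zero, add_zero] at h
    exact h
  have s2 : σ₂ (vc C / 2) = vc C / 2 := by
    have h := (hA2 (vc C) hvc).1
    rw [hu2c, sub_zero, add_zero] at h
    exact h
  have s3 : σ₂ (th1 C) = tt1 C := (hA2 (1 / 5) (by norm_num)).1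
  have hvc0 : 0 ≤ vc C / 2 := by linarith
  set τ : ℝ → ℝ := fun x =>
    σ₁ (max 0 (min x (vc C / 2))) + σ₂ (max (vc C / 2) (min x (th1 C))) - vc C / 2 with hτ
  have t0 : ∀ x, 0 ≤ x → x ≤ vc C / 2 → τ x = σ₁ x := by
    intro x h0 h1
    have e1 : max 0 (min x (vc C / 2)) = x := by rw [min_eq_left h1, max_eq_right h0]
    have e2 : max (vc C / 2) (min x (th1 C)) = vc C / 2 := by
      rw [min_eq_left (h1.trans hth.le), max_eq_left h1]
    simp only [hτ, e1, e2, s2]
    ring
  have t1 : ∀ x, vc C / 2 ≤ x → x ≤ th1 C → τ x = σ₂ x := by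
    intro x h0 h1
    have e1 : max 0 (min x (vc C / 2)) = vc C / 2 := by rw [min_eq_right h0, max_eq_right hvc0]
    have e2 : max (vc C / 2) (min x (th1 C)) = x := by rw [min_eq_left h1, max_eq_right h0]
    simp only [hτ, e1, e2, s1]
    ring
  have t2 : ∀ x, th1 C ≤ x → τ x = tt1 C := by
    intro x h0
    have e1 : max 0 (min x (vc C / 2)) = vc C / 2 := by
      rw [min_eq_right (hth.le.trans h0), max_eq_right hvc0]
    have e2 : max (vc C / 2) (min x (th1 C)) = th1 C := by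
      rw [min_eq_right h0, max_eq_right hth.le]
    simp only [hτ, e1, e2, s1, s3]
    ring
  have hpos : ∀ {p q : ℝ → ℝ → ℝ}, LB C p q → ∀ θ, th1 C ≤ θ → θ ≤ π / 2 → 0 < p (tt1 C) θ := by
    intro p q H θ h1 h2
    exact p_pos H htt (by linarith) (by linarith) (by linarith) (hflat θ ⟨h1, h2⟩)
  have hthpi : th1 C ≤ π / 2 := by linarith
  refine ⟨τ, ?_, ?_, ?_, ?_, ?_⟩
  · -- Lipschitz
    have key : ∀ x y, y ≤ x → |τ x - τ y| ≤ |x - y| := by
      intro x y hxy
      have h1 := BaG_lip d1 (le_max_left 0 (min x (vc C / 2))) (le_max_left 0 (min y (vc C / 2)))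
      have h2 := BaG_lip d2 (hvc0.trans (le_max_left (vc C / 2) (min x (th1 C))))
        (hvc0.trans (le_max_left (vc C / 2) (min y (th1 C))))
      have h3 := BaG_clamp hvc0 hth.le hxy
      have e : τ x - τ y = (σ₁ (max 0 (min x (vc C / 2))) - σ₁ (max 0 (min y (vc C / 2)))) +
          (σ₂ (max (vc C / 2) (min x (th1 C))) - σ₂ (max (vc C / 2) (min y (th1 C)))) := by
        simp only [hτ]
        ring
      rw [e, abs_of_nonneg (show 0 ≤ x - y by linarith)]
      exact (abs_add_le _ _).trans ((add_le_add h1 h2).trans h3)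
    intro x y
    rcases le_total y x with h | h
    · exact key x y h
    · rw [abs_sub_comm, abs_sub_comm x y]
      exact key y x h
  · -- the range
    intro x hx
    rcases le_total x (vc C / 2) with h1 | h1
    · rw [t0 x hx.1 h1]
      rcases hx.1.eq_or_lt with h0 | h0
      · rw [← h0, s0]
        exact ⟨htz, by linarith⟩
      · obtain ⟨v, hv1, hv2, rfl⟩ := param1 hC h0 h1
        have hv : 0 < v := htz.trans hv1
        rw [(hA1 v hv).1]
        have hu : 0 ≤ u1 C v := by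
          unfold u1
          refine div_nonneg ?_ hD.le
          have := pow_le_pow_left₀ hv.le hv2 4
          linarith
        have hu' : u1 C v ≤ tz C := by
          rw [← hu1t]
          unfold u1
          refine div_le_div_of_nonneg_right ?_ hD.le
          have := pow_le_pow_left₀ htz.le hv1.le 4
          linarith
        constructor
        · linarith
        · linarith
    · rcases le_total x (th1 C) with h2 | h2
      · rw [t1 x h1 h2]
        obtain ⟨v, hv1, hv2, rfl⟩ := param2 hC h1 h2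
        have hv : 0 < v := hvc.trans_le hv1
        rw [(hA2 v hv).1]
        obtain ⟨a1, a2, -⟩ := u2_range hC hv1 hv2
        constructor
        · linarith
        · linarith
      · rw [t2 x h2]
        exact ⟨htt, by linarith⟩
  · intro x hx
    rw [t2 x hx, t2 _ hthpi]
  · -- the slope near `0`
    set δ := (2 * tz C - u1 C (2 * tz C)) / 2 with hδ
    have h2tz : 0 < 2 * tz C := by linarith
    have hmono : ∀ v w, 0 < v → v ≤ w → (v - u1 C v) / 2 ≤ (w - u1 C w) / 2 := by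
      intro v w hv hvw
      have h1 : u1 C w ≤ u1 C v := by
        unfold u1
        refine div_le_div_of_nonneg_right ?_ hD.le
        have := pow_le_pow_left₀ hv.le hvw 4
        linarith
      linarith
    have hδ0 : 0 < δ := by
      have h1 : u1 C (2 * tz C) ≤ tz C := by
        have h2 : u1 C (2 * tz C) ≤ u1 C (tz C) := by
          unfold u1
          refine div_le_div_of_nonneg_right ?_ hD.le
          have := pow_le_pow_left₀ htz.le (show tz C ≤ 2 * tz C by linarith) 4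
          linarith
        rwa [hu1t] at h2
      rw [hδ]
      linarith
    have hδc : δ ≤ vc C / 2 := by
      have h1 := hmono (2 * tz C) (vc C) h2tz (by linarith)
      rw [hu1c, sub_zero] at h1
      exact h1
    refine ⟨δ, hδ0, fun θ hθ => ?_⟩
    obtain ⟨v, hv1, hv2, hvθ⟩ := param1 hC hθ.1 (hθ.2.le.trans hδc)
    have hv : 0 < v := htz.trans hv1
    have hv3 : v < 2 * tz C := by
      by_contra hle
      have h1 := hmono (2 * tz C) v h2tz (not_lt.1 hle)
      rw [← hvθ, ← hδ] at h1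
      exact absurd hθ.2 (not_lt.2 h1)
    obtain ⟨-, b1, b2, -⟩ := hA1 v hv
    rw [← hvθ] at b1 b2
    refine ⟨m₁ θ, ?_, ?_⟩
    · rw [b2]
      have hD' : 0 < 200 * C ^ 2 * tz C := by positivity
      have h1 : v ^ 3 / (200 * C ^ 2 * tz C) < 1 := by
        rw [div_lt_one hD']
        have h3 : v ^ 3 ≤ (2 * tz C) ^ 3 := pow_le_pow_left₀ hv.le hv3.le 3
        have h4 : 1 ≤ C ^ 2 := one_le_pow₀ hC
        have h5 : tz C ^ 2 ≤ 1 := by nlinarith
        have h6 : (2 * tz C) ^ 3 = 8 * tz C ^ 2 * tz C := by ring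
        have h7 : 8 * tz C ^ 2 * tz C < 200 * C ^ 2 * tz C := by
          refine mul_lt_mul_of_pos_right ?_ htz
          nlinarith
        linarith
      have h2 : 0 < v ^ 3 / (200 * C ^ 2 * tz C) := by positivity
      have h3 : -v ^ 3 / (200 * C ^ 2 * tz C) = -(v ^ 3 / (200 * C ^ 2 * tz C)) := by ring
      rw [h3]
      exact div_pos (by linarith) (by linarith)
    · refine b1.congr_of_eventuallyEq ?_
      filter_upwards [Ioo_mem_nhds hθ.1 (hθ.2.trans_le hδc)] with x hx
      exact t0 x hx.1.le hx.2.le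
  · intro p q H
    refine ⟨fun θ hθ => ?_, ?_⟩
    · rcases lt_trichotomy θ (vc C / 2) with hlt | heq | hgt
      · -- first piece
        obtain ⟨v, hv1, hv2, hvθ⟩ := param1 hC hθ.1 hlt.le
        have hv : 0 < v := htz.trans hv1
        obtain ⟨b0, b1, b2, b3, b4⟩ := hA1 v hv
        have hHP := BaG_HP1 hC H hv1 hv2
        rw [← b2, ← b0, ← hvθ] at hHP
        rw [← hvθ] at b4
        have hHP' : HP p q (τ θ) θ (m₁ θ)
            (4 * (-3 * v ^ 2 / (200 * C ^ 2 * tz C)) / (1 - -v ^ 3 / (200 * C ^ 2 * tz C)) ^ 3) := by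
          rw [t0 θ hθ.1.le hlt.le]
          exact hHP
        have hm : 0 < min θ (vc C / 2 - θ) := lt_min hθ.1 (by linarith)
        have hm1 : min θ (vc C / 2 - θ) ≤ θ := min_le_left _ _
        have hm2 : min θ (vc C / 2 - θ) ≤ vc C / 2 - θ := min_le_right _ _
        refine ⟨min θ (vc C / 2 - θ) / 2, by linarith, σ₁, m₁, σ₁, m₁, _, _, ?_, ?_, ?_, b4, b4,
          le_rfl, hHP', hHP'⟩
        · intro x hx
          exact t0 x (by linarith [hx.1]) (by linarith [hx.2])
        · intro x hx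
          exact t0 x (by linarith [hx.1]) (by linarith [hx.2])
        · intro x hx
          have hx0 : 0 ≤ x := by linarith [hx.1]
          exact ⟨(d1 x hx0).1, (d1 x hx0).2, (d1 x hx0).1, (d1 x hx0).2⟩
      · -- the first corner
        obtain ⟨b0, b1, b2, b3, b4⟩ := hA1 (vc C) hvc
        obtain ⟨c0, c1, c2, c3, c4⟩ := hA2 (vc C) hvc
        have hHP1 := BaG_HP1 hC H (show tz C < vc C by linarith) le_rfl
        have hHP2 := BaG_HP2 hC H le_rfl (show vc C ≤ 1 / 5 by linarith)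
        rw [← b2] at hHP1
        rw [← c2] at hHP2
        rw [hu1c, sub_zero, add_zero] at hHP1
        rw [hu2c, sub_zero, add_zero] at hHP2
        rw [hu1c, sub_zero] at b2 b4
        rw [hu2c, sub_zero] at c2 c4
        have ht : τ (vc C / 2) = vc C / 2 := by rw [t0 _ hvc0 le_rfl, s1]
        have hm : 0 < min (vc C / 2) (th1 C - vc C / 2) := lt_min (by linarith) (by linarith)
        have hm1 : min (vc C / 2) (th1 C - vc C / 2) ≤ vc C / 2 := min_le_left _ _
        have hm2 : min (vc C / 2) (th1 C - vc C / 2) ≤ th1 C - vc C / 2 := min_le_right _ _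
        rw [heq]
        refine ⟨min (vc C / 2) (th1 C - vc C / 2) / 2, by linarith, σ₁, m₁, σ₂, m₂, _, _, ?_, ?_, ?_,
          b4, c4, ?_, ?_, ?_⟩
        · intro x hx
          exact t0 x (by linarith [hx.1]) hx.2
        · intro x hx
          exact t1 x hx.1 (by linarith [hx.2])
        · intro x hx
          have hx0 : 0 ≤ x := by linarith [hx.1]
          exact ⟨(d1 x hx0).1, (d1 x hx0).2, (d2 x hx0).1, (d2 x hx0).2⟩
        · rw [b2, c2]
          have hk : 0 < kap := by linarith [kap_bounds.1]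
          have hw : 0 < vc C ^ (5 / 4 : ℝ) := Real.rpow_pos_of_pos hvc _
          have hj := slope_jump hC
          have hD' : 0 < 200 * C ^ 2 * tz C := by positivity
          have hj' : 1 / (2 * kap) * vc C ^ (5 / 4 : ℝ) ≤ vc C ^ 3 / (200 * C ^ 2 * tz C) := by
            rw [div_le_div_iff₀ (by positivity) hw] at hj
            rw [le_div_iff₀ hD', div_mul_eq_mul_div, one_mul, div_mul_eq_mul_div,
              div_le_iff₀ (by positivity)]
            nlinarith [hj]
          have e1 : -vc C ^ 3 / (200 * C ^ 2 * tz C) = -(vc C ^ 3 / (200 * C ^ 2 * tz C)) := by ring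
          have h1 : 0 < 1 / (2 * kap) * vc C ^ (5 / 4 : ℝ) := by positivity
          have h2 : 0 < vc C ^ 3 / (200 * C ^ 2 * tz C) := by positivity
          rw [e1, neg_mul, div_le_div_iff₀ (by linarith) (by linarith)]
          nlinarith
        · rw [ht]
          exact hHP1
        · rw [ht]
          exact hHP2
      · rcases lt_trichotomy θ (th1 C) with hlt' | heq' | hgt'
        · -- second piece
          obtain ⟨v, hv1, hv2, hvθ⟩ := param2 hC hgt.le hlt'.le
          have hv : 0 < v := hvc.trans_le hv1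
          obtain ⟨b0, b1, b2, b3, b4⟩ := hA2 v hv
          have hHP := BaG_HP2 hC H hv1 hv2
          rw [← b2, ← b0, ← hvθ] at hHP
          rw [← hvθ] at b4
          have hHP' : HP p q (τ θ) θ (m₂ θ) (4 * (-(5 / (8 * kap)) * v ^ (1 / 4 : ℝ)) /
              (1 - -(1 / (2 * kap)) * v ^ (5 / 4 : ℝ)) ^ 3) := by
            rw [t1 θ hgt.le hlt'.le]
            exact hHP
          have hm : 0 < min (θ - vc C / 2) (th1 C - θ) := lt_min (by linarith) (by linarith)
          have hm1 : min (θ - vc C / 2) (th1 C - θ) ≤ θ - vc C / 2 := min_le_left _ _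
          have hm2 : min (θ - vc C / 2) (th1 C - θ) ≤ th1 C - θ := min_le_right _ _
          refine ⟨min (θ - vc C / 2) (th1 C - θ) / 2, by linarith, σ₂, m₂, σ₂, m₂, _, _, ?_, ?_, ?_,
            b4, b4, le_rfl, hHP', hHP'⟩
          · intro x hx
            exact t1 x (by linarith [hx.1]) (by linarith [hx.2])
          · intro x hx
            exact t1 x (by linarith [hx.1]) (by linarith [hx.2])
          · intro x hx
            have hx0 : 0 ≤ x := by linarith [hx.1]
            exact ⟨(d2 x hx0).1, (d2 x hx0).2, (d2 x hx0).1, (d2 x hx0).2⟩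
        · -- the second corner
          have h15 : (0 : ℝ) < 1 / 5 := by norm_num
          obtain ⟨b0, b1, b2, b3, b4⟩ := hA2 (1 / 5) h15
          have hHP := BaG_HP2 hC H (show vc C ≤ 1 / 5 by linarith) le_rfl
          rw [← b2] at hHP
          change HasDerivAt m₂ _ (th1 C) at b4
          change m₂ (th1 C) = _ at b2
          change HP p q (tt1 C) (th1 C) (m₂ (th1 C)) _ at hHP
          have ht : τ (th1 C) = tt1 C := t2 _ le_rfl
          have hm : 0 < th1 C - vc C / 2 := by linarith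
          rw [heq']
          refine ⟨(th1 C - vc C / 2) / 2, by linarith, σ₂, m₂, fun _ => tt1 C, fun _ => 0, _, 0, ?_,
            ?_, ?_, b4, hasDerivAt_const _ _, ?_, ?_, ?_⟩
          · intro x hx
            exact t1 x (by linarith [hx.1]) hx.2
          · intro x hx
            exact t2 x hx.1
          · intro x hx
            have hx0 : 0 ≤ x := by linarith [hx.1]
            exact ⟨(d2 x hx0).1, (d2 x hx0).2, hasDerivAt_const _ _, by norm_num⟩
          · rw [b2]
            have hk : 0 < kap := by linarith [kap_bounds.1]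
            have hw : 0 < (1 / 5 : ℝ) ^ (5 / 4 : ℝ) := Real.rpow_pos_of_pos h15 _
            have hkv := kap_val
            rw [div_eq_div_iff hw.ne' (by norm_num)] at hkv
            have e1 : -(1 / (2 * kap)) * (1 / 5 : ℝ) ^ (5 / 4 : ℝ) = -1 := by
              have h3 : (1 / 5 : ℝ) ^ (5 / 4 : ℝ) = 2 * kap := by linarith
              rw [h3]
              field_simp
            rw [e1]
            norm_num
          · rw [ht]
            exact hHP
          · rw [ht]
            unfold HP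
            have := hpos H (th1 C) le_rfl hthpi
            simpa using this
        · -- the flat piece
          have ht : τ θ = tt1 C := t2 _ hgt'.le
          refine ⟨(θ - th1 C) / 2, by linarith, fun _ => tt1 C, fun _ => 0, fun _ => tt1 C,
            fun _ => 0, 0, 0, ?_, ?_, ?_, hasDerivAt_const _ _, hasDerivAt_const _ _, le_rfl, ?_, ?_⟩
          · intro x hx
            exact t2 x (by linarith [hx.1])
          · intro x hx
            exact t2 x (by linarith [hx.1])
          · intro x hx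
            exact ⟨hasDerivAt_const _ _, by norm_num, hasDerivAt_const _ _, by norm_num⟩
          · rw [ht]
            unfold HP
            have := hpos H θ hgt'.le hθ.2.le
            simpa using this
          · rw [ht]
            unfold HP
            have := hpos H θ hgt'.le hθ.2.le
            simpa using this
    · rw [t2 _ hthpi]
      exact hpos H _ hthpi le_rfl

end GS
end

section

open Real Set

namespace GS

/-- `BLoc` is a local property. -/
theorem BLoc.congr {p q : ℝ → ℝ → ℝ} {τ τ' : ℝ → ℝ} {θ ε : ℝ} (hε : 0 < ε)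
    (h : ∀ x ∈ Icc (θ - ε) (θ + ε), τ' x = τ x) (H : BLoc p q τ θ) : BLoc p q τ' θ := by
  obtain ⟨δ, hδ, σ₁, m₁, σ₂, m₂, m₁', m₂', h1, h2, h3, h4, h5, h6, h7, h8⟩ := H
  have hθ : τ' θ = τ θ := h θ ⟨by linarith, by linarith⟩
  have ha := min_le_left δ ε
  have hb := min_le_right δ ε
  refine ⟨min δ ε, lt_min hδ hε, σ₁, m₁, σ₂, m₂, m₁', m₂', fun x hx => ?_, fun x hx => ?_,
    fun x hx => h3 x ⟨by linarith [hx.1], by linarith [hx.2]⟩, h4, h5, h6, ?_, ?_⟩
  · rw [h x ⟨by linarith [hx.1], by linarith [hx.2]⟩]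
    exact h1 x ⟨by linarith [hx.1], hx.2⟩
  · rw [h x ⟨by linarith [hx.1], by linarith [hx.2]⟩]
    exact h2 x ⟨hx.1, by linarith [hx.2]⟩
  · rw [hθ]
    exact h7
  · rw [hθ]
    exact h8

/-- `BLoc` and the reflection `θ → π - θ`. Proof: `σ₁'(x) = σ₂(π - x)`, `m₁'(x) = -m₂(π - x)`,
derivative of `m₁'` at `π - θ` is `m₂'`; `(-m)² = m²`, `(-m)(-q) = m q`. -/
theorem BLoc.refl {p q : ℝ → ℝ → ℝ} {τ : ℝ → ℝ} {θ : ℝ} (H : BLoc p q τ θ) :
    BLoc (fun t x => p t (π - x)) (fun t x => -q t (π - x)) (fun x => τ (π - x)) (π - θ) := by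
  obtain ⟨δ, hδ, σ₁, m₁, σ₂, m₂, m₁', m₂', h1, h2, h3, h4, h5, h6, h7, h8⟩ := H
  have hr : ∀ x : ℝ, HasDerivAt (fun x : ℝ => π - x) (-1) x := fun x =>
    (hasDerivAt_id x).const_sub π
  have hc : ∀ (f : ℝ → ℝ) (f' x : ℝ), HasDerivAt f f' (π - x) →
      HasDerivAt (fun x => f (π - x)) (-f') x := fun f f' x hf => by
    have h := hf.comp x (hr x)
    rw [mul_neg_one] at h
    exact h
  have hθ : π - (π - θ) = θ := sub_sub_cancel π θ
  refine ⟨δ, hδ, fun x => σ₂ (π - x), fun x => -m₂ (π - x), fun x => σ₁ (π - x),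
    fun x => -m₁ (π - x), m₂', m₁', fun x hx => ?_, fun x hx => ?_, fun x hx => ?_, ?_, ?_, ?_,
    ?_, ?_⟩
  · exact h2 (π - x) ⟨by linarith [hx.2], by linarith [hx.1]⟩
  · exact h1 (π - x) ⟨by linarith [hx.2], by linarith [hx.1]⟩
  · obtain ⟨g1, g2, g3, g4⟩ := h3 (π - x) ⟨by linarith [hx.2], by linarith [hx.1]⟩
    refine ⟨hc _ _ _ g3, ?_, hc _ _ _ g1, ?_⟩
    · change |-m₂ (π - x)| < 1
      rw [abs_neg]
      exact g4
    · change |-m₁ (π - x)| < 1
      rw [abs_neg]
      exact g2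
  · have h := (hc m₂ m₂' (π - θ) (by rw [hθ]; exact h5)).neg
    rw [neg_neg] at h
    exact h
  · have h := (hc m₁ m₁' (π - θ) (by rw [hθ]; exact h4)).neg
    rw [neg_neg] at h
    exact h
  · change -m₂ (π - (π - θ)) ≤ -m₁ (π - (π - θ))
    rw [hθ]
    exact neg_le_neg h6
  · unfold HP at h8 ⊢
    simp only [hθ, neg_mul_neg, neg_sq]
    exact h8
  · unfold HP at h7 ⊢
    simp only [hθ, neg_mul_neg, neg_sq]
    exact h7

/-- TASK BaH. The barrier on `[0, π]`, the same function for all `p, q`: if `LB C` holds for `p, q` and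
for the reflected pair, then `τ_C` is a lower barrier for `p, q`, it is symmetric and `τ_C ≤ 1/5`.

Proof: `τ(x) = τ_half(x)` for `x ≤ π/2` and `τ_half(π - x)` for `x ≥ π/2` (so `τ` is constant on
`[θ₁, π - θ₁]`). Lipschitz: for `x ≤ π/2 ≤ y` insert `π/2`. `BLoc` at `θ < π/2`: `BLoc.congr`; at
`θ > π/2`: `BLoc` of the half barrier at `π - θ` for the reflected pair, `BLoc.refl`
(`π - (π - θ) = θ`, `-(-q) = q`), `BLoc.congr`; at `π/2`: both arcs constant, `m = m' = 0`, `HP` is
`0 < p (τ (π/2)) (π/2)`. `end1` by reflection of `end0`. -/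
theorem barrier {C : ℝ} (hC : 1 ≤ C) : ∃ τ : ℝ → ℝ,
    (∀ x ∈ Icc 0 π, τ x ≤ 1 / 5) ∧
    ∀ p q : ℝ → ℝ → ℝ, LB C p q → LB C (fun t θ => p t (π - θ)) (fun t θ => -q t (π - θ)) →
      LBar p q τ := by
  obtain ⟨τh, hlip, hrng, hconst, ⟨δ₀, hδ₀, hend⟩, hb⟩ := half_barrier hC
  obtain ⟨-, hth, -, -, -, -⟩ := flat_facts hC
  have hpi := Real.pi_gt_three
  let τ : ℝ → ℝ := fun x => if x ≤ π / 2 then τh x else τh (π - x)
  have t1 : ∀ x, x ≤ π / 2 → τ x = τh x := fun x hx => if_pos hx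
  have t2 : ∀ x, π / 2 ≤ x → τ x = τh (π - x) := fun x hx => by
    rcases hx.eq_or_lt with h1 | h1
    · rw [t1 x h1.symm.le, ← h1]
      congr 1
      ring
    · exact if_neg (not_le.2 h1)
  have hr : ∀ x ∈ Icc 0 π, 0 < τ x ∧ τ x ≤ 1 / 5 := by
    intro x hx
    rcases le_total x (π / 2) with h1 | h1
    · rw [t1 x h1]
      exact hrng x ⟨hx.1, h1⟩
    · rw [t2 x h1]
      exact hrng _ ⟨by linarith [hx.2], by linarith⟩
  refine ⟨τ, fun x hx => (hr x hx).2, fun p q hL hL' => ?_⟩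
  refine ⟨fun x _ y _ => ?_, fun x hx => ⟨(hr x hx).1, by linarith [(hr x hx).2]⟩,
    fun θ hθ => ?_, ?_, ?_⟩
  · rcases le_total x (π / 2) with h1 | h1
    · rcases le_total y (π / 2) with h2 | h2
      · rw [t1 x h1, t1 y h2]
        exact hlip x y
      · rw [t1 x h1, t2 y h2]
        refine (hlip x (π - y)).trans ?_
        rw [abs_of_nonpos (show x - y ≤ 0 by linarith), abs_le]
        constructor <;> linarith
    · rcases le_total y (π / 2) with h2 | h2
      · rw [t2 x h1, t1 y h2]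
        refine (hlip (π - x) y).trans ?_
        rw [abs_of_nonneg (show 0 ≤ x - y by linarith), abs_le]
        constructor <;> linarith
      · rw [t2 x h1, t2 y h2]
        refine (hlip (π - x) (π - y)).trans ?_
        rw [show π - x - (π - y) = -(x - y) by ring, abs_neg]
  · rcases lt_trichotomy θ (π / 2) with h1 | h1 | h1
    · exact BLoc.congr (show 0 < π / 2 - θ by linarith) (fun x hx => t1 x (by linarith [hx.2]))
        ((hb p q hL).1 θ ⟨hθ.1, h1⟩)
    · subst h1
      have hp := (hb p q hL).2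
      have hz : ∀ x ∈ Icc (π / 2 - (π / 2 - th1 C)) (π / 2 + (π / 2 - th1 C)),
          τ x = τh (π / 2) := by
        intro x hx
        rcases le_total x (π / 2) with h2 | h2
        · rw [t1 x h2]
          exact hconst x (by linarith [hx.1])
        · rw [t2 x h2]
          exact hconst _ (by linarith [hx.2])
      have hd : 0 < π / 2 - th1 C := by linarith
      refine ⟨π / 2 - th1 C, hd, fun _ => τh (π / 2), fun _ => 0, fun _ => τh (π / 2), fun _ => 0,
        0, 0, fun x hx => hz x ⟨hx.1, by linarith [hx.2]⟩, fun x hx => hz x ⟨by linarith [hx.1],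
        hx.2⟩, fun x _ => ⟨hasDerivAt_const _ _, by norm_num, hasDerivAt_const _ _, by norm_num⟩,
        hasDerivAt_const _ _, hasDerivAt_const _ _, le_refl _, ?_, ?_⟩ <;>
      · unfold HP
        rw [hz (π / 2) ⟨by linarith, by linarith⟩]
        simpa using hp
    · have h2 := ((hb _ _ hL').1 (π - θ) ⟨by linarith [hθ.2], by linarith⟩).refl
      simp only [sub_sub_cancel, neg_neg] at h2
      exact BLoc.congr (show 0 < θ - π / 2 by linarith) (fun x hx => t2 x (by linarith [hx.1])) h2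
  · refine ⟨min δ₀ (π / 2), lt_min hδ₀ (by linarith), fun θ hθ => ?_⟩
    have h1 := hθ.2.trans_le (min_le_left _ _)
    have h2 := hθ.2.trans_le (min_le_right _ _)
    obtain ⟨μ, hμ, hd⟩ := hend θ ⟨hθ.1, h1⟩
    refine ⟨μ, hμ, hd.congr_of_eventuallyEq ?_⟩
    filter_upwards [gt_mem_nhds h2] with x hx
    exact t1 x hx.le
  · refine ⟨min δ₀ (π / 2), lt_min hδ₀ (by linarith), fun θ hθ => ?_⟩
    have h0 : π - θ < min δ₀ (π / 2) := by linarith [hθ.1]
    have h1 := h0.trans_le (min_le_left _ _)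
    have h2 := h0.trans_le (min_le_right _ _)
    obtain ⟨μ, hμ, hd⟩ := hend (π - θ) ⟨by linarith [hθ.2], h1⟩
    have h3 : HasDerivAt (fun x => τh (π - x)) (-μ) θ := by
      have h := hd.comp θ ((hasDerivAt_id θ).const_sub π)
      rw [mul_neg_one] at h
      exact h
    refine ⟨-μ, by linarith, h3.congr_of_eventuallyEq ?_⟩
    filter_upwards [lt_mem_nhds (show π / 2 < θ by linarith)] with x hx
    exact t2 x hx.le

end GS
end
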