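import Pool.Agent.Lib.MP_898b37_mp.GS.OdC
import Pool.Agent.Lib.MP_898b37_mp.GS.CalcA
import Pool.Agent.Lib.MP_898b37_mp.GS.CalcB
import Pool.Agent.Lib.MP_898b37_mp.GS.CalcC
import Pool.Agent.Lib.MP_898b37_mp.GS.Dat
import Pool.Agent.Lib.MP_898b37_mp.Mg.G001

section

open Real Set

namespace GS

private theorem McB_alg (F w N Ft Fh : ℝ) (hF : 0 < F) (hN : 0 < N) (h : N ^ 2 = F ^ 2 + w ^ 2) :
    F * (((-Ft * F / N) * N - w * ((F * (w / N * Ft + 1 * Fh) + w * (-Ft * F / N)) / N)) / N ^ 2)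
      / (1 - (w / N) ^ 2) + Ft + (w / N) * Fh = 0 := by
  have h1 : 1 - (w / N) ^ 2 = F ^ 2 / N ^ 2 := by
    field_simp
    linear_combination h
  rw [h1]
  field_simp
  ring

/-- TASK McB. A solution `(τ, w)` of `τ' = w/√(F² + w²)`, `w' = -F_t F/√(F² + w²)` satisfies the equation
of `meanCurv_graph` with `m = w/√(F² + w²)`.
Proof: `|m| < 1` because `F > 0`. `m` is differentiable, `F(θ) := FF f (τ θ) θ` has the derivative
`F' = F_t m + F_θ` (`C1.curve`), `m' = (w' F² - w F F')/(F² + w²)^{3/2}`, `1 - m² = F²/(F² + w²)`, so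
`F m'/(1 - m²) = (w' F - w F')/√(F²+w²) = -F_t F²/(F²+w²) - m (F_t m + F_θ) = -F_t - m F_θ`.
(`dt (FF f) t θ = dt f t (cos θ) sin θ`.) -/
theorem eq_of_sol {f : ℝ → ℝ → ℝ} (sm : Sm univ f) (pos : ∀ t ∈ Ioo 0 π, ∀ ζ, 0 < f t ζ)
    {τ w : ℝ → ℝ} (hr : ∀ θ ∈ Ioo 0 π, τ θ ∈ Ioo 0 π)
    (h : ∀ θ ∈ Ioo 0 π, HasDerivAt τ (w θ / √(FF f (τ θ) θ ^ 2 + w θ ^ 2)) θ ∧
      HasDerivAt w (-(dt f (τ θ) (cos θ) * sin θ) * FF f (τ θ) θ /
        √(FF f (τ θ) θ ^ 2 + w θ ^ 2)) θ) :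
    ∀ θ ∈ Ioo 0 π, |w θ / √(FF f (τ θ) θ ^ 2 + w θ ^ 2)| < 1 ∧
      ∃ m', HasDerivAt (fun θ => w θ / √(FF f (τ θ) θ ^ 2 + w θ ^ 2)) m' θ ∧
        FF f (τ θ) θ * m' / (1 - (w θ / √(FF f (τ θ) θ ^ 2 + w θ ^ 2)) ^ 2)
          + dt (FF f) (τ θ) θ
          + (w θ / √(FF f (τ θ) θ ^ 2 + w θ ^ 2)) * dh (FF f) (τ θ) θ = 0 := by
  intro θ hθ
  obtain ⟨hτ, hw⟩ := h θ hθ
  have hFpos : 0 < FF f (τ θ) θ :=
    mul_pos (pos _ (hr θ hθ) _) (sin_pos_of_pos_of_lt_pi hθ.1 hθ.2)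
  have hS : 0 < FF f (τ θ) θ ^ 2 + w θ ^ 2 := by positivity
  have hN : 0 < √(FF f (τ θ) θ ^ 2 + w θ ^ 2) := Real.sqrt_pos.2 hS
  have hN2 : √(FF f (τ θ) θ ^ 2 + w θ ^ 2) ^ 2 = FF f (τ θ) θ ^ 2 + w θ ^ 2 :=
    Real.sq_sqrt hS.le
  have hdt : dt (FF f) (τ θ) θ = dt f (τ θ) (cos θ) * sin θ := by
    unfold dt FF
    rw [deriv_mul_const_field]
  have hC : C1 univ (FF f) := (Sm.mul (Sm.cos sm) (Sm.snd univ Real.contDiff_sin)).c1
  have hF' : HasDerivAt (fun s => FF f (τ s) s)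
      (w θ / √(FF f (τ θ) θ ^ 2 + w θ ^ 2) * dt (FF f) (τ θ) θ + 1 * dh (FF f) (τ θ) θ) θ :=
    C1.curve isOpen_univ hC hτ (hasDerivAt_id θ) (hr θ hθ) (mem_univ _)
  refine ⟨?_, ?_⟩
  · rw [abs_div, abs_of_pos hN, div_lt_one hN]
    apply Real.lt_sqrt_of_sq_lt
    rw [sq_abs]
    nlinarith [sq_nonneg (w θ), pow_pos hFpos 2]
  · have hsq : HasDerivAt (fun s => √(FF f (τ s) s ^ 2 + w s ^ 2)) _ θ :=
      ((hF'.pow 2).add (hw.pow 2)).sqrt (ne_of_gt hS)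
    have hm := hw.div hsq (ne_of_gt hN)
    refine ⟨_, hm, ?_⟩
    have key := McB_alg (FF f (τ θ) θ) (w θ) (√(FF f (τ θ) θ ^ 2 + w θ ^ 2)) (dt (FF f) (τ θ) θ)
      (dh (FF f) (τ θ) θ) hFpos hN hN2
    rw [← key]
    congr 2
    congr 1
    congr 1
    rw [hdt]
    have e : (((fun s => FF f (τ s) s) ^ 2 + w ^ 2) θ) = FF f (τ θ) θ ^ 2 + w θ ^ 2 := rfl
    rw [e]
    simp only [Nat.cast_ofNat, Nat.add_one_sub_one, pow_one]
    generalize √(FF f (τ θ) θ ^ 2 + w θ ^ 2) = N at hN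
    field_simp

end GS
end

section

open Real Set
open scoped NNReal

namespace GS

/-- The Euclidean norm of the plane is 1-Lipschitz for the sum distance. -/
private lemma OdD_root_le (a b a' b' : ℝ) :
    √(a' ^ 2 + b' ^ 2) ≤ √(a ^ 2 + b ^ 2) + (|a - a'| + |b - b'|) := by
  have hr : 0 ≤ √(a ^ 2 + b ^ 2) := Real.sqrt_nonneg _
  have hr2 : √(a ^ 2 + b ^ 2) ^ 2 = a ^ 2 + b ^ 2 := Real.sq_sqrt (by positivity)
  have h1 : |a| ≤ √(a ^ 2 + b ^ 2) := Real.abs_le_sqrt (by nlinarith [sq_nonneg b])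
  have h2 : |b| ≤ √(a ^ 2 + b ^ 2) := Real.abs_le_sqrt (by nlinarith [sq_nonneg a])
  set r := √(a ^ 2 + b ^ 2)
  refine Real.sqrt_le_iff.2 ⟨by positivity, ?_⟩
  have h3 : a' ^ 2 ≤ a ^ 2 + 2 * r * |a - a'| + |a - a'| ^ 2 := by
    have h : -(a * (a - a')) ≤ |a| * |a - a'| := by
      rw [← abs_mul]; exact neg_le_abs _
    have h' : |a| * |a - a'| ≤ r * |a - a'| := mul_le_mul_of_nonneg_right h1 (abs_nonneg _)
    have h'' : |a - a'| ^ 2 = (a - a') ^ 2 := sq_abs _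
    nlinarith
  have h4 : b' ^ 2 ≤ b ^ 2 + 2 * r * |b - b'| + |b - b'| ^ 2 := by
    have h : -(b * (b - b')) ≤ |b| * |b - b'| := by
      rw [← abs_mul]; exact neg_le_abs _
    have h' : |b| * |b - b'| ≤ r * |b - b'| := mul_le_mul_of_nonneg_right h2 (abs_nonneg _)
    have h'' : |b - b'| ^ 2 = (b - b') ^ 2 := sq_abs _
    nlinarith
  have h5 : 0 ≤ |a - a'| * |b - b'| := by positivity
  nlinarith

private lemma OdD_root_abs (a b a' b' : ℝ) :
    |√(a' ^ 2 + b' ^ 2) - √(a ^ 2 + b ^ 2)| ≤ |a - a'| + |b - b'| := by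
  have h1 := OdD_root_le a b a' b'
  have h2 := OdD_root_le a' b' a b
  rw [abs_sub_comm a' a, abs_sub_comm b' b] at h2
  rw [abs_le]
  constructor <;> linarith

/-- The function `b/√(a² + b²)` is Lipschitz on `{a ≥ c}`. -/
private lemma OdD_quot {c a b a' b' : ℝ} (hc : 0 < c) (ha : c ≤ a) (ha' : c ≤ a') :
    |b / √(a ^ 2 + b ^ 2) - b' / √(a' ^ 2 + b' ^ 2)| ≤ (|a - a'| + 2 * |b - b'|) / c := by
  have hr : c ≤ √(a ^ 2 + b ^ 2) := Real.le_sqrt_of_sq_le (by nlinarith [sq_nonneg b])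
  have hr' : c ≤ √(a' ^ 2 + b' ^ 2) := Real.le_sqrt_of_sq_le (by nlinarith [sq_nonneg b'])
  have hb' : |b'| ≤ √(a' ^ 2 + b' ^ 2) := Real.abs_le_sqrt (by nlinarith [sq_nonneg a'])
  have hd := OdD_root_abs a b a' b'
  set r := √(a ^ 2 + b ^ 2)
  set r' := √(a' ^ 2 + b' ^ 2)
  have hr0 : 0 < r := by linarith
  have hr0' : 0 < r' := by linarith
  have e : b / r - b' / r' = ((b - b') + (b' / r') * (r' - r)) / r := by
    field_simp
    ring
  rw [e, abs_div, abs_of_pos hr0]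
  have h1 : |b' / r'| ≤ 1 := by
    rw [abs_div, abs_of_pos hr0']
    exact (div_le_one hr0').2 hb'
  have h2 : |(b - b') + (b' / r') * (r' - r)| ≤ |a - a'| + 2 * |b - b'| := by
    calc |(b - b') + (b' / r') * (r' - r)| ≤ |b - b'| + |(b' / r') * (r' - r)| := abs_add_le _ _
      _ = |b - b'| + |b' / r'| * |r' - r| := by rw [abs_mul]
      _ ≤ |b - b'| + 1 * (|a - a'| + |b - b'|) := by
          have : |b' / r'| * |r' - r| ≤ 1 * (|a - a'| + |b - b'|) :=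
            mul_le_mul h1 hd (abs_nonneg _) zero_le_one
          linarith
      _ = _ := by ring
  have h3 : 0 ≤ |a - a'| + 2 * |b - b'| := by positivity
  calc |(b - b') + (b' / r') * (r' - r)| / r ≤ (|a - a'| + 2 * |b - b'|) / r := by gcongr
    _ ≤ (|a - a'| + 2 * |b - b'|) / c := by gcongr

/-- The function `a/√(a² + b²)` is Lipschitz on `{a ≥ c}`. -/
private lemma OdD_quot' {c a b a' b' : ℝ} (hc : 0 < c) (ha : c ≤ a) (ha' : c ≤ a') :
    |a / √(a ^ 2 + b ^ 2) - a' / √(a' ^ 2 + b' ^ 2)| ≤ (2 * |a - a'| + |b - b'|) / c := by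
  have hr : c ≤ √(a ^ 2 + b ^ 2) := Real.le_sqrt_of_sq_le (by nlinarith [sq_nonneg b])
  have hr' : c ≤ √(a' ^ 2 + b' ^ 2) := Real.le_sqrt_of_sq_le (by nlinarith [sq_nonneg b'])
  have hb' : |a'| ≤ √(a' ^ 2 + b' ^ 2) := Real.abs_le_sqrt (by nlinarith [sq_nonneg b'])
  have hd := OdD_root_abs a b a' b'
  set r := √(a ^ 2 + b ^ 2)
  set r' := √(a' ^ 2 + b' ^ 2)
  have hr0 : 0 < r := by linarith
  have hr0' : 0 < r' := by linarith
  have e : a / r - a' / r' = ((a - a') + (a' / r') * (r' - r)) / r := by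
    field_simp
    ring
  rw [e, abs_div, abs_of_pos hr0]
  have h1 : |a' / r'| ≤ 1 := by
    rw [abs_div, abs_of_pos hr0']
    exact (div_le_one hr0').2 hb'
  have h2 : |(a - a') + (a' / r') * (r' - r)| ≤ 2 * |a - a'| + |b - b'| := by
    calc |(a - a') + (a' / r') * (r' - r)| ≤ |a - a'| + |(a' / r') * (r' - r)| := abs_add_le _ _
      _ = |a - a'| + |a' / r'| * |r' - r| := by rw [abs_mul]
      _ ≤ |a - a'| + 1 * (|a - a'| + |b - b'|) := by
          have : |a' / r'| * |r' - r| ≤ 1 * (|a - a'| + |b - b'|) :=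
            mul_le_mul h1 hd (abs_nonneg _) zero_le_one
          linarith
      _ = _ := by ring
  have h3 : 0 ≤ 2 * |a - a'| + |b - b'| := by positivity
  calc |(a - a') + (a' / r') * (r' - r)| / r ≤ (2 * |a - a'| + |b - b'|) / r := by gcongr
    _ ≤ (2 * |a - a'| + |b - b'|) / c := by gcongr

private lemma OdD_contOn {τ : ℝ → ℝ} (h : ∀ x ∈ Icc 0 π, ∀ y ∈ Icc 0 π, |τ x - τ y| ≤ |x - y|) :
    ContinuousOn τ (Icc 0 π) := by
  have : LipschitzOnWith 1 τ (Icc 0 π) :=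
    LipschitzOnWith.of_dist_le_mul fun x hx y hy => by
      rw [Real.dist_eq, Real.dist_eq, NNReal.coe_one, one_mul]
      exact h x hx y hy
  exact this.continuousOn

private lemma OdD_clamp_mem {τm τp : ℝ → ℝ} {θ : ℝ} (h : τm θ ≤ τp θ) (x : ℝ) :
    clamp τm τp θ x ∈ Icc (τm θ) (τp θ) :=
  ⟨le_max_left _ _, max_le h (min_le_left _ _)⟩

private lemma OdD_max_min_lip (a b x y : ℝ) :
    |max a (min b x) - max a (min b y)| ≤ |x - y| := by
  have h1 : |max a (min b x) - max a (min b y)| ≤ |min b x - min b y| := by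
    have := abs_max_sub_max_le_max a (min b x) a (min b y)
    simpa using this
  have h2 : |min b x - min b y| ≤ |x - y| := by
    have := abs_min_sub_min_le_max b x b y
    simpa using this
  exact h1.trans h2

private lemma OdD_clamp_lip {τm τp : ℝ → ℝ} {θ : ℝ} (x y : ℝ) :
    |clamp τm τp θ x - clamp τm τp θ y| ≤ |x - y| := OdD_max_min_lip _ _ _ _

private lemma OdD_pen_lip {N : ℝ} (hN : 0 ≤ N) (x y : ℝ) :
    |pen N x - pen N y| ≤ (N + 1) * |x - y| := by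
  unfold pen
  refine (OdD_max_min_lip _ _ _ _).trans ?_
  rw [← mul_sub, abs_mul, abs_of_nonneg (by linarith : 0 ≤ N + 1)]

private lemma OdD_pen_abs {N : ℝ} (hN : 0 ≤ N) (x : ℝ) : |pen N x| ≤ N + 1 := by
  unfold pen
  rw [abs_le]
  exact ⟨le_max_left _ _, max_le (by linarith) (min_le_left _ _)⟩

/-- The range of the barriers lies in a compact interval of `(0, π)`. -/
private lemma OdD_range {f : ℝ → ℝ → ℝ} {τm τp : ℝ → ℝ} {N c : ℝ} (S : Setg f τm τp N c) :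
    ∃ m M : ℝ, 0 < m ∧ M < π ∧ ∀ x ∈ Icc 0 π, m ≤ τm x ∧ τp x ≤ M := by
  have hne : (Icc (0:ℝ) π).Nonempty := ⟨0, le_rfl, Real.pi_pos.le⟩
  obtain ⟨x, hx, hx'⟩ := isCompact_Icc.exists_isMinOn hne (OdD_contOn S.lipm)
  obtain ⟨y, hy, hy'⟩ := isCompact_Icc.exists_isMaxOn hne (OdD_contOn S.lipp)
  exact ⟨τm x, τp y, (S.rng x hx).1, (S.rng y hy).2.2, fun z hz => ⟨hx' hz, hy' hz⟩⟩

/-- A bound for the second derivative. -/
private lemma OdD_second {f : ℝ → ℝ → ℝ} (hf : Sm univ f) {m M : ℝ} (hm : 0 < m) (hM : M < π) :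
    ∃ B : ℝ, 0 ≤ B ∧ ∀ t ∈ Icc m M, ∀ ζ ∈ Icc (-1 : ℝ) 1, |dt (dt f) t ζ| ≤ B := by
  have h2 : Sm univ (dt (dt f)) := (hf.dt isOpen_univ).dt isOpen_univ
  have hc : ContinuousOn (Function.uncurry (dt (dt f))) (Icc m M ×ˢ Icc (-1 : ℝ) 1) := by
    refine h2.continuousOn.mono ?_
    rintro ⟨t, ζ⟩ ⟨ht, -⟩
    exact ⟨⟨hm.trans_le ht.1, ht.2.trans_lt hM⟩, mem_univ _⟩
  obtain ⟨B, hB⟩ := (isCompact_Icc.prod isCompact_Icc).exists_bound_of_continuousOn hc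
  refine ⟨max B 0, le_max_right _ _, fun t ht ζ hζ => ?_⟩
  exact (hB (t, ζ) ⟨ht, hζ⟩).trans (le_max_left _ _)

/-- Lipschitz bound from a bound of the derivative. -/
private lemma OdD_mvt {f : ℝ → ℝ → ℝ} (hf : Sm univ f) {m M B ζ : ℝ} (hm : 0 < m) (hM : M < π)
    (hB : ∀ t ∈ Icc m M, |dt f t ζ| ≤ B) {s t : ℝ} (hs : s ∈ Icc m M) (ht : t ∈ Icc m M) :
    |f s ζ - f t ζ| ≤ B * |s - t| := by
  have key := (convex_Icc m M).norm_image_sub_le_of_norm_hasDerivWithin_le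
    (f := fun r => f r ζ) (f' := fun r => dt f r ζ) (C := B)
    (fun r hr => (hf.c1.hasDt isOpen_univ ⟨hm.trans_le hr.1, hr.2.trans_lt hM⟩
      (mem_univ _)).hasDerivWithinAt) hB ht hs
  simpa [Real.norm_eq_abs] using key

/-- TASK OdD. The truncated field is good on `[η, π - η]`, `0 < η < π/2`.
Proof. `clamp τm τp θ` is 1-Lipschitz in `x`, jointly continuous, with values in
`[τm θ, τp θ]`; let `m₀ = min τm > 0`, `M₀ = max τp < π`. On the compact rectangle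
`[m₀, M₀] × [η, π - η]` (convex) the continuous positive function `F = FF f` is `≥ c₁ > 0`, `F` and
`F_t` are Lipschitz in `t` (bounded `dt`, `dt dt`) and bounded. For `G(F, w) = w/√(F² + w²)` and
`H(F, w) = F/√(F² + w²)` one has Lipschitz bounds on `{F ≥ c₁}`, so both components are
Lipschitz in `z` (sup norm on `ℝ × ℝ`); `pen N` is `(N+1)`-Lipschitz. Bounded: `|v₁| ≤ 1`,
`|v₂| ≤ N + (N + 1)`. Continuity in `θ`: composition of continuous functions (`f`, `dt f` are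
continuous on `(0, π) × ℝ`, the root is `≥ c₁`). -/
theorem vf_good {f : ℝ → ℝ → ℝ} {τm τp : ℝ → ℝ} {N c : ℝ} (S : Setg f τm τp N c) {η : ℝ}
    (h0 : 0 < η) (h1 : η < π / 2) : ∃ K L : ℝ≥0, Good (vf f τm τp N) η (π - η) K L := by
  obtain ⟨m, M, hm, hM, hr⟩ := OdD_range S
  obtain ⟨B, hB0, hB⟩ := OdD_second S.sm hm hM
  have hN := S.hN
  have hc := S.hc
  have hsη : 0 < sin η := sin_pos_of_pos_of_lt_pi h0 (by linarith [Real.pi_pos])
  set c₁ := c * sin η with hc₁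
  have hc₁0 : 0 < c₁ := mul_pos hc hsη
  -- elementary facts on the interval
  have hI : ∀ θ ∈ Icc η (π - η), θ ∈ Icc 0 π := fun θ hθ =>
    ⟨h0.le.trans hθ.1, hθ.2.trans (by linarith)⟩
  have hsin : ∀ θ ∈ Icc η (π - η), sin η ≤ sin θ := by
    intro θ hθ
    rcases le_total θ (π / 2) with h | h
    · exact Real.sin_le_sin_of_le_of_le_pi_div_two (by linarith) h hθ.1
    · rw [← Real.sin_pi_sub θ]
      exact Real.sin_le_sin_of_le_of_le_pi_div_two (by linarith) (by linarith) (by linarith [hθ.2])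
  have hT : ∀ θ ∈ Icc η (π - η), ∀ x, clamp τm τp θ x ∈ Icc (τm θ) (τp θ) := fun θ hθ x =>
    OdD_clamp_mem (S.rng θ (hI θ hθ)).2.1.le x
  have hTm : ∀ θ ∈ Icc η (π - η), ∀ x, clamp τm τp θ x ∈ Icc m M := fun θ hθ x =>
    ⟨(hr θ (hI θ hθ)).1.trans (hT θ hθ x).1, (hT θ hθ x).2.trans (hr θ (hI θ hθ)).2⟩
  have hF : ∀ θ ∈ Icc η (π - η), ∀ x, c₁ ≤ FF f (clamp τm τp θ x) θ := by
    intro θ hθ x
    have h2 := S.fc θ (hI θ hθ) _ (hT θ hθ x)
    have h3 := hsin θ hθ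
    unfold FF
    exact mul_le_mul h2 h3 hsη.le (hc.le.trans h2)
  have hsin1 : ∀ θ ∈ Icc η (π - η), |sin θ| ≤ 1 := fun θ _ => Real.abs_sin_le_one θ
  have hg : ∀ θ ∈ Icc η (π - η), ∀ x, |dt f (clamp τm τp θ x) (cos θ)| ≤ N := fun θ hθ x =>
    S.ft θ (hI θ hθ) _ (hT θ hθ x)
  -- Lipschitz bounds
  have hFl : ∀ θ ∈ Icc η (π - η), ∀ x y, |FF f (clamp τm τp θ x) θ - FF f (clamp τm τp θ y) θ|
      ≤ N * |x - y| := by
    intro θ hθ x y
    unfold FF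
    rw [← sub_mul, abs_mul]
    have h2 : |f (clamp τm τp θ x) (cos θ) - f (clamp τm τp θ y) (cos θ)| ≤
        N * |clamp τm τp θ x - clamp τm τp θ y| :=
      OdD_mvt S.sm (S.rng θ (hI θ hθ)).1 (S.rng θ (hI θ hθ)).2.2
        (fun t ht => S.ft θ (hI θ hθ) t ht) (hT θ hθ x) (hT θ hθ y)
    have h3 := OdD_clamp_lip (τm := τm) (τp := τp) (θ := θ) x y
    calc _ ≤ (N * |clamp τm τp θ x - clamp τm τp θ y|) * 1 :=
          mul_le_mul h2 (hsin1 θ hθ) (abs_nonneg _) (by positivity)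
      _ ≤ N * |x - y| := by rw [mul_one]; gcongr
  have hgl : ∀ θ ∈ Icc η (π - η), ∀ x y, |dt f (clamp τm τp θ x) (cos θ) * sin θ -
      dt f (clamp τm τp θ y) (cos θ) * sin θ| ≤ B * |x - y| := by
    intro θ hθ x y
    rw [← sub_mul, abs_mul]
    have h2 : |dt f (clamp τm τp θ x) (cos θ) - dt f (clamp τm τp θ y) (cos θ)| ≤
        B * |clamp τm τp θ x - clamp τm τp θ y| :=
      OdD_mvt (S.sm.dt isOpen_univ) hm hM
        (fun t ht => hB t ht _ ⟨Real.neg_one_le_cos θ, Real.cos_le_one θ⟩) (hTm θ hθ x) (hTm θ hθ y)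
    have h3 := OdD_clamp_lip (τm := τm) (τp := τp) (θ := θ) x y
    calc _ ≤ (B * |clamp τm τp θ x - clamp τm τp θ y|) * 1 :=
          mul_le_mul h2 (hsin1 θ hθ) (abs_nonneg _) (by positivity)
      _ ≤ B * |x - y| := by rw [mul_one]; gcongr
  have hgN : ∀ θ ∈ Icc η (π - η), ∀ x, |dt f (clamp τm τp θ x) (cos θ) * sin θ| ≤ N := by
    intro θ hθ x
    rw [abs_mul]
    calc _ ≤ N * 1 := mul_le_mul (hg θ hθ x) (hsin1 θ hθ) (abs_nonneg _) hN
      _ = N := mul_one _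
  have hH1 : ∀ a b : ℝ, |a / √(a ^ 2 + b ^ 2)| ≤ 1 := by
    intro a b
    rw [abs_div, abs_of_nonneg (Real.sqrt_nonneg _)]
    exact div_le_one_of_le₀ (Real.abs_le_sqrt (by nlinarith [sq_nonneg b])) (Real.sqrt_nonneg _)
  -- constants
  set K₁ : ℝ := (N + 2) / c₁ with hK₁
  set K₂ : ℝ := B + N * ((2 * N + 1) / c₁) + (N + 1) * 2 with hK₂
  have hK₁0 : 0 ≤ K₁ := by positivity
  have hK₂0 : 0 ≤ K₂ := by positivity
  refine ⟨⟨max K₁ K₂, hK₁0.trans (le_max_left _ _)⟩, ⟨1 + (N + (N + 1)), by positivity⟩, ?_, ?_, ?_⟩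
  · intro θ hθ
    refine LipschitzWith.of_dist_le_mul fun z z' => ?_
    have hx : |z.1 - z'.1| ≤ dist z z' := by
      rw [← Real.dist_eq, Prod.dist_eq]; exact le_max_left _ _
    have hw : |z.2 - z'.2| ≤ dist z z' := by
      rw [← Real.dist_eq, Prod.dist_eq]; exact le_max_right _ _
    have hD : 0 ≤ dist z z' := dist_nonneg
    set D := dist z z'
    have hF1 := hFl θ hθ z.1 z'.1
    have hF1' : |FF f (clamp τm τp θ z.1) θ - FF f (clamp τm τp θ z'.1) θ| ≤ N * D :=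
      hF1.trans (by gcongr)
    have hg1 := hgl θ hθ z.1 z'.1
    have hg1' : |dt f (clamp τm τp θ z.1) (cos θ) * sin θ -
      dt f (clamp τm τp θ z'.1) (cos θ) * sin θ| ≤ B * D := hg1.trans (by gcongr)
    have hg2 := hgN θ hθ z'.1
    have hq1 := OdD_quot (b := z.2) (b' := z'.2) hc₁0 (hF θ hθ z.1) (hF θ hθ z'.1)
    have hq2 := OdD_quot' (b := z.2) (b' := z'.2) hc₁0 (hF θ hθ z.1) (hF θ hθ z'.1)
    have hp1 := OdD_pen_lip hN (z.1 - clamp τm τp θ z.1) (z'.1 - clamp τm τp θ z'.1)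
    have hcl := OdD_clamp_lip (τm := τm) (τp := τp) (θ := θ) z.1 z'.1
    have hH := hH1 (FF f (clamp τm τp θ z.1) θ) z.2
    rw [Prod.dist_eq, Real.dist_eq, Real.dist_eq]
    simp only [vf]
    set T := clamp τm τp θ z.1
    set T' := clamp τm τp θ z'.1
    set F := FF f T θ
    set F' := FF f T' θ
    set g := dt f T (cos θ) * sin θ
    set g' := dt f T' (cos θ) * sin θ
    refine max_le ?_ ?_
    · calc _ ≤ (|F - F'| + 2 * |z.2 - z'.2|) / c₁ := hq1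
        _ ≤ (N * D + 2 * D) / c₁ := by gcongr
        _ = K₁ * D := by rw [hK₁]; ring
        _ ≤ _ := by gcongr; exact le_max_left _ _
    · have e : -g * F / √(F ^ 2 + z.2 ^ 2) + pen N (z.1 - T) -
          (-g' * F' / √(F' ^ 2 + z'.2 ^ 2) + pen N (z'.1 - T')) =
          (-((g - g') * (F / √(F ^ 2 + z.2 ^ 2))) + -(g' * (F / √(F ^ 2 + z.2 ^ 2) -
            F' / √(F' ^ 2 + z'.2 ^ 2)))) + (pen N (z.1 - T) - pen N (z'.1 - T')) := by
        ring
      rw [e]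
      have a1 : |(g - g') * (F / √(F ^ 2 + z.2 ^ 2))| ≤ (B * D) * 1 := by
        rw [abs_mul]
        exact mul_le_mul hg1' hH (abs_nonneg _) (by positivity)
      have a2 : |g' * (F / √(F ^ 2 + z.2 ^ 2) - F' / √(F' ^ 2 + z'.2 ^ 2))| ≤
          N * ((2 * (N * D) + D) / c₁) := by
        rw [abs_mul]
        refine mul_le_mul hg2 (hq2.trans ?_) (abs_nonneg _) hN
        gcongr
      have a3 : |pen N (z.1 - T) - pen N (z'.1 - T')| ≤ (N + 1) * (D + D) := by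
        refine hp1.trans ?_
        have : |z.1 - T - (z'.1 - T')| ≤ |z.1 - z'.1| + |T - T'| := by
          have e2 : z.1 - T - (z'.1 - T') = (z.1 - z'.1) - (T - T') := by ring
          rw [e2]
          exact abs_sub _ _
        have h4 : |z.1 - T - (z'.1 - T')| ≤ D + D := this.trans (add_le_add hx (hcl.trans hx))
        gcongr
      calc _ ≤ (|-((g - g') * (F / √(F ^ 2 + z.2 ^ 2)))| + |-(g' * (F / √(F ^ 2 + z.2 ^ 2) -
            F' / √(F' ^ 2 + z'.2 ^ 2)))|) + |pen N (z.1 - T) - pen N (z'.1 - T')| :=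
            (abs_add_le _ _).trans (add_le_add (abs_add_le _ _) le_rfl)
        _ ≤ ((B * D) * 1 + N * ((2 * (N * D) + D) / c₁)) + (N + 1) * (D + D) := by
            rw [abs_neg, abs_neg]
            exact add_le_add (add_le_add a1 a2) a3
        _ = K₂ * D := by rw [hK₂]; ring
        _ ≤ _ := by gcongr; exact le_max_right _ _
  · intro z
    have hcm : ContinuousOn τm (Icc η (π - η)) := (OdD_contOn S.lipm).mono hI
    have hcp : ContinuousOn τp (Icc η (π - η)) := (OdD_contOn S.lipp).mono hI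
    have hcl : ContinuousOn (fun θ => clamp τm τp θ z.1) (Icc η (π - η)) := by
      unfold clamp
      exact hcm.sup (hcp.inf continuousOn_const)
    have hpair : ContinuousOn (fun θ => (clamp τm τp θ z.1, cos θ)) (Icc η (π - η)) :=
      hcl.prodMk Real.continuous_cos.continuousOn
    have hmaps : MapsTo (fun θ => (clamp τm τp θ z.1, cos θ)) (Icc η (π - η))
        (Ioo 0 π ×ˢ univ) := fun θ hθ =>
      ⟨⟨hm.trans_le (hTm θ hθ z.1).1, (hTm θ hθ z.1).2.trans_lt hM⟩, mem_univ _⟩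
    have hcf : ContinuousOn (fun θ => f (clamp τm τp θ z.1) (cos θ)) (Icc η (π - η)) :=
      (S.sm.continuousOn.comp hpair hmaps)
    have hcg : ContinuousOn (fun θ => dt f (clamp τm τp θ z.1) (cos θ)) (Icc η (π - η)) :=
      ((S.sm.dt isOpen_univ).continuousOn.comp hpair hmaps)
    have hs : ContinuousOn (fun θ => sin θ) (Icc η (π - η)) := Real.continuous_sin.continuousOn
    have hcF : ContinuousOn (fun θ => FF f (clamp τm τp θ z.1) θ) (Icc η (π - η)) := by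
      unfold FF
      exact hcf.mul hs
    have hroot : ContinuousOn (fun θ => √(FF f (clamp τm τp θ z.1) θ ^ 2 + z.2 ^ 2))
        (Icc η (π - η)) :=
      ((hcF.pow 2).add continuousOn_const).sqrt
    have hroot0 : ∀ θ ∈ Icc η (π - η), √(FF f (clamp τm τp θ z.1) θ ^ 2 + z.2 ^ 2) ≠ 0 := by
      intro θ hθ
      have h2 := hF θ hθ z.1
      have : 0 < FF f (clamp τm τp θ z.1) θ := hc₁0.trans_le h2
      exact (Real.sqrt_pos.2 (by positivity)).ne'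
    have hpen : ContinuousOn (fun θ => pen N (z.1 - clamp τm τp θ z.1)) (Icc η (π - η)) := by
      unfold pen
      exact continuousOn_const.sup (continuousOn_const.inf
        (continuousOn_const.mul (continuousOn_const.sub hcl)))
    unfold vf
    exact (continuousOn_const.div hroot hroot0).prodMk
      ((((hcg.mul hs).neg.mul hcF).div hroot hroot0).add hpen)
  · intro θ hθ z
    have b1 : |(vf f τm τp N θ z).1| ≤ 1 := by
      have := hH1 z.2 (FF f (clamp τm τp θ z.1) θ)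
      rw [add_comm (z.2 ^ 2)] at this
      exact this
    have b2 : |(vf f τm τp N θ z).2| ≤ N + (N + 1) := by
      simp only [vf]
      refine (abs_add_le _ _).trans (add_le_add ?_ (OdD_pen_abs hN _))
      rw [mul_div_assoc, abs_mul, abs_neg]
      calc _ ≤ N * 1 := mul_le_mul (hgN θ hθ z.1) (hH1 _ _) (abs_nonneg _) hN
        _ = N := mul_one _
    rw [Prod.norm_def, Real.norm_eq_abs, Real.norm_eq_abs]
    have b3 : max |(vf f τm τp N θ z).1| |(vf f τm τp N θ z).2| ≤ 1 + (N + (N + 1)) :=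
      max_le (by linarith) (by linarith)
    exact b3

end GS
end

section

open Real Set
open scoped NNReal ContDiff Topology

namespace GS

private theorem OdE_c1FF {f : ℝ → ℝ → ℝ} (sm : Sm univ f) : C1 univ (FF f) := by
  have h1 : C1 univ f := Sm.c1 sm
  unfold C1 at h1 ⊢
  have h2 : ContDiffOn ℝ 1 (fun z : ℝ × ℝ => (z.1, cos z.2)) (Ioo 0 π ×ˢ univ) := by
    apply ContDiff.contDiffOn
    exact contDiff_fst.prodMk (Real.contDiff_cos.comp contDiff_snd)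
  have h3 : ContDiffOn ℝ 1 (fun z : ℝ × ℝ => Function.uncurry f (z.1, cos z.2))
      (Ioo 0 π ×ˢ univ) := by
    refine h1.comp h2 ?_
    intro z hz
    exact ⟨hz.1, mem_univ _⟩
  have h4 : ContDiffOn ℝ 1 (fun z : ℝ × ℝ => sin z.2) (Ioo 0 π ×ˢ univ) :=
    (Real.contDiff_sin.comp contDiff_snd).contDiffOn
  exact h3.mul h4

private theorem OdE_dtFF (f : ℝ → ℝ → ℝ) (t θ : ℝ) :
    dt (FF f) t θ = dt f t (cos θ) * sin θ := by
  unfold dt FF
  exact deriv_mul_const_field _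

private theorem OdE_FFpos {f : ℝ → ℝ → ℝ} (pos : ∀ t ∈ Ioo 0 π, ∀ ζ, 0 < f t ζ) {t θ : ℝ}
    (ht : t ∈ Ioo 0 π) (hθ : θ ∈ Ioo 0 π) : 0 < FF f t θ :=
  mul_pos (pos t ht _) (sin_pos_of_pos_of_lt_pi hθ.1 hθ.2)

/-- The derivative of `w = F m/√(1 - m²)` along an arc `t = σ(θ)` of slope `m`, and its relation with
`HP`: if `σ' = m` near `θ`, `m' ` exists at `θ`, then `W(x) = F(σ(x), x) m(x)/√(1 - m(x)²)` has at `θ` a
derivative `W'` with `W' > -F_t √(1 - m²)` if `HP (pF f) (qF f) (σ θ) θ (m θ) m'` holds.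
Proof: `W' = (F_t m + F_θ) m/√(1-m²) + F m'/((1-m²)√(1-m²))` (`C1.curve`), so
`√(1-m²) (W' + F_t √(1-m²)) = F (m'/(1-m²) + p + m q) > 0` (`F_t = F p`, `F_θ = F q`). -/
theorem W_deriv {f : ℝ → ℝ → ℝ} (sm : Sm univ f) (pos : ∀ t ∈ Ioo 0 π, ∀ ζ, 0 < f t ζ)
    {σ m : ℝ → ℝ} {θ m' : ℝ} (hθ : θ ∈ Ioo 0 π) (hσ : σ θ ∈ Ioo 0 π)
    (h1 : HasDerivAt σ (m θ) θ) (h2 : HasDerivAt m m' θ) (h3 : |m θ| < 1)
    (H : HP (pF f) (qF f) (σ θ) θ (m θ) m') :
    ∃ W', HasDerivAt (fun x => FF f (σ x) x * m x / √(1 - m x ^ 2)) W' θ ∧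
      -(dt (FF f) (σ θ) θ) * √(1 - m θ ^ 2) < W' := by
  have hF := OdE_FFpos pos hσ hθ
  have hm : 0 < 1 - m θ ^ 2 := by
    have := abs_lt.1 h3
    nlinarith
  have hs : 0 < √(1 - m θ ^ 2) := sqrt_pos.2 hm
  have hss : √(1 - m θ ^ 2) ^ 2 = 1 - m θ ^ 2 := sq_sqrt hm.le
  have hD : HasDerivAt (fun x => FF f (σ x) x)
      (m θ * dt (FF f) (σ θ) θ + 1 * dh (FF f) (σ θ) θ) θ :=
    C1.curve isOpen_univ (OdE_c1FF sm) h1 (hasDerivAt_id θ) hσ (mem_univ _)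
  have h4 : HasDerivAt (fun x => 1 - m x ^ 2) (-(2 * m θ * m')) θ := by
    have := (h2.pow 2).const_sub 1
    refine this.congr_deriv ?_
    simp
  have h5 := h4.sqrt hm.ne'
  have h6 := (hD.mul h2).div h5 hs.ne'
  refine ⟨_, h6, ?_⟩
  have H' : 0 < m' / (1 - m θ ^ 2) + dt (FF f) (σ θ) θ / FF f (σ θ) θ
      + m θ * (dh (FF f) (σ θ) θ / FF f (σ θ) θ) := H
  set s := √(1 - m θ ^ 2) with hsdef
  set F := FF f (σ θ) θ with hFdef
  set Ft := dt (FF f) (σ θ) θ with hFt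
  set Fh := dh (FF f) (σ θ) θ with hFh
  have h7 : 0 < F * m' / s ^ 2 + Ft + m θ * Fh := by
    have := mul_pos hF H'
    have e : F * (m' / (1 - m θ ^ 2) + Ft / F + m θ * (Fh / F))
        = F * m' / s ^ 2 + Ft + m θ * Fh := by
      rw [← hss]
      field_simp
    rwa [e] at this
  have hm2 : m θ ^ 2 = 1 - s ^ 2 := by rw [hss]; ring
  have e2 : (((m θ * Ft + 1 * Fh) * m θ + F * m') * s
      - (F * m θ) * (-(2 * m θ * m') / (2 * s))) / s ^ 2
      = (F * m' / s ^ 2 + Ft + m θ * Fh) / s - Ft * s := by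
    field_simp
    ring_nf
    rw [hm2]
    ring
  have e3 : (((m θ * Ft + 1 * Fh) * m θ + (FF f (σ θ) θ) * m') * s
      - (FF f (σ θ) θ * m θ) * (-(2 * m θ * m') / (2 * s))) / s ^ 2
      = (F * m' / s ^ 2 + Ft + m θ * Fh) / s - Ft * s := e2
  have h8 : 0 < (F * m' / s ^ 2 + Ft + m θ * Fh) / s := div_pos h7 hs
  calc -Ft * s < (F * m' / s ^ 2 + Ft + m θ * Fh) / s - Ft * s := by linarith
    _ = _ := e3.symm

private theorem OdE_right_nonneg {g : ℝ → ℝ} {g' a b : ℝ} (hab : a < b)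
    (h : HasDerivWithinAt g g' (Icc a b) a) (hmin : ∀ y ∈ Icc a b, g a ≤ g y) : 0 ≤ g' := by
  have h1 := (hasDerivWithinAt_iff_tendsto_slope.1 (h.mono Ioc_subset_Icc_self))
  have h2 : Ioc a b \ {a} = Ioc a b := by
    ext y
    constructor
    · exact fun hy => hy.1
    · exact fun hy => ⟨hy, fun h => hy.1.ne' h⟩
  rw [h2] at h1
  have h3 : (𝓝[Ioc a b] a).NeBot := by
    rw [nhdsWithin_Ioc_eq_nhdsGT hab]
    infer_instance
  refine ge_of_tendsto h1 ?_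
  filter_upwards [self_mem_nhdsWithin] with y hy
  rw [slope_def_field]
  have h4 := hmin y (Ioc_subset_Icc_self hy)
  have h5 := hy.1
  exact div_nonneg (by linarith) (by linarith)

private theorem OdE_left_nonpos {g : ℝ → ℝ} {g' a b : ℝ} (hab : a < b)
    (h : HasDerivWithinAt g g' (Icc a b) b) (hmin : ∀ y ∈ Icc a b, g b ≤ g y) : g' ≤ 0 := by
  have h1 := (hasDerivWithinAt_iff_tendsto_slope.1 (h.mono Ico_subset_Icc_self))
  have h2 : Ico a b \ {b} = Ico a b := by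
    ext y
    constructor
    · exact fun hy => hy.1
    · exact fun hy => ⟨hy, fun h => hy.2.ne h⟩
  rw [h2] at h1
  have h3 : (𝓝[Ico a b] b).NeBot := by
    rw [nhdsWithin_Ico_eq_nhdsLT hab]
    infer_instance
  refine le_of_tendsto h1 ?_
  filter_upwards [self_mem_nhdsWithin] with y hy
  rw [slope_def_field]
  have h4 := hmin y (Ico_subset_Icc_self hy)
  have h5 := hy.2
  exact div_nonpos_of_nonneg_of_nonpos (by linarith) (by linarith)

private theorem OdE_phi {F : ℝ} (hF : 0 < F) (s : ℝ) : s / √(F ^ 2 + s ^ 2) = sin (arctan (s / F)) := by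
  rw [Real.sin_arctan]
  have h : √(F ^ 2 + s ^ 2) = F * √(1 + (s / F) ^ 2) := by
    rw [← Real.sqrt_sq hF.le, ← Real.sqrt_mul (sq_nonneg F), Real.sqrt_sq hF.le]
    congr 1
    field_simp
  rw [h]
  field_simp

private theorem OdE_phi_mono {F : ℝ} (hF : 0 < F) {a b : ℝ} (hab : a < b) :
    a / √(F ^ 2 + a ^ 2) < b / √(F ^ 2 + b ^ 2) := by
  rw [OdE_phi hF, OdE_phi hF]
  have h1 : a / F < b / F := div_lt_div_of_pos_right hab hF
  have h2 := arctan_strictMono h1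
  refine sin_lt_sin_of_lt_of_le_pi_div_two (neg_pi_div_two_lt_arctan _).le
    (arctan_lt_pi_div_two _).le h2

private theorem OdE_phi_inj {F : ℝ} (hF : 0 < F) {a b : ℝ}
    (h : a / √(F ^ 2 + a ^ 2) = b / √(F ^ 2 + b ^ 2)) : a = b := by
  rcases lt_trichotomy a b with h1 | h1 | h1
  · exact absurd h (OdE_phi_mono hF h1).ne
  · exact h1
  · exact absurd h (OdE_phi_mono hF h1).ne'

private theorem OdE_slope {F m : ℝ} (hF : 0 < F) (hm : |m| < 1) :
    √(F ^ 2 + (F * m / √(1 - m ^ 2)) ^ 2) = F / √(1 - m ^ 2) := by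
  have h1 : 0 < 1 - m ^ 2 := by
    have := abs_lt.1 hm
    nlinarith
  have hs : 0 < √(1 - m ^ 2) := sqrt_pos.2 h1
  have hss : √(1 - m ^ 2) ^ 2 = 1 - m ^ 2 := sq_sqrt h1.le
  rw [← Real.sqrt_sq (div_pos hF hs).le]
  congr 1
  rw [div_pow, div_pow, hss]
  field_simp
  ring

private theorem OdE_slope' {F m : ℝ} (hF : 0 < F) (hm : |m| < 1) :
    (F * m / √(1 - m ^ 2)) / √(F ^ 2 + (F * m / √(1 - m ^ 2)) ^ 2) = m := by
  have h1 : 0 < 1 - m ^ 2 := by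
    have := abs_lt.1 hm
    nlinarith
  have hs : 0 < √(1 - m ^ 2) := sqrt_pos.2 h1
  rw [OdE_slope hF hm]
  field_simp

private theorem OdE_pen {N y : ℝ} (hN : 0 ≤ N) (hy : y < 0) : pen N y < 0 := by
  unfold pen
  have h1 : (N + 1) * y < 0 := mul_neg_of_pos_of_neg (by linarith) hy
  refine max_lt (by linarith) (lt_of_le_of_lt (min_le_right _ _) h1)

private theorem OdE_vf {f : ℝ → ℝ → ℝ} {τm τp : ℝ → ℝ} {N c : ℝ} (S : Setg f τm τp N c) {θ : ℝ}
    (hθ : θ ∈ Icc 0 π) {z : ℝ × ℝ} (hz : z.1 < τm θ) :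
    vf f τm τp N θ z = (z.2 / √(FF f (τm θ) θ ^ 2 + z.2 ^ 2),
      -(dt (FF f) (τm θ) θ) * FF f (τm θ) θ / √(FF f (τm θ) θ ^ 2 + z.2 ^ 2)
        + pen N (z.1 - τm θ)) := by
  have h1 := S.rng θ hθ
  have h2 : clamp τm τp θ z.1 = τm θ := by
    unfold clamp
    rw [min_eq_right (by linarith [h1.2.1])]
    exact max_eq_left hz.le
  unfold vf
  simp only [h2, OdE_dtFF]

/-- TASK OdE. Comparison with the lower barrier.
Let `0 < η < π/2`, and let `τm` have a positive derivative at `η` and a negative derivative at `π - η`.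
A solution `x = (τ, w)` of the truncated equation on `[η, π - η]` with `w(η) = w(π - η) = 0` satisfies
`τm ≤ τ` on `[η, π - η]`.

Proof. Suppose `g = τ - τm` has a negative minimum over `[η, π - η]` at `θ₀` (`g` is continuous).
Near `θ₀` (where `g < 0`) `clamp τm τp θ (τ θ) = τm θ`.
`θ₀ = η`: `τ'(η) = 0` (`w(η) = 0`) and `τm'(η) > 0`, so `g` decreases to the right of `η`,
contradiction. `θ₀ = π - η`: `τ' = 0`, `τm' < 0`, so `g' > 0` at the right end, contradiction.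
`θ₀` interior: take `σ₁, m₁, σ₂, m₂` from `B.loc θ₀`. The one-sided derivatives of `g` at the minimum
give `τ'(θ₀) - m₁(θ₀) ≤ 0 ≤ τ'(θ₀) - m₂(θ₀)`, and `m₁ ≤ m₂`, so `τ'(θ₀) = m₂(θ₀)`. With
`W(θ) = F(σ₂ θ, θ) m₂/√(1 - m₂²)` one has `m₂ = W/√(F² + W²)` and `τ' = w/√(F² + w²)` with the same
`F = FF f (τm θ) θ` for `θ ∈ [θ₀, θ₀ + ε]` (`τm = σ₂` there and `g < 0`), and `s ↦ s/√(F²+s²)` is strictly
increasing; so `w(θ₀) = W(θ₀)`. At `θ₀`: `w' = -F_t F/√(F²+w²) + pen(g) = -F_t √(1-m₂²) + pen(g(θ₀))`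
with `pen(g(θ₀)) < 0` (`N + 1 > 0`), and `W' > -F_t √(1 - m₂²)` by `W_deriv`. So `(w - W)'(θ₀) < 0`,
`w < W` on `(θ₀, θ₀ + ε)`, hence `g' = τ' - m₂ < 0` there and `g` is strictly decreasing to the right of
`θ₀`, contradiction. -/
theorem compare_lower {f : ℝ → ℝ → ℝ} {τm τp : ℝ → ℝ} {N c : ℝ} (S : Setg f τm τp N c)
    (B : LBar (pF f) (qF f) τm) {η : ℝ} (h0 : 0 < η) (h1 : η < π / 2)
    (hη : ∃ μ > 0, HasDerivAt τm μ η) (hη' : ∃ μ < 0, HasDerivAt τm μ (π - η))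
    {x : ℝ → ℝ × ℝ} (hx : Sol (vf f τm τp N) η (π - η) x) (ha : (x η).2 = 0)
    (hb : (x (π - η)).2 = 0) : ∀ θ ∈ Icc η (π - η), τm θ ≤ (x θ).1 := by
  by_contra hcon
  push Not at hcon
  obtain ⟨θ₁, hθ₁, hneg⟩ := hcon
  have hIle : η < π - η := by linarith
  have hIsub : Icc η (π - η) ⊆ Icc 0 π := Icc_subset_Icc h0.le (by linarith)
  have hIsub' : Icc η (π - η) ⊆ Ioo 0 π := fun y hy => ⟨by linarith [hy.1], by linarith [hy.2]⟩
  have hτ : ∀ θ ∈ Icc η (π - η),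
      HasDerivWithinAt (fun y => (x y).1) (vf f τm τp N θ (x θ)).1 (Icc η (π - η)) θ :=
    fun θ hθ => (ContinuousLinearMap.fst ℝ ℝ ℝ).hasFDerivAt.comp_hasDerivWithinAt θ (hx θ hθ)
  have hw : ∀ θ ∈ Icc η (π - η),
      HasDerivWithinAt (fun y => (x y).2) (vf f τm τp N θ (x θ)).2 (Icc η (π - η)) θ :=
    fun θ hθ => (ContinuousLinearMap.snd ℝ ℝ ℝ).hasFDerivAt.comp_hasDerivWithinAt θ (hx θ hθ)
  have hcτ : ContinuousOn (fun y => (x y).1) (Icc η (π - η)) :=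
    fun θ hθ => (hτ θ hθ).continuousWithinAt
  have hcm : ContinuousOn τm (Icc η (π - η)) := by
    have hl : LipschitzOnWith 1 τm (Icc 0 π) := by
      refine LipschitzOnWith.of_dist_le_mul fun a ha b hb => ?_
      rw [Real.dist_eq, Real.dist_eq, NNReal.coe_one, one_mul]
      exact S.lipm a ha b hb
    exact hl.continuousOn.mono hIsub
  obtain ⟨θ₀, hθ₀, hmin⟩ := isCompact_Icc.exists_isMinOn (nonempty_Icc.2 hIle.le) (hcτ.sub hcm)
  have hmin' : ∀ y ∈ Icc η (π - η), (x θ₀).1 - τm θ₀ ≤ (x y).1 - τm y := fun y hy => hmin hy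
  have hg0 : (x θ₀).1 - τm θ₀ < 0 := by
    have := hmin' θ₁ hθ₁
    linarith
  have hlt0 : (x θ₀).1 < τm θ₀ := by linarith
  -- the left end point
  have hne1 : θ₀ ≠ η := by
    intro h
    subst h
    obtain ⟨μ, hμ, hd⟩ := hη
    have e : (vf f τm τp N θ₀ (x θ₀)).1 = 0 := by
      rw [OdE_vf S (hIsub hθ₀) hlt0]
      simp [ha]
    have h2 := (hτ θ₀ hθ₀).sub hd.hasDerivWithinAt
    rw [e] at h2
    have := OdE_right_nonneg hIle h2 hmin'
    linarith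
  have hne2 : θ₀ ≠ π - η := by
    intro h
    subst h
    obtain ⟨μ, hμ, hd⟩ := hη'
    have e : (vf f τm τp N (π - η) (x (π - η))).1 = 0 := by
      rw [OdE_vf S (hIsub hθ₀) hlt0]
      simp [hb]
    have h2 := (hτ (π - η) hθ₀).sub hd.hasDerivWithinAt
    rw [e] at h2
    have := OdE_left_nonpos hIle h2 hmin'
    linarith
  have hint : θ₀ ∈ Ioo η (π - η) := ⟨lt_of_le_of_ne hθ₀.1 (Ne.symm hne1), lt_of_le_of_ne hθ₀.2 hne2⟩
  have hnh : ∀ θ ∈ Ioo η (π - η), Icc η (π - η) ∈ 𝓝 θ := fun θ hθ => Icc_mem_nhds hθ.1 hθ.2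
  have hτ' : ∀ θ ∈ Ioo η (π - η), HasDerivAt (fun y => (x y).1) (vf f τm τp N θ (x θ)).1 θ :=
    fun θ hθ => (hτ θ (Ioo_subset_Icc_self hθ)).hasDerivAt (hnh θ hθ)
  have hw' : ∀ θ ∈ Ioo η (π - η), HasDerivAt (fun y => (x y).2) (vf f τm τp N θ (x θ)).2 θ :=
    fun θ hθ => (hw θ (Ioo_subset_Icc_self hθ)).hasDerivAt (hnh θ hθ)
  obtain ⟨δ, hδ, σ₁, m₁, σ₂, m₂, m₁', m₂', hl, hr, hder, hm1, hm2, hle, -, hH⟩ :=
    B.loc θ₀ (hIsub' hθ₀)
  -- a smaller radius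
  obtain ⟨ε, hε, hεδ, hε1, hε2⟩ : ∃ ε > 0, ε ≤ δ ∧ η ≤ θ₀ - ε ∧ θ₀ + ε ≤ π - η := by
    refine ⟨min δ (min (θ₀ - η) (π - η - θ₀)), ?_, min_le_left _ _, ?_, ?_⟩
    · exact lt_min hδ (lt_min (by linarith [hint.1]) (by linarith [hint.2]))
    · have := (min_le_right δ (min (θ₀ - η) (π - η - θ₀))).trans (min_le_left _ _)
      linarith
    · have := (min_le_right δ (min (θ₀ - η) (π - η - θ₀))).trans (min_le_right _ _)
      linarith
  have hθδ : θ₀ ∈ Icc (θ₀ - δ) (θ₀ + δ) := ⟨by linarith, by linarith⟩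
  obtain ⟨hσ1, hb1, hσ2, hb2⟩ := hder θ₀ hθδ
  have hσ1e : τm θ₀ = σ₁ θ₀ := hl θ₀ ⟨by linarith, le_refl _⟩
  have hσ2e : τm θ₀ = σ₂ θ₀ := hr θ₀ ⟨le_refl _, by linarith⟩
  -- one sided derivatives
  have hL : (vf f τm τp N θ₀ (x θ₀)).1 - m₁ θ₀ ≤ 0 := by
    refine OdE_left_nonpos (g := fun y => (x y).1 - σ₁ y) (a := θ₀ - ε) (by linarith)
      ((hτ' θ₀ hint).sub hσ1).hasDerivWithinAt ?_
    intro y hy
    have h2 := hmin' y ⟨by linarith [hy.1], by linarith [hy.2]⟩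
    rw [hl y ⟨by linarith [hy.1], hy.2⟩] at h2
    rw [hσ1e] at h2
    exact h2
  have hR : 0 ≤ (vf f τm τp N θ₀ (x θ₀)).1 - m₂ θ₀ := by
    refine OdE_right_nonneg (g := fun y => (x y).1 - σ₂ y) (b := θ₀ + ε) (by linarith)
      ((hτ' θ₀ hint).sub hσ2).hasDerivWithinAt ?_
    intro y hy
    have h2 := hmin' y ⟨by linarith [hy.1], by linarith [hy.2]⟩
    rw [hr y ⟨hy.1, by linarith [hy.2]⟩] at h2
    rw [hσ2e] at h2
    exact h2
  have hτeq : (vf f τm τp N θ₀ (x θ₀)).1 = m₂ θ₀ := by linarith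
  have hrng : ∀ y ∈ Icc η (π - η), τm y ∈ Ioo 0 π := fun y hy =>
    ⟨(S.rng y (hIsub hy)).1, ((S.rng y (hIsub hy)).2.1).trans (S.rng y (hIsub hy)).2.2⟩
  have hF0 : 0 < FF f (τm θ₀) θ₀ := OdE_FFpos S.pos (hrng θ₀ hθ₀) (hIsub' hθ₀)
  -- the value of w
  have hweq : (x θ₀).2 = FF f (σ₂ θ₀) θ₀ * m₂ θ₀ / √(1 - m₂ θ₀ ^ 2) := by
    rw [← hσ2e]
    refine OdE_phi_inj hF0 ?_
    rw [OdE_slope' hF0 hb2, ← hτeq, OdE_vf S (hIsub hθ₀) hlt0]
  have hσrng : σ₂ θ₀ ∈ Ioo 0 π := hσ2e ▸ hrng θ₀ hθ₀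
  obtain ⟨W', hW, hWgt⟩ := W_deriv S.sm S.pos (hIsub' hθ₀) hσrng hσ2 hm2 hb2 (hσ2e ▸ hH)
  have hw2 : (vf f τm τp N θ₀ (x θ₀)).2 < W' := by
    rw [OdE_vf S (hIsub hθ₀) hlt0]
    have h2 := OdE_pen S.hN hg0
    have h3 : FF f (τm θ₀) θ₀ / √(FF f (τm θ₀) θ₀ ^ 2 + (x θ₀).2 ^ 2) = √(1 - m₂ θ₀ ^ 2) := by
      rw [hweq, ← hσ2e, OdE_slope hF0 hb2]
      have h1 : 0 < 1 - m₂ θ₀ ^ 2 := by
        have := abs_lt.1 hb2
        nlinarith
      have hs : 0 < √(1 - m₂ θ₀ ^ 2) := sqrt_pos.2 h1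
      field_simp
    have h4 : -(dt (FF f) (τm θ₀) θ₀) * FF f (τm θ₀) θ₀ / √(FF f (τm θ₀) θ₀ ^ 2 + (x θ₀).2 ^ 2)
        = -(dt (FF f) (τm θ₀) θ₀) * √(1 - m₂ θ₀ ^ 2) := by
      rw [mul_div_assoc, h3]
    show -(dt (FF f) (τm θ₀) θ₀) * FF f (τm θ₀) θ₀ / √(FF f (τm θ₀) θ₀ ^ 2 + (x θ₀).2 ^ 2)
      + pen N ((x θ₀).1 - τm θ₀) < W'
    rw [h4, hσ2e]
    rw [← hσ2e] at hWgt ⊢
    linarith
  -- w < W to the right of θ₀
  have hdiff := (hw' θ₀ hint).sub hW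
  have hev : ∀ᶠ y in 𝓝[>] θ₀, (x y).2 < FF f (σ₂ y) y * m₂ y / √(1 - m₂ y ^ 2) := by
    have h2 := (hasDerivAt_iff_tendsto_slope.1 hdiff).mono_left
      (nhdsWithin_mono θ₀ (fun y (hy : θ₀ < y) => hy.ne'))
    have h3 : ∀ᶠ y in 𝓝[>] θ₀, slope
        ((fun y => (x y).2) - fun x => FF f (σ₂ x) x * m₂ x / √(1 - m₂ x ^ 2)) θ₀ y < 0 :=
      h2.eventually (gt_mem_nhds (by linarith))
    filter_upwards [h3, self_mem_nhdsWithin] with y hy hy'
    rw [slope_def_field] at hy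
    have h4 : (0 : ℝ) < y - θ₀ := sub_pos.2 hy'
    rw [div_lt_iff₀ h4, zero_mul] at hy
    simp only [Pi.sub_apply] at hy
    rw [hweq] at hy
    linarith
  -- g stays negative
  have hevg : ∀ᶠ y in 𝓝[>] θ₀, (x y).1 < σ₂ y := by
    have h2 : ContinuousAt (fun y => (x y).1 - σ₂ y) θ₀ :=
      (hτ' θ₀ hint).continuousAt.sub hσ2.continuousAt
    have h3 : (fun y => (x y).1 - σ₂ y) θ₀ < 0 := by
      show (x θ₀).1 - σ₂ θ₀ < 0
      rw [← hσ2e]; exact hg0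
    have h4 := (h2.eventually (gt_mem_nhds h3)).filter_mono (nhdsWithin_le_nhds (s := Ioi θ₀))
    filter_upwards [h4] with y hy
    linarith
  obtain ⟨b, hb', hbs⟩ := (mem_nhdsGT_iff_exists_Ioo_subset (a := θ₀)).1 (hev.and hevg)
  set d := min b (θ₀ + ε) with hd
  have hd0 : θ₀ < d := lt_min hb' (by linarith)
  have hanti : StrictAntiOn (fun y => (x y).1 - σ₂ y) (Icc θ₀ d) := by
    refine strictAntiOn_of_deriv_neg (convex_Icc _ _) ?_ ?_
    · intro y hy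
      have hy2 : y ∈ Icc η (π - η) :=
        ⟨by linarith [hy.1], by linarith [hy.2, min_le_right b (θ₀ + ε)]⟩
      have hyδ : y ∈ Icc (θ₀ - δ) (θ₀ + δ) :=
        ⟨by linarith [hy.1], by linarith [hy.2, min_le_right b (θ₀ + ε)]⟩
      have h2 : ContinuousWithinAt (fun y => (x y).1) (Icc θ₀ d) y := by
        refine (hcτ y hy2).mono ?_
        intro z hz
        exact ⟨by linarith [hz.1], by linarith [hz.2, min_le_right b (θ₀ + ε)]⟩
      exact h2.sub (hder y hyδ).2.2.1.continuousAt.continuousWithinAt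
    · intro y hy
      rw [interior_Icc] at hy
      have hdb := min_le_left b (θ₀ + ε)
      have hde := min_le_right b (θ₀ + ε)
      have hy2 : y ∈ Ioo η (π - η) := ⟨by linarith [hy.1], by linarith [hy.2]⟩
      have hyδ : y ∈ Icc (θ₀ - δ) (θ₀ + δ) := ⟨by linarith [hy.1], by linarith [hy.2]⟩
      obtain ⟨hw3, hg3⟩ := hbs ⟨hy.1, by linarith [hy.2]⟩
      have hτy : τm y = σ₂ y := hr y ⟨hy.1.le, by linarith [hy.2]⟩
      have hFy : 0 < FF f (σ₂ y) y := by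
        have := OdE_FFpos S.pos (hrng y (Ioo_subset_Icc_self hy2)) (hIsub' (Ioo_subset_Icc_self hy2))
        rwa [hτy] at this
      have h2 := (hτ' y hy2).sub (hder y hyδ).2.2.1
      have h3 : deriv (fun y => (x y).1 - σ₂ y) y = (vf f τm τp N y (x y)).1 - m₂ y := h2.deriv
      rw [h3, OdE_vf S (hIsub (Ioo_subset_Icc_self hy2)) (by rw [hτy]; exact hg3), hτy]
      have h4 := OdE_phi_mono hFy hw3
      rw [OdE_slope' hFy (hder y hyδ).2.2.2] at h4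
      show (x y).2 / √(FF f (σ₂ y) y ^ 2 + (x y).2 ^ 2) - m₂ y < 0
      linarith
  have h2 := hanti (left_mem_Icc.2 hd0.le) (right_mem_Icc.2 hd0.le) hd0
  have hde := min_le_right b (θ₀ + ε)
  have h3 := hmin' d ⟨by linarith [hint.1], by linarith⟩
  rw [hr d ⟨hd0.le, by linarith⟩, hσ2e] at h3
  simp only at h2
  linarith

end GS
end

section

open Real Set
open scoped NNReal

namespace GS

private theorem OdF_mem {t : ℝ} (ht : t ∈ Ioo 0 π) : π - t ∈ Ioo 0 π :=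
  ⟨by linarith [ht.2], by linarith [ht.1]⟩

private theorem OdF_dt (f : ℝ → ℝ → ℝ) (t ζ : ℝ) :
    dt (fun t ζ => f (π - t) ζ) t ζ = -dt f (π - t) ζ := by
  unfold dt
  exact deriv_comp_const_sub (f := fun s => f s ζ) π t

/-- Time reversal of the setting: `f^s(t, ζ) = f(π - t, ζ)`, `τm^s = π - τp`, `τp^s = π - τm`. -/
theorem Setg.rev {f : ℝ → ℝ → ℝ} {τm τp : ℝ → ℝ} {N c : ℝ} (S : Setg f τm τp N c) :
    Setg (fun t ζ => f (π - t) ζ) (fun θ => π - τp θ) (fun θ => π - τm θ) N c where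
  sm := by
    have h1 : ContDiff ℝ (⊤ : ℕ∞) (fun p : ℝ × ℝ => (π - p.1, p.2)) := by fun_prop
    have h2 := S.sm.comp (h1.contDiffOn (s := Ioo 0 π ×ˢ (univ : Set ℝ)))
      (fun p hp => ⟨OdF_mem hp.1, mem_univ _⟩)
    exact h2
  pos t ht ζ := S.pos _ (OdF_mem ht) ζ
  lipm x hx y hy := by
    have h := S.lipp x hx y hy
    have e : (π - τp x) - (π - τp y) = -(τp x - τp y) := by ring
    show |(π - τp x) - (π - τp y)| ≤ |x - y|
    rw [e, abs_neg]
    exact h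
  lipp x hx y hy := by
    have h := S.lipm x hx y hy
    have e : (π - τm x) - (π - τm y) = -(τm x - τm y) := by ring
    show |(π - τm x) - (π - τm y)| ≤ |x - y|
    rw [e, abs_neg]
    exact h
  rng x hx := by
    have h := S.rng x hx
    exact ⟨by linarith [h.2.2], by linarith [h.2.1], by linarith [h.1]⟩
  hN := S.hN
  hc := S.hc
  ft x hx t ht := by
    rw [OdF_dt, abs_neg]
    exact S.ft x hx _ ⟨by linarith [ht.2], by linarith [ht.1]⟩
  fc x hx t ht := S.fc x hx _ ⟨by linarith [ht.2], by linarith [ht.1]⟩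

/-- `p` and `q` of the reversed density: `p^s(t, θ) = -p(π - t, θ)`, `q^s(t, θ) = q(π - t, θ)`. -/
theorem pF_rev {f : ℝ → ℝ → ℝ} : pF (fun t ζ => f (π - t) ζ) = fun t θ => -pF f (π - t) θ := by
  funext t θ
  have h1 : FF (fun t ζ => f (π - t) ζ) = fun t ζ => FF f (π - t) ζ := rfl
  unfold pF
  rw [h1, OdF_dt]
  exact neg_div _ _

theorem qF_rev {f : ℝ → ℝ → ℝ} : qF (fun t ζ => f (π - t) ζ) = fun t θ => qF f (π - t) θ := rfl

private theorem OdF_clamp {τm τp : ℝ → ℝ} {θ : ℝ} (h : τm θ ≤ τp θ) (x : ℝ) :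
    clamp (fun θ => π - τp θ) (fun θ => π - τm θ) θ (π - x) = π - clamp τm τp θ x := by
  unfold clamp
  show max (π - τp θ) (min (π - τm θ) (π - x)) = π - max (τm θ) (min (τp θ) x)
  rcases le_total x (τm θ) with h1 | h1
  · rw [min_eq_left (by linarith : π - τm θ ≤ π - x), max_eq_right (by linarith),
      min_eq_right (h1.trans h), max_eq_left h1]
  · rw [min_eq_right (by linarith : π - x ≤ π - τm θ)]
    rcases le_total x (τp θ) with h2 | h2
    · rw [max_eq_right (by linarith), min_eq_right h2, max_eq_right h1]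
    · rw [max_eq_left (by linarith), min_eq_left h2, max_eq_right h]

private theorem OdF_pen {N : ℝ} (hN : 0 ≤ N) (y : ℝ) : pen N (-y) = -pen N y := by
  unfold pen
  have e : (N + 1) * -y = -((N + 1) * y) := by ring
  rw [e]
  rcases le_total ((N + 1) * y) (N + 1) with h1 | h1
  · rw [min_eq_right h1]
    rcases le_total (-(N + 1)) ((N + 1) * y) with h2 | h2
    · rw [max_eq_right h2, min_eq_right (by linarith), max_eq_right (by linarith)]
    · rw [max_eq_left h2, min_eq_left (by linarith), max_eq_right (by linarith)]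
      ring
  · have a1 : min (N + 1) (-((N + 1) * y)) = -((N + 1) * y) := min_eq_right (by linarith)
    have a2 : max (-(N + 1)) (-((N + 1) * y)) = -(N + 1) := max_eq_left (by linarith)
    have a3 : max (-(N + 1)) (N + 1) = N + 1 := max_eq_right (by linarith)
    rw [min_eq_left h1, a1, a2, a3]

private theorem OdF_vf {f : ℝ → ℝ → ℝ} {τm τp : ℝ → ℝ} {N : ℝ} (hN : 0 ≤ N) {θ : ℝ}
    (h : τm θ ≤ τp θ) (z : ℝ × ℝ) :
    vf (fun t ζ => f (π - t) ζ) (fun θ => π - τp θ) (fun θ => π - τm θ) N θ (π - z.1, -z.2) =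
      (-(vf f τm τp N θ z).1, -(vf f τm τp N θ z).2) := by
  unfold vf
  simp only [OdF_clamp h, OdF_dt]
  have h1 : FF (fun t ζ => f (π - t) ζ) (π - clamp τm τp θ z.1) θ = FF f (clamp τm τp θ z.1) θ := by
    show f (π - (π - clamp τm τp θ z.1)) (cos θ) * sin θ = f (clamp τm τp θ z.1) (cos θ) * sin θ
    rw [sub_sub_cancel]
  have h2 : π - z.1 - (π - clamp τm τp θ z.1) = -(z.1 - clamp τm τp θ z.1) := by ring
  rw [h1, sub_sub_cancel, h2, OdF_pen hN, neg_sq]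
  refine Prod.ext ?_ ?_
  · show -z.2 / _ = -(z.2 / _)
    rw [neg_div]
  · show -(-dt f (clamp τm τp θ z.1) (cos θ) * sin θ) * _ / _ + -pen N _ = -(_ + _)
    ring

/-- TASK OdF. Comparison with the upper barrier, by time reversal: if `(τ, w)` solves the truncated
equation for `f, τm, τp` then `(π - τ, -w)` solves it for `f^s, π - τp, π - τm`
(`clamp^s θ (π - x) = π - clamp θ x`, `pen` is odd, `dt f^s t ζ = -dt f (π - t) ζ`). Apply
`compare_lower`. -/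
theorem compare_upper {f : ℝ → ℝ → ℝ} {τm τp : ℝ → ℝ} {N c : ℝ} (S : Setg f τm τp N c)
    (B : LBar (fun t θ => -pF f (π - t) θ) (fun t θ => qF f (π - t) θ) (fun θ => π - τp θ))
    {η : ℝ} (h0 : 0 < η) (h1 : η < π / 2)
    (hη : ∃ μ > 0, HasDerivAt (fun θ => π - τp θ) μ η)
    (hη' : ∃ μ < 0, HasDerivAt (fun θ => π - τp θ) μ (π - η))
    {x : ℝ → ℝ × ℝ} (hx : Sol (vf f τm τp N) η (π - η) x) (ha : (x η).2 = 0)
    (hb : (x (π - η)).2 = 0) : ∀ θ ∈ Icc η (π - η), (x θ).1 ≤ τp θ := by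
  have hB : LBar (pF (fun t ζ => f (π - t) ζ)) (qF (fun t ζ => f (π - t) ζ)) (fun θ => π - τp θ) := by
    rw [pF_rev, qF_rev]
    exact B
  have hS : Sol (vf (fun t ζ => f (π - t) ζ) (fun θ => π - τp θ) (fun θ => π - τm θ) N) η (π - η)
      (fun θ => (π - (x θ).1, -(x θ).2)) := by
    intro θ hθ
    have hθ' : θ ∈ Icc 0 π := ⟨h0.le.trans hθ.1, by linarith [hθ.2]⟩
    rw [OdF_vf S.hN (S.rng θ hθ').2.1.le (x θ)]
    have h2 := hx θ hθ
    have h3 : HasDerivWithinAt (fun θ => (x θ).1) (vf f τm τp N θ (x θ)).1 (Icc η (π - η)) θ :=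
      (ContinuousLinearMap.fst ℝ ℝ ℝ).hasFDerivAt.comp_hasDerivWithinAt θ h2
    have h4 : HasDerivWithinAt (fun θ => (x θ).2) (vf f τm τp N θ (x θ)).2 (Icc η (π - η)) θ :=
      (ContinuousLinearMap.snd ℝ ℝ ℝ).hasFDerivAt.comp_hasDerivWithinAt θ h2
    exact (h3.const_sub π).prodMk h4.neg
  intro θ hθ
  have h5 := compare_lower S.rev hB h0 h1 hη hη' hS (by simp [ha]) (by simp [hb]) θ hθ
  have h6 : π - τp θ ≤ π - (x θ).1 := h5
  linarith

end GS
end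

section

open Real Set
open scoped NNReal

namespace GS

private theorem OdG_pen_zero {N : ℝ} (hN : 0 ≤ N) : pen N 0 = 0 := by
  unfold pen
  rw [mul_zero, min_eq_right (by linarith), max_eq_right (by linarith)]

private theorem OdG_clamp {τm τp : ℝ → ℝ} {θ y : ℝ} (h1 : τm θ ≤ y) (h2 : y ≤ τp θ) :
    clamp τm τp θ y = y := by
  unfold clamp
  rw [min_eq_right h2, max_eq_right h1]

/-- The second component of the field at a point between the barriers is at most `N sin θ`. -/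
private theorem OdG_bound {f : ℝ → ℝ → ℝ} {τm τp : ℝ → ℝ} {N c : ℝ} (S : Setg f τm τp N c)
    {θ : ℝ} (hθ : θ ∈ Icc 0 π) {z : ℝ × ℝ} (h1 : τm θ ≤ z.1) (h2 : z.1 ≤ τp θ) :
    |(vf f τm τp N θ z).2| ≤ N * sin θ := by
  have hs : 0 ≤ sin θ := sin_nonneg_of_mem_Icc hθ
  have hv : (vf f τm τp N θ z).2 =
      -(dt f z.1 (cos θ) * sin θ) * FF f z.1 θ / √(FF f z.1 θ ^ 2 + z.2 ^ 2) := by
    unfold vf
    simp only [OdG_clamp h1 h2, sub_self, OdG_pen_zero S.hN, add_zero]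
  rw [hv]
  have hft : |dt f z.1 (cos θ)| ≤ N := S.ft θ hθ z.1 ⟨h1, h2⟩
  have hq : |FF f z.1 θ / √(FF f z.1 θ ^ 2 + z.2 ^ 2)| ≤ 1 := by
    rw [abs_div, abs_of_nonneg (sqrt_nonneg _)]
    apply div_le_one_of_le₀ _ (sqrt_nonneg _)
    apply Real.abs_le_sqrt
    nlinarith [sq_nonneg z.2]
  rw [mul_div_assoc, abs_mul, abs_neg, abs_mul, abs_of_nonneg hs]
  calc |dt f z.1 (cos θ)| * sin θ * |FF f z.1 θ / √(FF f z.1 θ ^ 2 + z.2 ^ 2)|
      ≤ (N * sin θ) * 1 := by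
        apply mul_le_mul _ hq (abs_nonneg _) (mul_nonneg S.hN hs)
        exact mul_le_mul_of_nonneg_right hft hs
    _ = N * sin θ := mul_one _

/-- The integrated bound. -/
private theorem OdG_int {N η : ℝ} (hN : 0 ≤ N) (h1 : η < π / 2) {w w' : ℝ → ℝ}
    (hw : ∀ θ ∈ Icc η (π - η), HasDerivWithinAt w (w' θ) (Icc η (π - η)) θ)
    (hb : ∀ θ ∈ Icc η (π - η), |w' θ| ≤ N * sin θ) (ha : w η = 0) (hb' : w (π - η) = 0) :
    ∀ θ ∈ Icc η (π - η), |w θ| ≤ N * sin θ ^ 2 := by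
  have hI : interior (Icc η (π - η)) ⊆ Icc η (π - η) := interior_subset
  have hmem : η ∈ Icc η (π - η) := ⟨le_rfl, by linarith⟩
  have hmem' : π - η ∈ Icc η (π - η) := ⟨by linarith, le_rfl⟩
  have hcont : ContinuousOn w (Icc η (π - η)) := fun θ hθ => (hw θ hθ).continuousWithinAt
  have hmono : MonotoneOn (fun θ => w θ - N * cos θ) (Icc η (π - η)) := by
    apply monotoneOn_of_hasDerivWithinAt_nonneg (f' := fun θ => w' θ - N * (-sin θ))
      (convex_Icc _ _)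
    · exact hcont.sub (continuousOn_const.mul continuous_cos.continuousOn)
    · intro θ hθ
      exact ((hw θ (hI hθ)).mono hI).sub ((hasDerivAt_cos θ).hasDerivWithinAt.const_mul N)
    · intro θ hθ
      have := (abs_le.1 (hb θ (hI hθ))).1
      linarith
  have hanti : AntitoneOn (fun θ => w θ + N * cos θ) (Icc η (π - η)) := by
    apply antitoneOn_of_hasDerivWithinAt_nonpos (f' := fun θ => w' θ + N * (-sin θ))
      (convex_Icc _ _)
    · exact hcont.add (continuousOn_const.mul continuous_cos.continuousOn)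
    · intro θ hθ
      exact ((hw θ (hI hθ)).mono hI).add ((hasDerivAt_cos θ).hasDerivWithinAt.const_mul N)
    · intro θ hθ
      have := (abs_le.1 (hb θ (hI hθ))).2
      linarith
  intro θ hθ
  have e1 := hanti hmem hθ hθ.1
  have e2 := hanti hθ hmem' hθ.2
  have e3 := hmono hmem hθ hθ.1
  have e4 := hmono hθ hmem' hθ.2
  simp only [ha, hb', cos_pi_sub] at e1 e2 e3 e4
  have hc1 : N * cos η ≤ N := by nlinarith [cos_le_one η]
  have hA : |w θ| ≤ N * (1 - cos θ) := abs_le.2 ⟨by nlinarith, by nlinarith⟩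
  have hB : |w θ| ≤ N * (1 + cos θ) := abs_le.2 ⟨by nlinarith, by nlinarith⟩
  have hsin : sin θ ^ 2 = (1 - cos θ) * (1 + cos θ) := by nlinarith [sin_sq_add_cos_sq θ]
  have hcle : cos θ ≤ 1 := cos_le_one θ
  have hcge : -1 ≤ cos θ := neg_one_le_cos θ
  rw [hsin]
  rcases le_total 0 (cos θ) with hc | hc
  · calc |w θ| ≤ N * (1 - cos θ) := hA
      _ ≤ N * ((1 - cos θ) * (1 + cos θ)) := by
        apply mul_le_mul_of_nonneg_left _ hN
        nlinarith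
  · calc |w θ| ≤ N * (1 + cos θ) := hB
      _ ≤ N * ((1 - cos θ) * (1 + cos θ)) := by
        apply mul_le_mul_of_nonneg_left _ hN
        nlinarith

/-- TASK OdG. For all small `η` there is a solution of the maximal hypersurface equation on
`[η, π - η]` between the barriers with the bound `|w| ≤ N sin²`.

Proof. `η` smaller than the four `δ` of `B.end0`, `B.end1` (both barriers) and `< π/2`.
`vf_good`, `shooting` (with `vf_one`, `vf_pos`, `vf_neg`, `Xp = π + 1`, `Xm = -1`), `compare_lower`,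
`compare_upper` give `(τ, w)` with `τm ≤ τ ≤ τp`, so `clamp = τ`, the penalty is `0`. From
`|w'| ≤ |F_t| ≤ N sin θ` and `w(η) = w(π - η) = 0`: `|w(θ)| ≤ N (cos η - cos θ) ≤ N (1 - cos θ)` and
`|w(θ)| ≤ N (1 + cos θ)`; the product of `1 - cos θ`, `1 + cos θ` is `sin² θ` and one of them is `≥ 1`, so
`|w(θ)| ≤ N sin² θ`. -/
theorem exists_approx {f : ℝ → ℝ → ℝ} {τm τp : ℝ → ℝ} {N c : ℝ} (S : Setg f τm τp N c)
    (B : LBar (pF f) (qF f) τm)
    (B' : LBar (fun t θ => -pF f (π - t) θ) (fun t θ => qF f (π - t) θ) (fun θ => π - τp θ)) :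
    ∃ η₀ > 0, η₀ < π / 2 ∧ ∀ η ∈ Ioo 0 η₀, ∃ x : ℝ → ℝ × ℝ, Sol (vf f τm τp N) η (π - η) x ∧
      ∀ θ ∈ Icc η (π - η), τm θ ≤ (x θ).1 ∧ (x θ).1 ≤ τp θ ∧ |(x θ).2| ≤ N * sin θ ^ 2 := by
  obtain ⟨δ₁, hδ₁, H₁⟩ := B.end0
  obtain ⟨δ₂, hδ₂, H₂⟩ := B.end1
  obtain ⟨δ₃, hδ₃, H₃⟩ := B'.end0
  obtain ⟨δ₄, hδ₄, H₄⟩ := B'.end1
  have hpi := Real.pi_pos
  refine ⟨min (min δ₁ δ₂) (min (min δ₃ δ₄) (π / 4)), ?_, ?_, ?_⟩
  · exact lt_min (lt_min hδ₁ hδ₂) (lt_min (lt_min hδ₃ hδ₄) (by linarith))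
  · calc min (min δ₁ δ₂) (min (min δ₃ δ₄) (π / 4)) ≤ π / 4 :=
        le_trans (min_le_right _ _) (min_le_right _ _)
      _ < π / 2 := by linarith
  · intro η hη
    have h0 : 0 < η := hη.1
    have l1 : η < δ₁ := lt_of_lt_of_le hη.2 (le_trans (min_le_left _ _) (min_le_left _ _))
    have l2 : η < δ₂ := lt_of_lt_of_le hη.2 (le_trans (min_le_left _ _) (min_le_right _ _))
    have l3 : η < δ₃ := lt_of_lt_of_le hη.2
      (le_trans (min_le_right _ _) (le_trans (min_le_left _ _) (min_le_left _ _)))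
    have l4 : η < δ₄ := lt_of_lt_of_le hη.2
      (le_trans (min_le_right _ _) (le_trans (min_le_left _ _) (min_le_right _ _)))
    have l5 : η < π / 4 := lt_of_lt_of_le hη.2 (le_trans (min_le_right _ _) (min_le_right _ _))
    have h1 : η < π / 2 := by linarith
    have hsub : ∀ θ ∈ Icc η (π - η), θ ∈ Icc 0 π := fun θ hθ =>
      ⟨by linarith [hθ.1], by linarith [hθ.2]⟩
    obtain ⟨K, L, hgood⟩ := vf_good S h0 h1
    obtain ⟨x, hx, ha, hb⟩ := shooting (by linarith : η < π - η) hgood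
      (fun θ hθ z => vf_one S (hsub θ hθ) z) (Xm := -1) (Xp := π + 1)
      (fun θ hθ y w hy => vf_pos S (hsub θ hθ) hy) (fun θ hθ y w hy => vf_neg S (hsub θ hθ) hy)
    have hlow := compare_lower S B h0 h1 (H₁ η ⟨h0, l1⟩)
      (H₂ (π - η) ⟨by linarith, by linarith⟩) hx ha hb
    have hupp := compare_upper S B' h0 h1 (H₃ η ⟨h0, l3⟩)
      (H₄ (π - η) ⟨by linarith, by linarith⟩) hx ha hb
    refine ⟨x, hx, fun θ hθ => ⟨hlow θ hθ, hupp θ hθ, ?_⟩⟩
    exact OdG_int S.hN h1 (w := fun θ => (x θ).2) (w' := fun θ => (vf f τm τp N θ (x θ)).2)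
      (fun t ht => (hasFDerivAt_snd (𝕜 := ℝ) (E := ℝ) (F := ℝ) (p := x t)).comp_hasDerivWithinAt t
        (hx t ht))
      (fun t ht => OdG_bound S (hsub t ht) (hlow t ht) (hupp t ht)) ha hb θ hθ

end GS
end

section

open Real Set Filter
open scoped NNReal Topology

namespace GS

/-- TASK OdH. Limit `η → 0`. There are `τ, w` on `(0, π)` with `τm ≤ τ ≤ τp`, `|w| ≤ N sin²` and
`τ' = w/√(F² + w²)`, `w' = -F_t F/√(F² + w²)`.

Proof. Let `η_n → 0`, `x_n` from `exists_approx`. `x_n(π/2)` is bounded (`τ ∈ [0, π]`, `|w| ≤ N`), pass to a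
subsequence with `x_n(π/2) → x*`. For every `δ ∈ (0, η₀)` the field is good on `[δ, π - δ]`
(`vf_good`), let `y_δ` be the solution on `[δ, π - δ]` with `y_δ(π/2) = x*` (`Good.exists_sol`). For `n`
large `η_n < δ`, `x_n` restricted to `[δ, π - δ]` is a solution (`HasDerivWithinAt.mono`) and
`dist (x_n θ) (y_δ θ) ≤ dist (x_n(π/2)) x* · exp(K |θ - π/2|) → 0` (`Good.dist_le`), so `x_n θ → y_δ θ`
for all `θ ∈ [δ, π - δ]`. Hence the pointwise limit `x` of `x_n` exists on `(0, π)`, agrees with `y_δ` on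
`[δ, π - δ]` and so has the right derivative at interior points; the inequalities pass to the
limit; `clamp τ = τ` and the penalty is `0`. -/
theorem exists_limit {f : ℝ → ℝ → ℝ} {τm τp : ℝ → ℝ} {N c : ℝ} (S : Setg f τm τp N c)
    (B : LBar (pF f) (qF f) τm)
    (B' : LBar (fun t θ => -pF f (π - t) θ) (fun t θ => qF f (π - t) θ) (fun θ => π - τp θ)) :
    ∃ τ w : ℝ → ℝ, ∀ θ ∈ Ioo 0 π, τm θ ≤ τ θ ∧ τ θ ≤ τp θ ∧ |w θ| ≤ N * sin θ ^ 2 ∧
      HasDerivAt τ (w θ / √(FF f (τ θ) θ ^ 2 + w θ ^ 2)) θ ∧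
      HasDerivAt w (-(dt f (τ θ) (cos θ) * sin θ) * FF f (τ θ) θ /
        √(FF f (τ θ) θ ^ 2 + w θ ^ 2)) θ := by
  obtain ⟨η₀, hη₀, hη₁, H⟩ := exists_approx S B B'
  set η : ℕ → ℝ := fun n => η₀ / (n + 2) with hηdef
  have hηpos : ∀ n, 0 < η n := fun n => by simp only [hηdef]; positivity
  have hηlt : ∀ n, η n < η₀ := fun n => by
    simp only [hηdef]
    rw [div_lt_iff₀ (by positivity)]
    nlinarith [(Nat.cast_nonneg n : (0 : ℝ) ≤ n)]
  have hηlim : Tendsto η atTop (𝓝 0) := by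
    have h1 : Tendsto (fun n : ℕ => ((n : ℝ) + 2)) atTop atTop :=
      tendsto_atTop_add_const_right _ _ tendsto_natCast_atTop_atTop
    exact h1.const_div_atTop η₀
  choose x hsol hx using fun n => H (η n) ⟨hηpos n, hηlt n⟩
  have hpi : 0 < π := Real.pi_pos
  have hmid : ∀ δ, δ < η₀ → π / 2 ∈ Icc δ (π - δ) := fun δ hδ =>
    ⟨by linarith, by linarith⟩
  -- compactness
  have hmem : ∀ n, x n (π / 2) ∈ Icc (0 : ℝ) π ×ˢ Icc (-N) N := by
    intro n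
    obtain ⟨h1, h2, h3⟩ := hx n (π / 2) (hmid _ (hηlt n))
    obtain ⟨r1, r2, r3⟩ := S.rng (π / 2) ⟨by linarith, by linarith⟩
    rw [Real.sin_pi_div_two, one_pow, mul_one, abs_le] at h3
    exact ⟨⟨by linarith, by linarith⟩, h3⟩
  obtain ⟨zs, -, φ, hφ, hlim⟩ := (isCompact_Icc.prod isCompact_Icc).tendsto_subseq hmem
  -- the local solutions
  have hY : ∀ δ, 0 < δ → δ < η₀ → ∃ Y : ℝ → ℝ × ℝ, Sol (vf f τm τp N) δ (π - δ) Y ∧
      ∀ θ ∈ Icc δ (π - δ), Tendsto (fun n => x (φ n) θ) atTop (𝓝 (Y θ)) := by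
    intro δ hδ hδ'
    obtain ⟨K, L, hG⟩ := vf_good S hδ (hδ'.trans hη₁)
    obtain ⟨Y, hY0, hYs⟩ := hG.exists_sol (hmid δ hδ') zs
    refine ⟨Y, hYs, fun θ hθ => ?_⟩
    rw [tendsto_iff_dist_tendsto_zero]
    have hev : ∀ᶠ n in atTop, η (φ n) < δ :=
      (hηlim.comp hφ.tendsto_atTop).eventually (gt_mem_nhds hδ)
    have hdist : Tendsto (fun n => dist (x (φ n) (π / 2)) zs * exp (K * |θ - π / 2|)) atTop
        (𝓝 0) := by
      have h1 : Tendsto (fun n => dist (x (φ n) (π / 2)) zs) atTop (𝓝 0) :=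
        tendsto_iff_dist_tendsto_zero.1 hlim
      have h2 := h1.mul_const (exp (K * |θ - π / 2|))
      rwa [zero_mul] at h2
    refine squeeze_zero' (Eventually.of_forall fun n => dist_nonneg) ?_ hdist
    filter_upwards [hev] with n hn
    have hsub : Icc δ (π - δ) ⊆ Icc (η (φ n)) (π - η (φ n)) :=
      Icc_subset_Icc hn.le (by linarith)
    have hsol' : Sol (vf f τm τp N) δ (π - δ) (x (φ n)) := fun t ht =>
      (hsol (φ n) t (hsub ht)).mono hsub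
    have h1 := hG.dist_le hsol' hYs (hmid δ hδ') hθ
    rw [hY0] at h1
    exact h1
  -- the limit
  let X : ℝ → ℝ × ℝ := fun θ => limUnder atTop (fun n => x (φ n) θ)
  have hX : ∀ δ, 0 < δ → δ < η₀ → ∃ Y : ℝ → ℝ × ℝ, Sol (vf f τm τp N) δ (π - δ) Y ∧
      ∀ θ ∈ Icc δ (π - δ), X θ = Y θ ∧ Tendsto (fun n => x (φ n) θ) atTop (𝓝 (X θ)) := by
    intro δ hδ hδ'
    obtain ⟨Y, h1, h2⟩ := hY δ hδ hδ'
    refine ⟨Y, h1, fun θ hθ => ?_⟩
    have h3 : X θ = Y θ := (h2 θ hθ).limUnder_eq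
    exact ⟨h3, by rw [h3]; exact h2 θ hθ⟩
  refine ⟨fun θ => (X θ).1, fun θ => (X θ).2, fun θ hθ => ?_⟩
  obtain ⟨hθ0, hθ1⟩ := hθ
  set δ : ℝ := min (η₀ / 2) (min θ (π - θ) / 2) with hδdef
  have hmpos : 0 < min θ (π - θ) := lt_min hθ0 (by linarith)
  have hδ : 0 < δ := lt_min (by linarith) (by linarith)
  have hδ' : δ < η₀ := (min_le_left _ _).trans_lt (by linarith)
  have hδθ : δ < θ := by
    have h1 : δ ≤ min θ (π - θ) / 2 := min_le_right _ _
    have h2 : min θ (π - θ) ≤ θ := min_le_left _ _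
    linarith
  have hδθ' : θ < π - δ := by
    have h1 : δ ≤ min θ (π - θ) / 2 := min_le_right _ _
    have h2 : min θ (π - θ) ≤ π - θ := min_le_right _ _
    linarith
  obtain ⟨Y, hYs, hYX⟩ := hX δ hδ hδ'
  have hlimθ := (hYX θ ⟨hδθ.le, hδθ'.le⟩).2
  have hev : ∀ᶠ n in atTop, θ ∈ Icc (η (φ n)) (π - η (φ n)) := by
    filter_upwards [(hηlim.comp hφ.tendsto_atTop).eventually (gt_mem_nhds hδ)] with n hn
    have hn' : η (φ n) < δ := hn
    exact ⟨by linarith, by linarith⟩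
  have hl1 : Tendsto (fun n => (x (φ n) θ).1) atTop (𝓝 (X θ).1) :=
    (continuous_fst.tendsto _).comp hlimθ
  have hl2 : Tendsto (fun n => (x (φ n) θ).2) atTop (𝓝 (X θ).2) :=
    (continuous_snd.tendsto _).comp hlimθ
  have i1 : τm θ ≤ (X θ).1 := ge_of_tendsto hl1 (by
    filter_upwards [hev] with n hn
    exact (hx (φ n) θ hn).1)
  have i2 : (X θ).1 ≤ τp θ := le_of_tendsto hl1 (by
    filter_upwards [hev] with n hn
    exact (hx (φ n) θ hn).2.1)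
  have i3 : |(X θ).2| ≤ N * sin θ ^ 2 := le_of_tendsto hl2.abs (by
    filter_upwards [hev] with n hn
    exact (hx (φ n) θ hn).2.2)
  have hder : HasDerivAt X (vf f τm τp N θ (X θ)) θ := by
    have h1 : HasDerivAt Y (vf f τm τp N θ (Y θ)) θ :=
      (hYs θ ⟨hδθ.le, hδθ'.le⟩).hasDerivAt (Icc_mem_nhds hδθ hδθ')
    rw [← (hYX θ ⟨hδθ.le, hδθ'.le⟩).1] at h1
    refine h1.congr_of_eventuallyEq ?_
    filter_upwards [Icc_mem_nhds hδθ hδθ'] with s hs
    exact (hYX s hs).1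
  have hcl : clamp τm τp θ (X θ).1 = (X θ).1 := by
    unfold clamp
    rw [min_eq_right i2, max_eq_right i1]
  have hpen : pen N 0 = 0 := by
    unfold pen
    have hN := S.hN
    rw [mul_zero, min_eq_right (by linarith), max_eq_right (by linarith)]
  have hv : vf f τm τp N θ (X θ) =
      ((X θ).2 / √(FF f (X θ).1 θ ^ 2 + (X θ).2 ^ 2),
        -(dt f (X θ).1 (cos θ) * sin θ) * FF f (X θ).1 θ /
          √(FF f (X θ).1 θ ^ 2 + (X θ).2 ^ 2)) := by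
    unfold vf
    simp only [hcl, sub_self, hpen, add_zero]
  rw [hv] at hder
  refine ⟨i1, i2, i3, ?_, ?_⟩
  · exact (ContinuousLinearMap.fst ℝ ℝ ℝ).hasFDerivAt.comp_hasDerivAt θ hder
  · exact (ContinuousLinearMap.snd ℝ ℝ ℝ).hasFDerivAt.comp_hasDerivAt θ hder

end GS
end
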