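import Pool.Agent.Lib.MP_898b37_mp.GS.TrB
import Pool.Agent.Lib.MP_898b37_mp.GS.TrC
import Pool.Agent.Lib.MP_898b37_mp.Mg.G006
import Pool.Agent.Lib.MP_898b37_mp.GS.TrE
import Pool.Agent.Lib.MP_898b37_mp.GS.TrF
import Pool.Agent.Lib.MP_898b37_mp.Mg.G002
import Pool.Agent.Lib.MP_898b37_mp.Mg.G001
import Pool.Agent.Lib.MP_898b37_mp.Mg.G004
import Pool.Agent.Lib.MP_898b37_mp.Mg.G005
import Pool.Agent.Lib.MP_898b37_mp.Mg.G011
import Pool.Agent.Lib.MP_898b37_mp.Mg.G009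
import Pool.Agent.Lib.MP_898b37_mp.GS.Rej

section

open Real Set

namespace GS

/-- TASK TrG. Bound of `b = (q - p)/2` near the axis: `2θ ≤ t`, `u = t - θ ≤ 1/3`.

Proof. `θ ≤ u ≤ t ≤ 2u`, `v = t + θ ≤ 3u ≤ 1`. By `Dat.transport_b`,
`√(A(t, θ)) ≤ √(A(2u, u)) + (M + 2)/√(uθ)`; by `Dat.transport_a` at `(2u, u)` (`2u ≤ 3u`, `u ≤ 6u`,
`3u ≤ 1`, `2u - u = u`), `√(A(2u, u)) ≤ √A₁ + (20M + 80) u/(3u)² ≤ (1 + L) + (20 M + 80)/(9u)`,
`A₁ = A((1+u)/2, (1-u)/2) ≤ 1 + L`. As `1 ≤ 1/√(uθ)` and `1/u ≤ 1/√(uθ)` (`θ ≤ u ≤ 1`),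
`√A ≤ N/√(uθ)` with `N = 21 M + L + 90`, `A ≤ N²/(u θ)`.
`D.cu`: `(q - p)/2 = (A - cos u)/(2 sin u) + (3/8) sin u/R ≤ A/(2 sin u) + (3/8) sin u/R` (`cos u ≥ 0`),
`sin u ≥ (4/5) u`, `R ≥ (16/25) t θ`, `sin u ≤ u`:
`≤ (5/8) N²/(u² θ) + (3/4) u/(t θ) ≤ (5/4) N²/(u t θ) + 1/(u t θ)` because `t ≤ 2u` and `u² ≤ 1`.
So `C = 2 N² + 1` works. -/
theorem Dat.b3 (D : Dat) : ∃ C : ℝ, 1 ≤ C ∧ ∀ t θ, 0 < θ → 2 * θ ≤ t → t - θ ≤ 1 / 3 →
    (D.q t θ - D.p t θ) / 2 ≤ C / ((t - θ) * t * θ) := by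
  obtain ⟨L, hL0, hL⟩ := D.exists_L
  have hM := D.M_nonneg
  refine ⟨2 * (21 * D.M + L + 90) ^ 2 + 1, by nlinarith [sq_nonneg (21 * D.M + L + 90)], ?_⟩
  intro t θ hθ h1 h2
  obtain ⟨u, hu⟩ : ∃ u, u = t - θ := ⟨_, rfl⟩
  have htu : t = u + θ := by rw [hu]; ring
  have hθu : θ ≤ u := by linarith
  have hu0 : 0 < u := hθ.trans_le hθu
  have hu1 : u ≤ 1 / 3 := by rw [hu]; exact h2
  have ht0 : 0 < t := by linarith
  have htp : t ∈ Ioo 0 π := ⟨ht0, by linarith [Real.pi_gt_three]⟩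
  have hθp : θ ∈ Ioo 0 π := ⟨hθ, by linarith [Real.pi_gt_three]⟩
  -- the bound of `√A`
  have e1 := D.transport_b hθ h1 h2
  rw [← hu] at e1
  have e2 := D.transport_a (t := 2 * u) (θ := u) (by linarith) hu0 (by linarith) (by linarith)
    (by linarith)
  have e3 : 2 * u - u = u := by ring
  have e4 : 2 * u + u = 3 * u := by ring
  rw [e3, e4, abs_of_pos hu0] at e2
  have e5 := hL u (by rw [abs_of_pos hu0]; linarith)
  rw [abs_of_pos hu0] at e5
  have e6 : √(D.A ((1 + u) / 2) ((1 - u) / 2)) ≤ 1 + L := by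
    refine Real.sqrt_le_iff.2 ⟨by linarith, ?_⟩
    have h3 := (abs_le.1 e5).2
    have h4 : L * u ≤ L := by nlinarith
    nlinarith
  have hs0 : 0 < √(u * θ) := Real.sqrt_pos.2 (mul_pos hu0 hθ)
  have hs2 : √(u * θ) ^ 2 = u * θ := Real.sq_sqrt (mul_pos hu0 hθ).le
  have hsu : √(u * θ) ≤ u := by
    refine Real.sqrt_le_iff.2 ⟨hu0.le, ?_⟩
    nlinarith
  have e7 : (20 * D.M + 80) * u / (3 * u) ^ 2 * √(u * θ) ≤ 20 * D.M + 80 := by
    rw [div_mul_eq_mul_div, div_le_iff₀ (by positivity)]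
    have h3 : (20 * D.M + 80) * u * √(u * θ) ≤ (20 * D.M + 80) * u * u :=
      mul_le_mul_of_nonneg_left hsu (by positivity)
    have h4 : 0 ≤ (20 * D.M + 80) * (u * u) := by positivity
    nlinarith
  have e8 : √(D.A t θ) * √(u * θ) ≤ 21 * D.M + L + 90 := by
    have h3 := (abs_le.1 e1).2
    have h4 := (abs_le.1 e2).2
    have h5 : √(D.A t θ) ≤ (D.M + 2) / √(u * θ) + (20 * D.M + 80) * u / (3 * u) ^ 2 + (1 + L) := by
      linarith
    have h6 := mul_le_mul_of_nonneg_right h5 hs0.le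
    rw [add_mul, add_mul, div_mul_cancel₀ _ hs0.ne'] at h6
    have h7 : (1 + L) * √(u * θ) ≤ (1 + L) * 1 :=
      mul_le_mul_of_nonneg_left (hsu.trans (by linarith)) (by linarith)
    linarith
  have hA0 := D.nA t htp θ hθp
  have e9 : D.A t θ * (u * θ) ≤ (21 * D.M + L + 90) ^ 2 := by
    have h3 : D.A t θ * (u * θ) = (√(D.A t θ) * √(u * θ)) ^ 2 := by
      rw [mul_pow, hs2, Real.sq_sqrt hA0]
    rw [h3]
    exact pow_le_pow_left₀ (mul_nonneg (Real.sqrt_nonneg _) hs0.le) e8 2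
  have e10 : D.A t θ * (t * θ) ≤ 2 * (21 * D.M + L + 90) ^ 2 := by
    have h3 : t * θ ≤ 2 * (u * θ) := by nlinarith
    have h4 := mul_le_mul_of_nonneg_left h3 hA0
    nlinarith
  -- the formula for `q - p`
  have hcu := D.cu t htp θ hθp
  rw [← hu] at hcu
  have hS1 : (4 / 5) * u ≤ sin u := sin_lower hu0 (by linarith)
  have hS2 : sin u ≤ u := Real.sin_le hu0.le
  have hS0 : 0 < sin u := by linarith
  have hR := R_lower ht0 (by linarith) hθ (by linarith)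
  have htθ : 0 < t * θ := mul_pos ht0 hθ
  have hR0 : 0 < sin t * sin θ := by linarith
  have hcos : 0 ≤ cos u := Real.cos_nonneg_of_neg_pi_div_two_le_of_le
    (by linarith [Real.pi_gt_three]) (by linarith [Real.pi_gt_three])
  have e11 : sin u ^ 2 / (sin t * sin θ) * (t * θ) ≤ 1 := by
    rw [div_mul_eq_mul_div, div_le_iff₀ hR0]
    have h3 : sin u ^ 2 ≤ 1 / 9 := by nlinarith
    have h4 : sin u ^ 2 * (t * θ) ≤ 1 / 9 * (t * θ) := mul_le_mul_of_nonneg_right h3 htθ.le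
    linarith
  have e12 : sin u * (D.q t θ - D.p t θ) * (t * θ) ≤ 2 * (21 * D.M + L + 90) ^ 2 + 3 / 4 := by
    have h3 : sin u * (D.q t θ - D.p t θ) =
        D.A t θ + 3 / 4 * (sin u ^ 2 / (sin t * sin θ)) - cos u := by
      have h4 : (3 : ℝ) / 4 * sin u ^ 2 / (sin t * sin θ) =
          3 / 4 * (sin u ^ 2 / (sin t * sin θ)) := by ring
      rw [h4] at hcu
      linarith
    rw [h3]
    have h5 : 0 ≤ cos u * (t * θ) := mul_nonneg hcos htθ.le
    nlinarith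
  rw [← hu, le_div_iff₀ (mul_pos (mul_pos hu0 ht0) hθ)]
  -- `X * (u t θ) = (u / (2 sin u)) * (sin u (q - p) t θ)`
  obtain ⟨W, hW⟩ : ∃ W, W = (D.q t θ - D.p t θ) * (t * θ) := ⟨_, rfl⟩
  have e13 : sin u * W ≤ 2 * (21 * D.M + L + 90) ^ 2 + 3 / 4 := by
    rw [hW]
    linarith
  have e14 : (D.q t θ - D.p t θ) / 2 * (u * t * θ) = u * W / 2 := by
    rw [hW]
    ring
  rw [e14]
  rcases le_total W 0 with h3 | h3
  · have h4 : u * W ≤ 0 := mul_nonpos_of_nonneg_of_nonpos hu0.le h3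
    nlinarith [sq_nonneg (21 * D.M + L + 90)]
  · have h4 : (4 / 5) * u * W ≤ sin u * W := mul_le_mul_of_nonneg_right hS1 h3
    nlinarith [sq_nonneg (21 * D.M + L + 90)]

end GS
end

section

open Real Set

namespace GS

/-- `LB` is monotone in the constant. -/
theorem LB.mono {C C' : ℝ} (h : C ≤ C') {p q : ℝ → ℝ → ℝ} (H : LB C p q) : LB C' p q where
  n0 := H.n0
  b2 := H.b2
  b1 := by
    intro t θ h1 h2 h3 h4
    refine (H.b1 t θ h1 h2 h3 h4).trans (mul_le_mul_of_nonneg_right h ?_)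
    have h5 : 0 ≤ t - θ := by linarith
    have h6 : 0 < t + θ := by linarith
    exact add_nonneg (by positivity) (div_nonneg h5 (by positivity))
  b1' := by
    intro t θ h1 h2 h3 h4
    refine (H.b1' t θ h1 h2 h3 h4).trans ?_
    have h5 : 0 < t + θ := by linarith
    have h6 : 0 < (t + θ) ^ 2 := pow_pos h5 2
    exact div_le_div_of_nonneg_right h h6.le
  b3 := by
    intro t θ h1 h2 h3
    refine (H.b3 t θ h1 h2 h3).trans ?_
    have h5 : 0 < t - θ := by linarith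
    have h6 : 0 < t := by linarith
    have h7 : 0 < (t - θ) * t * θ := mul_pos (mul_pos h5 h6) h1
    exact div_le_div_of_nonneg_right h h7.le

/-- TASK TrH. Every package satisfies the corner bounds for some constant.
Proof: `n0` is `D.cv` divided by `sin (t + θ) > 0` with `B ≥ 0` (for `t, θ > 0`, `t + θ < π`); `b2` is
`D.cu` at `u = t - θ = -r`, `r ∈ (0, π)`: `sin r (q - p) = cos r - A - (3/4) sin² r/R ≤ ...`; `b1`, `b1'`,
`b3` are `Dat.b1`, `Dat.b1'`, `Dat.b3` with the maximum of the three constants. -/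
theorem Dat.exists_LB (D : Dat) : ∃ C : ℝ, 1 ≤ C ∧ LB C D.p D.q := by
  obtain ⟨C1, hC1, H1⟩ := D.b1
  obtain ⟨C2, hC2, H2⟩ := D.b1'
  obtain ⟨C3, hC3, H3⟩ := D.b3
  have m1 : C1 ≤ max C1 (max C2 C3) := le_max_left _ _
  have m2 : C2 ≤ max C1 (max C2 C3) := (le_max_left _ _).trans (le_max_right _ _)
  have m3 : C3 ≤ max C1 (max C2 C3) := (le_max_right _ _).trans (le_max_right _ _)
  refine ⟨max C1 (max C2 C3), hC1.trans m1, ?_⟩
  constructor
  · intro t θ ht hθ hv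
    have ht' : t ∈ Ioo 0 π := ⟨ht, by linarith⟩
    have hθ' : θ ∈ Ioo 0 π := ⟨hθ, by linarith⟩
    have hs : 0 < sin (t + θ) := sin_pos_of_pos_of_lt_pi (by linarith) hv
    have h1 := D.cv t ht' θ hθ'
    have h2 := D.nB t ht' θ hθ'
    have h3 : 0 < sin t := sin_pos_of_pos_of_lt_pi ht'.1 ht'.2
    have h4 : 0 < sin θ := sin_pos_of_pos_of_lt_pi hθ'.1 hθ'.2
    have h5 : sin (t + θ) * (cos (t + θ) / sin (t + θ) + (3 / 4) * sin (t + θ) / (sin t * sin θ)) =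
        cos (t + θ) + (3 / 4) * sin (t + θ) ^ 2 / (sin t * sin θ) := by
      field_simp
    refine le_of_mul_le_mul_left ?_ hs
    rw [h5, h1]
    linarith
  · intro t θ ht hθ hv
    have ht' : t ∈ Ioo 0 π := ⟨ht, by linarith⟩
    have hθ' : θ ∈ Ioo 0 π := ⟨by linarith, by linarith⟩
    have hs : 0 < sin (θ - t) := sin_pos_of_pos_of_lt_pi (by linarith) (by linarith)
    have h1 := D.cu t ht' θ hθ'
    have h2 := D.nA t ht' θ hθ'
    have h3 : 0 < sin t := sin_pos_of_pos_of_lt_pi ht'.1 ht'.2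
    have h4 : 0 < sin θ := sin_pos_of_pos_of_lt_pi hθ'.1 hθ'.2
    have h6 : t - θ = -(θ - t) := by ring
    rw [h6, sin_neg, cos_neg] at h1
    have h5 : sin (θ - t) * (cos (θ - t) / sin (θ - t) - (3 / 4) * sin (θ - t) / (sin t * sin θ)) =
        cos (θ - t) - (3 / 4) * sin (θ - t) ^ 2 / (sin t * sin θ) := by
      field_simp
    refine le_of_mul_le_mul_left ?_ hs
    rw [h5]
    have h7 : (-sin (θ - t)) ^ 2 = sin (θ - t) ^ 2 := by ring
    rw [h7] at h1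
    have h8 : sin (θ - t) * (D.q t θ - D.p t θ) = -sin (θ - t) * (D.p t θ - D.q t θ) := by ring
    rw [h8, h1]
    linarith
  · intro t θ h1 h2 h3 h4
    refine (H1 t θ h1 h2 h3 h4).trans (mul_le_mul_of_nonneg_right m1 ?_)
    have h5 : 0 ≤ t - θ := by linarith
    have h6 : 0 < t + θ := by linarith
    exact add_nonneg (by positivity) (div_nonneg h5 (by positivity))
  · intro t θ h1 h2 h3 h4
    refine (H2 t θ h1 h2 h3 h4).trans ?_
    have h5 : 0 < t + θ := by linarith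
    have h6 : 0 < (t + θ) ^ 2 := pow_pos h5 2
    exact div_le_div_of_nonneg_right m2 h6.le
  · intro t θ h1 h2 h3
    refine (H3 t θ h1 h2 h3).trans ?_
    have h5 : 0 < t - θ := by linarith
    have h6 : 0 < t := by linarith
    have h7 : 0 < (t - θ) * t * θ := mul_pos (mul_pos h5 h6) h1
    exact div_le_div_of_nonneg_right m3 h7.le

end GS
end

section

open Real Set
open scoped ContDiff

namespace GS

/-- TASK Fin. The analytic core: from the package to the maximal hypersurface.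

Proof. Let `D' = D.exists_refl`, `D₁ = D.exists_rev`, `D₁' = D₁.exists_refl`; take `C` the maximum of the four
constants of `Dat.exists_LB` (`LB.mono`), and the function `τ` of `barrier` (`hC`). Then
`LBar (pF f) (qF f) τ` and `LBar (-pF f (π - t) θ) (qF f (π - t) θ) τ`. With `τm = τ`, `τp = π - τ`:
`τ ≤ 1/5 < π - 1/5 ≤ π - τ`, `exists_Setg`, `exists_limit` (`π - (π - τ θ) = τ θ`) give `(τ₀, w)` on `(0, π)`;
`m₀ = min τ > 0` (`τ` is continuous and positive on `[0, π]`), `M₀ = π - m₀`; `to_zeta`, `SolZ.extend` give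
`T` with `T (cos θ) = τ₀ (arccos (cos θ)) = τ₀ θ` for `θ ∈ (0, π)`; `eq_of_sol` gives the last part
(`fun θ => T (cos θ)` and `τ₀` agree near every `θ ∈ (0, π)`). -/
theorem core {f : ℝ → ℝ → ℝ} (sm : Sm univ f) (pos : ∀ t ∈ Ioo 0 π, ∀ ζ, 0 < f t ζ)
    (D : Dat) (hp : D.p = pF f) (hq : D.q = qF f) :
    ∃ T : ℝ → ℝ, ContDiffOn ℝ ∞ T (Icc (-1) 1) ∧ (∀ ζ ∈ Icc (-1 : ℝ) 1, T ζ ∈ Ioo 0 π) ∧
      ∃ m : ℝ → ℝ, ∀ θ ∈ Ioo 0 π, HasDerivAt (fun s => T (cos s)) (m θ) θ ∧ |m θ| < 1 ∧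
        ∃ m', HasDerivAt m m' θ ∧
          FF f (T (cos θ)) θ * m' / (1 - m θ ^ 2) + dt (FF f) (T (cos θ)) θ
            + m θ * dh (FF f) (T (cos θ)) θ = 0 := by
  obtain ⟨C1, hC1, L1⟩ := D.exists_LB
  obtain ⟨D', hp', hq'⟩ := D.exists_refl
  obtain ⟨C2, hC2, L2⟩ := D'.exists_LB
  obtain ⟨D1, hp1, hq1⟩ := D.exists_rev
  obtain ⟨C3, hC3, L3⟩ := D1.exists_LB
  obtain ⟨D1', hp1', hq1'⟩ := D1.exists_refl
  obtain ⟨C4, hC4, L4⟩ := D1'.exists_LB
  have m1 : C1 ≤ max (max C1 C2) (max C3 C4) := (le_max_left _ _).trans (le_max_left _ _)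
  have m2 : C2 ≤ max (max C1 C2) (max C3 C4) := (le_max_right _ _).trans (le_max_left _ _)
  have m3 : C3 ≤ max (max C1 C2) (max C3 C4) := (le_max_left _ _).trans (le_max_right _ _)
  have m4 : C4 ≤ max (max C1 C2) (max C3 C4) := (le_max_right _ _).trans (le_max_right _ _)
  obtain ⟨τ, hτ5, hτ⟩ := barrier (hC1.trans m1)
  have B1 : LBar (pF f) (qF f) τ := by
    apply hτ
    · have := L1.mono m1
      rwa [hp, hq] at this
    · have := L2.mono m2
      rwa [hp', hq', hp, hq] at this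
  have B2 : LBar (fun t θ => -pF f (π - t) θ) (fun t θ => qF f (π - t) θ) τ := by
    apply hτ
    · have := L3.mono m3
      rwa [hp1, hq1, hp, hq] at this
    · have := L4.mono m4
      rwa [hp1', hq1', hp1, hq1, hp, hq] at this
  have hpi : (3 : ℝ) < π := Real.pi_gt_three
  obtain ⟨N, c, S⟩ := exists_Setg (τm := τ) (τp := fun θ => π - τ θ) sm pos B1.lip
    (by
      intro x hx y hy
      have h := B1.lip x hx y hy
      have h2 : π - τ x - (π - τ y) = -(τ x - τ y) := by ring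
      rw [h2, abs_neg]
      exact h)
    (by
      intro x hx
      have h := B1.rng x hx
      have h5 := hτ5 x hx
      exact ⟨h.1, by linarith, by linarith⟩)
  obtain ⟨τ₀, w, hsol⟩ := exists_limit S B1 (by
    have h2 : (fun θ => π - (fun θ => π - τ θ) θ) = τ := by
      funext θ
      simp only
      ring
    rw [h2]
    exact B2)
  -- the minimum of `τ`
  have hcont : ContinuousOn τ (Icc 0 π) := by
    have hl : LipschitzOnWith 1 τ (Icc 0 π) := by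
      apply LipschitzOnWith.of_dist_le_mul
      intro x hx y hy
      rw [Real.dist_eq, Real.dist_eq, NNReal.coe_one, one_mul]
      exact B1.lip x hx y hy
    exact hl.continuousOn
  obtain ⟨xm, hxm, hmin⟩ := isCompact_Icc.exists_isMinOn (⟨0, by constructor <;> linarith⟩ : (Icc (0:ℝ) π).Nonempty) hcont
  have hm0 : 0 < τ xm := (B1.rng xm hxm).1
  have hmin' : ∀ x ∈ Icc 0 π, τ xm ≤ τ x := fun x hx => hmin hx
  have hM0 : π - τ xm < π := by linarith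
  have hz := to_zeta (f := f) (m₀ := τ xm) (M₀ := π - τ xm) (N := N) (τ := τ₀) (w := w) pos hm0 hM0 (by
    intro θ hθ
    obtain ⟨a1, a2, a3, a4, a5⟩ := hsol θ hθ
    have hb := hmin' θ ⟨hθ.1.le, hθ.2.le⟩
    exact ⟨hb.trans a1, by linarith, a3, a4, a5⟩)
  obtain ⟨T, hT1, hT2, hT3⟩ := SolZ.extend sm pos hm0 hM0 hz
  have hTc : ∀ θ ∈ Ioo 0 π, T (cos θ) = τ₀ θ := by
    intro θ hθ
    have hc1 : cos θ ∈ Ioo (-1 : ℝ) 1 := by
      constructor
      · have h1 := Real.cos_lt_cos_of_nonneg_of_le_pi hθ.1.le le_rfl hθ.2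
        rwa [Real.cos_pi] at h1
      · have h1 := Real.cos_lt_cos_of_nonneg_of_le_pi le_rfl hθ.2.le hθ.1
        rwa [Real.cos_zero] at h1
    rw [hT3 _ hc1, Real.arccos_cos hθ.1.le hθ.2.le]
  have hr : ∀ θ ∈ Ioo 0 π, τ₀ θ ∈ Ioo 0 π := by
    intro θ hθ
    obtain ⟨a1, a2, -, -, -⟩ := hsol θ hθ
    have hb := B1.rng θ ⟨hθ.1.le, hθ.2.le⟩
    exact ⟨by linarith, by linarith⟩
  have heq := eq_of_sol sm pos hr (fun θ hθ => ⟨(hsol θ hθ).2.2.2.1, (hsol θ hθ).2.2.2.2⟩)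
  refine ⟨T, hT1, hT2, fun θ => w θ / √(FF f (τ₀ θ) θ ^ 2 + w θ ^ 2), ?_⟩
  intro θ hθ
  obtain ⟨e1, m', e2, e3⟩ := heq θ hθ
  refine ⟨?_, e1, m', e2, ?_⟩
  · refine (hsol θ hθ).2.2.2.1.congr_of_eventuallyEq ?_
    filter_upwards [Ioo_mem_nhds hθ.1 hθ.2] with s hs
    exact hTc s hs
  · rw [hTc θ hθ]
    exact e3

end GS
end

section

open Real Set
open scoped ContDiff

namespace GS

/-- TASK Main. The theorem. Proof: `Gowdy.red`, `Gowdy.exists_dat`, `core` with `f = G.f`, then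
`gradSq_graph` (`m² - 1 < 0`) and `meanCurv_graph` (with `τ s = T (cos s)`) at the points `p` of the chart
with `p 0 = T (cos (p 1))`. -/
theorem main (G : Gowdy) (h : EinsteinMaxwell G.met G.field chart) :
    ∃ T : ℝ → ℝ, ContDiffOn ℝ ∞ T (Icc (-1) 1) ∧ (∀ ζ ∈ Icc (-1 : ℝ) 1, T ζ ∈ Ioo 0 π) ∧
      ∀ p : Pt, p 1 ∈ Ioo 0 π → p 0 = T (cos (p 1)) →
        gradSq G.met (fun q => q 0 - T (cos (q 1))) p < 0 ∧
        meanCurv G.met (fun q => q 0 - T (cos (q 1))) p = 0 := by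
  obtain ⟨D, hp, hq⟩ := G.exists_dat (G.red h)
  obtain ⟨T, hT1, hT2, m, hm⟩ := core G.sf (fun t ht ζ => G.f_pos ht ζ) D hp hq
  refine ⟨T, hT1, hT2, fun p hp1 hp0 => ?_⟩
  have hpc : p ∈ chart := ⟨by rw [hp0]; exact hT2 _ ⟨neg_one_le_cos _, cos_le_one _⟩, hp1⟩
  obtain ⟨h1, h2, m', h3, h4⟩ := hm (p 1) hp1
  constructor
  · rw [gradSq_graph G (τ := fun s => T (cos s)) hpc h1]
    have h5 : m (p 1) ^ 2 < 1 := by
      rw [← sq_abs]
      nlinarith [abs_nonneg (m (p 1))]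
    exact mul_neg_of_pos_of_neg (exp_pos _) (by linarith)
  · exact meanCurv_graph G (τ := fun s => T (cos s)) (m := m)
      (fun θ hθ => ⟨(hm θ hθ).1, (hm θ hθ).2.1⟩) hpc h3 (by rw [hp0]; exact h4)

end GS
end
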