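import Pool.Agent.Lib.MP_898b37_mp.GS.Geb

section

open Real Set
open scoped ContDiff Matrix

namespace GS

/-- The derivative `D` of a function of `(t, θ)` in the direction `i ∈ {0, 1, 2, 3}`. -/
noncomputable def Dd (i : Fin 4) (f : ℝ → ℝ → ℝ) (t θ : ℝ) : ℝ :=
  ![dt f t θ, dh f t θ, 0, 0] i

/-- The logarithmic derivative of `R = sin t sin θ`: `cos t/sin t` and `cos θ/sin θ`. -/
noncomputable def Lr (i : Fin 4) (t θ : ℝ) : ℝ := ![cos t / sin t, cos θ / sin θ, 0, 0] i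

/-- Components of the orbit metric: `h 2 2 = R e^P`, `h 2 3 = h 3 2 = R e^P Q`,
`h 3 3 = R e^P Q² + R e^{-P}`. -/
noncomputable def hxx (P : ℝ → ℝ → ℝ) (t θ : ℝ) : ℝ := sin t * sin θ * exp (P t θ)
noncomputable def hxy (P Q : ℝ → ℝ → ℝ) (t θ : ℝ) : ℝ := sin t * sin θ * exp (P t θ) * Q t θ
noncomputable def hyy (P Q : ℝ → ℝ → ℝ) (t θ : ℝ) : ℝ :=
  sin t * sin θ * exp (P t θ) * Q t θ ^ 2 + sin t * sin θ * exp (-P t θ)

/-- The table of the Christoffel symbols. Mixed symbols `Γ^C_{bD}` (`b ∈ {0,1}`, `C, D ∈ {2,3}`):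
`Γ^2_{b2} = (Lr b + P_b - e^{2P} Q Q_b)/2`, `Γ^2_{b3} = (2 P_b Q + Q_b - e^{2P} Q² Q_b)/2`,
`Γ^3_{b2} = e^{2P} Q_b/2`, `Γ^3_{b3} = (Lr b - P_b + e^{2P} Q Q_b)/2`;
`Γ^0_{CD} = e^{-2a} ∂_t h_{CD}/2`, `Γ^1_{CD} = -e^{-2a} ∂_θ h_{CD}/2`;
`Γ^0_{00} = Γ^0_{11} = Γ^1_{01} = a_t`, `Γ^1_{11} = Γ^1_{00} = Γ^0_{01} = a_θ`. All others vanish. -/
noncomputable def tb (a P Q : ℝ → ℝ → ℝ) (i j k : Fin 4) (t θ : ℝ) : ℝ :=
  let m22 : Fin 4 → ℝ := fun b =>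
    (Lr b t θ + Dd b P t θ - exp (2 * P t θ) * Q t θ * Dd b Q t θ) / 2
  let m23 : Fin 4 → ℝ := fun b =>
    (2 * Dd b P t θ * Q t θ + Dd b Q t θ - exp (2 * P t θ) * Q t θ ^ 2 * Dd b Q t θ) / 2
  let m32 : Fin 4 → ℝ := fun b => exp (2 * P t θ) * Dd b Q t θ / 2
  let m33 : Fin 4 → ℝ := fun b =>
    (Lr b t θ - Dd b P t θ + exp (2 * P t θ) * Q t θ * Dd b Q t θ) / 2
  let e := exp (-(2 * a t θ))
  (![!![dt a t θ, dh a t θ, 0, 0;
        dh a t θ, dt a t θ, 0, 0;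
        0, 0, e * dt (hxx P) t θ / 2, e * dt (hxy P Q) t θ / 2;
        0, 0, e * dt (hxy P Q) t θ / 2, e * dt (hyy P Q) t θ / 2],
     !![dh a t θ, dt a t θ, 0, 0;
        dt a t θ, dh a t θ, 0, 0;
        0, 0, -(e * dh (hxx P) t θ) / 2, -(e * dh (hxy P Q) t θ) / 2;
        0, 0, -(e * dh (hxy P Q) t θ) / 2, -(e * dh (hyy P Q) t θ) / 2],
     !![0, 0, m22 0, m23 0;
        0, 0, m22 1, m23 1;
        m22 0, m22 1, 0, 0;
        m23 0, m23 1, 0, 0],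
     !![0, 0, m32 0, m33 0;
        0, 0, m32 1, m33 1;
        m32 0, m32 1, 0, 0;
        m33 0, m33 1, 0, 0]] : Fin 4 → Matrix (Fin 4) (Fin 4) ℝ) i j k

/-- The components of the metric as functions of `(t, θ)`. -/
private noncomputable def Gec_mf (a P Q : ℝ → ℝ → ℝ) (l k : Fin 4) : ℝ → ℝ → ℝ :=
  ![![fun t θ => -exp (2 * a t θ), fun _ _ => 0, fun _ _ => 0, fun _ _ => 0],
    ![fun _ _ => 0, fun t θ => exp (2 * a t θ), fun _ _ => 0, fun _ _ => 0],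
    ![fun _ _ => 0, fun _ _ => 0, hxx P, hxy P Q],
    ![fun _ _ => 0, fun _ _ => 0, hxy P Q, hyy P Q]] l k

private theorem Gec_mf_eq (a P Q : ℝ → ℝ → ℝ) (l k : Fin 4) (q : Pt) :
    mPQ a P Q q l k = Gec_mf a P Q l k (q 0) (q 1) := by
  fin_cases l <;> fin_cases k <;> rfl

private theorem Gec_pd (a P Q : ℝ → ℝ → ℝ) (j l k : Fin 4) (p : Pt) :
    pd j (fun q => mPQ a P Q q l k) p = Dd j (Gec_mf a P Q l k) (p 0) (p 1) := by
  have h : (fun q => mPQ a P Q q l k) = fun q : Pt => Gec_mf a P Q l k (q 0) (q 1) :=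
    funext fun q => Gec_mf_eq a P Q l k q
  rw [h]
  fin_cases j
  · exact pd0 _ p
  · exact pd1 _ p
  · exact pd2 _ p
  · exact pd3 _ p

private theorem Gec_dt0 (t θ : ℝ) : dt (fun _ _ => 0) t θ = 0 := by
  unfold dt
  exact deriv_const t 0

private theorem Gec_dh0 (t θ : ℝ) : dh (fun _ _ => 0) t θ = 0 := by
  unfold dh
  exact deriv_const θ 0

/-- TASK Gec. The Christoffel symbols of `mPQ a P Q` on the chart.
Proof: unfold `chr`, `mPQ_inv`, `Fin.sum_univ_four`; the metric components are functions of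
`(p 0, p 1)`, so `pd 0`, `pd 1` are `dt`, `dh` and `pd 2 = pd 3 = 0` (`pd0`, ..., `pd3`);
`dt (hxx P) = cos t sin θ e^P + R e^P P_t` etc. (`C1.hasDt`, `HasDerivAt`), then 64 cases
(`fin_cases i, j, k`), each closed by `field_simp; ring` with `exp (2P) = exp P ^ 2`,
`exp (-P) = (exp P)⁻¹`. -/
theorem chr_mPQ {a P Q : ℝ → ℝ → ℝ} (ha : Sm (Ioo 0 π) a) (hP : Sm (Ioo 0 π) P)
    (hQ : Sm (Ioo 0 π) Q) {p : Pt} (hp : p ∈ chart) (i j k : Fin 4) :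
    chr (mPQ a P Q) i j k p = tb a P Q i j k (p 0) (p 1) := by
  unfold chr
  simp only [Gec_pd, Fin.sum_univ_four]
  rw [mPQ_inv a P Q hp]
  obtain ⟨ht, hθ⟩ := hp
  generalize p 0 = t at ht ⊢
  generalize p 1 = θ at hθ ⊢
  have hs : sin t ≠ 0 := (Real.sin_pos_of_pos_of_lt_pi ht.1 ht.2).ne'
  have hs' : sin θ ≠ 0 := (Real.sin_pos_of_pos_of_lt_pi hθ.1 hθ.2).ne'
  have hat := ha.c1.hasDt isOpen_Ioo ht hθ
  have hah := ha.c1.hasDh isOpen_Ioo ht hθ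
  have hPt := hP.c1.hasDt isOpen_Ioo ht hθ
  have hPh := hP.c1.hasDh isOpen_Ioo ht hθ
  have hQt := hQ.c1.hasDt isOpen_Ioo ht hθ
  have hQh := hQ.c1.hasDh isOpen_Ioo ht hθ
  have e1 : dt (fun t θ => exp (2 * a t θ)) t θ = exp (2 * a t θ) * (2 * dt a t θ) :=
    (hat.const_mul 2).exp.deriv
  have e2 : dh (fun t θ => exp (2 * a t θ)) t θ = exp (2 * a t θ) * (2 * dh a t θ) :=
    (hah.const_mul 2).exp.deriv
  have e3 : dt (fun t θ => -exp (2 * a t θ)) t θ = -(exp (2 * a t θ) * (2 * dt a t θ)) :=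
    (hat.const_mul 2).exp.neg.deriv
  have e4 : dh (fun t θ => -exp (2 * a t θ)) t θ = -(exp (2 * a t θ) * (2 * dh a t θ)) :=
    (hah.const_mul 2).exp.neg.deriv
  have hst : HasDerivAt (fun s => sin s * sin θ) (cos t * sin θ) t :=
    (Real.hasDerivAt_sin t).mul_const _
  have hsh : HasDerivAt (fun s => sin t * sin s) (sin t * cos θ) θ :=
    (Real.hasDerivAt_sin θ).const_mul _
  have x1 : HasDerivAt (fun s => hxx P s θ)
      (cos t * sin θ * exp (P t θ) + sin t * sin θ * (exp (P t θ) * dt P t θ)) t := hst.mul hPt.exp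
  have x2 : HasDerivAt (fun s => hxx P t s)
      (sin t * cos θ * exp (P t θ) + sin t * sin θ * (exp (P t θ) * dh P t θ)) θ := hsh.mul hPh.exp
  have y1 : HasDerivAt (fun s => hxy P Q s θ)
      ((cos t * sin θ * exp (P t θ) + sin t * sin θ * (exp (P t θ) * dt P t θ)) * Q t θ +
        sin t * sin θ * exp (P t θ) * dt Q t θ) t := x1.mul hQt
  have y2 : HasDerivAt (fun s => hxy P Q t s)
      ((sin t * cos θ * exp (P t θ) + sin t * sin θ * (exp (P t θ) * dh P t θ)) * Q t θ +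
        sin t * sin θ * exp (P t θ) * dh Q t θ) θ := x2.mul hQh
  have z1 : HasDerivAt (fun s => hyy P Q s θ)
      ((cos t * sin θ * exp (P t θ) + sin t * sin θ * (exp (P t θ) * dt P t θ)) * Q t θ ^ 2 +
        sin t * sin θ * exp (P t θ) * (2 * Q t θ * dt Q t θ) +
        (cos t * sin θ * exp (-P t θ) + sin t * sin θ * (exp (-P t θ) * -dt P t θ))) t := by
    have h := (x1.mul (hQt.pow 2)).add (hst.mul hPt.neg.exp)
    refine HasDerivAt.congr_deriv h ?_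
    simp [hxx]
  have z2 : HasDerivAt (fun s => hyy P Q t s)
      ((sin t * cos θ * exp (P t θ) + sin t * sin θ * (exp (P t θ) * dh P t θ)) * Q t θ ^ 2 +
        sin t * sin θ * exp (P t θ) * (2 * Q t θ * dh Q t θ) +
        (sin t * cos θ * exp (-P t θ) + sin t * sin θ * (exp (-P t θ) * -dh P t θ))) θ := by
    have h := (x2.mul (hQh.pow 2)).add (hsh.mul hPh.neg.exp)
    refine HasDerivAt.congr_deriv h ?_
    simp [hxx]
  have x1' := x1.deriv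
  have x2' := x2.deriv
  have y1' := y1.deriv
  have y2' := y2.deriv
  have z1' := z1.deriv
  have z2' := z2.deriv
  change dt (hxx P) t θ = _ at x1'
  change dh (hxx P) t θ = _ at x2'
  change dt (hxy P Q) t θ = _ at y1'
  change dh (hxy P Q) t θ = _ at y2'
  change dt (hyy P Q) t θ = _ at z1'
  change dh (hyy P Q) t θ = _ at z2'
  have hE : exp (-(2 * a t θ)) = (exp (2 * a t θ))⁻¹ := Real.exp_neg _
  have hE0 : exp (2 * a t θ) ≠ 0 := (Real.exp_pos _).ne'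
  have hP1 : exp (-P t θ) = (exp (P t θ))⁻¹ := Real.exp_neg _
  have hP0 : exp (P t θ) ≠ 0 := (Real.exp_pos _).ne'
  have hP2 : exp (2 * P t θ) = exp (P t θ) ^ 2 := by
    rw [← Real.exp_nat_mul]
    norm_num
  fin_cases i <;> fin_cases j <;> fin_cases k <;>
    simp [tb, Dd, Lr, Gec_mf, Gec_dt0, Gec_dh0, e1, e2, e3, e4, hE, hP1, hP2, x1', x2', y1', y2',
      z1', z2'] <;> (try field_simp) <;> (try ring)

end GS
end

section

open Real Set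
open scoped ContDiff Matrix

namespace GS

private theorem Ged_pd (i : Fin 4) (f : ℝ → ℝ → ℝ) (p : Pt) :
    pd i (fun q => f (q 0) (q 1)) p = Dd i f (p 0) (p 1) := by
  fin_cases i
  · exact pd0 f p
  · exact pd1 f p
  · exact pd2 f p
  · exact pd3 f p

private theorem Ged_chr {a P Q : ℝ → ℝ → ℝ} (ha : Sm (Ioo 0 π) a) (hP : Sm (Ioo 0 π) P)
    (hQ : Sm (Ioo 0 π) Q) {p : Pt} (hp : p ∈ chart) (l i j k : Fin 4) :
    pd l (chr (mPQ a P Q) i j k) p = Dd l (tb a P Q i j k) (p 0) (p 1) := by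
  rw [← Ged_pd]
  exact pd_congr hp (fun q hq => chr_mPQ ha hP hQ hq i j k)

/-- TASK Ged. The Ricci tensor through the table `tb` (by `chr_mPQ`, `pd_congr` and `pd0`, ..., `pd3`). -/
theorem ric_tb {a P Q : ℝ → ℝ → ℝ} (ha : Sm (Ioo 0 π) a) (hP : Sm (Ioo 0 π) P)
    (hQ : Sm (Ioo 0 π) Q) {p : Pt} (hp : p ∈ chart) (j k : Fin 4) :
    ric (mPQ a P Q) j k p =
      ∑ i, (Dd i (tb a P Q i j k) (p 0) (p 1) - Dd j (tb a P Q i i k) (p 0) (p 1))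
      + ∑ i, ∑ l, (tb a P Q i i l (p 0) (p 1) * tb a P Q l j k (p 0) (p 1)
        - tb a P Q i j l (p 0) (p 1) * tb a P Q l i k (p 0) (p 1)) := by
  unfold ric
  simp only [Ged_chr ha hP hQ hp, chr_mPQ ha hP hQ hp]

end GS
end

section

open Real Set
open scoped ContDiff Matrix

namespace GS

private lemma Gee_220 (a P Q : ℝ → ℝ → ℝ) (s θ : ℝ) :
    tb a P Q 2 2 0 s θ = (cos s / sin s + dt P s θ - exp (2 * P s θ) * Q s θ * dt Q s θ) / 2 := by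
  rfl

private lemma Gee_330 (a P Q : ℝ → ℝ → ℝ) (s θ : ℝ) :
    tb a P Q 3 3 0 s θ = (cos s / sin s - dt P s θ + exp (2 * P s θ) * Q s θ * dt Q s θ) / 2 := by
  rfl

private lemma Gee_trace {a P Q : ℝ → ℝ → ℝ} (hP : Sm (Ioo 0 π) P)
    (hQ : Sm (Ioo 0 π) Q) {t θ : ℝ} (ht : t ∈ Ioo 0 π) (hθ : θ ∈ Ioo 0 π) :
    dt (tb a P Q 2 2 0) t θ + dt (tb a P Q 3 3 0) t θ = -(1 / sin t ^ 2) := by
  have hs : sin t ≠ 0 := (sin_pos_of_pos_of_lt_pi ht.1 ht.2).ne'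
  have d1 := hP.c1.hasDt isOpen_Ioo ht hθ
  have d2 := (hP.dt isOpen_Ioo).c1.hasDt isOpen_Ioo ht hθ
  have d3 := hQ.c1.hasDt isOpen_Ioo ht hθ
  have d4 := (hQ.dt isOpen_Ioo).c1.hasDt isOpen_Ioo ht hθ
  have d5 : HasDerivAt (fun s => cos s / sin s) ((-sin t * sin t - cos t * cos t) / sin t ^ 2) t :=
    (Real.hasDerivAt_cos t).div (Real.hasDerivAt_sin t) hs
  have d6 := (((d1.const_mul 2).exp.mul d3).mul d4)
  have e1 : HasDerivAt (fun s => tb a P Q 2 2 0 s θ) _ t :=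
    ((d5.add d2).sub d6).div_const 2
  have e2 : HasDerivAt (fun s => tb a P Q 3 3 0 s θ) _ t :=
    ((d5.sub d2).add d6).div_const 2
  have f1 : dt (tb a P Q 2 2 0) t θ = _ := e1.deriv
  have f2 : dt (tb a P Q 3 3 0) t θ = _ := e2.deriv
  rw [f1, f2]
  have hsc := Real.sin_sq_add_cos_sq t
  field_simp
  linear_combination (-2 : ℝ) * hsc

/-- TASK Gee. `R_{00} = 1 + cot² t/2 - (P_t² + e^{2P} Q_t²)/2 + (a_t cot t + a_θ cot θ) + (a_θθ - a_tt)` (checked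
numerically). Use `ric_tb`, `Fin.sum_univ_four`, unfold `tb`, `Dd`; the nonzero terms are
`∂_1 Γ^1_{00} - ∂_0 (Γ^1_{10} + Γ^2_{20} + Γ^3_{30})` with `Γ^2_{20} + Γ^3_{30} = cot t`, and the products.
All functions are smooth on the square; second derivatives through `Sm.dt`, `Sm.dh`, `C1.hasDt`,
`C1.hasDh`; finally `field_simp; ring` (`exp (2P) = exp P ^ 2`). -/
theorem ric_00 {a P Q : ℝ → ℝ → ℝ} (ha : Sm (Ioo 0 π) a) (hP : Sm (Ioo 0 π) P)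
    (hQ : Sm (Ioo 0 π) Q) {t θ : ℝ} (ht : t ∈ Ioo 0 π) (hθ : θ ∈ Ioo 0 π) {p : Pt}
    (h0 : p 0 = t) (h1 : p 1 = θ) :
    ric (mPQ a P Q) 0 0 p =
      1 + (cos t / sin t) ^ 2 / 2 - (dt P t θ ^ 2 + exp (2 * P t θ) * dt Q t θ ^ 2) / 2
        + (dt a t θ * (cos t / sin t) + dh a t θ * (cos θ / sin θ))
        + (dh (dh a) t θ - dt (dt a) t θ) := by
  have hs : sin t ≠ 0 := (sin_pos_of_pos_of_lt_pi ht.1 ht.2).ne'
  have hp : p ∈ chart := ⟨by rw [h0]; exact ht, by rw [h1]; exact hθ⟩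
  have htr := Gee_trace (a := a) hP hQ ht hθ
  rw [ric_tb ha hP hQ hp, h0, h1]
  have k : ∑ i, (Dd i (tb a P Q i 0 0) t θ - Dd 0 (tb a P Q i i 0) t θ) =
      dh (dh a) t θ - dt (dt a) t θ + 1 / sin t ^ 2 := by
    rw [Fin.sum_univ_four]
    have c0 : Dd 0 (tb a P Q 0 0 0) t θ = dt (dt a) t θ := rfl
    have c1 : Dd 1 (tb a P Q 1 0 0) t θ = dh (dh a) t θ := rfl
    have c2 : Dd 2 (tb a P Q 2 0 0) t θ = 0 := rfl
    have c3 : Dd 3 (tb a P Q 3 0 0) t θ = 0 := rfl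
    have c4 : Dd 0 (tb a P Q 1 1 0) t θ = dt (dt a) t θ := rfl
    have c5 : Dd 0 (tb a P Q 2 2 0) t θ = dt (tb a P Q 2 2 0) t θ := rfl
    have c6 : Dd 0 (tb a P Q 3 3 0) t θ = dt (tb a P Q 3 3 0) t θ := rfl
    rw [c0, c1, c2, c3, c4, c5, c6]
    linear_combination (-1 : ℝ) * htr
  rw [k]
  have hsc := Real.sin_sq_add_cos_sq t
  have e : 1 / sin t ^ 2 = 1 + (cos t / sin t) ^ 2 := by
    field_simp
    linear_combination (-1 : ℝ) * hsc
  rw [e]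
  simp only [Fin.sum_univ_four, tb, Dd, Lr, Matrix.cons_val, Matrix.of_apply]
  ring

end GS
end

section

open Real Set
open scoped ContDiff Matrix

namespace GS

private theorem Gef_d2 (a P Q : ℝ → ℝ → ℝ) (t θ : ℝ) :
    dt (tb a P Q 2 2 1) t θ = -dt (tb a P Q 3 3 1) t θ := by
  obtain ⟨φ, hφ⟩ : ∃ φ : ℝ → ℝ, φ = fun s =>
    (dh P s θ - exp (2 * P s θ) * Q s θ * dh Q s θ) / 2 := ⟨_, rfl⟩
  have h1 : (fun s => tb a P Q 2 2 1 s θ) = fun s => cos θ / sin θ / 2 + φ s := by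
    funext s
    rw [hφ]
    change (cos θ / sin θ + dh P s θ - exp (2 * P s θ) * Q s θ * dh Q s θ) / 2 = _
    ring
  have h2 : (fun s => tb a P Q 3 3 1 s θ) = fun s => cos θ / sin θ / 2 - φ s := by
    funext s
    rw [hφ]
    change (cos θ / sin θ - dh P s θ + exp (2 * P s θ) * Q s θ * dh Q s θ) / 2 = _
    ring
  unfold dt
  rw [h1, h2, deriv_const_add, deriv_const_sub, neg_neg]

/-- TASK Gef. `R_{01} = -(1/2) cot t cot θ - (P_t P_θ + e^{2P} Q_t Q_θ)/2 + (a_t cot θ + a_θ cot t)` (checked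
numerically). Use `ric_tb`, `Fin.sum_univ_four`, unfold `tb`, `Dd`; the mixed derivatives
`dt (dh a)`, `dh (dt a)` agree (`Sm.comm`).
All functions are smooth on the square; second derivatives through `Sm.dt`, `Sm.dh`, `C1.hasDt`,
`C1.hasDh`; finally `field_simp; ring` (`exp (2P) = exp P ^ 2`). -/
theorem ric_01 {a P Q : ℝ → ℝ → ℝ} (ha : Sm (Ioo 0 π) a) (hP : Sm (Ioo 0 π) P)
    (hQ : Sm (Ioo 0 π) Q) {t θ : ℝ} (ht : t ∈ Ioo 0 π) (hθ : θ ∈ Ioo 0 π) {p : Pt}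
    (h0 : p 0 = t) (h1 : p 1 = θ) :
    ric (mPQ a P Q) 0 1 p =
      -(cos t / sin t) * (cos θ / sin θ) / 2
        - (dt P t θ * dh P t θ + exp (2 * P t θ) * (dt Q t θ * dh Q t θ)) / 2
        + (dt a t θ * (cos θ / sin θ) + dh a t θ * (cos t / sin t)) := by
  have hp : p ∈ chart := ⟨by rw [h0]; exact ht, by rw [h1]; exact hθ⟩
  have hc := Sm.comm isOpen_Ioo ha ht hθ
  have hd : ∑ i, (Dd i (tb a P Q i 0 1) t θ - Dd 0 (tb a P Q i i 1) t θ) = 0 := by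
    rw [Fin.sum_univ_four]
    have e0 : Dd 0 (tb a P Q 0 0 1) t θ = dt (dh a) t θ := rfl
    have e1 : Dd 1 (tb a P Q 1 0 1) t θ = dh (dt a) t θ := rfl
    have e2 : Dd 2 (tb a P Q 2 0 1) t θ = 0 := rfl
    have e3 : Dd 3 (tb a P Q 3 0 1) t θ = 0 := rfl
    have f1 : Dd 0 (tb a P Q 1 1 1) t θ = dt (dh a) t θ := rfl
    have f2 : Dd 0 (tb a P Q 2 2 1) t θ = dt (tb a P Q 2 2 1) t θ := rfl
    have f3 : Dd 0 (tb a P Q 3 3 1) t θ = dt (tb a P Q 3 3 1) t θ := rfl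
    rw [e0, e1, e2, e3, f1, f2, f3, Gef_d2, hc]
    ring
  rw [ric_tb ha hP hQ hp, h0, h1, hd, zero_add]
  simp only [Fin.sum_univ_four, tb, Lr, Dd, Matrix.cons_val, Matrix.of_apply]
  ring

end GS
end

section

open Real Set
open scoped ContDiff Matrix

namespace GS

private theorem Geg_sin_ne {θ : ℝ} (hθ : θ ∈ Ioo 0 π) : sin θ ≠ 0 :=
  (sin_pos_of_pos_of_lt_pi hθ.1 hθ.2).ne'

/-- The sum of the derivatives of the two mixed symbols. -/
private theorem Geg_sum {P Q : ℝ → ℝ → ℝ} (a : ℝ → ℝ → ℝ) (hP : Sm (Ioo 0 π) P)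
    (hQ : Sm (Ioo 0 π) Q) {t θ : ℝ} (ht : t ∈ Ioo 0 π) (hθ : θ ∈ Ioo 0 π) :
    dh (tb a P Q 2 2 1) t θ + dh (tb a P Q 3 3 1) t θ = -(1 + (cos θ / sin θ) ^ 2) := by
  have hS : IsOpen (Ioo (0 : ℝ) π) := isOpen_Ioo
  have hs := Geg_sin_ne hθ
  have dP : HasDerivAt (fun s => dh P t s) (dh (dh P) t θ) θ :=
    C1.hasDh hS (Sm.c1 (Sm.dh hS hP)) ht hθ
  have dQ : HasDerivAt (fun s => dh Q t s) (dh (dh Q) t θ) θ :=
    C1.hasDh hS (Sm.c1 (Sm.dh hS hQ)) ht hθ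
  have P1 : HasDerivAt (fun s => P t s) (dh P t θ) θ := C1.hasDh hS (Sm.c1 hP) ht hθ
  have Q1 : HasDerivAt (fun s => Q t s) (dh Q t θ) θ := C1.hasDh hS (Sm.c1 hQ) ht hθ
  have E1 : HasDerivAt (fun s => exp (2 * P t s) * Q t s * dh Q t s)
      ((exp (2 * P t θ) * (2 * dh P t θ) * Q t θ + exp (2 * P t θ) * dh Q t θ) * dh Q t θ +
        exp (2 * P t θ) * Q t θ * dh (dh Q) t θ) θ :=
    (((P1.const_mul 2).exp).mul Q1).mul dQ
  have L1 : HasDerivAt (fun s => cos s / sin s) (-(1 + (cos θ / sin θ) ^ 2)) θ := by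
    have h := (hasDerivAt_cos θ).div (hasDerivAt_sin θ) hs
    refine h.congr_deriv ?_
    field_simp
    ring
  have A1 : HasDerivAt (fun s => (cos s / sin s + dh P t s - exp (2 * P t s) * Q t s * dh Q t s) / 2)
      _ θ := ((L1.add dP).sub E1).div_const 2
  have A2 : HasDerivAt (fun s => (cos s / sin s - dh P t s + exp (2 * P t s) * Q t s * dh Q t s) / 2)
      _ θ := ((L1.sub dP).add E1).div_const 2
  have B1 : dh (tb a P Q 2 2 1) t θ = _ := A1.deriv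
  have B2 : dh (tb a P Q 3 3 1) t θ = _ := A2.deriv
  rw [B1, B2]
  ring

/-- TASK Geg. `R_{11} = 1 + cot² θ/2 - (P_θ² + e^{2P} Q_θ²)/2 + (a_t cot t + a_θ cot θ) - (a_θθ - a_tt)` (checked
numerically). Use `ric_tb`, `Fin.sum_univ_four`, unfold `tb`, `Dd`.
All functions are smooth on the square; second derivatives through `Sm.dt`, `Sm.dh`, `C1.hasDt`,
`C1.hasDh`; finally `field_simp; ring` (`exp (2P) = exp P ^ 2`). -/
theorem ric_11 {a P Q : ℝ → ℝ → ℝ} (ha : Sm (Ioo 0 π) a) (hP : Sm (Ioo 0 π) P)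
    (hQ : Sm (Ioo 0 π) Q) {t θ : ℝ} (ht : t ∈ Ioo 0 π) (hθ : θ ∈ Ioo 0 π) {p : Pt}
    (h0 : p 0 = t) (h1 : p 1 = θ) :
    ric (mPQ a P Q) 1 1 p =
      1 + (cos θ / sin θ) ^ 2 / 2 - (dh P t θ ^ 2 + exp (2 * P t θ) * dh Q t θ ^ 2) / 2
        + (dt a t θ * (cos t / sin t) + dh a t θ * (cos θ / sin θ))
        - (dh (dh a) t θ - dt (dt a) t θ) := by
  have hp : p ∈ chart := ⟨by rw [h0]; exact ht, by rw [h1]; exact hθ⟩
  rw [ric_tb ha hP hQ hp 1 1, h0, h1]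
  have hsum := Geg_sum a hP hQ ht hθ
  have e1 : ∑ i, (Dd i (tb a P Q i 1 1) t θ - Dd 1 (tb a P Q i i 1) t θ) =
      dt (dt a) t θ - dh (dh a) t θ - (dh (tb a P Q 2 2 1) t θ + dh (tb a P Q 3 3 1) t θ) := by
    rw [Fin.sum_univ_four]
    have c0 : Dd 0 (tb a P Q 0 1 1) t θ = dt (dt a) t θ := rfl
    have c1 : Dd 1 (tb a P Q 0 0 1) t θ = dh (dh a) t θ := rfl
    have c2 : Dd 1 (tb a P Q 1 1 1) t θ = dh (dh a) t θ := rfl
    have c3 : Dd 2 (tb a P Q 2 1 1) t θ = 0 := rfl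
    have c4 : Dd 1 (tb a P Q 2 2 1) t θ = dh (tb a P Q 2 2 1) t θ := rfl
    have c5 : Dd 3 (tb a P Q 3 1 1) t θ = 0 := rfl
    have c6 : Dd 1 (tb a P Q 3 3 1) t θ = dh (tb a P Q 3 3 1) t θ := rfl
    rw [c0, c1, c2, c3, c4, c5, c6]
    ring
  rw [e1, hsum]
  simp only [Fin.sum_univ_four]
  -- the table
  have a000 : tb a P Q 0 0 0 t θ = dt a t θ := rfl
  have a001 : tb a P Q 0 0 1 t θ = dh a t θ := rfl
  have a002 : tb a P Q 0 0 2 t θ = 0 := rfl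
  have a003 : tb a P Q 0 0 3 t θ = 0 := rfl
  have a010 : tb a P Q 0 1 0 t θ = dh a t θ := rfl
  have a011 : tb a P Q 0 1 1 t θ = dt a t θ := rfl
  have a012 : tb a P Q 0 1 2 t θ = 0 := rfl
  have a013 : tb a P Q 0 1 3 t θ = 0 := rfl
  have a021 : tb a P Q 0 2 1 t θ = 0 := rfl
  have a031 : tb a P Q 0 3 1 t θ = 0 := rfl
  have a101 : tb a P Q 1 0 1 t θ = dt a t θ := rfl
  have a110 : tb a P Q 1 1 0 t θ = dt a t θ := rfl
  have a111 : tb a P Q 1 1 1 t θ = dh a t θ := rfl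
  have a112 : tb a P Q 1 1 2 t θ = 0 := rfl
  have a113 : tb a P Q 1 1 3 t θ = 0 := rfl
  have a121 : tb a P Q 1 2 1 t θ = 0 := rfl
  have a131 : tb a P Q 1 3 1 t θ = 0 := rfl
  have a201 : tb a P Q 2 0 1 t θ = 0 := rfl
  have a210 : tb a P Q 2 1 0 t θ = 0 := rfl
  have a211 : tb a P Q 2 1 1 t θ = 0 := rfl
  have a301 : tb a P Q 3 0 1 t θ = 0 := rfl
  have a310 : tb a P Q 3 1 0 t θ = 0 := rfl
  have a311 : tb a P Q 3 1 1 t θ = 0 := rfl
  have a222 : tb a P Q 2 2 2 t θ = 0 := rfl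
  have a223 : tb a P Q 2 2 3 t θ = 0 := rfl
  have a332 : tb a P Q 3 3 2 t θ = 0 := rfl
  have a333 : tb a P Q 3 3 3 t θ = 0 := rfl
  have a220 : tb a P Q 2 2 0 t θ =
    (cos t / sin t + dt P t θ - exp (2 * P t θ) * Q t θ * dt Q t θ) / 2 := rfl
  have a221 : tb a P Q 2 2 1 t θ =
    (cos θ / sin θ + dh P t θ - exp (2 * P t θ) * Q t θ * dh Q t θ) / 2 := rfl
  have a212 : tb a P Q 2 1 2 t θ =
    (cos θ / sin θ + dh P t θ - exp (2 * P t θ) * Q t θ * dh Q t θ) / 2 := rfl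
  have a330 : tb a P Q 3 3 0 t θ =
    (cos t / sin t - dt P t θ + exp (2 * P t θ) * Q t θ * dt Q t θ) / 2 := rfl
  have a331 : tb a P Q 3 3 1 t θ =
    (cos θ / sin θ - dh P t θ + exp (2 * P t θ) * Q t θ * dh Q t θ) / 2 := rfl
  have a313 : tb a P Q 3 1 3 t θ =
    (cos θ / sin θ - dh P t θ + exp (2 * P t θ) * Q t θ * dh Q t θ) / 2 := rfl
  have a231 : tb a P Q 2 3 1 t θ =
    (2 * dh P t θ * Q t θ + dh Q t θ - exp (2 * P t θ) * Q t θ ^ 2 * dh Q t θ) / 2 := rfl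
  have a213 : tb a P Q 2 1 3 t θ =
    (2 * dh P t θ * Q t θ + dh Q t θ - exp (2 * P t θ) * Q t θ ^ 2 * dh Q t θ) / 2 := rfl
  have a321 : tb a P Q 3 2 1 t θ = exp (2 * P t θ) * dh Q t θ / 2 := rfl
  have a312 : tb a P Q 3 1 2 t θ = exp (2 * P t θ) * dh Q t θ / 2 := rfl
  simp only [a000, a001, a002, a003, a010, a011, a012, a013, a021, a031, a101, a110, a111, a112,
    a113, a121, a131, a201, a210, a211, a301, a310, a311, a222, a223, a332, a333, a220, a221, a212, a330,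
    a331, a313, a231, a213, a321, a312]
  ring

end GS
end
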