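import Pool.Agent.Lib.MP_898b37_mp.Mg.G008
import Pool.Agent.Lib.MP_898b37_mp.Mg.G006
import Pool.Agent.Lib.MP_898b37_mp.Mg.G010

section

open Real Set
open scoped ContDiff Matrix

namespace GS

private theorem Geh_xt {P : ℝ → ℝ → ℝ} (hP : Sm (Ioo 0 π) P) {t θ : ℝ}
    (ht : t ∈ Ioo 0 π) (hθ : θ ∈ Ioo 0 π) :
    dt (hxx P) t θ = (cos t * sin θ + sin t * sin θ * dt P t θ) * exp (P t θ) := by
  have h1 := (hP.c1).hasDt isOpen_Ioo ht hθ
  have h2 := ((hasDerivAt_sin t).mul_const (sin θ)).mul h1.exp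
  have h3 : deriv (fun s => hxx P s θ) t = _ := h2.deriv
  unfold dt
  rw [h3]
  ring_nf
  rfl

private theorem Geh_xh {P : ℝ → ℝ → ℝ} (hP : Sm (Ioo 0 π) P) {t θ : ℝ}
    (ht : t ∈ Ioo 0 π) (hθ : θ ∈ Ioo 0 π) :
    dh (hxx P) t θ = (sin t * cos θ + sin t * sin θ * dh P t θ) * exp (P t θ) := by
  have h1 := (hP.c1).hasDh isOpen_Ioo ht hθ
  have h2 := ((hasDerivAt_sin θ).const_mul (sin t)).mul h1.exp
  have h3 : deriv (fun s => hxx P t s) θ = _ := h2.deriv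
  unfold dh
  rw [h3]
  ring_nf
  rfl

private theorem Geh_yt {P Q : ℝ → ℝ → ℝ} (hP : Sm (Ioo 0 π) P) (hQ : Sm (Ioo 0 π) Q) {t θ : ℝ}
    (ht : t ∈ Ioo 0 π) (hθ : θ ∈ Ioo 0 π) :
    dt (hxy P Q) t θ = (cos t * sin θ + sin t * sin θ * dt P t θ) * exp (P t θ) * Q t θ
      + sin t * sin θ * exp (P t θ) * dt Q t θ := by
  have h1 := (hP.c1).hasDt isOpen_Ioo ht hθ
  have h1' := (hQ.c1).hasDt isOpen_Ioo ht hθ
  have h2 := (((hasDerivAt_sin t).mul_const (sin θ)).mul h1.exp).mul h1'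
  have h3 : deriv (fun s => hxy P Q s θ) t = _ := h2.deriv
  have h4 : dt (hxy P Q) t θ = deriv (fun s => hxy P Q s θ) t := rfl
  rw [h4, h3]
  simp only [Pi.mul_apply]
  ring

private theorem Geh_yh {P Q : ℝ → ℝ → ℝ} (hP : Sm (Ioo 0 π) P) (hQ : Sm (Ioo 0 π) Q) {t θ : ℝ}
    (ht : t ∈ Ioo 0 π) (hθ : θ ∈ Ioo 0 π) :
    dh (hxy P Q) t θ = (sin t * cos θ + sin t * sin θ * dh P t θ) * exp (P t θ) * Q t θ
      + sin t * sin θ * exp (P t θ) * dh Q t θ := by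
  have h1 := (hP.c1).hasDh isOpen_Ioo ht hθ
  have h1' := (hQ.c1).hasDh isOpen_Ioo ht hθ
  have h2 := (((hasDerivAt_sin θ).const_mul (sin t)).mul h1.exp).mul h1'
  have h3 : deriv (fun s => hxy P Q t s) θ = _ := h2.deriv
  have h4 : dh (hxy P Q) t θ = deriv (fun s => hxy P Q t s) θ := rfl
  rw [h4, h3]
  simp only [Pi.mul_apply]
  ring

private theorem Geh_tt {a P Q : ℝ → ℝ → ℝ} (ha : Sm (Ioo 0 π) a) (hP : Sm (Ioo 0 π) P) {t θ : ℝ}
    (ht : t ∈ Ioo 0 π) (hθ : θ ∈ Ioo 0 π) :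
    dt (tb a P Q 0 2 2) t θ = exp (-(2 * a t θ)) * exp (P t θ) / 2 *
      ((-(2 * dt a t θ) + dt P t θ) * (cos t * sin θ + sin t * sin θ * dt P t θ)
        + (-(sin t * sin θ) + cos t * sin θ * dt P t θ + sin t * sin θ * dt (dt P) t θ)) := by
  have hev : (fun s => tb a P Q 0 2 2 s θ) =ᶠ[nhds t] fun s =>
      exp (-(2 * a s θ)) * ((cos s * sin θ + sin s * sin θ * dt P s θ) * exp (P s θ)) / 2 := by
    filter_upwards [isOpen_Ioo.mem_nhds ht] with s hs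
    show exp (-(2 * a s θ)) * dt (hxx P) s θ / 2 = _
    rw [Geh_xt hP hs hθ]
  have h4 : dt (tb a P Q 0 2 2) t θ = deriv (fun s => tb a P Q 0 2 2 s θ) t := rfl
  rw [h4, hev.deriv_eq]
  have h1 := (hP.c1).hasDt isOpen_Ioo ht hθ
  have h1' := (ha.c1).hasDt isOpen_Ioo ht hθ
  have h1'' := ((hP.dt isOpen_Ioo).c1).hasDt isOpen_Ioo ht hθ
  have h2 := (((h1'.const_mul 2).neg.exp).mul ((((hasDerivAt_cos t).mul_const (sin θ)).add
    (((hasDerivAt_sin t).mul_const (sin θ)).mul h1'')).mul h1.exp)).div_const 2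
  have h3 := h2.deriv
  have h5 : deriv (fun s => exp (-(2 * a s θ)) *
    ((cos s * sin θ + sin s * sin θ * dt P s θ) * exp (P s θ)) / 2) t = _ := h3
  rw [h5]
  simp only [Pi.mul_apply, Pi.add_apply, Pi.neg_apply]
  ring

private theorem Geh_hh {a P Q : ℝ → ℝ → ℝ} (ha : Sm (Ioo 0 π) a) (hP : Sm (Ioo 0 π) P) {t θ : ℝ}
    (ht : t ∈ Ioo 0 π) (hθ : θ ∈ Ioo 0 π) :
    dh (tb a P Q 1 2 2) t θ = -(exp (-(2 * a t θ)) * exp (P t θ) / 2 *
      ((-(2 * dh a t θ) + dh P t θ) * (sin t * cos θ + sin t * sin θ * dh P t θ)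
        + (-(sin t * sin θ) + sin t * cos θ * dh P t θ + sin t * sin θ * dh (dh P) t θ))) := by
  have hev : (fun s => tb a P Q 1 2 2 t s) =ᶠ[nhds θ] fun s =>
      -(exp (-(2 * a t s)) * ((sin t * cos s + sin t * sin s * dh P t s) * exp (P t s))) / 2 := by
    filter_upwards [isOpen_Ioo.mem_nhds hθ] with s hs
    show -(exp (-(2 * a t s)) * dh (hxx P) t s) / 2 = _
    rw [Geh_xh hP ht hs]
  have h4 : dh (tb a P Q 1 2 2) t θ = deriv (fun s => tb a P Q 1 2 2 t s) θ := rfl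
  rw [h4, hev.deriv_eq]
  have h1 := (hP.c1).hasDh isOpen_Ioo ht hθ
  have h1' := (ha.c1).hasDh isOpen_Ioo ht hθ
  have h1'' := ((hP.dh isOpen_Ioo).c1).hasDh isOpen_Ioo ht hθ
  have h2 := ((((h1'.const_mul 2).neg.exp).mul ((((hasDerivAt_cos θ).const_mul (sin t)).add
    (((hasDerivAt_sin θ).const_mul (sin t)).mul h1'')).mul h1.exp)).neg).div_const 2
  have h3 := h2.deriv
  have h5 : deriv (fun s => -(exp (-(2 * a t s)) *
    ((sin t * cos s + sin t * sin s * dh P t s) * exp (P t s))) / 2) θ = _ := h3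
  rw [h5]
  simp only [Pi.mul_apply, Pi.add_apply, Pi.neg_apply]
  ring

/-- TASK Geh. `R_{22} = (1/2) e^{-2a} R e^P (P_tt - P_θθ + cot t P_t - cot θ P_θ - e^{2P}(Q_t² - Q_θ²))` (checked
numerically). Use `ric_tb`, `Fin.sum_univ_four`, unfold `tb`, `Dd`; second derivatives of
`hxx P = sin t sin θ e^P` (first compute `dt (hxx P)` as a function on the square, then differentiate
again with `Sm.dt`, `C1.hasDt`, ...; to differentiate `e^{-2a} dt (hxx P)` replace the function by its explicit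
form near the point, `Filter.EventuallyEq.deriv_eq`); finally `field_simp; ring`. -/
theorem ric_22 {a P Q : ℝ → ℝ → ℝ} (ha : Sm (Ioo 0 π) a) (hP : Sm (Ioo 0 π) P)
    (hQ : Sm (Ioo 0 π) Q) {t θ : ℝ} (ht : t ∈ Ioo 0 π) (hθ : θ ∈ Ioo 0 π) {p : Pt}
    (h0 : p 0 = t) (h1 : p 1 = θ) :
    ric (mPQ a P Q) 2 2 p = exp (-(2 * a t θ)) / 2 * (sin t * sin θ) * exp (P t θ) *
      (dt (dt P) t θ - dh (dh P) t θ + (cos t / sin t) * dt P t θ - (cos θ / sin θ) * dh P t θ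
        - exp (2 * P t θ) * (dt Q t θ ^ 2 - dh Q t θ ^ 2)) := by
  have hp : p ∈ chart := ⟨by rw [h0]; exact ht, by rw [h1]; exact hθ⟩
  rw [ric_tb ha hP hQ hp, h0, h1]
  have e0 : Dd 0 (tb a P Q 0 2 2) t θ = dt (tb a P Q 0 2 2) t θ := rfl
  have e1 : Dd 1 (tb a P Q 1 2 2) t θ = dh (tb a P Q 1 2 2) t θ := rfl
  have e2 : ∀ f : ℝ → ℝ → ℝ, Dd 2 f t θ = 0 := fun f => rfl
  have e3 : ∀ f : ℝ → ℝ → ℝ, Dd 3 f t θ = 0 := fun f => rfl
  simp only [Fin.sum_univ_four, e0, e1, e2, e3, Geh_tt ha hP ht hθ, Geh_hh ha hP ht hθ]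
  have hs : sin t ≠ 0 := (sin_pos_of_mem_Ioo ht).ne'
  have hs' : sin θ ≠ 0 := (sin_pos_of_mem_Ioo hθ).ne'
  have g022 : tb a P Q 0 2 2 t θ = exp (-(2 * a t θ)) *
    ((cos t * sin θ + sin t * sin θ * dt P t θ) * exp (P t θ)) / 2 := by
    rw [← Geh_xt hP ht hθ]; rfl
  have g122 : tb a P Q 1 2 2 t θ = -(exp (-(2 * a t θ)) *
    ((sin t * cos θ + sin t * sin θ * dh P t θ) * exp (P t θ))) / 2 := by
    rw [← Geh_xh hP ht hθ]; rfl
  have g023 : tb a P Q 0 2 3 t θ = exp (-(2 * a t θ)) *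
    ((cos t * sin θ + sin t * sin θ * dt P t θ) * exp (P t θ) * Q t θ
      + sin t * sin θ * exp (P t θ) * dt Q t θ) / 2 := by
    rw [← Geh_yt hP hQ ht hθ]; rfl
  have g123 : tb a P Q 1 2 3 t θ = -(exp (-(2 * a t θ)) *
    ((sin t * cos θ + sin t * sin θ * dh P t θ) * exp (P t θ) * Q t θ
      + sin t * sin θ * exp (P t θ) * dh Q t θ)) / 2 := by
    rw [← Geh_yh hP hQ ht hθ]; rfl
  have g032 : tb a P Q 0 3 2 t θ = tb a P Q 0 2 3 t θ := rfl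
  have g132 : tb a P Q 1 3 2 t θ = tb a P Q 1 2 3 t θ := rfl
  have g222 : tb a P Q 2 2 2 t θ = 0 := rfl
  have g322 : tb a P Q 3 2 2 t θ = 0 := rfl
  have g000 : tb a P Q 0 0 0 t θ = dt a t θ := rfl
  have g001 : tb a P Q 0 0 1 t θ = dh a t θ := rfl
  have g110 : tb a P Q 1 1 0 t θ = dt a t θ := rfl
  have g111 : tb a P Q 1 1 1 t θ = dh a t θ := rfl
  have g220 : tb a P Q 2 2 0 t θ =
    (cos t / sin t + dt P t θ - exp (2 * P t θ) * Q t θ * dt Q t θ) / 2 := rfl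
  have g221 : tb a P Q 2 2 1 t θ =
    (cos θ / sin θ + dh P t θ - exp (2 * P t θ) * Q t θ * dh Q t θ) / 2 := rfl
  have g202 : tb a P Q 2 0 2 t θ = tb a P Q 2 2 0 t θ := rfl
  have g212 : tb a P Q 2 1 2 t θ = tb a P Q 2 2 1 t θ := rfl
  have g330 : tb a P Q 3 3 0 t θ =
    (cos t / sin t - dt P t θ + exp (2 * P t θ) * Q t θ * dt Q t θ) / 2 := rfl
  have g331 : tb a P Q 3 3 1 t θ =
    (cos θ / sin θ - dh P t θ + exp (2 * P t θ) * Q t θ * dh Q t θ) / 2 := rfl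
  have g320 : tb a P Q 3 2 0 t θ = exp (2 * P t θ) * dt Q t θ / 2 := rfl
  have g321 : tb a P Q 3 2 1 t θ = exp (2 * P t θ) * dh Q t θ / 2 := rfl
  have g302 : tb a P Q 3 0 2 t θ = tb a P Q 3 2 0 t θ := rfl
  have g312 : tb a P Q 3 1 2 t θ = tb a P Q 3 2 1 t θ := rfl
  have z002 : tb a P Q 0 0 2 t θ = 0 := rfl
  have z003 : tb a P Q 0 0 3 t θ = 0 := rfl
  have z112 : tb a P Q 1 1 2 t θ = 0 := rfl
  have z113 : tb a P Q 1 1 3 t θ = 0 := rfl
  have z223 : tb a P Q 2 2 3 t θ = 0 := rfl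
  have z332 : tb a P Q 3 3 2 t θ = 0 := rfl
  have z333 : tb a P Q 3 3 3 t θ = 0 := rfl
  have z020 : tb a P Q 0 2 0 t θ = 0 := rfl
  have z021 : tb a P Q 0 2 1 t θ = 0 := rfl
  have z120 : tb a P Q 1 2 0 t θ = 0 := rfl
  have z121 : tb a P Q 1 2 1 t θ = 0 := rfl
  have z323 : tb a P Q 3 2 3 t θ = 0 := rfl
  have z232 : tb a P Q 2 3 2 t θ = 0 := rfl
  have z012 : tb a P Q 0 1 2 t θ = 0 := rfl
  have z102 : tb a P Q 1 0 2 t θ = 0 := rfl
  simp only [g022, g122, g023, g123, g032, g132, g222, g322, g000, g001, g110, g111, g220, g221, g202, g212,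
    g330, g331, g320, g321, g302, g312, z002, z003, z112, z113, z223, z332, z333, z020, z021, z120, z121,
    z323, z232, z012, z102]
  have hE : exp (2 * P t θ) = exp (P t θ) ^ 2 := by rw [two_mul, exp_add]; ring
  rw [hE]
  field_simp
  ring

end GS
end

section

open Real Set
open scoped ContDiff Matrix

namespace GS

private theorem Gei_xx_t {P : ℝ → ℝ → ℝ} (hP : Sm (Ioo 0 π) P) {t θ : ℝ} (ht : t ∈ Ioo 0 π)
    (hθ : θ ∈ Ioo 0 π) : dt (hxx P) t θ = exp (P t θ) * sin θ * (cos t + sin t * dt P t θ) := by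
  have h1 := hP.c1.hasDt isOpen_Ioo ht hθ
  have h2 := ((hasDerivAt_sin t).mul_const (sin θ)).mul h1.exp
  exact (h2.congr_deriv (by ring)).deriv

private theorem Gei_xx_h {P : ℝ → ℝ → ℝ} (hP : Sm (Ioo 0 π) P) {t θ : ℝ} (ht : t ∈ Ioo 0 π)
    (hθ : θ ∈ Ioo 0 π) : dh (hxx P) t θ = exp (P t θ) * sin t * (cos θ + sin θ * dh P t θ) := by
  have h1 := hP.c1.hasDh isOpen_Ioo ht hθ
  have h2 := ((hasDerivAt_sin θ).const_mul (sin t)).mul h1.exp
  exact (h2.congr_deriv (by ring)).deriv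

private theorem Gei_xy_t {P Q : ℝ → ℝ → ℝ} (hP : Sm (Ioo 0 π) P) (hQ : Sm (Ioo 0 π) Q) {t θ : ℝ}
    (ht : t ∈ Ioo 0 π) (hθ : θ ∈ Ioo 0 π) : dt (hxy P Q) t θ =
      exp (P t θ) * sin θ * (cos t * Q t θ + sin t * (dt P t θ * Q t θ + dt Q t θ)) := by
  have h1 := hP.c1.hasDt isOpen_Ioo ht hθ
  have h3 := hQ.c1.hasDt isOpen_Ioo ht hθ
  have h2 := (((hasDerivAt_sin t).mul_const (sin θ)).mul h1.exp).mul h3
  refine (h2.congr_deriv ?_).deriv
  simp only [Pi.mul_apply]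
  ring

private theorem Gei_xy_h {P Q : ℝ → ℝ → ℝ} (hP : Sm (Ioo 0 π) P) (hQ : Sm (Ioo 0 π) Q) {t θ : ℝ}
    (ht : t ∈ Ioo 0 π) (hθ : θ ∈ Ioo 0 π) : dh (hxy P Q) t θ =
      exp (P t θ) * sin t * (cos θ * Q t θ + sin θ * (dh P t θ * Q t θ + dh Q t θ)) := by
  have h1 := hP.c1.hasDh isOpen_Ioo ht hθ
  have h3 := hQ.c1.hasDh isOpen_Ioo ht hθ
  have h2 := (((hasDerivAt_sin θ).const_mul (sin t)).mul h1.exp).mul h3
  refine (h2.congr_deriv ?_).deriv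
  simp only [Pi.mul_apply]
  ring

private theorem Gei_yy_t {P Q : ℝ → ℝ → ℝ} (hP : Sm (Ioo 0 π) P) (hQ : Sm (Ioo 0 π) Q) {t θ : ℝ}
    (ht : t ∈ Ioo 0 π) (hθ : θ ∈ Ioo 0 π) : dt (hyy P Q) t θ =
      exp (P t θ) * sin θ * (cos t * Q t θ ^ 2 + sin t * (dt P t θ * Q t θ ^ 2 +
        2 * Q t θ * dt Q t θ)) + exp (-P t θ) * sin θ * (cos t - sin t * dt P t θ) := by
  have h1 := hP.c1.hasDt isOpen_Ioo ht hθ
  have h3 := hQ.c1.hasDt isOpen_Ioo ht hθ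
  have h2 := ((((hasDerivAt_sin t).mul_const (sin θ)).mul h1.exp).mul (h3.pow 2)).add
    (((hasDerivAt_sin t).mul_const (sin θ)).mul h1.neg.exp)
  refine (h2.congr_deriv ?_).deriv
  simp only [Pi.mul_apply, Pi.pow_apply, Pi.neg_apply]
  push_cast
  ring

private theorem Gei_yy_h {P Q : ℝ → ℝ → ℝ} (hP : Sm (Ioo 0 π) P) (hQ : Sm (Ioo 0 π) Q) {t θ : ℝ}
    (ht : t ∈ Ioo 0 π) (hθ : θ ∈ Ioo 0 π) : dh (hyy P Q) t θ =
      exp (P t θ) * sin t * (cos θ * Q t θ ^ 2 + sin θ * (dh P t θ * Q t θ ^ 2 +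
        2 * Q t θ * dh Q t θ)) + exp (-P t θ) * sin t * (cos θ - sin θ * dh P t θ) := by
  have h1 := hP.c1.hasDh isOpen_Ioo ht hθ
  have h3 := hQ.c1.hasDh isOpen_Ioo ht hθ
  have h2 := ((((hasDerivAt_sin θ).const_mul (sin t)).mul h1.exp).mul (h3.pow 2)).add
    (((hasDerivAt_sin θ).const_mul (sin t)).mul h1.neg.exp)
  refine (h2.congr_deriv ?_).deriv
  simp only [Pi.mul_apply, Pi.pow_apply, Pi.neg_apply]
  push_cast
  ring

private theorem Gei_t2 {a P Q : ℝ → ℝ → ℝ} (ha : Sm (Ioo 0 π) a) (hP : Sm (Ioo 0 π) P)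
    (hQ : Sm (Ioo 0 π) Q) {t θ : ℝ} (ht : t ∈ Ioo 0 π) (hθ : θ ∈ Ioo 0 π) :
    dt (fun t θ => exp (-(2 * a t θ)) * dt (hxy P Q) t θ / 2) t θ =
      exp (-(2 * a t θ)) * exp (P t θ) * sin θ / 2 *
        ((dt P t θ - 2 * dt a t θ) * (cos t * Q t θ + sin t * (dt P t θ * Q t θ + dt Q t θ)) +
          (-sin t * Q t θ + 2 * cos t * dt Q t θ + cos t * (dt P t θ * Q t θ) +
            sin t * (dt (dt P) t θ * Q t θ + dt P t θ * dt Q t θ + dt (dt Q) t θ))) := by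
  have h1 := hP.c1.hasDt isOpen_Ioo ht hθ
  have h2 := (hP.dt isOpen_Ioo).c1.hasDt isOpen_Ioo ht hθ
  have h3 := hQ.c1.hasDt isOpen_Ioo ht hθ
  have h4 := (hQ.dt isOpen_Ioo).c1.hasDt isOpen_Ioo ht hθ
  have h5 := ha.c1.hasDt isOpen_Ioo ht hθ
  have h6 : HasDerivAt (fun s => exp (-(2 * a s θ)) * (exp (P s θ) * sin θ *
      (cos s * Q s θ + sin s * (dt P s θ * Q s θ + dt Q s θ))) / 2)
      (exp (-(2 * a t θ)) * exp (P t θ) * sin θ / 2 *
        ((dt P t θ - 2 * dt a t θ) * (cos t * Q t θ + sin t * (dt P t θ * Q t θ + dt Q t θ)) +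
          (-sin t * Q t θ + 2 * cos t * dt Q t θ + cos t * (dt P t θ * Q t θ) +
            sin t * (dt (dt P) t θ * Q t θ + dt P t θ * dt Q t θ + dt (dt Q) t θ)))) t := by
    have h7 := (((h5.const_mul 2).neg.exp).mul ((h1.exp.mul_const (sin θ)).mul
      (((hasDerivAt_cos t).mul h3).add ((hasDerivAt_sin t).mul ((h2.mul h3).add h4))))).div_const 2
    refine h7.congr_deriv ?_
    simp only [Pi.mul_apply, Pi.add_apply, Pi.neg_apply]
    ring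
  have h8 : (fun s => exp (-(2 * a s θ)) * dt (hxy P Q) s θ / 2) =ᶠ[nhds t]
      (fun s => exp (-(2 * a s θ)) * (exp (P s θ) * sin θ *
      (cos s * Q s θ + sin s * (dt P s θ * Q s θ + dt Q s θ))) / 2) := by
    filter_upwards [isOpen_Ioo.mem_nhds ht] with s hs
    rw [Gei_xy_t hP hQ hs hθ]
  show deriv (fun s => exp (-(2 * a s θ)) * dt (hxy P Q) s θ / 2) t = _
  rw [h8.deriv_eq]
  exact h6.deriv

private theorem Gei_h2 {a P Q : ℝ → ℝ → ℝ} (ha : Sm (Ioo 0 π) a) (hP : Sm (Ioo 0 π) P)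
    (hQ : Sm (Ioo 0 π) Q) {t θ : ℝ} (ht : t ∈ Ioo 0 π) (hθ : θ ∈ Ioo 0 π) :
    dh (fun t θ => -(exp (-(2 * a t θ)) * dh (hxy P Q) t θ) / 2) t θ =
      -(exp (-(2 * a t θ)) * exp (P t θ) * sin t / 2 *
        ((dh P t θ - 2 * dh a t θ) * (cos θ * Q t θ + sin θ * (dh P t θ * Q t θ + dh Q t θ)) +
          (-sin θ * Q t θ + 2 * cos θ * dh Q t θ + cos θ * (dh P t θ * Q t θ) +
            sin θ * (dh (dh P) t θ * Q t θ + dh P t θ * dh Q t θ + dh (dh Q) t θ)))) := by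
  have h1 := hP.c1.hasDh isOpen_Ioo ht hθ
  have h2 := (hP.dh isOpen_Ioo).c1.hasDh isOpen_Ioo ht hθ
  have h3 := hQ.c1.hasDh isOpen_Ioo ht hθ
  have h4 := (hQ.dh isOpen_Ioo).c1.hasDh isOpen_Ioo ht hθ
  have h5 := ha.c1.hasDh isOpen_Ioo ht hθ
  have h6 : HasDerivAt (fun s => -(exp (-(2 * a t s)) * (exp (P t s) * sin t *
      (cos s * Q t s + sin s * (dh P t s * Q t s + dh Q t s)))) / 2)
      (-(exp (-(2 * a t θ)) * exp (P t θ) * sin t / 2 *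
        ((dh P t θ - 2 * dh a t θ) * (cos θ * Q t θ + sin θ * (dh P t θ * Q t θ + dh Q t θ)) +
          (-sin θ * Q t θ + 2 * cos θ * dh Q t θ + cos θ * (dh P t θ * Q t θ) +
            sin θ * (dh (dh P) t θ * Q t θ + dh P t θ * dh Q t θ + dh (dh Q) t θ))))) θ := by
    have h7 := ((((h5.const_mul 2).neg.exp).mul ((h1.exp.mul_const (sin t)).mul
      (((hasDerivAt_cos θ).mul h3).add ((hasDerivAt_sin θ).mul
        ((h2.mul h3).add h4))))).neg).div_const 2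
    refine h7.congr_deriv ?_
    simp only [Pi.mul_apply, Pi.add_apply, Pi.neg_apply]
    ring
  have h8 : (fun s => -(exp (-(2 * a t s)) * dh (hxy P Q) t s) / 2) =ᶠ[nhds θ]
      (fun s => -(exp (-(2 * a t s)) * (exp (P t s) * sin t *
      (cos s * Q t s + sin s * (dh P t s * Q t s + dh Q t s)))) / 2) := by
    filter_upwards [isOpen_Ioo.mem_nhds hθ] with s hs
    rw [Gei_xy_h hP hQ ht hs]
  show deriv (fun s => -(exp (-(2 * a t s)) * dh (hxy P Q) t s) / 2) θ = _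
  rw [h8.deriv_eq]
  exact h6.deriv

/-- TASK Gei. `R_{23} = Q R_{22} + (1/2) e^{-2a} R e^P (Q_tt - Q_θθ + cot t Q_t - cot θ Q_θ + 2(P_t Q_t - P_θ Q_θ))`
with `R_{22}` written out (checked numerically). Use `ric_tb`, `Fin.sum_univ_four`, unfold `tb`, `Dd`;
second derivatives of `hxy P Q = sin t sin θ e^P Q`; finally `field_simp; ring`. -/
theorem ric_23 {a P Q : ℝ → ℝ → ℝ} (ha : Sm (Ioo 0 π) a) (hP : Sm (Ioo 0 π) P)
    (hQ : Sm (Ioo 0 π) Q) {t θ : ℝ} (ht : t ∈ Ioo 0 π) (hθ : θ ∈ Ioo 0 π) {p : Pt}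
    (h0 : p 0 = t) (h1 : p 1 = θ) :
    ric (mPQ a P Q) 2 3 p = exp (-(2 * a t θ)) / 2 * (sin t * sin θ) * exp (P t θ) *
      (Q t θ * (dt (dt P) t θ - dh (dh P) t θ + (cos t / sin t) * dt P t θ
          - (cos θ / sin θ) * dh P t θ - exp (2 * P t θ) * (dt Q t θ ^ 2 - dh Q t θ ^ 2))
        + (dt (dt Q) t θ - dh (dh Q) t θ + (cos t / sin t) * dt Q t θ - (cos θ / sin θ) * dh Q t θ
          + 2 * (dt P t θ * dt Q t θ - dh P t θ * dh Q t θ))) := by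
  have hp : p ∈ chart := by
    constructor
    · rw [h0]; exact ht
    · rw [h1]; exact hθ
  rw [ric_tb ha hP hQ hp, h0, h1]
  have D0 : ∀ f : ℝ → ℝ → ℝ, Dd 0 f t θ = dt f t θ := fun f => rfl
  have D1 : ∀ f : ℝ → ℝ → ℝ, Dd 1 f t θ = dh f t θ := fun f => rfl
  have D2 : ∀ f : ℝ → ℝ → ℝ, Dd 2 f t θ = 0 := fun f => rfl
  have D3 : ∀ f : ℝ → ℝ → ℝ, Dd 3 f t θ = 0 := fun f => rfl
  have F0 : dt (tb a P Q 0 2 3) t θ = _ := Gei_t2 ha hP hQ ht hθ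
  have F1 : dh (tb a P Q 1 2 3) t θ = _ := Gei_h2 ha hP hQ ht hθ
  have T000 : tb a P Q 0 0 0 t θ = dt a t θ := rfl
  have T001 : tb a P Q 0 0 1 t θ = dh a t θ := rfl
  have T002 : tb a P Q 0 0 2 t θ = 0 := rfl
  have T003 : tb a P Q 0 0 3 t θ = 0 := rfl
  have T013 : tb a P Q 0 1 3 t θ = 0 := rfl
  have T020 : tb a P Q 0 2 0 t θ = 0 := rfl
  have T021 : tb a P Q 0 2 1 t θ = 0 := rfl
  have T022 : tb a P Q 0 2 2 t θ = exp (-(2 * a t θ)) * dt (hxx P) t θ / 2 := rfl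
  have T023 : tb a P Q 0 2 3 t θ = exp (-(2 * a t θ)) * dt (hxy P Q) t θ / 2 := rfl
  have T033 : tb a P Q 0 3 3 t θ = exp (-(2 * a t θ)) * dt (hyy P Q) t θ / 2 := rfl
  have T103 : tb a P Q 1 0 3 t θ = 0 := rfl
  have T110 : tb a P Q 1 1 0 t θ = dt a t θ := rfl
  have T111 : tb a P Q 1 1 1 t θ = dh a t θ := rfl
  have T112 : tb a P Q 1 1 2 t θ = 0 := rfl
  have T113 : tb a P Q 1 1 3 t θ = 0 := rfl
  have T120 : tb a P Q 1 2 0 t θ = 0 := rfl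
  have T121 : tb a P Q 1 2 1 t θ = 0 := rfl
  have T122 : tb a P Q 1 2 2 t θ = -(exp (-(2 * a t θ)) * dh (hxx P) t θ) / 2 := rfl
  have T123 : tb a P Q 1 2 3 t θ = -(exp (-(2 * a t θ)) * dh (hxy P Q) t θ) / 2 := rfl
  have T133 : tb a P Q 1 3 3 t θ = -(exp (-(2 * a t θ)) * dh (hyy P Q) t θ) / 2 := rfl
  have T203 : tb a P Q 2 0 3 t θ = (2 * dt P t θ * Q t θ + dt Q t θ - exp (2 * P t θ) * Q t θ ^ 2 * dt Q t θ) / 2 := rfl
  have T213 : tb a P Q 2 1 3 t θ = (2 * dh P t θ * Q t θ + dh Q t θ - exp (2 * P t θ) * Q t θ ^ 2 * dh Q t θ) / 2 := rfl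
  have T220 : tb a P Q 2 2 0 t θ = (cos t / sin t + dt P t θ - exp (2 * P t θ) * Q t θ * dt Q t θ) / 2 := rfl
  have T221 : tb a P Q 2 2 1 t θ = (cos θ / sin θ + dh P t θ - exp (2 * P t θ) * Q t θ * dh Q t θ) / 2 := rfl
  have T222 : tb a P Q 2 2 2 t θ = 0 := rfl
  have T223 : tb a P Q 2 2 3 t θ = 0 := rfl
  have T233 : tb a P Q 2 3 3 t θ = 0 := rfl
  have T303 : tb a P Q 3 0 3 t θ = (cos t / sin t - dt P t θ + exp (2 * P t θ) * Q t θ * dt Q t θ) / 2 := rfl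
  have T313 : tb a P Q 3 1 3 t θ = (cos θ / sin θ - dh P t θ + exp (2 * P t θ) * Q t θ * dh Q t θ) / 2 := rfl
  have T320 : tb a P Q 3 2 0 t θ = exp (2 * P t θ) * dt Q t θ / 2 := rfl
  have T321 : tb a P Q 3 2 1 t θ = exp (2 * P t θ) * dh Q t θ / 2 := rfl
  have T322 : tb a P Q 3 2 2 t θ = 0 := rfl
  have T323 : tb a P Q 3 2 3 t θ = 0 := rfl
  have T330 : tb a P Q 3 3 0 t θ = (cos t / sin t - dt P t θ + exp (2 * P t θ) * Q t θ * dt Q t θ) / 2 := rfl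
  have T331 : tb a P Q 3 3 1 t θ = (cos θ / sin θ - dh P t θ + exp (2 * P t θ) * Q t θ * dh Q t θ) / 2 := rfl
  have T332 : tb a P Q 3 3 2 t θ = 0 := rfl
  have T333 : tb a P Q 3 3 3 t θ = 0 := rfl
  simp only [Fin.sum_univ_four, D0, D1, D2, D3, F0, F1]
  simp only [T000, T001, T002, T003, T013, T020, T021, T022, T023, T033, T103, T110, T111, T112, T113, T120, T121, T122, T123, T133, T203, T213, T220, T221, T222, T223, T233, T303, T313, T320, T321, T322, T323, T330, T331, T332, T333]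
  rw [Gei_xx_t hP ht hθ, Gei_xx_h hP ht hθ, Gei_xy_t hP hQ ht hθ, Gei_xy_h hP hQ ht hθ,
    Gei_yy_t hP hQ ht hθ, Gei_yy_h hP hQ ht hθ]
  have hs : sin t ≠ 0 := (sin_pos_of_pos_of_lt_pi ht.1 ht.2).ne'
  have hS : sin θ ≠ 0 := (sin_pos_of_pos_of_lt_pi hθ.1 hθ.2).ne'
  have hE : exp (2 * P t θ) = exp (P t θ) ^ 2 := by
    rw [← exp_nat_mul]
    norm_num
  have hE' : exp (-P t θ) = (exp (P t θ))⁻¹ := exp_neg _
  rw [hE, hE']
  have hE0 : exp (P t θ) ≠ 0 := exp_ne_zero _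
  generalize exp (-(2 * a t θ)) = e
  generalize exp (P t θ) = E at *
  field_simp
  ring

end GS
end

section

open Real Set
open scoped ContDiff Matrix

namespace GS

private theorem Gem_chr_congr {g g' : Ten} (h : ∀ p ∈ chart, g p = g' p) {p : Pt} (hp : p ∈ chart)
    (i j k : Fin 4) : chr g i j k p = chr g' i j k p := by
  unfold chr
  rw [h p hp]
  congr 1
  refine Finset.sum_congr rfl fun l _ => ?_
  rw [pd_congr (i := j) (f := fun q => g q l k) (g := fun q => g' q l k) hp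
      (fun q hq => by rw [h q hq]),
    pd_congr (i := k) (f := fun q => g q l j) (g := fun q => g' q l j) hp
      (fun q hq => by rw [h q hq]),
    pd_congr (i := l) (f := fun q => g q j k) (g := fun q => g' q j k) hp
      (fun q hq => by rw [h q hq])]

/-- The geometric quantities only depend on the metric and the field on the open chart. -/
theorem ric_congr {g g' : Ten} (h : ∀ p ∈ chart, g p = g' p) {p : Pt} (hp : p ∈ chart)
    (j k : Fin 4) : ric g j k p = ric g' j k p := by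
  unfold ric
  congr 1
  · refine Finset.sum_congr rfl fun i _ => ?_
    rw [pd_congr (i := i) hp (fun q hq => Gem_chr_congr h hq i j k),
      pd_congr (i := j) hp (fun q hq => Gem_chr_congr h hq i i k)]
  · refine Finset.sum_congr rfl fun i _ => Finset.sum_congr rfl fun l _ => ?_
    rw [Gem_chr_congr h hp, Gem_chr_congr h hp, Gem_chr_congr h hp, Gem_chr_congr h hp]

private theorem Gem_up_congr {g g' F F' : Ten} {p : Pt} (hg : g p = g' p) (hF : F p = F' p)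
    (a b : Fin 4) : up g F a b p = up g' F' a b p := by
  unfold up
  rw [hg, hF]

private theorem Gem_stress_congr {g g' F F' : Ten} {p : Pt} (hg : g p = g' p) (hF : F p = F' p)
    (a b : Fin 4) : stress g F a b p = stress g' F' a b p := by
  unfold stress
  simp only [Gem_up_congr hg hF]
  rw [hg, hF]

theorem EinsteinMaxwell.congr {g g' F F' : Ten} (h : EinsteinMaxwell g F chart)
    (hg : ∀ p ∈ chart, g p = g' p) (hF : ∀ p ∈ chart, F p = F' p) :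
    EinsteinMaxwell g' F' chart := by
  refine ⟨fun p hp a b => ?_, fun p hp a b c => ?_, fun p hp b => ?_⟩
  · have h1 := h.einstein p hp a b
    have h2 : scal g p = scal g' p := by
      unfold scal
      rw [hg p hp]
      refine Finset.sum_congr rfl fun j _ => Finset.sum_congr rfl fun k _ => ?_
      rw [ric_congr hg hp]
    rw [← ric_congr hg hp, ← h2, ← hg p hp, ← Gem_stress_congr (hg p hp) (hF p hp)]
    exact h1
  · have h1 := h.closed p hp a b c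
    rw [pd_congr (i := a) (f := fun q => F q b c) (g := fun q => F' q b c) hp
        (fun q hq => by rw [hF q hq]),
      pd_congr (i := b) (f := fun q => F q c a) (g := fun q => F' q c a) hp
        (fun q hq => by rw [hF q hq]),
      pd_congr (i := c) (f := fun q => F q a b) (g := fun q => F' q a b) hp
        (fun q hq => by rw [hF q hq])] at h1
    exact h1
  · rw [← h.coclosed p hp b]
    refine Finset.sum_congr rfl fun a _ => ?_
    refine (pd_congr (i := a) hp fun q hq => ?_).symm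
    rw [hg q hq, Gem_up_congr (hg q hq) (hF q hq)]

private theorem Gem_symm (a P Q : ℝ → ℝ → ℝ) (p : Pt) : (mPQ a P Q p).IsSymm := by
  refine Matrix.IsSymm.ext fun i j => ?_
  fin_cases i <;> fin_cases j <;> rfl

private theorem Gem_det (a P Q : ℝ → ℝ → ℝ) {p : Pt} (hp : p ∈ chart) : (mPQ a P Q p).det ≠ 0 := by
  rw [mPQ_det]
  have h0 := sin_pos_of_pos_of_lt_pi hp.1.1 hp.1.2
  have h1 := sin_pos_of_pos_of_lt_pi hp.2.1 hp.2.2
  have h2 := mul_pos (exp_pos (2 * a (p 0) (p 1))) (mul_pos h0 h1)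
  exact neg_ne_zero.2 (pow_ne_zero 2 h2.ne')

private theorem Gem_algP (st sh ct ch e eP eM e2P Ptt Phh Pt Ph Qt Qh xt xh Dt Dh : ℝ) (hst : st ≠ 0)
    (hsh : sh ≠ 0) (he : e ≠ 0) (h1 : eP * eM = 1) (h2 : e2P = eP ^ 2)
    (H : e / 2 * (st * sh) * eP * (Ptt - Phh + (ct / st) * Pt - (ch / sh) * Ph
      - e2P * (Qt ^ 2 - Qh ^ 2)) = e * ((-xt ^ 2 + xh ^ 2) - e2P * (-Dt ^ 2 + Dh ^ 2))) :
    st * sh * (Ptt - Phh) + ct * sh * Pt - st * ch * Ph =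
      st * sh * e2P * (Qt ^ 2 - Qh ^ 2) + 2 * (eM * (xh ^ 2 - xt ^ 2) + eP * (Dt ^ 2 - Dh ^ 2)) := by
  have H' : 1 / 2 * (st * sh) * eP * (Ptt - Phh + (ct / st) * Pt - (ch / sh) * Ph
      - e2P * (Qt ^ 2 - Qh ^ 2)) = ((-xt ^ 2 + xh ^ 2) - e2P * (-Dt ^ 2 + Dh ^ 2)) := by
    apply mul_left_cancel₀ he
    rw [← H]
    ring
  obtain ⟨c, hc⟩ : ∃ c, c = ct / st := ⟨_, rfl⟩
  obtain ⟨d, hd⟩ : ∃ d, d = ch / sh := ⟨_, rfl⟩
  have hc' : c * st = ct := by rw [hc, div_mul_cancel₀ _ hst]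
  have hd' : d * sh = ch := by rw [hd, div_mul_cancel₀ _ hsh]
  rw [← hc, ← hd] at H'
  linear_combination (2 * eM) * H' - (st * sh * (Ptt - Phh + c * Pt - d * Ph
    - e2P * (Qt ^ 2 - Qh ^ 2))) * h1 - sh * Pt * hc' + st * Ph * hd'
    + 2 * (Dt ^ 2 - Dh ^ 2) * (eM * h2 + eP * h1)

private theorem Gem_algQ (st sh ct ch e eP eM W Y Qtt Qhh Qt Qh K q xt xh Dt Dh : ℝ) (hst : st ≠ 0)
    (hsh : sh ≠ 0) (he : e ≠ 0) (h1 : eP * eM = 1)
    (H : e / 2 * (st * sh) * eP * W = e * Y)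
    (H2 : e / 2 * (st * sh) * eP * (q * W + (Qtt - Qhh + (ct / st) * Qt - (ch / sh) * Qh + 2 * K)) =
      e * (q * Y + 2 * (-(xt * Dt) + xh * Dh))) :
    st * sh * (Qtt - Qhh) + ct * sh * Qt - st * ch * Qh + 2 * (st * sh) * K =
      4 * eM * (xh * Dh - xt * Dt) := by
  have H' : 1 / 2 * (st * sh) * eP * (Qtt - Qhh + (ct / st) * Qt - (ch / sh) * Qh + 2 * K) =
      2 * (-(xt * Dt) + xh * Dh) := by
    apply mul_left_cancel₀ he
    linear_combination H2 - q * H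
  obtain ⟨c, hc⟩ : ∃ c, c = ct / st := ⟨_, rfl⟩
  obtain ⟨d, hd⟩ : ∃ d, d = ch / sh := ⟨_, rfl⟩
  have hc' : c * st = ct := by rw [hc, div_mul_cancel₀ _ hst]
  have hd' : d * sh = ch := by rw [hd, div_mul_cancel₀ _ hsh]
  rw [← hc, ← hd] at H'
  linear_combination (2 * eM) * H' - (st * sh * (Qtt - Qhh + c * Qt - d * Qh + 2 * K)) * h1
    - sh * Qt * hc' + st * Qh * hd'

private theorem Gem_algU (st sh ct ch E00 E01 E11 at' ah Pt Ph Qt Qh e2P eM eP xt xh Dt Dh ahh : ℝ)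
    (hst : st ≠ 0) (hsh : sh ≠ 0)
    (h00 : 1 + (ct / st) ^ 2 / 2 - (Pt ^ 2 + e2P * Qt ^ 2) / 2
         + (at' * (ct / st) + ah * (ch / sh)) + ahh = (1 / (st * sh)) * E00)
    (h11 : 1 + (ch / sh) ^ 2 / 2 - (Ph ^ 2 + e2P * Qh ^ 2) / 2
         + (at' * (ct / st) + ah * (ch / sh)) - ahh = (1 / (st * sh)) * E11)
    (h01 : -(ct / st) * (ch / sh) / 2 - (Pt * Ph + e2P * (Qt * Qh)) / 2
         + (at' * (ch / sh) + ah * (ct / st)) = (2 / (st * sh)) * E01)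
    (e00 : E00 = eM * (xt ^ 2 + xh ^ 2) + eP * (Dt ^ 2 + Dh ^ 2))
    (e11 : E11 = eM * (xt ^ 2 + xh ^ 2) + eP * (Dt ^ 2 + Dh ^ 2))
    (e01 : E01 = eM * (xt * xh) + eP * (Dt * Dh)) :
    ((at' - ah) * (st * ch - ct * sh) = (ct * ch + st * sh)
      + (st * ch - ct * sh) ^ 2 / (4 * (st * sh)) - (st * sh / 4 * ((Pt - Ph) ^ 2 + e2P * (Qt - Qh) ^ 2)
        + eM * (xt - xh) ^ 2 + eP * (Dt - Dh) ^ 2)) ∧
    ((at' + ah) * (st * ch + ct * sh) = (ct * ch - st * sh)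
      - (st * ch + ct * sh) ^ 2 / (4 * (st * sh)) + (st * sh / 4 * ((Pt + Ph) ^ 2 + e2P * (Qt + Qh) ^ 2)
        + eM * (xt + xh) ^ 2 + eP * (Dt + Dh) ^ 2)) := by
  have g00 : (st * sh) * (1 + (ct / st) ^ 2 / 2 - (Pt ^ 2 + e2P * Qt ^ 2) / 2
         + (at' * (ct / st) + ah * (ch / sh)) + ahh) = E00 := by
    rw [h00]
    field_simp
  have g11 : (st * sh) * (1 + (ch / sh) ^ 2 / 2 - (Ph ^ 2 + e2P * Qh ^ 2) / 2
         + (at' * (ct / st) + ah * (ch / sh)) - ahh) = E11 := by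
    rw [h11]
    field_simp
  have g01 : (st * sh) * (-(ct / st) * (ch / sh) / 2 - (Pt * Ph + e2P * (Qt * Qh)) / 2
         + (at' * (ch / sh) + ah * (ct / st))) = 2 * E01 := by
    rw [h01]
    field_simp
  have k1 : st * sh * (1 + (ct / st + ch / sh) ^ 2 / 4) =
      (ct * ch + st * sh) + (st * ch - ct * sh) ^ 2 / (4 * (st * sh)) := by
    field_simp
    ring
  have k2 : st * sh * (ct / st - ch / sh) = ct * sh - st * ch := by
    field_simp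
  have k3 : st * sh * (1 + (ct / st - ch / sh) ^ 2 / 4) =
      -(ct * ch - st * sh) + (st * ch + ct * sh) ^ 2 / (4 * (st * sh)) := by
    field_simp
    ring
  have k4 : st * sh * (ct / st + ch / sh) = ct * sh + st * ch := by
    field_simp
  generalize ct / st = c at *
  generalize ch / sh = d at *
  generalize (st * ch - ct * sh) ^ 2 / (4 * (st * sh)) = S1 at *
  generalize (st * ch + ct * sh) ^ 2 / (4 * (st * sh)) = S2 at *
  subst e00 e11 e01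
  constructor
  · linear_combination -(1 / 2) * (g00 + g11 - 2 * g01) + k1 + (at' - ah) * k2
  · linear_combination (1 / 2) * (g00 + g11 + 2 * g01) - k3 - (at' + ah) * k4

/-- TASK Gem. The reduced equations hold for a solution.
Proof. By `met_eq`, `field_eq` and `EinsteinMaxwell.congr` the equations hold for
`mPQ G.as G.P G.Q`, `fxy G.x G.y`. By `ric_eq_stress` (symmetric, `mPQ_det ≠ 0`) `ric = 8π stress` on the
chart; take `p = ![t, θ, 0, 0]`. Multiply by `R`: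
 * `eP`: component 22: `(1/2) e^{-2a} R e^P wP = e^{-2a}((x_θ² - x_t²) - e^{2P}(D_θ² - D_t²))`.
 * `eQ`: component 23 minus `Q` times component 22.
 * `cu`: `R (R_00 - 2 R_01 + R_11) = R (S_00 - 2 S_01 + S_11)`, i.e.
   `R (2 + (cot t + cot θ)²/2 - (1/2)((P_t-P_θ)² + e^{2P}(Q_t-Q_θ)²) + 2 (a_t - a_θ)(cot t - cot θ)) =`
   `2 (e^{-P}(x_t-x_θ)² + e^P (D_t-D_θ)²)`, with `R (cot t - cot θ) = -sin (t - θ)`,
   `R (2 + (cot t + cot θ)²/2) = 2 cos (t - θ) + sin² (t - θ)/(2R)`. [Check: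
   `R (2 + (1/2)(cot t + cot θ)²) = R (2 + 2 cot t cot θ + (1/2)(cot t - cot θ)²)`.]
 * `cv`: `R (R_00 + 2 R_01 + R_11)`: `R (2 + (cot t - cot θ)²/2 + 2 (a_t + a_θ)(cot t + cot θ) - ...)`,
   `R (cot t + cot θ) = sin (t + θ)`,
   `R (2 + (1/2)(cot t - cot θ)²) = R (2 - 2 cot t cot θ + (1/2)(cot t + cot θ)²) =`
   `-2 cos (t + θ) + sin² (t + θ)/(2R)`.
 * `ey`, `ex`: `maxwell`. -/
theorem Gowdy.red (G : Gowdy) (h : EinsteinMaxwell G.met G.field chart) :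
    Red G.as G.P G.Q G.x G.y := by
  have h' : EinsteinMaxwell (mPQ G.as G.P G.Q) (fxy G.x G.y) chart :=
    h.congr (fun p hp => met_eq G hp) (fun p _ => field_eq G p)
  have hmono : ∀ {f : ℝ → ℝ → ℝ}, Sm univ f → Sm (Ioo 0 π) f := fun hf =>
    ContDiffOn.mono hf (Set.prod_mono_right (Set.subset_univ _))
  have sa : Sm (Ioo 0 π) G.as := hmono G.sas
  have sQ : Sm (Ioo 0 π) G.Q := hmono G.sQ
  have sx : Sm (Ioo 0 π) G.x := hmono G.sx
  have sy : Sm (Ioo 0 π) G.y := hmono G.sy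
  have hE : ∀ t ∈ Ioo 0 π, ∀ θ ∈ Ioo 0 π, ∀ a b, ric (mPQ G.as G.P G.Q) a b ![t, θ, 0, 0] =
      8 * π * stress (mPQ G.as G.P G.Q) (fxy G.x G.y) a b ![t, θ, 0, 0] := by
    intro t ht θ hθ a b
    have hp : (![t, θ, 0, 0] : Pt) ∈ chart := ⟨ht, hθ⟩
    exact ric_eq_stress h' hp (Gem_symm _ _ _ _) (Gem_det _ _ _ hp) a b
  have hcuv : ∀ t ∈ Ioo 0 π, ∀ θ ∈ Ioo 0 π,
      ((dt G.as t θ - dh G.as t θ) * sin (t - θ) =
        cos (t - θ) + sin (t - θ) ^ 2 / (4 * (sin t * sin θ)) - AA G.P G.Q G.x G.y t θ) ∧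
      ((dt G.as t θ + dh G.as t θ) * sin (t + θ) =
        cos (t + θ) - sin (t + θ) ^ 2 / (4 * (sin t * sin θ)) + BB G.P G.Q G.x G.y t θ) := by
    intro t ht θ hθ
    have hp : (![t, θ, 0, 0] : Pt) ∈ chart := ⟨ht, hθ⟩
    have hst := (sin_pos_of_pos_of_lt_pi ht.1 ht.2).ne'
    have hsh := (sin_pos_of_pos_of_lt_pi hθ.1 hθ.2).ne'
    have E00 := (ric_00 sa G.sP sQ ht hθ (p := ![t, θ, 0, 0]) rfl rfl).symm.trans
      ((hE t ht θ hθ 0 0).trans (stress_00 G.as G.P G.Q G.x G.y hp rfl rfl))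
    have E11 := (ric_11 sa G.sP sQ ht hθ (p := ![t, θ, 0, 0]) rfl rfl).symm.trans
      ((hE t ht θ hθ 1 1).trans (stress_11 G.as G.P G.Q G.x G.y hp rfl rfl))
    have E01 := (ric_01 sa G.sP sQ ht hθ (p := ![t, θ, 0, 0]) rfl rfl).symm.trans
      ((hE t ht θ hθ 0 1).trans (stress_01 G.as G.P G.Q G.x G.y hp rfl rfl))
    have hU := Gem_algU (sin t) (sin θ) (cos t) (cos θ) _ _ _ (dt G.as t θ) (dh G.as t θ)
      (dt G.P t θ) (dh G.P t θ) (dt G.Q t θ) (dh G.Q t θ) (exp (2 * G.P t θ)) (exp (-G.P t θ))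
      (exp (G.P t θ)) (dt G.x t θ) (dh G.x t θ) (Det G.Q G.x G.y t θ) (Deh G.Q G.x G.y t θ)
      (dh (dh G.as) t θ - dt (dt G.as) t θ) hst hsh E00 E11 E01 rfl rfl rfl
    constructor
    · rw [sin_sub, cos_sub]
      exact hU.1
    · rw [sin_add, cos_add]
      have h2 := hU.2
      unfold BB
      rw [h2]
  refine ⟨sa, G.sP, sQ, sx, sy, ?_, ?_, ?_, ?_, fun t ht θ hθ => (hcuv t ht θ hθ).1,
    fun t ht θ hθ => (hcuv t ht θ hθ).2⟩
  · intro t ht θ hθ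
    have hp : (![t, θ, 0, 0] : Pt) ∈ chart := ⟨ht, hθ⟩
    have hst := (sin_pos_of_pos_of_lt_pi ht.1 ht.2).ne'
    have hsh := (sin_pos_of_pos_of_lt_pi hθ.1 hθ.2).ne'
    have E22 := (ric_22 sa G.sP sQ ht hθ (p := ![t, θ, 0, 0]) rfl rfl).symm.trans
      ((hE t ht θ hθ 2 2).trans (stress_22 G.as G.P G.Q G.x G.y hp rfl rfl))
    exact Gem_algP (sin t) (sin θ) (cos t) (cos θ) (exp (-(2 * G.as t θ))) (exp (G.P t θ))
      (exp (-G.P t θ)) (exp (2 * G.P t θ)) _ _ _ _ _ _ _ _ (Det G.Q G.x G.y t θ)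
      (Deh G.Q G.x G.y t θ) hst hsh (exp_pos _).ne'
      (by rw [← exp_add, add_neg_cancel, exp_zero]) (by rw [← exp_nat_mul]; norm_num) E22
  · intro t ht θ hθ
    have hp : (![t, θ, 0, 0] : Pt) ∈ chart := ⟨ht, hθ⟩
    have hst := (sin_pos_of_pos_of_lt_pi ht.1 ht.2).ne'
    have hsh := (sin_pos_of_pos_of_lt_pi hθ.1 hθ.2).ne'
    have E22 := (ric_22 sa G.sP sQ ht hθ (p := ![t, θ, 0, 0]) rfl rfl).symm.trans
      ((hE t ht θ hθ 2 2).trans (stress_22 G.as G.P G.Q G.x G.y hp rfl rfl))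
    have E23 := (ric_23 sa G.sP sQ ht hθ (p := ![t, θ, 0, 0]) rfl rfl).symm.trans
      ((hE t ht θ hθ 2 3).trans (stress_23 G.as G.P G.Q G.x G.y hp rfl rfl))
    exact Gem_algQ (sin t) (sin θ) (cos t) (cos θ) (exp (-(2 * G.as t θ))) (exp (G.P t θ))
      (exp (-G.P t θ)) _ _ _ _ _ _ _ _ _ _ (Det G.Q G.x G.y t θ)
      (Deh G.Q G.x G.y t θ) hst hsh (exp_pos _).ne'
      (by rw [← exp_add, add_neg_cancel, exp_zero]) E22 E23
  · exact fun t ht θ hθ => (maxwell G.sP sQ sx sy h'.coclosed ht hθ).1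
  · exact fun t ht θ hθ => (maxwell G.sP sQ sx sy h'.coclosed ht hθ).2

end GS
end
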